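import Pool.Agent.Lib.MP_023270_nt.Growth

/-! Upper bound for the number of zeros. -/

open MeasureTheory Filter Topology Set Metric MeromorphicOn

namespace Pool.Agent.XiDeform

lemma divisor_eq_order {f : ℂ → ℂ} (hf : Differentiable ℂ f) {c : ℂ} {r : ℝ} {z : ℂ}
    (hz : z ∈ closedBall c r) : divisor f (closedBall c r) z = (analyticOrderNatAt f z : ℤ) := by
  have ha : AnalyticOnNhd ℂ f (closedBall c r) := fun x _ => hf.analyticAt x
  rw [ha.divisor_apply hz]
  unfold analyticOrderNatAt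
  induction analyticOrderAt f z using ENat.recTopCoe with
  | top => simp
  | coe n => simp

lemma sum_order_le_divisor {f : ℂ → ℂ} (hf : Differentiable ℂ f) {c : ℂ} {r : ℝ}
    (Z : Finset ℂ) (hZ : ∀ z ∈ Z, z ∈ closedBall c r) :
    (∑ z ∈ Z, (analyticOrderNatAt f z : ℤ)) ≤ ∑ᶠ u, divisor f (closedBall c r) u := by
  classical
  have ha : AnalyticOnNhd ℂ f (closedBall c r) := fun x _ => hf.analyticAt x
  have hfin : (divisor f (closedBall c r)).support.Finite :=
    (divisor f (closedBall c r)).finiteSupport (isCompact_closedBall c r)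
  rw [finsum_eq_sum_of_support_subset (s := hfin.toFinset ∪ Z) _ (by
    intro x hx; simp only [Finset.coe_union, Finite.coe_toFinset, mem_union]; left; exact hx)]
  calc (∑ z ∈ Z, (analyticOrderNatAt f z : ℤ)) = ∑ z ∈ Z, divisor f (closedBall c r) z :=
        Finset.sum_congr rfl fun z hz => (divisor_eq_order hf (hZ z hz)).symm
    _ ≤ _ := Finset.sum_le_sum_of_subset_of_nonneg Finset.subset_union_right
        fun x _ _ => ha.divisor_nonneg x

lemma zeros_finite {f : ℂ → ℂ} (hf : Differentiable ℂ f) (hne : ∃ z, f z ≠ 0) (c : ℂ) (r : ℝ) :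
    {z | z ∈ closedBall c r ∧ f z = 0}.Finite := by
  obtain ⟨z₀, hz₀⟩ := hne
  have ha : AnalyticOnNhd ℂ f univ := fun x _ => hf.analyticAt x
  have hfin : (divisor f (closedBall c r)).support.Finite :=
    (divisor f (closedBall c r)).finiteSupport (isCompact_closedBall c r)
  refine hfin.subset ?_
  rintro z ⟨hz, hfz⟩
  simp only [Function.mem_support]
  have e : divisor f (closedBall c r) z = (analyticOrderNatAt f z : ℤ) := divisor_eq_order hf hz
  rw [e]
  have hord : analyticOrderAt f z ≠ ⊤ := by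
    intro htop
    have h1 : ∀ᶠ y in 𝓝 z, f y = 0 := analyticOrderAt_eq_top.mp htop
    have h2 := ha.eqOn_zero_of_preconnected_of_eventuallyEq_zero isPreconnected_univ (mem_univ z) h1
    exact hz₀ (h2 (mem_univ z₀))
  have hord0 : analyticOrderAt f z ≠ 0 := by
    rw [(hf.analyticAt z).analyticOrderAt_ne_zero]; exact hfz
  unfold analyticOrderNatAt
  intro h
  have h3 : (analyticOrderAt f z).toNat = 0 := by exact_mod_cast h
  rw [ENat.toNat_eq_zero] at h3
  rcases h3 with h3 | h3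
  · exact hord0 h3
  · exact hord h3

/-- all zeros of `F κ` lie close to the imaginary axis -/
lemma zero_location (κ : ℝ) (hκ : 0 < κ) :
    ∃ W₀ : ℝ, 128 ≤ W₀ ∧ ∀ w : ℂ, F κ w = 0 → W₀ ≤ ‖w‖ → |w.re| ≤ ‖w‖ / 2 ∧
      |w.re| < κ * Real.log ‖w‖ + (3 * κ + 2) := by
  obtain ⟨W₀, hW₀, h⟩ := F_ne_zero_of_re_large κ hκ
  have h1 : ∀ᶠ x : ℝ in atTop, κ * Real.log x + (3 * κ + 2) ≤ x / 2 := by
    have h := Real.isLittleO_log_id_atTop.bound (c := 1 / (4 * κ)) (by positivity)
    filter_upwards [h, eventually_ge_atTop (4 * (3 * κ + 2))] with x hx hx2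
    have hx0 : 0 < x := by nlinarith
    simp only [_root_.id, Real.norm_eq_abs] at hx
    rw [abs_of_pos hx0] at hx
    have h2 : Real.log x ≤ 1 / (4 * κ) * x := (le_abs_self _).trans hx
    have h3 : κ * Real.log x ≤ x / 4 := by
      calc κ * Real.log x ≤ κ * (1 / (4 * κ) * x) := by gcongr
        _ = x / 4 := by field_simp
    linarith
  obtain ⟨W₁, hW₁⟩ := eventually_atTop.mp h1
  refine ⟨max W₀ W₁, hW₀.trans (le_max_left _ _), fun w hw hn => ?_⟩
  have hn0 : W₀ ≤ ‖w‖ := (le_max_left _ _).trans hn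
  have hn1 : W₁ ≤ ‖w‖ := (le_max_right _ _).trans hn
  have hlt : |w.re| < κ * Real.log ‖w‖ + (3 * κ + 2) := by
    by_contra hcon
    push Not at hcon
    rcases abs_cases w.re with ⟨h2, _⟩ | ⟨h2, _⟩
    · rw [h2] at hcon
      exact h w hn0 hcon hw
    · rw [h2] at hcon
      have := h (-w) (by rwa [norm_neg]) (by rw [norm_neg]; simpa using hcon)
      rw [F_even] at this
      exact this hw
  exact ⟨hlt.le.trans (hW₁ _ hn1), hlt⟩

lemma exists_F_ne_zero (κ : ℝ) (hκ : 0 < κ) : ∃ w, F κ w ≠ 0 := by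
  obtain ⟨W₀, hW₀, h⟩ := F_ne_zero_of_re_large κ hκ
  have h1 : ∀ᶠ x : ℝ in atTop, κ * Real.log x + (3 * κ + 2) ≤ x := by
    have h := Real.isLittleO_log_id_atTop.bound (c := 1 / (4 * κ)) (by positivity)
    filter_upwards [h, eventually_ge_atTop (4 * (3 * κ + 2))] with x hx hx2
    have hx0 : 0 < x := by nlinarith
    simp only [_root_.id, Real.norm_eq_abs] at hx
    rw [abs_of_pos hx0] at hx
    have h2 : Real.log x ≤ 1 / (4 * κ) * x := (le_abs_self _).trans hx
    have h3 : κ * Real.log x ≤ x / 4 := by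
      calc κ * Real.log x ≤ κ * (1 / (4 * κ) * x) := by gcongr
        _ = x / 4 := by field_simp
    linarith
  obtain ⟨x, hx, hx2⟩ := (h1.and (eventually_ge_atTop W₀)).exists
  have hx0 : 0 < x := by linarith
  have hn : ‖((x : ℝ) : ℂ)‖ = x := by rw [Complex.norm_real, Real.norm_eq_abs, abs_of_pos hx0]
  exact ⟨(x : ℂ), h (x : ℂ) (by rw [hn]; exact hx2) (by rw [hn, Complex.ofReal_re]; exact hx)⟩

/-- **Upper bound**: the zeros with `|Im w| ≤ T` are finite in number, `O(T log T)`. -/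
theorem count_upper (κ : ℝ) (hκ : 0 < κ) : ∃ C T₀ : ℝ, 0 < C ∧ 2 ≤ T₀ ∧ ∀ T : ℝ, T₀ ≤ T →
    {w : ℂ | F κ w = 0 ∧ |w.im| ≤ T}.Finite ∧
    ∀ Z : Finset ℂ, (∀ w ∈ Z, F κ w = 0 ∧ |w.im| ≤ T) →
      (∑ w ∈ Z, (analyticOrderNatAt (F κ) w : ℝ)) ≤ C * T * Real.log T := by
  obtain ⟨W₀, hW₀, hloc⟩ := zero_location κ hκ
  obtain ⟨w₀, hw₀⟩ := exists_F_ne_zero κ hκ
  obtain ⟨C, hC, hgrow⟩ := F_growth κ hκ
  have hdiff := differentiable_F κ hκ
  have hin : ∀ T : ℝ, max W₀ ‖w₀‖ ≤ T → ∀ w : ℂ, F κ w = 0 → |w.im| ≤ T → w ∈ closedBall w₀ (3 * T) := by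
    intro T hT w hw him
    have hT1 : W₀ ≤ T := (le_max_left _ _).trans hT
    have hT2 : ‖w₀‖ ≤ T := (le_max_right _ _).trans hT
    have h2 : ‖w‖ ≤ 2 * T := by
      rcases le_total W₀ ‖w‖ with h | h
      · have h3 := (hloc w hw h).1
        have h4 := Complex.norm_le_abs_re_add_abs_im w
        linarith
      · linarith
    rw [mem_closedBall, dist_eq_norm]
    have := norm_sub_le w w₀
    linarith
  -- constants
  have hnpos : 0 < ‖F κ w₀‖ := norm_pos_iff.mpr hw₀
  set D := Real.log C - Real.log ‖F κ w₀‖ with hD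
  refine ⟨(|D| + 64) / Real.log 2, max (max W₀ ‖w₀‖) 8, by positivity, by
    have : (8:ℝ) ≤ max (max W₀ ‖w₀‖) 8 := le_max_right _ _
    linarith, fun T hT => ?_⟩
  have hT1 : max W₀ ‖w₀‖ ≤ T := (le_max_left _ _).trans hT
  have hT8 : 8 ≤ T := (le_max_right _ _).trans hT
  have hT2 : ‖w₀‖ ≤ T := (le_max_right _ _).trans hT1
  have hT0 : 0 < T := by linarith
  refine ⟨(zeros_finite hdiff ⟨w₀, hw₀⟩ w₀ (3 * T)).subset fun w hw => ⟨hin T hT1 w hw.1 hw.2, hw.1⟩, ?_⟩
  intro Z hZ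
  have hZ' : ∀ z ∈ Z, z ∈ closedBall w₀ (3 * T) := fun z hz => hin T hT1 z (hZ z hz).1 (hZ z hz).2
  have h1 := sum_order_le_divisor hdiff Z hZ'
  set M := C * Real.exp (2 * (7 * T + 1) * Real.log (7 * T + 1)) with hM
  have hM1 : 1 ≤ M := by
    rw [hM]
    have h2 : 1 ≤ Real.exp (2 * (7 * T + 1) * Real.log (7 * T + 1)) := by
      apply Real.one_le_exp
      have : 0 ≤ Real.log (7 * T + 1) := Real.log_nonneg (by linarith)
      positivity
    nlinarith
  have h3 := AnalyticOnNhd.sum_divisor_le (f := F κ) (c := w₀) (r := 3 * T) (R := 6 * T) (M := M)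
    (abs_pos.mpr (by linarith)) (by rw [abs_of_pos (by linarith), abs_of_pos (by linarith)]; linarith) hM1
    (fun x _ => hdiff.analyticAt x) hw₀ (by
      intro z hz
      rw [abs_of_pos (by linarith : (0:ℝ) < 6 * T), mem_sphere, dist_eq_norm] at hz
      refine hgrow (7 * T) (by linarith) z ?_
      have := norm_add_le (z - w₀) w₀
      rw [sub_add_cancel] at this
      linarith)
  rw [abs_of_pos (by linarith : (0:ℝ) < 3 * T)] at h3
  have h4 : (∑ w ∈ Z, (analyticOrderNatAt (F κ) w : ℝ)) ≤ Real.log (M / ‖F κ w₀‖) / Real.log (6 * T / (3 * T)) := by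
    refine le_trans ?_ h3
    have : (∑ w ∈ Z, (analyticOrderNatAt (F κ) w : ℝ)) = ((∑ z ∈ Z, (analyticOrderNatAt (F κ) z : ℤ) : ℤ) : ℝ) := by
      push_cast; rfl
    rw [this]
    exact_mod_cast h1
  have h5 : 6 * T / (3 * T) = 2 := by field_simp; norm_num
  rw [h5] at h4
  refine h4.trans ?_
  have hlog2 : 0 < Real.log 2 := Real.log_pos (by norm_num)
  rw [div_le_iff₀ hlog2]
  have h6 : (|D| + 64) / Real.log 2 * T * Real.log T * Real.log 2 = (|D| + 64) * T * Real.log T := by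
    field_simp
  rw [h6, Real.log_div (by linarith) hnpos.ne', hM, Real.log_mul (by linarith) (Real.exp_ne_zero _), Real.log_exp]
  have hlogT1 : 1 ≤ Real.log T := by
    rw [Real.le_log_iff_exp_le hT0]
    have := Real.exp_one_lt_d9
    linarith
  have h7 : Real.log (7 * T + 1) ≤ 2 * Real.log T := by
    rw [← Real.log_rpow hT0]
    apply Real.log_le_log (by linarith)
    norm_num
    nlinarith
  have h8 : 2 * (7 * T + 1) * Real.log (7 * T + 1) ≤ (64 * T) * Real.log T := by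
    calc 2 * (7 * T + 1) * Real.log (7 * T + 1) ≤ (16 * T) * (2 * Real.log T) :=
          mul_le_mul (by linarith) h7 (Real.log_nonneg (by linarith)) (by linarith)
      _ ≤ _ := by nlinarith
  have h9 : D ≤ |D| * (T * Real.log T) := by
    calc D ≤ |D| := le_abs_self _
      _ = |D| * 1 := (mul_one _).symm
      _ ≤ _ := by
        gcongr
        nlinarith
  calc Real.log C + 2 * (7 * T + 1) * Real.log (7 * T + 1) - Real.log ‖F κ w₀‖
      = D + 2 * (7 * T + 1) * Real.log (7 * T + 1) := by rw [hD]; ring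
    _ ≤ |D| * (T * Real.log T) + (64 * T) * Real.log T := add_le_add h9 h8
    _ = _ := by ring

end Pool.Agent.XiDeform
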