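import Mathlib

/-! Definitions for the deformed Riemann Xi function (problem MP_023270_nt). -/

open MeasureTheory Filter Topology

namespace Pool.Agent.XiDeform

/-- `Φ(t) = 2 ∑_{n ≥ 1} (2π²n⁴e^{9t/2} − 3πn²e^{5t/2}) e^{−πn²e^{2t}}`
(the summation index `n : ℕ` below stands for `n + 1 ≥ 1`). -/
noncomputable def Phi (t : ℝ) : ℝ :=
  2 * ∑' n : ℕ, (2 * Real.pi ^ 2 * ((n : ℝ) + 1) ^ 4 * Real.exp (9 * t / 2)
    - 3 * Real.pi * ((n : ℝ) + 1) ^ 2 * Real.exp (5 * t / 2))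
      * Real.exp (-Real.pi * ((n : ℝ) + 1) ^ 2 * Real.exp (2 * t))

/-- `Ξ_λ(z) = ∫_{-∞}^{∞} Φ(t) e^{λt²} e^{izt} dt`. -/
noncomputable def Xi (lam : ℝ) (z : ℂ) : ℂ :=
  ∫ t : ℝ, (Phi t : ℂ) * Complex.exp ((lam : ℂ) * (t : ℂ) ^ 2)
    * Complex.exp (Complex.I * z * (t : ℂ))

/-- The number of zeros of `f` in `S`, counted with multiplicity. -/
noncomputable def zeroCount (f : ℂ → ℂ) (S : Set ℂ) : ℕ :=
  ∑ᶠ z ∈ S, analyticOrderNatAt f z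

end Pool.Agent.XiDeform
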