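import Mathlib

open MeasureTheory Filter Topology Metric

namespace Pool.Agent.XiDeform.DirichletWindow


/-- the exponential `e^{-i x L}` -/
noncomputable def e (L x : ℝ) : ℂ := Complex.exp (-Complex.I * x * L)

lemma norm_e (L x : ℝ) : ‖e L x‖ = 1 := by
  unfold e
  rw [Complex.norm_exp]
  simp

lemma e_mul_conj (L M x : ℝ) : e L x * (starRingEnd ℂ) (e M x) = e (L - M) x := by
  unfold e
  rw [← Complex.exp_conj, ← Complex.exp_add]
  congr 1
  simp
  ring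

lemma e_zero (x : ℝ) : e 0 x = 1 := by simp [e]

lemma continuous_e (L : ℝ) : Continuous (e L) := by
  unfold e
  fun_prop

lemma norm_integral_e_le {L : ℝ} (hL : L ≠ 0) (X Y : ℝ) :
    ‖∫ x in X..Y, e L x‖ ≤ 2 / |L| := by
  have hc : (-Complex.I * (L : ℂ)) ≠ 0 := by
    simp [hL]
  have h1 : ∀ x : ℝ, e L x = Complex.exp ((-Complex.I * (L : ℂ)) * x) := by
    intro x; unfold e; congr 1; ring
  simp_rw [h1]
  rw [integral_exp_mul_complex hc, norm_div]
  have h2 : ‖(-Complex.I * (L : ℂ))‖ = |L| := by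
    simp
  rw [h2]
  have h3 : ∀ x : ℝ, ‖Complex.exp ((-Complex.I * (L : ℂ)) * x)‖ = 1 := by
    intro x; rw [← h1, norm_e]
  have h4 : ‖Complex.exp ((-Complex.I * (L : ℂ)) * Y) - Complex.exp ((-Complex.I * (L : ℂ)) * X)‖
      ≤ 2 := by
    refine (norm_sub_le _ _).trans ?_
    rw [h3, h3]; norm_num
  gcongr

lemma meanvalue {ι : Type*} (s : Finset ι) (C : ι → ℂ) (L w : ι → ℝ)
    (hw0 : ∀ i ∈ s, 0 ≤ w i)
    (hw : ∀ i ∈ s, ∀ j ∈ s, L i ≠ L j → 1 ≤ w i * w j * |L i - L j|) (X H : ℝ) :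
    ‖((∫ x in X..(X + H), ‖∑ i ∈ s, C i * e (L i) x‖ ^ 2 : ℝ) : ℂ)
      - ∑ i ∈ s, ∑ j ∈ s, (if L i = L j then (H : ℂ) * (C i * (starRingEnd ℂ) (C j)) else 0)‖
      ≤ 2 * (∑ i ∈ s, w i * ‖C i‖) ^ 2 := by
  have h1 : ∀ x : ℝ, ((‖∑ i ∈ s, C i * e (L i) x‖ ^ 2 : ℝ) : ℂ)
      = ∑ i ∈ s, ∑ j ∈ s, C i * (starRingEnd ℂ) (C j) * e (L i - L j) x := by
    intro x
    rw [← Complex.normSq_eq_norm_sq, ← Complex.mul_conj, map_sum, Finset.sum_mul_sum]
    refine Finset.sum_congr rfl fun i _ => Finset.sum_congr rfl fun j _ => ?_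
    rw [map_mul, ← e_mul_conj]
    ring
  have h2 : ((∫ x in X..(X + H), ‖∑ i ∈ s, C i * e (L i) x‖ ^ 2 : ℝ) : ℂ)
      = ∑ i ∈ s, ∑ j ∈ s, C i * (starRingEnd ℂ) (C j) * ∫ x in X..(X + H), e (L i - L j) x := by
    rw [← intervalIntegral.integral_ofReal]
    simp_rw [h1]
    rw [intervalIntegral.integral_finsetSum]
    · refine Finset.sum_congr rfl fun i _ => ?_
      rw [intervalIntegral.integral_finsetSum]
      · refine Finset.sum_congr rfl fun j _ => ?_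
        rw [intervalIntegral.integral_const_mul]
      · intro j _
        exact ((continuous_e _).const_smul (C i * (starRingEnd ℂ) (C j))).intervalIntegrable _ _
    · intro i _
      apply Continuous.intervalIntegrable
      refine continuous_finsetSum _ fun j _ => ?_
      exact continuous_const.mul (continuous_e _)
  rw [h2, ← Finset.sum_sub_distrib]
  simp_rw [← Finset.sum_sub_distrib]
  have h3 : ∀ i ∈ s, ∀ j ∈ s, ‖C i * (starRingEnd ℂ) (C j) * (∫ x in X..(X + H), e (L i - L j) x)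
      - (if L i = L j then (H : ℂ) * (C i * (starRingEnd ℂ) (C j)) else 0)‖
      ≤ 2 * ((w i * ‖C i‖) * (w j * ‖C j‖)) := by
    intro i hi j hj
    by_cases h : L i = L j
    · have hint : ∫ x in X..(X + H), e (L i - L j) x = (H : ℂ) := by
        have : ∀ x : ℝ, e (L i - L j) x = 1 := by
          intro x; rw [h, sub_self, e_zero]
        simp_rw [this]
        simp
      rw [hint, if_pos h]
      have : C i * (starRingEnd ℂ) (C j) * (H : ℂ) - (H : ℂ) * (C i * (starRingEnd ℂ) (C j)) = 0 := by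
        ring
      rw [this, norm_zero]
      have hi0 := hw0 i hi
      have hj0 := hw0 j hj
      positivity
    · rw [if_neg h, sub_zero, norm_mul, norm_mul, RCLike.norm_conj]
      have hL : L i - L j ≠ 0 := sub_ne_zero.mpr h
      have hpos : 0 < |L i - L j| := abs_pos.mpr hL
      have h5 := norm_integral_e_le hL X (X + H)
      have h6 : 2 / |L i - L j| ≤ 2 * (w i * w j) := by
        rw [div_le_iff₀ hpos]
        have := hw i hi j hj h
        nlinarith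
      calc ‖C i‖ * ‖C j‖ * ‖∫ x in X..(X + H), e (L i - L j) x‖
          ≤ ‖C i‖ * ‖C j‖ * (2 * (w i * w j)) := by
            gcongr
            exact h5.trans h6
        _ = 2 * ((w i * ‖C i‖) * (w j * ‖C j‖)) := by ring
  calc ‖∑ i ∈ s, ∑ j ∈ s, (C i * (starRingEnd ℂ) (C j) * (∫ x in X..(X + H), e (L i - L j) x)
      - (if L i = L j then (H : ℂ) * (C i * (starRingEnd ℂ) (C j)) else 0))‖
      ≤ ∑ i ∈ s, ∑ j ∈ s, 2 * ((w i * ‖C i‖) * (w j * ‖C j‖)) := by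
        refine (norm_sum_le _ _).trans (Finset.sum_le_sum fun i hi => ?_)
        exact (norm_sum_le _ _).trans (Finset.sum_le_sum fun j hj => h3 i hi j hj)
    _ = 2 * (∑ i ∈ s, w i * ‖C i‖) ^ 2 := by
        rw [sq, Finset.sum_mul_sum]
        simp_rw [← Finset.mul_sum]

lemma mean_upper {ι : Type*} (s : Finset ι) (C : ι → ℂ) (L w : ι → ℝ)
    (hw0 : ∀ i ∈ s, 0 ≤ w i)
    (hw : ∀ i ∈ s, ∀ j ∈ s, L i ≠ L j → 1 ≤ w i * w j * |L i - L j|) (X H : ℝ) (hH : 0 ≤ H) :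
    (∫ x in X..(X + H), ‖∑ i ∈ s, C i * e (L i) x‖ ^ 2 : ℝ)
      ≤ H * (∑ i ∈ s, ∑ j ∈ s, if L i = L j then ‖C i‖ * ‖C j‖ else 0)
        + 2 * (∑ i ∈ s, w i * ‖C i‖) ^ 2 := by
  have h := meanvalue s C L w hw0 hw X H
  set T : ℝ := (∫ x in X..(X + H), ‖∑ i ∈ s, C i * e (L i) x‖ ^ 2 : ℝ) with hT
  have h1 : T ≤ ‖(T : ℂ)‖ := by
    rw [Complex.norm_real]; exact le_abs_self _
  have h2 : ‖(T : ℂ)‖ ≤ ‖∑ i ∈ s, ∑ j ∈ s,
      (if L i = L j then (H : ℂ) * (C i * (starRingEnd ℂ) (C j)) else 0)‖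
      + 2 * (∑ i ∈ s, w i * ‖C i‖) ^ 2 := by
    have := norm_sub_norm_le (T : ℂ) (∑ i ∈ s, ∑ j ∈ s,
      (if L i = L j then (H : ℂ) * (C i * (starRingEnd ℂ) (C j)) else 0))
    linarith
  have h3 : ‖∑ i ∈ s, ∑ j ∈ s,
      (if L i = L j then (H : ℂ) * (C i * (starRingEnd ℂ) (C j)) else 0)‖
      ≤ H * (∑ i ∈ s, ∑ j ∈ s, if L i = L j then ‖C i‖ * ‖C j‖ else 0) := by
    rw [Finset.mul_sum]
    refine (norm_sum_le _ _).trans (Finset.sum_le_sum fun i hi => ?_)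
    rw [Finset.mul_sum]
    refine (norm_sum_le _ _).trans (Finset.sum_le_sum fun j hj => ?_)
    split_ifs with hij
    · rw [norm_mul, norm_mul, RCLike.norm_conj, Complex.norm_real, Real.norm_eq_abs,
        abs_of_nonneg hH]
    · simp
  linarith

lemma mean_lower {ι : Type*} (s : Finset ι) (C : ι → ℂ) (L w : ι → ℝ)
    (hw0 : ∀ i ∈ s, 0 ≤ w i) (hinj : ∀ i ∈ s, ∀ j ∈ s, L i = L j → i = j)
    (hw : ∀ i ∈ s, ∀ j ∈ s, L i ≠ L j → 1 ≤ w i * w j * |L i - L j|) (X H : ℝ) :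
    H * (∑ i ∈ s, ‖C i‖ ^ 2) - 2 * (∑ i ∈ s, w i * ‖C i‖) ^ 2
    ≤ (∫ x in X..(X + H), ‖∑ i ∈ s, C i * e (L i) x‖ ^ 2 : ℝ) := by
  have h := meanvalue s C L w hw0 hw X H
  set T : ℝ := (∫ x in X..(X + H), ‖∑ i ∈ s, C i * e (L i) x‖ ^ 2 : ℝ) with hT
  have h1 : ∑ i ∈ s, ∑ j ∈ s,
      (if L i = L j then (H : ℂ) * (C i * (starRingEnd ℂ) (C j)) else 0)
      = ((H * (∑ i ∈ s, ‖C i‖ ^ 2) : ℝ) : ℂ) := by
    push_cast
    rw [Finset.mul_sum]
    refine Finset.sum_congr rfl fun i hi => ?_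
    rw [Finset.sum_eq_single_of_mem i hi]
    · rw [if_pos rfl, Complex.mul_conj, Complex.normSq_eq_norm_sq]
      push_cast; ring
    · intro j hj hne
      rw [if_neg]
      intro heq
      exact hne (hinj i hi j hj heq).symm
  rw [h1, ← Complex.ofReal_sub, Complex.norm_real, Real.norm_eq_abs] at h
  have := abs_le.mp h
  linarith [this.1]

lemma mean_upper_inj {ι : Type*} (s : Finset ι) (C : ι → ℂ) (L w : ι → ℝ)
    (hw0 : ∀ i ∈ s, 0 ≤ w i) (hinj : ∀ i ∈ s, ∀ j ∈ s, L i = L j → i = j)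
    (hw : ∀ i ∈ s, ∀ j ∈ s, L i ≠ L j → 1 ≤ w i * w j * |L i - L j|) (X H : ℝ) (hH : 0 ≤ H) :
    (∫ x in X..(X + H), ‖∑ i ∈ s, C i * e (L i) x‖ ^ 2 : ℝ)
    ≤ H * (∑ i ∈ s, ‖C i‖ ^ 2) + 2 * (∑ i ∈ s, w i * ‖C i‖) ^ 2 := by
  have h := mean_upper s C L w hw0 hw X H hH
  have h1 : (∑ i ∈ s, ∑ j ∈ s, if L i = L j then ‖C i‖ * ‖C j‖ else 0)
      = ∑ i ∈ s, ‖C i‖ ^ 2 := by
    refine Finset.sum_congr rfl fun i hi => ?_
    rw [Finset.sum_eq_single_of_mem i hi]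
    · rw [if_pos rfl]; ring
    · intro j hj hne
      rw [if_neg]
      intro heq
      exact hne (hinj i hi j hj heq).symm
  rwa [h1] at h

/-- Paley-Zygmund plus Chebyshev in one step. -/
lemma pz (P R : ℝ → ℂ) (hP : Continuous P) (hR : Continuous R) (X H A2 A4 B : ℝ)
    (hH : 0 < H) (hA2 : 0 < A2) (hA4 : 0 < A4)
    (h2 : H * A2 ≤ ∫ x in X..(X + H), ‖P x‖ ^ 2)
    (h4 : ∫ x in X..(X + H), ‖P x‖ ^ 4 ≤ H * A4)
    (hB : ∫ x in X..(X + H), ‖R x‖ ^ 2 ≤ H * B) :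
    ENNReal.ofReal (H * (A2 ^ 2 / (4 * A4) - 32 * B / A2))
      ≤ volume {x : ℝ | x ∈ Set.Icc X (X + H) ∧ A2 / 2 ≤ ‖P x‖ ^ 2 ∧ ‖R x‖ ^ 2 ≤ A2 / 32} := by
  set S : Set ℝ := {x : ℝ | x ∈ Set.Icc X (X + H) ∧ A2 / 2 ≤ ‖P x‖ ^ 2 ∧ ‖R x‖ ^ 2 ≤ A2 / 32}
    with hS
  have hSclosed : IsClosed S := by
    refine IsClosed.inter isClosed_Icc (IsClosed.inter ?_ ?_)
    · exact isClosed_le continuous_const (hP.norm.pow 2)
    · exact isClosed_le (hR.norm.pow 2) continuous_const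
  have hSmeas : MeasurableSet S := hSclosed.measurableSet
  have hSsub : S ⊆ Set.Icc X (X + H) := fun x hx => hx.1
  have hSfin : volume S ≠ ⊤ := by
    refine ne_top_of_le_ne_top ?_ (measure_mono hSsub)
    simp
  set t : ℝ := A4 / A2 with ht
  have htpos : 0 < t := by positivity
  have hXY : X ≤ X + H := by linarith
  -- pointwise inequality
  have hpt : ∀ x ∈ Set.Icc X (X + H), ‖P x‖ ^ 2 ≤ A2 / 2 + t * S.indicator (fun _ => (1 : ℝ)) x
      + t * (32 / A2) * ‖R x‖ ^ 2 + 1 / (4 * t) * ‖P x‖ ^ 4 := by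
    intro x hx
    have hq : 0 ≤ 1 / (4 * t) * ‖P x‖ ^ 4 := by positivity
    have hr : 0 ≤ t * (32 / A2) * ‖R x‖ ^ 2 := by positivity
    have hamgm : ‖P x‖ ^ 2 ≤ t + 1 / (4 * t) * ‖P x‖ ^ 4 := by
      have h5 : 0 ≤ (‖P x‖ ^ 2 - 2 * t) ^ 2 := sq_nonneg _
      have h6 : 1 / (4 * t) * ‖P x‖ ^ 4 = (‖P x‖ ^ 2) ^ 2 / (4 * t) := by ring
      rw [h6, ← sub_nonneg]
      have h7 : t + (‖P x‖ ^ 2) ^ 2 / (4 * t) - ‖P x‖ ^ 2 = (‖P x‖ ^ 2 - 2 * t) ^ 2 / (4 * t) := by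
        field_simp
        ring
      rw [h7]; positivity
    by_cases hp : A2 / 2 ≤ ‖P x‖ ^ 2
    · by_cases hrx : ‖R x‖ ^ 2 ≤ A2 / 32
      · have hxS : x ∈ S := ⟨hx, hp, hrx⟩
        rw [Set.indicator_of_mem hxS]
        linarith
      · have h8 : 0 ≤ S.indicator (fun _ => (1 : ℝ)) x :=
          Set.indicator_nonneg (fun _ _ => zero_le_one) x
        have h9 : t ≤ t * (32 / A2) * ‖R x‖ ^ 2 := by
          rw [not_le] at hrx
          have h10 : (32 / A2) * (A2 / 32) = 1 := by field_simp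
          calc t = t * ((32 / A2) * (A2 / 32)) := by rw [h10, mul_one]
            _ ≤ t * ((32 / A2) * ‖R x‖ ^ 2) := by gcongr
            _ = _ := by ring
        have : 0 ≤ t * S.indicator (fun _ => (1 : ℝ)) x := by positivity
        linarith
    · rw [not_le] at hp
      have h8 : 0 ≤ S.indicator (fun _ => (1 : ℝ)) x :=
        Set.indicator_nonneg (fun _ _ => zero_le_one) x
      have : 0 ≤ t * S.indicator (fun _ => (1 : ℝ)) x := by positivity
      linarith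
  have hind : IntervalIntegrable (S.indicator (fun _ => (1 : ℝ))) volume X (X + H) := by
    rw [intervalIntegrable_iff_integrableOn_Ioc_of_le hXY]
    exact (integrable_const (1 : ℝ)).indicator hSmeas
  have hi1 : IntervalIntegrable (fun x => ‖P x‖ ^ 2) volume X (X + H) :=
    (by fun_prop : Continuous fun x => ‖P x‖ ^ 2).intervalIntegrable _ _
  have hi2 : IntervalIntegrable (fun x => ‖P x‖ ^ 4) volume X (X + H) :=
    (by fun_prop : Continuous fun x => ‖P x‖ ^ 4).intervalIntegrable _ _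
  have hi3 : IntervalIntegrable (fun x => ‖R x‖ ^ 2) volume X (X + H) :=
    (by fun_prop : Continuous fun x => ‖R x‖ ^ 2).intervalIntegrable _ _
  have hint := intervalIntegral.integral_mono_on hXY hi1
    ((((intervalIntegrable_const (c := A2 / 2)).add (hind.const_mul t)).add
      (hi3.const_mul (t * (32 / A2)))).add (hi2.const_mul (1 / (4 * t)))) hpt
  rw [intervalIntegral.integral_add (((intervalIntegrable_const).add (hind.const_mul t)).add
      (hi3.const_mul (t * (32 / A2)))) (hi2.const_mul (1 / (4 * t))),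
    intervalIntegral.integral_add ((intervalIntegrable_const).add (hind.const_mul t))
      (hi3.const_mul (t * (32 / A2))),
    intervalIntegral.integral_add (intervalIntegrable_const) (hind.const_mul t),
    intervalIntegral.integral_const_mul, intervalIntegral.integral_const_mul,
    intervalIntegral.integral_const_mul, intervalIntegral.integral_const] at hint
  have hindint : ∫ x in X..(X + H), S.indicator (fun _ => (1 : ℝ)) x ≤ (volume S).toReal := by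
    rw [intervalIntegral.integral_of_le hXY, setIntegral_indicator hSmeas, setIntegral_const]
    simp only [smul_eq_mul, mul_one]
    unfold Measure.real
    exact ENNReal.toReal_mono hSfin (measure_mono Set.inter_subset_right)
  have hfinal : H * (A2 ^ 2 / (4 * A4) - 32 * B / A2) ≤ (volume S).toReal := by
    have e1 : (X + H - X) • (A2 / 2) = H * (A2 / 2) := by simp
    rw [e1] at hint
    have e2 : t * (32 / A2) * ∫ x in X..(X + H), ‖R x‖ ^ 2 ≤ t * (32 / A2) * (H * B) := by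
      gcongr
    have e3 : 1 / (4 * t) * ∫ x in X..(X + H), ‖P x‖ ^ 4 ≤ 1 / (4 * t) * (H * A4) := by
      gcongr
    have e4 : t * ∫ x in X..(X + H), S.indicator (fun _ => (1 : ℝ)) x ≤ t * (volume S).toReal := by
      gcongr
    have e5 : 1 / (4 * t) * (H * A4) = H * (A2 / 4) := by
      rw [ht]; field_simp
    have e6 : t * (H * (A2 ^ 2 / (4 * A4) - 32 * B / A2)) ≤ t * (volume S).toReal := by
      have : t * (H * (A2 ^ 2 / (4 * A4) - 32 * B / A2)) = H * (A2 / 4)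
          - t * (32 / A2) * (H * B) := by
        rw [ht]; field_simp
      rw [this]
      linarith
    exact le_of_mul_le_mul_left e6 htpos
  rw [← ENNReal.ofReal_toReal hSfin]
  exact ENNReal.ofReal_le_ofReal hfinal


/-- the Fejer kernel -/
noncomputable def ker (ρ x : ℝ) : ℝ := ∫ h in (0:ℝ)..ρ, (1 - h / ρ) * (2 * Real.cos (x * h))

lemma integral_tri {ρ : ℝ} (hρ : 0 < ρ) : ∫ h in (0:ℝ)..ρ, (1 - h / ρ) = ρ / 2 := by
  rw [intervalIntegral.integral_sub (by simp) (by apply Continuous.intervalIntegrable; fun_prop)]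
  simp only [intervalIntegral.integral_const, intervalIntegral.integral_div, integral_id]
  field_simp
  ring

lemma tri_nonneg {ρ : ℝ} (hρ : 0 < ρ) {h : ℝ} (hh : h ∈ Set.Icc 0 ρ) : 0 ≤ 1 - h / ρ := by
  have : h / ρ ≤ 1 := by rw [div_le_one hρ]; exact hh.2
  linarith

lemma ker_abs_le {ρ : ℝ} (hρ : 0 < ρ) (x : ℝ) : |ker ρ x| ≤ ρ := by
  unfold ker
  rw [← Real.norm_eq_abs]
  have hb : ∀ h ∈ Set.Icc (0:ℝ) ρ, ‖(1 - h / ρ) * (2 * Real.cos (x * h))‖ ≤ 2 * (1 - h / ρ) := by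
    intro h hh
    have h0 := tri_nonneg hρ hh
    rw [norm_mul, Real.norm_eq_abs, abs_of_nonneg h0, norm_mul, Real.norm_eq_abs, Real.norm_eq_abs]
    have := Real.abs_cos_le_one (x * h)
    have h2 : |(2:ℝ)| = 2 := abs_two
    rw [h2]
    nlinarith
  have := intervalIntegral.norm_integral_le_of_norm_le (a := 0) (b := ρ) hρ.le
    (f := fun h => (1 - h / ρ) * (2 * Real.cos (x * h))) (g := fun h => 2 * (1 - h / ρ))
    (μ := volume) (ae_of_all _ fun h hh => hb h ⟨hh.1.le, hh.2⟩)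
    (by apply Continuous.intervalIntegrable; fun_prop)
  refine this.trans ?_
  rw [intervalIntegral.integral_const_mul, integral_tri hρ]
  linarith

lemma ker_ge {ρ : ℝ} (hρ : 0 < ρ) {x : ℝ} (hx : ρ * |x| ≤ 1) : ρ / 2 ≤ ker ρ x := by
  unfold ker
  rw [← integral_tri hρ]
  apply intervalIntegral.integral_mono_on hρ.le
  · apply Continuous.intervalIntegrable; fun_prop
  · apply Continuous.intervalIntegrable; fun_prop
  intro h hh
  have h0 := tri_nonneg hρ hh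
  have h1 : |x * h| ≤ 1 := by
    rw [abs_mul, abs_of_nonneg hh.1]
    calc |x| * h ≤ |x| * ρ := by gcongr; exact hh.2
      _ = ρ * |x| := by ring
      _ ≤ 1 := hx
  have h2 : 1 / 2 ≤ Real.cos (x * h) := by
    have h3 : Real.cos 1 ≤ Real.cos |x * h| := by
      apply Real.cos_le_cos_of_nonneg_of_le_pi (abs_nonneg _) (by linarith [Real.pi_gt_three]) h1
    rw [Real.cos_abs] at h3
    have h4 := Real.cos_one_pos
    have h5 : (1:ℝ) / 2 ≤ Real.cos 1 := by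
      have := Real.one_sub_sq_div_two_le_cos (x := 1)
      norm_num at this ⊢
      linarith
    linarith
  nlinarith

lemma ker_decay {ρ : ℝ} (hρ : 0 < ρ) {x : ℝ} (hx : x ≠ 0) : |ker ρ x| ≤ 4 / (ρ * x ^ 2) := by
  have hderiv : ∀ h : ℝ, HasDerivAt (fun h : ℝ => 2 * (1 - h / ρ) * Real.sin (x * h) / x
      - 2 * Real.cos (x * h) / (ρ * x ^ 2)) ((1 - h / ρ) * (2 * Real.cos (x * h))) h := by
    intro h
    have h1 : HasDerivAt (fun h : ℝ => x * h) x h := by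
      simpa using (hasDerivAt_id h).const_mul x
    have h2 := h1.sin
    have h3 := h1.cos
    have h4 : HasDerivAt (fun h : ℝ => 2 * (1 - h / ρ)) (2 * (0 - 1 / ρ)) h :=
      (((hasDerivAt_const h (1:ℝ)).sub ((hasDerivAt_id h).div_const ρ))).const_mul 2
    have h5 := ((h4.mul h2).div_const x).sub ((h3.const_mul 2).div_const (ρ * x ^ 2))
    refine h5.congr_deriv ?_
    field_simp
    ring
  have hval : ker ρ x = 2 * (1 - Real.cos (x * ρ)) / (ρ * x ^ 2) := by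
    unfold ker
    rw [intervalIntegral.integral_eq_sub_of_hasDerivAt (fun h _ => hderiv h)
      (by apply Continuous.intervalIntegrable; fun_prop)]
    have : ρ / ρ = 1 := div_self hρ.ne'
    simp [this]
    ring
  rw [hval, abs_div, abs_of_pos (by positivity : 0 < ρ * x ^ 2)]
  gcongr
  rw [abs_le]
  have h1 := Real.cos_le_one (x * ρ)
  have h2 := Real.neg_one_le_cos (x * ρ)
  constructor <;> linarith

lemma smoothing (T : Finset ℕ) (b : ℕ → ℂ) (l : ℕ → ℝ) (V ρ B : ℝ) (hρ : 0 < ρ) (x : ℝ)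
    (hB : ∀ y ∈ Set.Icc (x - ρ) (x + ρ), ‖∑ n ∈ T, b n * e (l n) y‖ ≤ B) :
    ‖∑ n ∈ T, (ker ρ (l n - V) : ℂ) * b n * e (l n) x‖ ≤ ρ * B := by
  have hD : Continuous (fun y : ℝ => ∑ n ∈ T, b n * e (l n) y) :=
    continuous_finsetSum _ fun n _ => continuous_const.mul (continuous_e _)
  have hterm : ∀ n, (ker ρ (l n - V) : ℂ) * b n * e (l n) x
      = ∫ h in (0:ℝ)..ρ, (((1 - h / ρ : ℝ) : ℂ) * (Complex.exp (Complex.I * V * h)
          * (b n * e (l n) (x + h)) + Complex.exp (-Complex.I * V * h)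
          * (b n * e (l n) (x - h)))) := by
    intro n
    unfold ker
    rw [← intervalIntegral.integral_ofReal, mul_assoc, ← intervalIntegral.integral_mul_const]
    congr 1
    funext h
    have h1 : ((Real.cos ((l n - V) * h) : ℝ) : ℂ)
        = (Complex.exp (((l n - V) * h : ℝ) * Complex.I)
          + Complex.exp (-((l n - V) * h : ℝ) * Complex.I)) / 2 := by
      rw [Complex.ofReal_cos, Complex.cos]
    have h2 : Complex.exp (Complex.I * V * h) * e (l n) (x + h)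
        = e (l n) x * Complex.exp (-((l n - V) * h : ℝ) * Complex.I) := by
      unfold e
      rw [← Complex.exp_add, ← Complex.exp_add]
      congr 1
      push_cast
      ring
    have h3 : Complex.exp (-Complex.I * V * h) * e (l n) (x - h)
        = e (l n) x * Complex.exp (((l n - V) * h : ℝ) * Complex.I) := by
      unfold e
      rw [← Complex.exp_add, ← Complex.exp_add]
      congr 1
      push_cast
      ring
    calc (((1 - h / ρ) * (2 * Real.cos ((l n - V) * h)) : ℝ) : ℂ) * (b n * e (l n) x)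
        = ((1 - h / ρ : ℝ) : ℂ) * b n * (e (l n) x * (2 * ((Real.cos ((l n - V) * h) : ℝ) : ℂ))) := by
          push_cast; ring
      _ = ((1 - h / ρ : ℝ) : ℂ) * b n * (e (l n) x * Complex.exp (((l n - V) * h : ℝ) * Complex.I)
            + e (l n) x * Complex.exp (-((l n - V) * h : ℝ) * Complex.I)) := by
          rw [h1]; ring
      _ = ((1 - h / ρ : ℝ) : ℂ) * b n * (Complex.exp (-Complex.I * V * h) * e (l n) (x - h)
            + Complex.exp (Complex.I * V * h) * e (l n) (x + h)) := by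
          rw [h2, h3]
      _ = _ := by ring
  have hsum : ∑ n ∈ T, (ker ρ (l n - V) : ℂ) * b n * e (l n) x
      = ∫ h in (0:ℝ)..ρ, (((1 - h / ρ : ℝ) : ℂ) * (Complex.exp (Complex.I * V * h)
          * (∑ n ∈ T, b n * e (l n) (x + h)) + Complex.exp (-Complex.I * V * h)
          * (∑ n ∈ T, b n * e (l n) (x - h)))) := by
    rw [Finset.sum_congr rfl fun n _ => hterm n, ← intervalIntegral.integral_finsetSum]
    · congr 1
      funext h
      rw [Finset.mul_sum, Finset.mul_sum, ← Finset.sum_add_distrib, Finset.mul_sum]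
    · intro n _
      apply Continuous.intervalIntegrable
      have := continuous_e (l n)
      fun_prop
  rw [hsum]
  have hb : ∀ h ∈ Set.Icc (0:ℝ) ρ, ‖(((1 - h / ρ : ℝ) : ℂ) * (Complex.exp (Complex.I * V * h)
          * (∑ n ∈ T, b n * e (l n) (x + h)) + Complex.exp (-Complex.I * V * h)
          * (∑ n ∈ T, b n * e (l n) (x - h))))‖ ≤ (2 * B) * (1 - h / ρ) := by
    intro h hh
    have h0 := tri_nonneg hρ hh
    rw [norm_mul, Complex.norm_real, Real.norm_eq_abs, abs_of_nonneg h0]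
    have h1 := hB (x + h) ⟨by linarith [hh.1], by linarith [hh.2]⟩
    have h2 := hB (x - h) ⟨by linarith [hh.2], by linarith [hh.1]⟩
    have h3 : ‖Complex.exp (Complex.I * V * h)‖ = 1 := by
      rw [Complex.norm_exp]; simp
    have h4 : ‖Complex.exp (-Complex.I * V * h)‖ = 1 := by
      rw [Complex.norm_exp]; simp
    have h5 : ‖Complex.exp (Complex.I * V * h)
          * (∑ n ∈ T, b n * e (l n) (x + h)) + Complex.exp (-Complex.I * V * h)
          * (∑ n ∈ T, b n * e (l n) (x - h))‖ ≤ 2 * B := by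
      refine (norm_add_le _ _).trans ?_
      rw [norm_mul, norm_mul, h3, h4]
      linarith
    calc (1 - h / ρ) * _ ≤ (1 - h / ρ) * (2 * B) := by gcongr
      _ = _ := by ring
  have := intervalIntegral.norm_integral_le_of_norm_le (a := 0) (b := ρ) hρ.le
    (f := fun h : ℝ => (((1 - h / ρ : ℝ) : ℂ) * (Complex.exp (Complex.I * V * h)
          * (∑ n ∈ T, b n * e (l n) (x + h)) + Complex.exp (-Complex.I * V * h)
          * (∑ n ∈ T, b n * e (l n) (x - h))))) (g := fun h => (2 * B) * (1 - h / ρ))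
    (μ := volume) (ae_of_all _ fun h hh => hb h ⟨hh.1.le, hh.2⟩)
    (by apply Continuous.intervalIntegrable; fun_prop)
  refine this.trans ?_
  rw [intervalIntegral.integral_const_mul, integral_tri hρ]
  linarith




lemma card_dvd_le (c : ℕ) (hc : 0 < c) (N K : ℝ) (hN : 0 ≤ N) (hK : 0 ≤ K) (A : Finset ℕ)
    (hA : ∀ a ∈ A, N ≤ a ∧ (a : ℝ) ≤ N + K) :
    ((A.filter (c ∣ ·)).card : ℝ) ≤ K / c + 1 := by
  have hc' : (0:ℝ) < c := by exact_mod_cast hc
  have h1 : (A.filter (c ∣ ·)).card ≤ (Finset.Icc ⌈N / c⌉₊ ⌊(N + K) / c⌋₊).card := by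
    apply Finset.card_le_card_of_injOn (fun b => b / c)
    · intro b hb
      rw [Finset.mem_coe, Finset.mem_filter] at hb
      obtain ⟨hbA, k, rfl⟩ := hb
      have := hA _ hbA
      push_cast at this
      simp only [Finset.coe_Icc, Set.mem_Icc, Nat.mul_div_cancel_left _ hc]
      constructor
      · apply Nat.ceil_le.mpr
        rw [div_le_iff₀ hc']
        linarith [this.1]
      · apply Nat.le_floor
        rw [le_div_iff₀ hc']
        linarith [this.2]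
    · intro x hx y hy hxy
      rw [Finset.mem_coe, Finset.mem_filter] at hx hy
      obtain ⟨_, k, rfl⟩ := hx
      obtain ⟨_, m, rfl⟩ := hy
      simp only [Nat.mul_div_cancel_left _ hc] at hxy
      rw [hxy]
  have h2 : ((Finset.Icc ⌈N / c⌉₊ ⌊(N + K) / c⌋₊).card : ℝ) ≤ K / c + 1 := by
    rw [Nat.card_Icc]
    have hfl : ((⌊(N + K) / c⌋₊ : ℕ) : ℝ) ≤ (N + K) / c := Nat.floor_le (by positivity)
    have hce : N / c ≤ ((⌈N / c⌉₊ : ℕ) : ℝ) := Nat.le_ceil _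
    rcases le_total (⌈N / c⌉₊) (⌊(N + K) / c⌋₊ + 1) with h | h
    · rw [Nat.cast_sub h]
      push_cast
      have : (N + K) / c = N / c + K / c := by ring
      linarith
    · rw [Nat.sub_eq_zero_of_le h]
      push_cast
      positivity
  exact le_trans (by exact_mod_cast h1) h2

lemma sum_gcd_le (N K : ℝ) (hN : 1 ≤ N) (hK : 1 ≤ K) (A : Finset ℕ)
    (hA : ∀ a ∈ A, N ≤ a ∧ (a : ℝ) ≤ N + K) :
    ∑ a ∈ A, ∑ c ∈ A, (Nat.gcd a c : ℝ) ≤ A.card * (N + K) + 4 * K ^ 2 * (1 + Real.log K) := by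
  have hK0 : 0 ≤ K := by linarith
  have h1 : ∀ a ∈ A, ∀ c ∈ A, (Nat.gcd a c : ℝ) ≤ (if a = c then (N + K) else 0)
      + ∑ g ∈ Finset.Icc 1 ⌊K⌋₊, (g : ℝ) * ((if g ∣ a then 1 else 0) * (if g ∣ c then 1 else 0)) := by
    intro a ha c hc
    have hsum0 : 0 ≤ ∑ g ∈ Finset.Icc 1 ⌊K⌋₊,
        (g : ℝ) * ((if g ∣ a then 1 else 0) * (if g ∣ c then 1 else 0)) := by
      apply Finset.sum_nonneg
      intro g _
      positivity
    by_cases hac : a = c
    · subst hac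
      simp only [Nat.gcd_self, if_true]
      have := (hA a ha).2
      linarith
    · rw [if_neg hac, zero_add]
      have hA1 := hA a ha
      have hA2 := hA c hc
      have ha0 : 0 < a := by
        have : (0:ℝ) < a := by linarith [hA1.1]
        exact_mod_cast this
      have hgpos : 0 < Nat.gcd a c := Nat.gcd_pos_of_pos_left _ ha0
      have hgK : (Nat.gcd a c : ℝ) ≤ K := by
        rcases lt_or_gt_of_ne hac with h | h
        · have hd : Nat.gcd a c ∣ c - a := Nat.dvd_sub (Nat.gcd_dvd_right a c) (Nat.gcd_dvd_left a c)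
          have := Nat.le_of_dvd (by omega) hd
          have h3 : (Nat.gcd a c : ℝ) ≤ ((c - a : ℕ) : ℝ) := by exact_mod_cast this
          rw [Nat.cast_sub h.le] at h3
          linarith [hA1.1, hA2.2]
        · have hd : Nat.gcd a c ∣ a - c := Nat.dvd_sub (Nat.gcd_dvd_left a c) (Nat.gcd_dvd_right a c)
          have := Nat.le_of_dvd (by omega) hd
          have h3 : (Nat.gcd a c : ℝ) ≤ ((a - c : ℕ) : ℝ) := by exact_mod_cast this
          rw [Nat.cast_sub h.le] at h3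
          linarith [hA1.2, hA2.1]
      have hmem : Nat.gcd a c ∈ Finset.Icc 1 ⌊K⌋₊ := by
        rw [Finset.mem_Icc]
        exact ⟨hgpos, Nat.le_floor hgK⟩
      have := Finset.single_le_sum (f := fun g : ℕ => (g : ℝ) * ((if g ∣ a then (1:ℝ) else 0)
        * (if g ∣ c then (1:ℝ) else 0))) (fun g _ => by positivity) hmem
      simp only [Nat.gcd_dvd_left, Nat.gcd_dvd_right, if_true, mul_one] at this
      exact this
  have h2 : ∑ a ∈ A, ∑ c ∈ A, (Nat.gcd a c : ℝ) ≤ ∑ a ∈ A, ∑ c ∈ A, ((if a = c then (N + K) else 0)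
      + ∑ g ∈ Finset.Icc 1 ⌊K⌋₊, (g : ℝ) * ((if g ∣ a then 1 else 0) * (if g ∣ c then 1 else 0))) :=
    Finset.sum_le_sum fun a ha => Finset.sum_le_sum fun c hc => h1 a ha c hc
  refine h2.trans ?_
  simp_rw [Finset.sum_add_distrib]
  have h3 : ∑ a ∈ A, ∑ c ∈ A, (if a = c then (N + K) else 0) = A.card * (N + K) := by
    simp [Finset.sum_ite_eq, nsmul_eq_mul]
    ring
  rw [h3]
  have h4 : ∑ a ∈ A, ∑ c ∈ A, ∑ g ∈ Finset.Icc 1 ⌊K⌋₊,
      (g : ℝ) * ((if g ∣ a then 1 else 0) * (if g ∣ c then 1 else 0))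
      = ∑ g ∈ Finset.Icc 1 ⌊K⌋₊, (g : ℝ) * ((A.filter (g ∣ ·)).card : ℝ) ^ 2 := by
    have : ∀ a ∈ A, ∑ c ∈ A, ∑ g ∈ Finset.Icc 1 ⌊K⌋₊,
      (g : ℝ) * ((if g ∣ a then 1 else 0) * (if g ∣ c then 1 else 0))
      = ∑ g ∈ Finset.Icc 1 ⌊K⌋₊, ∑ c ∈ A,
      (g : ℝ) * ((if g ∣ a then 1 else 0) * (if g ∣ c then 1 else 0)) := by
      intro a _
      rw [Finset.sum_comm]
    rw [Finset.sum_congr rfl this, Finset.sum_comm]
    refine Finset.sum_congr rfl fun g _ => ?_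
    have e1 : ((A.filter (g ∣ ·)).card : ℝ) = ∑ a ∈ A, (if g ∣ a then (1:ℝ) else 0) := by
      simp
    rw [e1, sq, Finset.sum_mul_sum, Finset.mul_sum]
    refine Finset.sum_congr rfl fun a _ => ?_
    rw [Finset.mul_sum]
  rw [h4]
  have h5 : ∑ g ∈ Finset.Icc 1 ⌊K⌋₊, (g : ℝ) * ((A.filter (g ∣ ·)).card : ℝ) ^ 2
      ≤ ∑ g ∈ Finset.Icc 1 ⌊K⌋₊, 4 * K ^ 2 * (1 / (g:ℝ)) := by
    refine Finset.sum_le_sum fun g hg => ?_
    rw [Finset.mem_Icc] at hg
    have hg0 : (0:ℝ) < g := by exact_mod_cast hg.1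
    have hgK : (g:ℝ) ≤ K := (Nat.le_floor_iff hK0).mp hg.2
    have h6 := card_dvd_le g hg.1 N K (by linarith) hK0 A hA
    have h7 : K / g + 1 ≤ 2 * (K / g) := by
      have : 1 ≤ K / g := by rw [le_div_iff₀ hg0]; linarith
      linarith
    calc (g : ℝ) * ((A.filter (g ∣ ·)).card : ℝ) ^ 2 ≤ g * (2 * (K / g)) ^ 2 := by
          gcongr
          exact h6.trans h7
      _ = 4 * K ^ 2 * (1 / g) := by
          field_simp
          ring
  have h8 : ∑ g ∈ Finset.Icc 1 ⌊K⌋₊, 4 * K ^ 2 * (1 / (g:ℝ)) ≤ 4 * K ^ 2 * (1 + Real.log K) := by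
    rw [← Finset.mul_sum]
    have h9 := harmonic_le_one_add_log ⌊K⌋₊
    rw [harmonic_eq_sum_Icc] at h9
    push_cast at h9
    simp_rw [one_div]
    have h10 : Real.log (⌊K⌋₊ : ℝ) ≤ Real.log K := by
      apply Real.log_le_log
      · have : 0 < ⌊K⌋₊ := Nat.floor_pos.mpr hK
        exact_mod_cast this
      · exact Nat.floor_le hK0
    gcongr
    linarith
  linarith

lemma count_le (N K : ℝ) (hN : 1 ≤ N) (hK : 1 ≤ K) (A : Finset ℕ)
    (hA : ∀ a ∈ A, N ≤ a ∧ (a : ℝ) ≤ N + K) :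
    ∑ a ∈ A, ∑ b ∈ A, ∑ c ∈ A, ∑ d ∈ A, (if a * b = c * d then (1:ℝ) else 0)
      ≤ (A.card : ℝ) ^ 2 + K / N * (A.card * (N + K) + 4 * K ^ 2 * (1 + Real.log K)) := by
  have hK0 : 0 ≤ K := by linarith
  have hN0 : 0 < N := by linarith
  have hpos : ∀ a ∈ A, 0 < a := by
    intro a ha
    have : (0:ℝ) < a := by linarith [(hA a ha).1]
    exact_mod_cast this
  have h1 : ∀ a ∈ A, ∀ c ∈ A, ∑ b ∈ A, ∑ d ∈ A, (if a * b = c * d then (1:ℝ) else 0)
      ≤ 1 + K / N * (Nat.gcd a c : ℝ) := by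
    intro a ha c hc
    set g := Nat.gcd a c with hg
    have hgpos : 0 < g := Nat.gcd_pos_of_pos_left _ (hpos a ha)
    obtain ⟨a', ha'⟩ : g ∣ a := Nat.gcd_dvd_left a c
    obtain ⟨c', hc'⟩ : g ∣ c := Nat.gcd_dvd_right a c
    have hc'pos : 0 < c' := by
      rcases Nat.eq_zero_or_pos c' with h | h
      · rw [h, mul_zero] at hc'; exact absurd hc' (hpos c hc).ne'
      · exact h
    have hcop : Nat.Coprime c' a' := by
      have h := Nat.coprime_div_gcd_div_gcd (m := a) (n := c) hgpos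
      rw [← hg] at h
      have e1 : a / g = a' := by rw [ha', Nat.mul_div_cancel_left _ hgpos]
      have e2 : c / g = c' := by rw [hc', Nat.mul_div_cancel_left _ hgpos]
      rw [e1, e2] at h
      exact h.symm
    have h2 : ∀ b ∈ A, ∑ d ∈ A, (if a * b = c * d then (1:ℝ) else 0)
        ≤ (if c' ∣ b then (1:ℝ) else 0) := by
      intro b hb
      by_cases hex : ∃ d ∈ A, a * b = c * d
      · obtain ⟨d, hd, hd2⟩ := hex
        have hdvd : c' ∣ b := by
          have h3 : a' * b = c' * d := by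
            have : g * (a' * b) = g * (c' * d) := by
              calc g * (a' * b) = (g * a') * b := by ring
                _ = (g * c') * d := by rw [← ha', ← hc', hd2]
                _ = g * (c' * d) := by ring
            exact Nat.eq_of_mul_eq_mul_left hgpos this
          exact hcop.dvd_of_dvd_mul_left (Dvd.intro _ h3.symm)
        rw [if_pos hdvd, Finset.sum_eq_single_of_mem d hd, if_pos hd2]
        intro d' _ hne
        rw [if_neg]
        intro h4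
        apply hne
        exact Nat.eq_of_mul_eq_mul_left (hpos c hc) (h4.symm.trans hd2)
      · have : ∑ d ∈ A, (if a * b = c * d then (1:ℝ) else 0) = 0 := by
          apply Finset.sum_eq_zero
          intro d hd
          rw [if_neg]
          intro h
          exact hex ⟨d, hd, h⟩
        rw [this]
        positivity
    have h3 : ∑ b ∈ A, ∑ d ∈ A, (if a * b = c * d then (1:ℝ) else 0)
        ≤ ((A.filter (c' ∣ ·)).card : ℝ) := by
      refine (Finset.sum_le_sum h2).trans ?_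
      simp
    have h4 := card_dvd_le c' hc'pos N K hN0.le hK0 A hA
    have h5 : K / c' ≤ K / N * (g : ℝ) := by
      have hc'r : (0:ℝ) < c' := by exact_mod_cast hc'pos
      have hgr : (0:ℝ) < g := by exact_mod_cast hgpos
      have h6 : N ≤ g * c' := by
        have := (hA c hc).1
        rw [hc'] at this
        push_cast at this
        exact this
      rw [div_le_iff₀ hc'r]
      have : K / N * g * c' = K * ((g * c') / N) := by ring
      rw [this]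
      have h7 : 1 ≤ (g * c') / N := by rw [le_div_iff₀ hN0]; linarith
      nlinarith
    linarith
  have h2 : ∑ a ∈ A, ∑ b ∈ A, ∑ c ∈ A, ∑ d ∈ A, (if a * b = c * d then (1:ℝ) else 0)
      = ∑ a ∈ A, ∑ c ∈ A, ∑ b ∈ A, ∑ d ∈ A, (if a * b = c * d then (1:ℝ) else 0) := by
    refine Finset.sum_congr rfl fun a _ => ?_
    rw [Finset.sum_comm]
  rw [h2]
  calc _ ≤ ∑ a ∈ A, ∑ c ∈ A, (1 + K / N * (Nat.gcd a c : ℝ)) :=
        Finset.sum_le_sum fun a ha => Finset.sum_le_sum fun c hc => h1 a ha c hc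
    _ = (A.card : ℝ) ^ 2 + K / N * ∑ a ∈ A, ∑ c ∈ A, (Nat.gcd a c : ℝ) := by
        simp_rw [Finset.sum_add_distrib, ← Finset.mul_sum]
        simp [sq]
    _ ≤ _ := by
        have := sum_gcd_le N K hN hK A hA
        gcongr




lemma conv_ineq {a b : ℝ} (ha : 0 < a) (hab : a ≤ b) :
    3 * (b - a) * (1 / b ^ 4) ≤ 1 / a ^ 3 - 1 / b ^ 3 := by
  have hb : 0 < b := lt_of_lt_of_le ha hab
  have h1 : 1 / a ^ 3 - 1 / b ^ 3 - 3 * (b - a) * (1 / b ^ 4)
      = (b - a) * ((b ^ 3 + a * b ^ 2 + a ^ 2 * b) - 3 * a ^ 3) / (a ^ 3 * b ^ 4) := by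
    field_simp
    ring
  have h2 : 0 ≤ (b ^ 3 + a * b ^ 2 + a ^ 2 * b) - 3 * a ^ 3 := by
    have h3 : a ^ 3 ≤ b ^ 3 := by gcongr
    have h4 : a ^ 3 ≤ a * b ^ 2 := by
      calc a ^ 3 = a * a ^ 2 := by ring
        _ ≤ a * b ^ 2 := by gcongr
    have h5 : a ^ 3 ≤ a ^ 2 * b := by
      calc a ^ 3 = a ^ 2 * a := by ring
        _ ≤ a ^ 2 * b := by gcongr
    linarith
  have h3 : 0 ≤ (b - a) * ((b ^ 3 + a * b ^ 2 + a ^ 2 * b) - 3 * a ^ 3) / (a ^ 3 * b ^ 4) := by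
    have : 0 ≤ b - a := by linarith
    positivity
  linarith

lemma log_step (n : ℕ) : 1 / ((n : ℝ) + 2) ≤ Real.log ((n : ℝ) + 2) - Real.log ((n : ℝ) + 1) := by
  have h1 : (0:ℝ) < (n : ℝ) + 1 := by positivity
  have h2 : (0:ℝ) < (n : ℝ) + 2 := by positivity
  have h := Real.one_sub_inv_le_log_of_pos (x := ((n : ℝ) + 2) / ((n : ℝ) + 1)) (by positivity)
  rw [Real.log_div h2.ne' h1.ne', inv_div] at h
  have : 1 - ((n : ℝ) + 1) / ((n : ℝ) + 2) = 1 / ((n : ℝ) + 2) := by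
    field_simp
    ring
  rwa [this] at h

lemma log_step_le (n : ℕ) : Real.log ((n : ℝ) + 2) - Real.log ((n : ℝ) + 1) ≤ 1 / ((n : ℝ) + 1) := by
  have h1 : (0:ℝ) < (n : ℝ) + 1 := by positivity
  have h2 : (0:ℝ) < (n : ℝ) + 2 := by positivity
  have h := Real.log_le_sub_one_of_pos (x := ((n : ℝ) + 2) / ((n : ℝ) + 1)) (by positivity)
  rw [Real.log_div h2.ne' h1.ne'] at h
  have : ((n : ℝ) + 2) / ((n : ℝ) + 1) - 1 = 1 / ((n : ℝ) + 1) := by
    field_simp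
    ring
  rwa [this] at h

/-- the truncated cube -/
noncomputable def G (τ x : ℝ) : ℝ := 1 / (max x (τ / 2)) ^ 3

lemma G_anti {τ : ℝ} (hτ : 0 < τ) {x y : ℝ} (hxy : x ≤ y) : G τ y ≤ G τ x := by
  unfold G
  have h1 : 0 < max x (τ / 2) := lt_of_lt_of_le (by positivity) (le_max_right _ _)
  have h2 : max x (τ / 2) ≤ max y (τ / 2) := max_le_max hxy le_rfl
  gcongr

lemma G_nonneg {τ : ℝ} (hτ : 0 < τ) (x : ℝ) : 0 ≤ G τ x := by
  unfold G
  have h1 : 0 < max x (τ / 2) := lt_of_lt_of_le (by positivity) (le_max_right _ _)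
  positivity

lemma G_le {τ : ℝ} (hτ : 0 < τ) (x : ℝ) : G τ x ≤ 8 / τ ^ 3 := by
  unfold G
  have h1 : τ / 2 ≤ max x (τ / 2) := le_max_right _ _
  have h2 : 0 < τ / 2 := by positivity
  calc 1 / (max x (τ / 2)) ^ 3 ≤ 1 / (τ / 2) ^ 3 := by gcongr
    _ = 8 / τ ^ 3 := by field_simp; norm_num

lemma G_eq {τ x : ℝ} (hx : τ / 2 ≤ x) : G τ x = 1 / x ^ 3 := by
  unfold G; rw [max_eq_left hx]

/-- upper tail -/
lemma tail_up (V τ : ℝ) (hτ : 0 < τ) (hV : 0 < V) (hsmall : 2 * Real.exp (-V) ≤ τ / 2) (M : ℕ) :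
    ∑ n ∈ Finset.range M, (if τ < Real.log ((n:ℝ) + 1) - V then
      1 / (((n:ℝ) + 1) * (Real.log ((n:ℝ) + 1) - V) ^ 4) else 0) ≤ 8 / (3 * τ ^ 3) := by
  have hstrong : ∀ M : ℕ, ∑ n ∈ Finset.range (M + 1), (if τ < Real.log ((n:ℝ) + 1) - V then
      1 / (((n:ℝ) + 1) * (Real.log ((n:ℝ) + 1) - V) ^ 4) else 0)
      ≤ 1 / 3 * (8 / τ ^ 3 - G τ (Real.log ((M:ℝ) + 1) - V)) := by
    intro M
    induction M with
    | zero =>
      simp only [zero_add, Finset.range_one, Finset.sum_singleton, Nat.cast_zero, Real.log_one]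
      rw [if_neg (by linarith)]
      have := G_le hτ (0 - V)
      linarith
    | succ M ih =>
      rw [Finset.sum_range_succ]
      have hcast : ((M + 1 : ℕ) : ℝ) + 1 = (M : ℝ) + 2 := by push_cast; ring
      rw [hcast]
      have hmono : Real.log ((M:ℝ) + 1) - V ≤ Real.log ((M:ℝ) + 2) - V := by
        have := Real.log_le_log (by positivity : (0:ℝ) < (M:ℝ) + 1)
          (by linarith : (M:ℝ) + 1 ≤ (M:ℝ) + 2)
        linarith
      split_ifs with hc
      · -- main case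
        have hMbig : Real.exp V < (M : ℝ) + 2 := by
          rw [← Real.lt_log_iff_exp_lt (by positivity)]
          linarith
        have hM1 : Real.exp V / 2 ≤ (M : ℝ) + 1 := by
          have : (M:ℝ) + 2 ≤ 2 * ((M:ℝ) + 1) := by linarith [(Nat.cast_nonneg M : (0:ℝ) ≤ M)]
          linarith
        have hinv : 1 / ((M : ℝ) + 1) ≤ τ / 2 := by
          calc 1 / ((M : ℝ) + 1) ≤ 1 / (Real.exp V / 2) := by gcongr
            _ = 2 * Real.exp (-V) := by rw [Real.exp_neg]; field_simp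
            _ ≤ τ / 2 := hsmall
        have hstep := log_step_le M
        have hlow : τ / 2 ≤ Real.log ((M:ℝ) + 1) - V := by linarith
        have hpos : 0 < Real.log ((M:ℝ) + 1) - V := by linarith
        have hcv := conv_ineq hpos hmono
        have hls := log_step M
        rw [G_eq (by linarith : τ / 2 ≤ Real.log ((M:ℝ) + 2) - V)]
        rw [G_eq hlow] at ih
        have hx : 0 < Real.log ((M:ℝ) + 2) - V := by linarith
        have h5 : 3 * (1 / (((M:ℝ) + 2) * (Real.log ((M:ℝ) + 2) - V) ^ 4))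
            ≤ 3 * ((Real.log ((M:ℝ) + 2) - V) - (Real.log ((M:ℝ) + 1) - V))
              * (1 / (Real.log ((M:ℝ) + 2) - V) ^ 4) := by
          have h6 : 1 / (((M:ℝ) + 2) * (Real.log ((M:ℝ) + 2) - V) ^ 4)
            = 1 / ((M:ℝ) + 2) * (1 / (Real.log ((M:ℝ) + 2) - V) ^ 4) := by
            rw [one_div_mul_one_div]
          rw [h6]
          have h7 : (Real.log ((M:ℝ) + 2) - V) - (Real.log ((M:ℝ) + 1) - V)
            = Real.log ((M:ℝ) + 2) - Real.log ((M:ℝ) + 1) := by ring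
          rw [h7, mul_assoc]
          gcongr
        linarith
      · have := G_anti hτ hmono
        linarith
  rcases M with _ | M
  · simp only [Finset.range_zero, Finset.sum_empty]
    positivity
  · have h1 := hstrong M
    have h2 := G_nonneg hτ (Real.log ((M:ℝ) + 1) - V)
    have h3 : 1 / 3 * (8 / τ ^ 3) = 8 / (3 * τ ^ 3) := by field_simp
    linarith

/-- lower tail -/
lemma tail_down (V τ : ℝ) (hτ : 0 < τ) (hV : 0 < V)
    (hsmall : ∀ n : ℕ, τ < V - Real.log ((n:ℝ) + 1) → τ / 2 ≤ V - Real.log ((n:ℝ) + 2)) (M : ℕ) :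
    ∑ n ∈ Finset.range M, (if τ < V - Real.log ((n:ℝ) + 1) then
      1 / (((n:ℝ) + 1) * (Real.log ((n:ℝ) + 1) - V) ^ 4) else 0) ≤ 16 / (3 * τ ^ 3) := by
  have hstrong : ∀ M : ℕ, ∑ n ∈ Finset.range M, (if τ < V - Real.log ((n:ℝ) + 1) then
      1 / (((n:ℝ) + 1) * (Real.log ((n:ℝ) + 1) - V) ^ 4) else 0)
      ≤ 2 / 3 * G τ (V - Real.log ((M:ℝ) + 1)) := by
    intro M
    induction M with
    | zero =>
      simp only [Finset.range_zero, Finset.sum_empty, Nat.cast_zero, zero_add, Real.log_one]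
      have := G_nonneg hτ (V - 0)
      linarith
    | succ M ih =>
      rw [Finset.sum_range_succ]
      have hcast : ((M + 1 : ℕ) : ℝ) + 1 = (M : ℝ) + 2 := by push_cast; ring
      rw [hcast]
      have hmono : V - Real.log ((M:ℝ) + 2) ≤ V - Real.log ((M:ℝ) + 1) := by
        have := Real.log_le_log (by positivity : (0:ℝ) < (M:ℝ) + 1)
          (by linarith : (M:ℝ) + 1 ≤ (M:ℝ) + 2)
        linarith
      split_ifs with hc
      · have hlow := hsmall M hc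
        have hpos : 0 < V - Real.log ((M:ℝ) + 2) := by linarith
        have hcv := conv_ineq hpos hmono
        have hls := log_step M
        rw [G_eq hlow]
        rw [G_eq (by linarith : τ / 2 ≤ V - Real.log ((M:ℝ) + 1))] at ih
        have hx : 0 < V - Real.log ((M:ℝ) + 1) := by linarith
        have h5 : (3 / 2) * (1 / (((M:ℝ) + 1) * (Real.log ((M:ℝ) + 1) - V) ^ 4))
            ≤ 3 * ((V - Real.log ((M:ℝ) + 1)) - (V - Real.log ((M:ℝ) + 2)))
              * (1 / (V - Real.log ((M:ℝ) + 1)) ^ 4) := by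
          have h6 : 1 / (((M:ℝ) + 1) * (Real.log ((M:ℝ) + 1) - V) ^ 4)
            = 1 / ((M:ℝ) + 1) * (1 / (V - Real.log ((M:ℝ) + 1)) ^ 4) := by
            rw [one_div_mul_one_div]
            congr 2
            ring
          rw [h6]
          have h7 : (V - Real.log ((M:ℝ) + 1)) - (V - Real.log ((M:ℝ) + 2))
            = Real.log ((M:ℝ) + 2) - Real.log ((M:ℝ) + 1) := by ring
          rw [h7]
          have h8 : (3 / 2) * (1 / ((M:ℝ) + 1)) ≤ 3 * (1 / ((M:ℝ) + 2)) := by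
            rw [← sub_nonneg]
            have : 3 * (1 / ((M:ℝ) + 2)) - (3 / 2) * (1 / ((M:ℝ) + 1))
              = (3 / 2) * M / (((M:ℝ) + 1) * ((M:ℝ) + 2)) := by
              field_simp
              ring
            rw [this]; positivity
          have h9 : 0 < 1 / (V - Real.log ((M:ℝ) + 1)) ^ 4 := by positivity
          calc (3 / 2) * (1 / ((M:ℝ) + 1) * (1 / (V - Real.log ((M:ℝ) + 1)) ^ 4))
              = ((3 / 2) * (1 / ((M:ℝ) + 1))) * (1 / (V - Real.log ((M:ℝ) + 1)) ^ 4) := by ring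
            _ ≤ (3 * (1 / ((M:ℝ) + 2))) * (1 / (V - Real.log ((M:ℝ) + 1)) ^ 4) := by gcongr
            _ ≤ (3 * (Real.log ((M:ℝ) + 2) - Real.log ((M:ℝ) + 1)))
                * (1 / (V - Real.log ((M:ℝ) + 1)) ^ 4) := by gcongr
        linarith
      · have := G_anti hτ hmono
        linarith
  have h1 := hstrong M
  have h2 := G_le hτ (V - Real.log ((M:ℝ) + 1))
  have h3 : 2 / 3 * (8 / τ ^ 3) = 16 / (3 * τ ^ 3) := by field_simp; ring
  linarith




/-- the coefficients -/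
noncomputable def a (κ V : ℝ) (n : ℕ) : ℝ :=
  ((n : ℝ) + 1) ^ (-(1 / 2) : ℝ) * Real.exp (-κ * (Real.log ((n : ℝ) + 1) - V) ^ 2)

lemma a_eq (κ V : ℝ) (n : ℕ) : a κ V n = Real.exp (-(Real.log ((n : ℝ) + 1)) / 2
    - κ * (Real.log ((n : ℝ) + 1) - V) ^ 2) := by
  unfold a
  rw [Real.rpow_def_of_pos (by positivity), ← Real.exp_add]
  congr 1
  ring

lemma a_pos (κ V : ℝ) (n : ℕ) : 0 < a κ V n := by
  rw [a_eq]; exact Real.exp_pos _

lemma sq_eq_exp (n : ℕ) : 1 / ((n : ℝ) + 1) ^ 2 = Real.exp (-2 * Real.log ((n : ℝ) + 1)) := by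
  have h : (0:ℝ) < (n:ℝ) + 1 := by positivity
  rw [show (-2 * Real.log ((n : ℝ) + 1)) = -(2 * Real.log ((n : ℝ) + 1)) by ring, Real.exp_neg,
    show (2 * Real.log ((n : ℝ) + 1)) = Real.log (((n : ℝ) + 1) ^ 2) by
      rw [Real.log_pow]; norm_num, Real.exp_log (by positivity)]
  rw [one_div]

lemma wa_le {κ : ℝ} (hκ : 0 < κ) (V : ℝ) (n : ℕ) :
    ((n : ℝ) + 1) * a κ V n ≤ Real.exp (5 * V / 2 + 25 / (16 * κ)) * (1 / ((n : ℝ) + 1) ^ 2) := by
  rw [sq_eq_exp, a_eq]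
  have h : (0:ℝ) < (n:ℝ) + 1 := by positivity
  have h1 : (n : ℝ) + 1 = Real.exp (Real.log ((n : ℝ) + 1)) := (Real.exp_log h).symm
  set l := Real.log ((n : ℝ) + 1) with hl
  rw [h1, ← Real.exp_add, ← Real.exp_add]
  apply Real.exp_le_exp.mpr
  have h2 : 0 ≤ κ * (l - V - 5 / (4 * κ)) ^ 2 := by positivity
  have h3 : κ * (l - V - 5 / (4 * κ)) ^ 2 = κ * (l - V) ^ 2 - 5 / 2 * (l - V) + 25 / (16 * κ) := by
    field_simp
    ring
  rw [h3] at h2
  linarith

lemma sum_sq_le (M : ℕ) : ∑ n ∈ Finset.range M, 1 / ((n : ℝ) + 1) ^ 2 ≤ 2 := by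
  have h : ∀ M : ℕ, ∑ n ∈ Finset.range (M + 1), 1 / ((n : ℝ) + 1) ^ 2 ≤ 2 - 1 / ((M : ℝ) + 1) := by
    intro M
    induction M with
    | zero => norm_num
    | succ M ih =>
      rw [Finset.sum_range_succ]
      push_cast
      have h1 : 1 / ((M : ℝ) + 1 + 1) ^ 2 ≤ 1 / ((M : ℝ) + 1) - 1 / ((M : ℝ) + 1 + 1) := by
        rw [← sub_nonneg]
        have : 1 / ((M : ℝ) + 1) - 1 / ((M : ℝ) + 1 + 1) - 1 / ((M : ℝ) + 1 + 1) ^ 2
          = 1 / (((M : ℝ) + 1) * ((M : ℝ) + 1 + 1) ^ 2) := by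
          field_simp
          ring
        rw [this]; positivity
      linarith
  rcases M with _ | M
  · simp
  · have := h M
    have h2 : 0 ≤ 1 / ((M : ℝ) + 1) := by positivity
    linarith

lemma sum_wa_le {κ : ℝ} (hκ : 0 < κ) (V : ℝ) (s : Finset ℕ) :
    ∑ n ∈ s, ((n : ℝ) + 1) * a κ V n ≤ 2 * Real.exp (5 * V / 2 + 25 / (16 * κ)) := by
  obtain ⟨M, hM⟩ := s.exists_nat_subset_range
  calc ∑ n ∈ s, ((n : ℝ) + 1) * a κ V n ≤ ∑ n ∈ Finset.range M, ((n : ℝ) + 1) * a κ V n := by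
        apply Finset.sum_le_sum_of_subset_of_nonneg hM
        intro n _ _
        have := a_pos κ V n
        positivity
    _ ≤ ∑ n ∈ Finset.range M, Real.exp (5 * V / 2 + 25 / (16 * κ)) * (1 / ((n : ℝ) + 1) ^ 2) :=
        Finset.sum_le_sum fun n _ => wa_le hκ V n
    _ = Real.exp (5 * V / 2 + 25 / (16 * κ)) * ∑ n ∈ Finset.range M, (1 / ((n : ℝ) + 1) ^ 2) := by
        rw [Finset.mul_sum]
    _ ≤ Real.exp (5 * V / 2 + 25 / (16 * κ)) * 2 := by
        have := sum_sq_le M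
        gcongr
    _ = _ := by ring

lemma summable_a {κ : ℝ} (hκ : 0 < κ) (V : ℝ) : Summable (a κ V) := by
  apply summable_of_sum_le (c := 2 * Real.exp (5 * V / 2 + 25 / (16 * κ)))
  · intro n; exact (a_pos κ V n).le
  · intro s
    refine le_trans (Finset.sum_le_sum fun n _ => ?_) (sum_wa_le hκ V s)
    have := a_pos κ V n
    have h1 : (1:ℝ) ≤ (n:ℝ) + 1 := by linarith [(Nat.cast_nonneg n : (0:ℝ) ≤ n)]
    nlinarith

/-- separation of logarithms of integers -/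
lemma log_sep (m n : ℕ) (h : Real.log ((m : ℝ) + 1) ≠ Real.log ((n : ℝ) + 1)) :
    1 ≤ ((m : ℝ) + 1) * ((n : ℝ) + 1) * |Real.log ((m : ℝ) + 1) - Real.log ((n : ℝ) + 1)| := by
  wlog hlt : n < m with H
  · have hne : m ≠ n := fun h' => h (by rw [h'])
    have : m < n := by omega
    have := H n m h.symm this
    rw [abs_sub_comm, mul_comm ((m : ℝ) + 1)]
    exact this
  have hm : (0:ℝ) < (m:ℝ) + 1 := by positivity
  have hn : (0:ℝ) < (n:ℝ) + 1 := by positivity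
  have h1 := Real.one_sub_inv_le_log_of_pos (x := ((m : ℝ) + 1) / ((n : ℝ) + 1)) (by positivity)
  rw [Real.log_div hm.ne' hn.ne', inv_div] at h1
  have h2 : 1 / ((m : ℝ) + 1) ≤ 1 - ((n : ℝ) + 1) / ((m : ℝ) + 1) := by
    have h3 : (n : ℝ) + 1 ≤ m := by exact_mod_cast hlt
    rw [← sub_nonneg]
    have : 1 - ((n : ℝ) + 1) / ((m : ℝ) + 1) - 1 / ((m : ℝ) + 1)
      = (m - ((n : ℝ) + 1)) / ((m : ℝ) + 1) := by field_simp; ring
    rw [this]
    apply div_nonneg _ hm.le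
    linarith
  have h4 : 1 / ((m : ℝ) + 1) ≤ |Real.log ((m : ℝ) + 1) - Real.log ((n : ℝ) + 1)| :=
    (h2.trans h1).trans (le_abs_self _)
  have h5 : (1:ℝ) ≤ (n:ℝ) + 1 := by linarith [(Nat.cast_nonneg n : (0:ℝ) ≤ n)]
  calc (1:ℝ) = ((m : ℝ) + 1) * 1 * (1 / ((m : ℝ) + 1)) := by field_simp
    _ ≤ _ := by gcongr

/-- separation for products -/
lemma log_sep2 (m n : ℕ) (hm : 0 < m) (hn : 0 < n) (B : ℝ) (hmB : (m : ℝ) ≤ B) (hnB : (n : ℝ) ≤ B)
    (h : Real.log m ≠ Real.log n) : 1 ≤ B * |Real.log m - Real.log n| := by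
  wlog hlt : n < m with H
  · have hne : m ≠ n := fun h' => h (by rw [h'])
    have : m < n := by omega
    have := H n m hn hm B hnB hmB h.symm this
    rw [abs_sub_comm]
    exact this
  have hm' : (0:ℝ) < (m:ℝ) := by exact_mod_cast hm
  have hn' : (0:ℝ) < (n:ℝ) := by exact_mod_cast hn
  have h1 := Real.one_sub_inv_le_log_of_pos (x := (m : ℝ) / (n : ℝ)) (by positivity)
  rw [Real.log_div hm'.ne' hn'.ne', inv_div] at h1
  have h2 : 1 / (m : ℝ) ≤ 1 - (n : ℝ) / (m : ℝ) := by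
    have h3 : (n : ℝ) + 1 ≤ m := by exact_mod_cast hlt
    rw [← sub_nonneg]
    have : 1 - (n : ℝ) / (m : ℝ) - 1 / (m : ℝ)
      = (m - ((n : ℝ) + 1)) / (m : ℝ) := by field_simp; ring
    rw [this]
    apply div_nonneg _ hm'.le
    linarith
  have h4 : 1 / (m : ℝ) ≤ |Real.log (m : ℝ) - Real.log (n : ℝ)| :=
    (h2.trans h1).trans (le_abs_self _)
  have hB0 : 0 ≤ B := hm'.le.trans hmB
  calc (1:ℝ) = (m : ℝ) * (1 / (m : ℝ)) := by field_simp
    _ ≤ _ := by gcongr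




/-- smoothed coefficients -/
noncomputable def Cf (κ V ρ : ℝ) (u : ℕ → ℂ) (n : ℕ) : ℂ :=
  (ker ρ (Real.log ((n : ℝ) + 1) - V) : ℂ) * ((a κ V n : ℂ) * u n)

lemma norm_Cf (κ V ρ : ℝ) (u : ℕ → ℂ) (hu : ∀ n, ‖u n‖ = 1) (n : ℕ) :
    ‖Cf κ V ρ u n‖ = |ker ρ (Real.log ((n : ℝ) + 1) - V)| * a κ V n := by
  unfold Cf
  rw [norm_mul, norm_mul, hu, mul_one, Complex.norm_real, Complex.norm_real, Real.norm_eq_abs,
    Real.norm_eq_abs, abs_of_pos (a_pos κ V n)]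

lemma norm_Cf_le {ρ : ℝ} (hρ : 0 < ρ) (κ V : ℝ) (u : ℕ → ℂ) (hu : ∀ n, ‖u n‖ = 1) (n : ℕ) :
    ‖Cf κ V ρ u n‖ ≤ ρ * a κ V n := by
  rw [norm_Cf κ V ρ u hu]
  have := ker_abs_le hρ (Real.log ((n : ℝ) + 1) - V)
  have := a_pos κ V n
  gcongr

lemma sum_w_Cf_le {κ ρ : ℝ} (hκ : 0 < κ) (hρ : 0 < ρ) (V : ℝ) (u : ℕ → ℂ) (hu : ∀ n, ‖u n‖ = 1)
    (s : Finset ℕ) :
    ∑ n ∈ s, ((n : ℝ) + 1) * ‖Cf κ V ρ u n‖ ≤ ρ * (2 * Real.exp (5 * V / 2 + 25 / (16 * κ))) := by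
  calc ∑ n ∈ s, ((n : ℝ) + 1) * ‖Cf κ V ρ u n‖ ≤ ∑ n ∈ s, ρ * (((n : ℝ) + 1) * a κ V n) := by
        refine Finset.sum_le_sum fun n _ => ?_
        have := norm_Cf_le hρ κ V u hu n
        calc ((n : ℝ) + 1) * ‖Cf κ V ρ u n‖ ≤ ((n : ℝ) + 1) * (ρ * a κ V n) := by gcongr
          _ = _ := by ring
    _ = ρ * ∑ n ∈ s, ((n : ℝ) + 1) * a κ V n := by rw [Finset.mul_sum]
    _ ≤ _ := by
        have := sum_wa_le hκ V s
        gcongr

lemma a_sq_le {κ : ℝ} (hκ : 0 < κ) (V : ℝ) (n : ℕ) : a κ V n ^ 2 ≤ 1 / ((n : ℝ) + 1) := by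
  have hn : (0:ℝ) < (n:ℝ) + 1 := by positivity
  have h1 : 1 / ((n : ℝ) + 1) = Real.exp (-Real.log ((n : ℝ) + 1)) := by
    rw [Real.exp_neg, Real.exp_log hn, one_div]
  rw [h1, a_eq, ← Real.exp_nat_mul]
  apply Real.exp_le_exp.mpr
  push_cast
  nlinarith [mul_nonneg hκ.le (sq_nonneg (Real.log ((n : ℝ) + 1) - V))]

lemma tail_sum {κ : ℝ} (hκ : 0 < κ) (V ρ : ℝ) (hρ : 0 < ρ) (hV : 12 ≤ V)
    (hV2 : 4 * V ≤ Real.exp V) (u : ℕ → ℂ) (hu : ∀ n, ‖u n‖ = 1) (M : ℕ) :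
    ∑ n ∈ (Finset.range M).filter (fun n : ℕ => ¬ |Real.log ((n : ℝ) + 1) - V| ≤ 1 / V),
      ‖Cf κ V ρ u n‖ ^ 2 ≤ 128 * V ^ 3 / ρ ^ 2 := by
  have hV0 : 0 < V := by linarith
  have hτ : 0 < 1 / V := by positivity
  have hup := tail_up V (1 / V) hτ hV0 (by
    rw [Real.exp_neg]
    have h1 : (Real.exp V)⁻¹ ≤ (4 * V)⁻¹ := by gcongr
    calc 2 * (Real.exp V)⁻¹ ≤ 2 * (4 * V)⁻¹ := by gcongr
      _ = 1 / V / 2 := by field_simp; norm_num) M
  have hdown := tail_down V (1 / V) hτ hV0 (by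
    intro n hn
    have hn1 : (0:ℝ) < (n:ℝ) + 1 := by positivity
    have hn2 : (0:ℝ) < (n:ℝ) + 2 := by positivity
    by_cases hc : 2 * V ≤ (n:ℝ) + 1
    · have h1 := log_step_le n
      have h2 : 1 / ((n:ℝ) + 1) ≤ 1 / (2 * V) := by gcongr
      have h3 : 1 / (2 * V) = 1 / V / 2 := by field_simp
      linarith
    · rw [not_le] at hc
      have h1 : (n:ℝ) + 2 ≤ Real.exp (V / 2) := by
        have h2 := Real.quadratic_le_exp_of_nonneg (x := V / 2) (by positivity)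
        nlinarith
      have h2 : Real.log ((n:ℝ) + 2) ≤ V / 2 := by
        rw [Real.log_le_iff_le_exp hn2]; exact h1
      have h3 : 1 / V ≤ 1 := by
        rw [div_le_one hV0]; linarith
      linarith) M
  have hkey : ∀ n : ℕ, (if ¬ |Real.log ((n : ℝ) + 1) - V| ≤ 1 / V then ‖Cf κ V ρ u n‖ ^ 2 else 0)
      ≤ 16 / ρ ^ 2 * ((if 1 / V < Real.log ((n:ℝ) + 1) - V then
          1 / (((n:ℝ) + 1) * (Real.log ((n:ℝ) + 1) - V) ^ 4) else 0)
        + (if 1 / V < V - Real.log ((n:ℝ) + 1) then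
          1 / (((n:ℝ) + 1) * (Real.log ((n:ℝ) + 1) - V) ^ 4) else 0)) := by
    intro n
    have hn1 : (0:ℝ) < (n:ℝ) + 1 := by positivity
    set ξ : ℝ := Real.log ((n : ℝ) + 1) - V with hξ
    have hξ' : V - Real.log ((n : ℝ) + 1) = -ξ := by rw [hξ]; ring
    rw [hξ']
    have hq : 0 ≤ 1 / (((n:ℝ) + 1) * ξ ^ 4) := by positivity
    by_cases hc : |ξ| ≤ 1 / V
    · rw [if_neg (not_not.mpr hc)]
      have e1 : 0 ≤ (if 1 / V < ξ then 1 / (((n:ℝ) + 1) * ξ ^ 4) else 0) := by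
        split_ifs <;> first | exact hq | exact le_rfl
      have e2 : 0 ≤ (if 1 / V < -ξ then 1 / (((n:ℝ) + 1) * ξ ^ 4) else 0) := by
        split_ifs <;> first | exact hq | exact le_rfl
      positivity
    · rw [if_pos hc]
      rw [not_le] at hc
      have hne : ξ ≠ 0 := by
        intro h
        rw [h, abs_zero] at hc
        linarith
      have h1 : ‖Cf κ V ρ u n‖ ^ 2 ≤ 16 / ρ ^ 2 * (1 / (((n:ℝ) + 1) * ξ ^ 4)) := by
        rw [norm_Cf κ V ρ u hu, mul_pow, ← hξ]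
        have h2 := ker_decay hρ hne
        have h3 := a_sq_le hκ V n
        calc |ker ρ ξ| ^ 2 * a κ V n ^ 2 ≤ (4 / (ρ * ξ ^ 2)) ^ 2 * (1 / ((n:ℝ) + 1)) := by
              gcongr
          _ = _ := by field_simp; norm_num
      have h4 : 1 / (((n:ℝ) + 1) * ξ ^ 4) ≤ (if 1 / V < ξ then 1 / (((n:ℝ) + 1) * ξ ^ 4) else 0)
        + (if 1 / V < -ξ then 1 / (((n:ℝ) + 1) * ξ ^ 4) else 0) := by
        rcases lt_abs.mp hc with h5 | h5
        · rw [if_pos h5]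
          have e2 : 0 ≤ (if 1 / V < -ξ then 1 / (((n:ℝ) + 1) * ξ ^ 4) else 0) := by
            split_ifs <;> first | exact hq | exact le_rfl
          linarith
        · rw [if_pos h5]
          have e1 : 0 ≤ (if 1 / V < ξ then 1 / (((n:ℝ) + 1) * ξ ^ 4) else 0) := by
            split_ifs <;> first | exact hq | exact le_rfl
          linarith
      refine h1.trans ?_
      gcongr
  rw [Finset.sum_filter]
  calc ∑ n ∈ Finset.range M, (if ¬ |Real.log ((n : ℝ) + 1) - V| ≤ 1 / V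
        then ‖Cf κ V ρ u n‖ ^ 2 else 0)
      ≤ ∑ n ∈ Finset.range M, 16 / ρ ^ 2 * ((if 1 / V < Real.log ((n:ℝ) + 1) - V then
          1 / (((n:ℝ) + 1) * (Real.log ((n:ℝ) + 1) - V) ^ 4) else 0)
        + (if 1 / V < V - Real.log ((n:ℝ) + 1) then
          1 / (((n:ℝ) + 1) * (Real.log ((n:ℝ) + 1) - V) ^ 4) else 0)) :=
        Finset.sum_le_sum fun n _ => hkey n
    _ = 16 / ρ ^ 2 * (∑ n ∈ Finset.range M, (if 1 / V < Real.log ((n:ℝ) + 1) - V then
          1 / (((n:ℝ) + 1) * (Real.log ((n:ℝ) + 1) - V) ^ 4) else 0)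
        + ∑ n ∈ Finset.range M, (if 1 / V < V - Real.log ((n:ℝ) + 1) then
          1 / (((n:ℝ) + 1) * (Real.log ((n:ℝ) + 1) - V) ^ 4) else 0)) := by
        rw [← Finset.mul_sum, Finset.sum_add_distrib]
    _ ≤ 16 / ρ ^ 2 * (8 / (3 * (1 / V) ^ 3) + 16 / (3 * (1 / V) ^ 3)) := by gcongr
    _ = 128 * V ^ 3 / ρ ^ 2 := by field_simp; norm_num

lemma count_near (V ρ : ℝ) (hρ : 1 ≤ ρ) (hV : 1 ≤ V) (hρV : ρ ≤ Real.exp V) :
    ∃ A : Finset ℕ, (∀ n ∈ A, |Real.log ((n : ℝ) + 1) - V| ≤ 1 / ρ) ∧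
      Real.exp V / ρ ≤ (A.card : ℝ) := by
  have hρ0 : 0 < ρ := by linarith
  have h1ρ : 1 / ρ ≤ 1 := by rw [div_le_one hρ0]; exact hρ
  refine ⟨Finset.Icc (⌈Real.exp (V - 1 / ρ)⌉₊ - 1) (⌊Real.exp (V + 1 / ρ)⌋₊ - 1), ?_, ?_⟩
  · intro n hn
    rw [Finset.mem_Icc] at hn
    have hc1 : 1 ≤ ⌈Real.exp (V - 1 / ρ)⌉₊ := by
      rw [Nat.one_le_ceil_iff]; exact Real.exp_pos _
    have hfl : 1 ≤ ⌊Real.exp (V + 1 / ρ)⌋₊ := by
      rw [Nat.one_le_floor_iff, Real.one_le_exp_iff]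
      have : 0 < 1 / ρ := by positivity
      linarith
    have h1 : ⌈Real.exp (V - 1 / ρ)⌉₊ ≤ n + 1 := by omega
    have h2 : n + 1 ≤ ⌊Real.exp (V + 1 / ρ)⌋₊ := by omega
    have h3 : Real.exp (V - 1 / ρ) ≤ (n : ℝ) + 1 := by
      have := Nat.ceil_le.mp h1
      push_cast at this; exact this
    have h4 : (n : ℝ) + 1 ≤ Real.exp (V + 1 / ρ) := by
      have := (Nat.le_floor_iff (Real.exp_pos _).le).mp h2
      push_cast at this; exact this
    have hn1 : (0:ℝ) < (n:ℝ) + 1 := by positivity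
    rw [abs_le]
    have h5 : V - 1 / ρ ≤ Real.log ((n : ℝ) + 1) := by
      rw [Real.le_log_iff_exp_le hn1]; exact h3
    have h6 : Real.log ((n : ℝ) + 1) ≤ V + 1 / ρ := by
      rw [Real.log_le_iff_le_exp hn1]; exact h4
    constructor <;> linarith
  · rw [Nat.card_Icc]
    have hc1 : 1 ≤ ⌈Real.exp (V - 1 / ρ)⌉₊ := by
      rw [Nat.one_le_ceil_iff]; exact Real.exp_pos _
    have hfl : 1 ≤ ⌊Real.exp (V + 1 / ρ)⌋₊ := by
      rw [Nat.one_le_floor_iff, Real.one_le_exp_iff]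
      have : 0 < 1 / ρ := by positivity
      linarith
    have h1 : (⌊Real.exp (V + 1 / ρ)⌋₊ : ℝ) - (⌈Real.exp (V - 1 / ρ)⌉₊ : ℝ) + 1
        ≤ ((⌊Real.exp (V + 1 / ρ)⌋₊ - 1 + 1 - (⌈Real.exp (V - 1 / ρ)⌉₊ - 1) : ℕ) : ℝ) := by
      have h2 : ⌊Real.exp (V + 1 / ρ)⌋₊ + 1 ≤
        (⌊Real.exp (V + 1 / ρ)⌋₊ - 1 + 1 - (⌈Real.exp (V - 1 / ρ)⌉₊ - 1))
          + ⌈Real.exp (V - 1 / ρ)⌉₊ := by omega
      have h3 : ((⌊Real.exp (V + 1 / ρ)⌋₊ + 1 : ℕ) : ℝ) ≤
        (((⌊Real.exp (V + 1 / ρ)⌋₊ - 1 + 1 - (⌈Real.exp (V - 1 / ρ)⌉₊ - 1))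
          + ⌈Real.exp (V - 1 / ρ)⌉₊ : ℕ) : ℝ) := by exact_mod_cast h2
      rw [Nat.cast_add, Nat.cast_add] at h3
      push_cast at h3 ⊢
      linarith
    refine le_trans ?_ h1
    have h2 := Nat.lt_floor_add_one (Real.exp (V + 1 / ρ))
    have h3 := Nat.ceil_lt_add_one (Real.exp_pos (V - 1 / ρ)).le
    have h4 : Real.exp V * (2 * (1 / ρ)) ≤ Real.exp (V + 1 / ρ) - Real.exp (V - 1 / ρ) := by
      have h5 : Real.exp (V + 1 / ρ) - Real.exp (V - 1 / ρ)
          = Real.exp V * (Real.exp (1 / ρ) - Real.exp (-(1 / ρ))) := by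
        rw [sub_eq_add_neg V, Real.exp_add, Real.exp_add]; ring
      rw [h5]
      have h6 : 2 * (1 / ρ) ≤ Real.exp (1 / ρ) - Real.exp (-(1 / ρ)) := by
        have h7 := Real.self_le_sinh_iff.mpr (show 0 ≤ 1 / ρ by positivity)
        rw [Real.sinh_eq] at h7
        linarith
      gcongr
    have h8 : 1 ≤ Real.exp V / ρ := by
      rw [le_div_iff₀ hρ0]; linarith
    have h9 : Real.exp V * (2 * (1 / ρ)) = 2 * (Real.exp V / ρ) := by ring
    linarith



/-- lower bound for the second moment -/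
lemma s2_lower {κ : ℝ} (hκ : 0 < κ) (V ρ : ℝ) (hρ : 4 ≤ ρ) (hρκ : 8 * κ ≤ ρ) (hV : 1 ≤ V)
    (hVρ : V ≤ ρ) (hρV : ρ ≤ Real.exp V) (u : ℕ → ℂ) (hu : ∀ n, ‖u n‖ = 1) (M : ℕ)
    (hM : Real.exp (V + 1) ≤ M) :
    ρ / 8 ≤ ∑ n ∈ (Finset.range M).filter (fun n : ℕ => |Real.log ((n : ℝ) + 1) - V| ≤ 1 / V),
      ‖Cf κ V ρ u n‖ ^ 2 := by
  have hV0 : 0 < V := by linarith
  have hρ0 : 0 < ρ := by linarith
  obtain ⟨A, hA, hcard⟩ := count_near V ρ (by linarith) hV hρV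
  have hsub : A ⊆ (Finset.range M).filter
      (fun n : ℕ => |Real.log ((n : ℝ) + 1) - V| ≤ 1 / V) := by
    intro n hn
    have h1 := hA n hn
    have hn1 : (0:ℝ) < (n:ℝ) + 1 := by positivity
    rw [Finset.mem_filter, Finset.mem_range]
    constructor
    · have h2 : Real.log ((n : ℝ) + 1) ≤ V + 1 := by
        have h3 := (abs_le.mp h1).2
        have h4 : 1 / ρ ≤ 1 := by rw [div_le_one hρ0]; linarith
        linarith
      rw [Real.log_le_iff_le_exp hn1] at h2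
      have h3 : (n : ℝ) < M := by linarith
      exact_mod_cast h3
    · refine h1.trans ?_
      gcongr
  have hterm : ∀ n ∈ A, ρ ^ 2 / 8 * Real.exp (-V) ≤ ‖Cf κ V ρ u n‖ ^ 2 := by
    intro n hn
    have h1 := hA n hn
    have hn1 : (0:ℝ) < (n:ℝ) + 1 := by positivity
    rw [norm_Cf κ V ρ u hu, mul_pow]
    set ξ : ℝ := Real.log ((n : ℝ) + 1) - V with hξ
    have h2 : ρ / 2 ≤ ker ρ ξ := by
      apply ker_ge hρ0
      calc ρ * |ξ| ≤ ρ * (1 / ρ) := by gcongr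
        _ = 1 := by field_simp
    have h3 : ρ / 2 ≤ |ker ρ ξ| := h2.trans (le_abs_self _)
    have h4 : Real.exp (-V) * (1 / 2) ≤ a κ V n ^ 2 := by
      rw [a_eq, ← Real.exp_nat_mul, ← hξ]
      have h5 : (1:ℝ) / 2 ≤ Real.exp (-(1 / 2)) := by
        have := Real.add_one_le_exp (-(1 / 2) : ℝ)
        linarith
      calc Real.exp (-V) * (1 / 2) ≤ Real.exp (-V) * Real.exp (-(1 / 2)) := by gcongr
        _ = Real.exp (-V - 1 / 2) := by rw [← Real.exp_add]; ring_nf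
        _ ≤ _ := by
            apply Real.exp_le_exp.mpr
            push_cast
            have h6 : ξ ≤ 1 / ρ := (abs_le.mp h1).2
            have h7 : ξ ^ 2 ≤ (1 / ρ) ^ 2 := by
              rw [← sq_abs]; gcongr
            have h8 : 1 / ρ ≤ 1 / 4 := by gcongr
            have h9 : κ * (1 / ρ) ≤ 1 / 8 := by
              rw [mul_one_div, div_le_iff₀ hρ0]; linarith
            have h10 : 0 < 1 / ρ := by positivity
            have h11 : κ * ξ ^ 2 ≤ 1 / 32 := by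
              calc κ * ξ ^ 2 ≤ κ * (1 / ρ) ^ 2 := by gcongr
                _ = (κ * (1 / ρ)) * (1 / ρ) := by ring
                _ ≤ 1 / 8 * (1 / 4) := by gcongr
                _ = 1 / 32 := by norm_num
            have h12 : Real.log ((n : ℝ) + 1) = V + ξ := by rw [hξ]; ring
            rw [h12]
            nlinarith
    calc ρ ^ 2 / 8 * Real.exp (-V) = (ρ / 2) ^ 2 * (Real.exp (-V) * (1 / 2)) := by ring
      _ ≤ _ := by gcongr
  calc ρ / 8 = (Real.exp V / ρ) * (ρ ^ 2 / 8 * Real.exp (-V)) := by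
        rw [Real.exp_neg]; field_simp
    _ ≤ (A.card : ℝ) * (ρ ^ 2 / 8 * Real.exp (-V)) := by gcongr
    _ = ∑ n ∈ A, (ρ ^ 2 / 8 * Real.exp (-V)) := by rw [Finset.sum_const, nsmul_eq_mul]
    _ ≤ ∑ n ∈ A, ‖Cf κ V ρ u n‖ ^ 2 := Finset.sum_le_sum hterm
    _ ≤ _ := Finset.sum_le_sum_of_subset_of_nonneg hsub fun _ _ _ => by positivity

/-- numerical facts about the main block -/
lemma block_facts (V : ℝ) (hV : 12 ≤ V) :
    1 ≤ Real.exp (V - 1 / V) ∧ 1 ≤ Real.exp (V + 1 / V) - Real.exp (V - 1 / V) ∧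
    Real.exp (V + 1 / V) - Real.exp (V - 1 / V) ≤ 3 / V * Real.exp (V - 1 / V) := by
  have hV0 : 0 < V := by linarith
  have h1V : 1 / V ≤ 1 / 12 := by gcongr
  have h1V0 : 0 < 1 / V := by positivity
  refine ⟨?_, ?_, ?_⟩
  · rw [Real.one_le_exp_iff]; linarith
  · have h5 : Real.exp (V + 1 / V) - Real.exp (V - 1 / V)
          = Real.exp V * (Real.exp (1 / V) - Real.exp (-(1 / V))) := by
        rw [sub_eq_add_neg V, Real.exp_add, Real.exp_add]; ring
    rw [h5]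
    have h6 : 2 * (1 / V) ≤ Real.exp (1 / V) - Real.exp (-(1 / V)) := by
      have h7 := Real.self_le_sinh_iff.mpr h1V0.le
      rw [Real.sinh_eq] at h7
      linarith
    have h8 : V ≤ Real.exp V := by
      have := Real.add_one_le_exp V
      linarith
    calc (1:ℝ) ≤ V * (2 * (1 / V)) := by
          have : V * (2 * (1 / V)) = 2 := by field_simp
          rw [this]; norm_num
      _ ≤ _ := by gcongr
  · have h5 : Real.exp (V + 1 / V) - Real.exp (V - 1 / V)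
          = (Real.exp (2 / V) - 1) * Real.exp (V - 1 / V) := by
        rw [sub_mul, ← Real.exp_add, one_mul]
        congr 2
        field_simp
        ring
    rw [h5]
    have h6 : Real.exp (2 / V) - 1 ≤ 3 / V := by
      have h7 : |2 / V| ≤ 1 := by
        rw [abs_of_pos (by positivity), div_le_one hV0]; linarith
      have h8 := Real.abs_exp_sub_one_sub_id_le h7
      have h9 := (abs_le.mp h8).2
      have h10 : (2 / V) ^ 2 ≤ 1 / V := by
        have : (2 / V) ^ 2 = (4 / V) * (1 / V) := by ring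
        rw [this]
        have : 4 / V ≤ 1 := by rw [div_le_one hV0]; linarith
        nlinarith
      have h11 : 3 / V = 2 / V + 1 / V := by ring
      linarith
    gcongr

lemma card_block (V : ℝ) (hV : 12 ≤ V) (s : Finset ℕ)
    (hs : ∀ n ∈ s, |Real.log ((n : ℝ) + 1) - V| ≤ 1 / V) :
    (s.card : ℝ) ≤ 2 * (Real.exp (V + 1 / V) - Real.exp (V - 1 / V)) := by
  obtain ⟨hb1, hb2, hb3⟩ := block_facts V hV
  obtain ⟨N, hN⟩ : ∃ N : ℝ, N = Real.exp (V - 1 / V) := ⟨_, rfl⟩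
  obtain ⟨K, hK⟩ : ∃ K : ℝ, K = Real.exp (V + 1 / V) - Real.exp (V - 1 / V) := ⟨_, rfl⟩
  have hNK : Real.exp (V + 1 / V) = N + K := by rw [hN, hK]; ring
  rw [← hK] at hb2 hb3 ⊢
  rw [← hN] at hb1 hb3
  clear hK
  have h := card_dvd_le 1 one_pos N K (by linarith) (by linarith) (s.image (· + 1)) (by
    intro m hm
    rw [Finset.mem_image] at hm
    obtain ⟨n, hn, rfl⟩ := hm
    have h1 := abs_le.mp (hs n hn)
    have hn1 : (0:ℝ) < (n:ℝ) + 1 := by positivity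
    push_cast
    constructor
    · rw [hN, ← Real.le_log_iff_exp_le hn1]; linarith
    · rw [← hNK, ← Real.log_le_iff_le_exp hn1]; linarith)
  have hf : (s.image (· + 1)).filter (1 ∣ ·) = s.image (· + 1) := by
    apply Finset.filter_true_of_mem
    intro x _
    exact one_dvd x
  rw [hf, Finset.card_image_of_injective _ (add_left_injective 1)] at h
  simp only [Nat.cast_one, div_one] at h
  linarith

/-- pure inequality for the diagonal count -/
lemma q_bound (N K V q : ℝ) (hV : 12 ≤ V) (hN : 1 ≤ N) (hK : 1 ≤ K) (hKN0 : K ≤ 3 / V * N)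
    (hlog : Real.log K ≤ V) (hq0 : 0 ≤ q) (hq : q ≤ 2 * K) :
    q ^ 2 + K / N * (q * (N + K) + 4 * K ^ 2 * (1 + Real.log K)) ≤ 20 * K ^ 2 := by
  have hV0 : 0 < V := by linarith
  have hN0 : 0 < N := by linarith
  have hK0 : 0 < K := by linarith
  have hKN : K / N ≤ 3 / V := by
    rw [div_le_iff₀ hN0]; exact hKN0
  have hKN' : K / N ≤ 1 / 4 := by
    refine hKN.trans ?_
    rw [div_le_iff₀ hV0]; linarith
  have hlogK0 : 0 ≤ Real.log K := Real.log_nonneg hK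
  have e1 : q ^ 2 ≤ 4 * K ^ 2 := by
    calc q ^ 2 ≤ (2 * K) ^ 2 := by gcongr
      _ = _ := by ring
  have e2 : K / N * (q * (N + K)) ≤ 3 * K ^ 2 := by
    calc K / N * (q * (N + K)) ≤ K / N * (2 * K * (N + K)) := by gcongr
      _ = 2 * K ^ 2 * (1 + K / N) := by field_simp
      _ ≤ 2 * K ^ 2 * (1 + 1 / 4) := by gcongr
      _ ≤ 3 * K ^ 2 := by nlinarith [sq_nonneg K]
  have e3 : K / N * (4 * K ^ 2 * (1 + Real.log K)) ≤ 13 * K ^ 2 := by
    calc K / N * (4 * K ^ 2 * (1 + Real.log K)) ≤ 3 / V * (4 * K ^ 2 * (1 + V)) := by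
          gcongr
      _ = 12 * K ^ 2 * (1 + 1 / V) := by field_simp; ring
      _ ≤ 12 * K ^ 2 * (1 + 1 / 12) := by gcongr
      _ = 13 * K ^ 2 := by ring
  calc q ^ 2 + K / N * (q * (N + K) + 4 * K ^ 2 * (1 + Real.log K))
      = q ^ 2 + K / N * (q * (N + K))
        + K / N * (4 * K ^ 2 * (1 + Real.log K)) := by ring
    _ ≤ 20 * K ^ 2 := by linarith

/-- the fourth moment -/
lemma fourth_moment {κ : ℝ} (hκ : 0 < κ) (V ρ J : ℝ) (hJ : 1 ≤ J) (hρJ : ρ = J * V)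
    (hV : 12 ≤ V) (u : ℕ → ℂ)
    (hu : ∀ n, ‖u n‖ = 1) (s : Finset ℕ) (hs : ∀ n ∈ s, |Real.log ((n : ℝ) + 1) - V| ≤ 1 / V)
    (X H : ℝ) (hH : Real.exp (10 * V) ≤ H) :
    (∫ x in X..(X + H), ‖∑ n ∈ s, Cf κ V ρ u n * e (Real.log ((n : ℝ) + 1)) x‖ ^ 4 : ℝ)
      ≤ H * (200 * J ^ 2 * ρ ^ 2) := by
  have hV0 : 0 < V := by linarith
  have hρ0 : 0 < ρ := by rw [hρJ]; positivity
  have hH0 : 0 < H := lt_of_lt_of_le (Real.exp_pos _) hH
  obtain ⟨hb1, hb2, hb3⟩ := block_facts V hV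
  have hcard := card_block V hV s hs
  obtain ⟨N, hN⟩ : ∃ N : ℝ, N = Real.exp (V - 1 / V) := ⟨_, rfl⟩
  obtain ⟨K, hK⟩ : ∃ K : ℝ, K = Real.exp (V + 1 / V) - Real.exp (V - 1 / V) := ⟨_, rfl⟩
  have hNK : Real.exp (V + 1 / V) = N + K := by rw [hN, hK]; ring
  rw [← hK] at hb2 hb3 hcard
  rw [← hN] at hb1 hb3
  clear hK
  have hN0 : 0 < N := by linarith
  have hK0 : 0 < K := by linarith
  have hmem : ∀ n ∈ s, N ≤ ((n + 1 : ℕ) : ℝ) ∧ ((n + 1 : ℕ) : ℝ) ≤ N + K := by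
    intro n hn
    have h1 := abs_le.mp (hs n hn)
    have hn1 : (0:ℝ) < (n:ℝ) + 1 := by positivity
    push_cast
    constructor
    · rw [hN, ← Real.le_log_iff_exp_le hn1]; linarith
    · rw [← hNK, ← Real.log_le_iff_le_exp hn1]; linarith
  -- coefficient bound
  obtain ⟨m4, hm4⟩ : ∃ m4 : ℝ, m4 = ρ * Real.exp (-(V - 1 / V) / 2) := ⟨_, rfl⟩
  have hm40 : 0 < m4 := by rw [hm4]; positivity
  have hm4sq : m4 ^ 2 = ρ ^ 2 / N := by
    have h1 : Real.exp (-(V - 1 / V) / 2) ^ 2 = N⁻¹ := by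
      rw [← Real.exp_nat_mul, hN, ← Real.exp_neg]
      congr 1
      push_cast
      ring
    rw [hm4, mul_pow, h1, div_eq_mul_inv]
  have hcoef : ∀ n ∈ s, ‖Cf κ V ρ u n‖ ≤ m4 := by
    intro n hn
    refine (norm_Cf_le hρ0 κ V u hu n).trans ?_
    rw [hm4, a_eq]
    have h1 := abs_le.mp (hs n hn)
    gcongr
    have h2 : 0 ≤ κ * (Real.log ((n : ℝ) + 1) - V) ^ 2 := by positivity
    linarith
  -- rewrite the fourth power
  have hsq : ∀ x, ‖∑ n ∈ s, Cf κ V ρ u n * e (Real.log ((n : ℝ) + 1)) x‖ ^ 4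
      = ‖∑ p ∈ s ×ˢ s, (Cf κ V ρ u p.1 * Cf κ V ρ u p.2)
          * e (Real.log (((p.1 + 1) * (p.2 + 1) : ℕ) : ℝ)) x‖ ^ 2 := by
    intro x
    have h1 : ∑ p ∈ s ×ˢ s, (Cf κ V ρ u p.1 * Cf κ V ρ u p.2)
          * e (Real.log (((p.1 + 1) * (p.2 + 1) : ℕ) : ℝ)) x
        = (∑ n ∈ s, Cf κ V ρ u n * e (Real.log ((n : ℝ) + 1)) x) ^ 2 := by
      rw [sq, Finset.sum_mul_sum, Finset.sum_product]
      refine Finset.sum_congr rfl fun i _ => Finset.sum_congr rfl fun j _ => ?_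
      have h2 : e (Real.log (((i + 1) * (j + 1) : ℕ) : ℝ)) x
          = e (Real.log ((i : ℝ) + 1)) x * e (Real.log ((j : ℝ) + 1)) x := by
        have hi : (0:ℝ) < (i:ℝ) + 1 := by positivity
        have hj : (0:ℝ) < (j:ℝ) + 1 := by positivity
        push_cast
        rw [Real.log_mul hi.ne' hj.ne']
        unfold e
        rw [← Complex.exp_add]
        congr 1
        push_cast
        ring
      rw [h2]; ring
    rw [h1, norm_pow]
    ring
  simp_rw [hsq]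
  obtain ⟨W, hW⟩ : ∃ W : ℝ, W = Real.exp (V + 1 / V) := ⟨_, rfl⟩
  have hW0 : 0 < W := by rw [hW]; exact Real.exp_pos _
  have hpair : ∀ p ∈ s ×ˢ s, ((((p.1 + 1) * (p.2 + 1) : ℕ)) : ℝ) ≤ W * W := by
    intro p hp
    rw [Finset.mem_product] at hp
    have h1 := (hmem p.1 hp.1).2
    have h2 := (hmem p.2 hp.2).2
    rw [Nat.cast_mul, hW, hNK]
    have h3 : (0:ℝ) ≤ ((p.1 + 1 : ℕ) : ℝ) := Nat.cast_nonneg _
    have h4 : (0:ℝ) ≤ ((p.2 + 1 : ℕ) : ℝ) := Nat.cast_nonneg _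
    gcongr
  have hup := mean_upper (s ×ˢ s) (fun p => Cf κ V ρ u p.1 * Cf κ V ρ u p.2)
    (fun p => Real.log (((p.1 + 1) * (p.2 + 1) : ℕ) : ℝ)) (fun _ => W)
    (fun _ _ => hW0.le) (by
      intro p hp q hq hne
      exact log_sep2 _ _ (by positivity) (by positivity) (W * W) (hpair p hp) (hpair q hq) hne)
    X H hH0.le
  refine hup.trans ?_
  -- diagonal contribution
  have hcount := count_le N K hb1 hb2 (s.image (· + 1)) (by
    intro m hm
    rw [Finset.mem_image] at hm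
    obtain ⟨n, hn, rfl⟩ := hm
    exact hmem n hn)
  rw [Finset.card_image_of_injective _ (add_left_injective 1)] at hcount
  have hinj : Set.InjOn (fun n : ℕ => n + 1) (s : Set ℕ) := (add_left_injective 1).injOn
  have hQ : ∑ p ∈ s ×ˢ s, ∑ q ∈ s ×ˢ s,
      (if (p.1 + 1) * (p.2 + 1) = (q.1 + 1) * (q.2 + 1) then (1:ℝ) else 0)
      ≤ 20 * K ^ 2 := by
    have h1 : ∑ p ∈ s ×ˢ s, ∑ q ∈ s ×ˢ s,
        (if (p.1 + 1) * (p.2 + 1) = (q.1 + 1) * (q.2 + 1) then (1:ℝ) else 0)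
        = ∑ a ∈ s.image (· + 1), ∑ b ∈ s.image (· + 1), ∑ c ∈ s.image (· + 1),
          ∑ d ∈ s.image (· + 1), (if a * b = c * d then (1:ℝ) else 0) := by
      rw [Finset.sum_product, Finset.sum_image hinj]
      refine Finset.sum_congr rfl fun a _ => ?_
      rw [Finset.sum_image hinj]
      refine Finset.sum_congr rfl fun b _ => ?_
      rw [Finset.sum_product, Finset.sum_image hinj]
      refine Finset.sum_congr rfl fun c _ => ?_
      rw [Finset.sum_image hinj]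
    rw [h1]
    refine hcount.trans ?_
    have hKleN : K ≤ N := by
      refine hb3.trans ?_
      have : 3 / V ≤ 1 := by rw [div_le_one hV0]; linarith
      nlinarith
    have hlogK : Real.log K ≤ V := by
      have h2 : Real.log K ≤ Real.log N := Real.log_le_log hK0 hKleN
      have h3 : Real.log N = V - 1 / V := by rw [hN, Real.log_exp]
      have h4 : 0 < 1 / V := by positivity
      linarith
    exact q_bound N K V s.card hV hb1 hb2 hb3 hlogK (Nat.cast_nonneg _) hcard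
  have hKV : K / N ≤ 3 / V := by
    rw [div_le_iff₀ hN0]; exact hb3
  have hdiag : ∑ p ∈ s ×ˢ s, ∑ q ∈ s ×ˢ s,
      (if Real.log (((p.1 + 1) * (p.2 + 1) : ℕ) : ℝ) = Real.log (((q.1 + 1) * (q.2 + 1) : ℕ) : ℝ)
        then ‖Cf κ V ρ u p.1 * Cf κ V ρ u p.2‖ * ‖Cf κ V ρ u q.1 * Cf κ V ρ u q.2‖ else 0)
      ≤ 180 * J ^ 2 * ρ ^ 2 := by
    calc ∑ p ∈ s ×ˢ s, ∑ q ∈ s ×ˢ s,
      (if Real.log (((p.1 + 1) * (p.2 + 1) : ℕ) : ℝ) = Real.log (((q.1 + 1) * (q.2 + 1) : ℕ) : ℝ)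
        then ‖Cf κ V ρ u p.1 * Cf κ V ρ u p.2‖ * ‖Cf κ V ρ u q.1 * Cf κ V ρ u q.2‖ else 0)
        ≤ ∑ p ∈ s ×ˢ s, ∑ q ∈ s ×ˢ s, m4 ^ 4 *
          (if (p.1 + 1) * (p.2 + 1) = (q.1 + 1) * (q.2 + 1) then (1:ℝ) else 0) := by
          refine Finset.sum_le_sum fun p hp => Finset.sum_le_sum fun q hq => ?_
          rw [Finset.mem_product] at hp hq
          by_cases heq : (p.1 + 1) * (p.2 + 1) = (q.1 + 1) * (q.2 + 1)
          · rw [if_pos heq, if_pos (by rw [heq]), norm_mul, norm_mul]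
            have h1 := hcoef _ hp.1
            have h2 := hcoef _ hp.2
            have h3 := hcoef _ hq.1
            have h4 := hcoef _ hq.2
            calc ‖Cf κ V ρ u p.1‖ * ‖Cf κ V ρ u p.2‖ * (‖Cf κ V ρ u q.1‖ * ‖Cf κ V ρ u q.2‖)
                ≤ m4 * m4 * (m4 * m4) := by gcongr
              _ = m4 ^ 4 * 1 := by ring
          · rw [if_neg heq, if_neg, mul_zero]
            intro h
            apply heq
            have h5 : (0:ℝ) < (((p.1 + 1) * (p.2 + 1) : ℕ) : ℝ) := by positivity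
            have h6 : (0:ℝ) < (((q.1 + 1) * (q.2 + 1) : ℕ) : ℝ) := by positivity
            have := Real.log_injOn_pos (Set.mem_Ioi.mpr h5) (Set.mem_Ioi.mpr h6) h
            exact_mod_cast this
      _ = m4 ^ 4 * ∑ p ∈ s ×ˢ s, ∑ q ∈ s ×ˢ s,
          (if (p.1 + 1) * (p.2 + 1) = (q.1 + 1) * (q.2 + 1) then (1:ℝ) else 0) := by
          simp_rw [← Finset.mul_sum]
      _ ≤ m4 ^ 4 * (20 * K ^ 2) := by gcongr
      _ = 20 * ρ ^ 4 * (K / N) ^ 2 := by
          have : m4 ^ 4 = (m4 ^ 2) ^ 2 := by ring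
          rw [this, hm4sq]; field_simp
      _ ≤ 20 * ρ ^ 4 * (3 / V) ^ 2 := by gcongr
      _ = 180 * J ^ 2 * ρ ^ 2 := by rw [hρJ]; field_simp; ring
  -- error term
  have herr : 2 * (∑ p ∈ s ×ˢ s, W * ‖Cf κ V ρ u p.1 * Cf κ V ρ u p.2‖) ^ 2
      ≤ 20 * J ^ 2 * ρ ^ 2 * H := by
    have h1 : ∑ p ∈ s ×ˢ s, W * ‖Cf κ V ρ u p.1 * Cf κ V ρ u p.2‖
        ≤ W * ((2 * K) ^ 2 * (ρ ^ 2 / N)) := by
      calc ∑ p ∈ s ×ˢ s, W * ‖Cf κ V ρ u p.1 * Cf κ V ρ u p.2‖
          ≤ ∑ p ∈ s ×ˢ s, W * (ρ ^ 2 / N) := by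
            refine Finset.sum_le_sum fun p hp => ?_
            rw [Finset.mem_product] at hp
            rw [norm_mul, ← hm4sq]
            have h1 := hcoef _ hp.1
            have h2 := hcoef _ hp.2
            calc W * (‖Cf κ V ρ u p.1‖ * ‖Cf κ V ρ u p.2‖) ≤ W * (m4 * m4) := by gcongr
              _ = _ := by ring
        _ = (s.card : ℝ) ^ 2 * (W * (ρ ^ 2 / N)) := by
            rw [Finset.sum_const, Finset.card_product, nsmul_eq_mul]; push_cast; ring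
        _ ≤ (2 * K) ^ 2 * (W * (ρ ^ 2 / N)) := by gcongr
        _ = _ := by ring
    have h0 : 0 ≤ ∑ p ∈ s ×ˢ s, W * ‖Cf κ V ρ u p.1 * Cf κ V ρ u p.2‖ :=
      Finset.sum_nonneg fun _ _ => by positivity
    have h2 : W * ((2 * K) ^ 2 * (ρ ^ 2 / N)) = 4 * (W * N) * (K / N) ^ 2 * ρ ^ 2 := by
      field_simp
      norm_num
    have hWN : W * N = Real.exp (2 * V) := by
      rw [hW, hN, ← Real.exp_add]; ring_nf
    have h3 : W * ((2 * K) ^ 2 * (ρ ^ 2 / N)) ≤ 36 * Real.exp (2 * V) * J ^ 2 := by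
      rw [h2, hWN]
      calc 4 * Real.exp (2 * V) * (K / N) ^ 2 * ρ ^ 2
          ≤ 4 * Real.exp (2 * V) * (3 / V) ^ 2 * ρ ^ 2 := by gcongr
        _ = _ := by rw [hρJ]; field_simp; ring
    calc 2 * (∑ p ∈ s ×ˢ s, W * ‖Cf κ V ρ u p.1 * Cf κ V ρ u p.2‖) ^ 2
        ≤ 2 * (36 * Real.exp (2 * V) * J ^ 2) ^ 2 := by
          have := h1.trans h3
          gcongr
      _ = 2592 * J ^ 4 * Real.exp (4 * V) := by
          have : Real.exp (4 * V) = Real.exp (2 * V) ^ 2 := by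
            rw [← Real.exp_nat_mul]; congr 1; push_cast; ring
          rw [this]; ring
      _ ≤ 20 * J ^ 2 * ρ ^ 2 * Real.exp (10 * V) := by
          rw [hρJ]
          have h4 : Real.exp (4 * V) ≤ Real.exp (10 * V) := by
            apply Real.exp_le_exp.mpr; linarith
          have h5 : (144:ℝ) ≤ V ^ 2 := by nlinarith
          calc 2592 * J ^ 4 * Real.exp (4 * V) ≤ 2592 * J ^ 4 * Real.exp (10 * V) := by gcongr
            _ ≤ 20 * V ^ 2 * J ^ 4 * Real.exp (10 * V) := by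
                have : (2592:ℝ) ≤ 20 * V ^ 2 := by linarith
                gcongr
            _ = _ := by ring
      _ ≤ _ := by gcongr
  have hfin := mul_le_mul_of_nonneg_left hdiag hH0.le
  calc _ ≤ H * (180 * J ^ 2 * ρ ^ 2) + 20 * J ^ 2 * ρ ^ 2 * H := add_le_add hfin herr
    _ = _ := by ring



lemma log_inj (m n : ℕ) (h : Real.log ((m : ℝ) + 1) = Real.log ((n : ℝ) + 1)) : m = n := by
  have h5 : (0:ℝ) < (m : ℝ) + 1 := by positivity
  have h6 : (0:ℝ) < (n : ℝ) + 1 := by positivity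
  have := Real.log_injOn_pos (Set.mem_Ioi.mpr h5) (Set.mem_Ioi.mpr h6) h
  have h7 : (m : ℝ) = n := by linarith
  exact_mod_cast h7

/-- the set where the smoothed sum is large -/
lemma core {κ : ℝ} (hκ : 0 < κ) (J V ρ : ℝ) (hJ : J = 10 ^ 12) (hρJ : ρ = J * V) (hV : 12 ≤ V)
    (hVκ : 8 * κ ≤ V)
    (hexp : (8 * J ^ 4 * Real.exp (25 / (8 * κ)) + J + 4) * V ≤ Real.exp V)
    (u : ℕ → ℂ) (hu : ∀ n, ‖u n‖ = 1) (M : ℕ) (hM : Real.exp (V + 1) ≤ M) (X H : ℝ)
    (hH : Real.exp (10 * V) ≤ H) :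
    ∃ S : Set ℝ, MeasurableSet S ∧ S ⊆ Set.Icc X (X + H) ∧
        ENNReal.ofReal (1 / 10 ^ 30 * H) ≤ volume S ∧
        ∀ x ∈ S, 3 ≤ ‖∑ n ∈ Finset.range M, Cf κ V ρ u n * e (Real.log ((n : ℝ) + 1)) x‖ := by
  have hJ1 : 1 ≤ J := by rw [hJ]; norm_num
  have hJ0 : 0 < J := by linarith
  have hV0 : 0 < V := by linarith
  have hρ0 : 0 < ρ := by rw [hρJ]; positivity
  have hH0 : 0 < H := lt_of_lt_of_le (Real.exp_pos _) hH
  have hVρ : V ≤ ρ := by
    rw [hρJ]; nlinarith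
  have hE0 : 0 < Real.exp (25 / (8 * κ)) := Real.exp_pos _
  have h4V : 4 * V ≤ Real.exp V := by
    refine le_trans ?_ hexp
    have : 4 ≤ 8 * J ^ 4 * Real.exp (25 / (8 * κ)) + J + 4 := by
      have : 0 ≤ 8 * J ^ 4 * Real.exp (25 / (8 * κ)) := by positivity
      linarith
    gcongr
  have hρV : ρ ≤ Real.exp V := by
    refine le_trans ?_ hexp
    rw [hρJ]
    have : J ≤ 8 * J ^ 4 * Real.exp (25 / (8 * κ)) + J + 4 := by
      have : 0 ≤ 8 * J ^ 4 * Real.exp (25 / (8 * κ)) := by positivity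
      linarith
    gcongr
  -- error bound
  have herr : ∀ s : Finset ℕ, 2 * (∑ n ∈ s, ((n : ℝ) + 1) * ‖Cf κ V ρ u n‖) ^ 2
      ≤ H * (ρ / J ^ 3) := by
    intro s
    have h0 : 0 ≤ ∑ n ∈ s, ((n : ℝ) + 1) * ‖Cf κ V ρ u n‖ :=
      Finset.sum_nonneg fun _ _ => by positivity
    have h1 := sum_w_Cf_le hκ hρ0 V u hu s
    have h2 : Real.exp (5 * V / 2 + 25 / (16 * κ)) ^ 2
        = Real.exp (5 * V) * Real.exp (25 / (8 * κ)) := by
      rw [← Real.exp_nat_mul, ← Real.exp_add]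
      congr 1
      push_cast
      field_simp
      ring
    have h3 : 8 * J ^ 4 * Real.exp (25 / (8 * κ)) * V ≤ Real.exp V := by
      refine le_trans ?_ hexp
      have : 8 * J ^ 4 * Real.exp (25 / (8 * κ))
        ≤ 8 * J ^ 4 * Real.exp (25 / (8 * κ)) + J + 4 := by linarith
      gcongr
    calc 2 * (∑ n ∈ s, ((n : ℝ) + 1) * ‖Cf κ V ρ u n‖) ^ 2
        ≤ 2 * (ρ * (2 * Real.exp (5 * V / 2 + 25 / (16 * κ)))) ^ 2 := by gcongr
      _ = 8 * ρ ^ 2 * (Real.exp (5 * V / 2 + 25 / (16 * κ)) ^ 2) := by ring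
      _ = (Real.exp (5 * V) * (8 * J ^ 4 * Real.exp (25 / (8 * κ)) * V)) * (ρ / J ^ 3) := by
          rw [h2, hρJ]; field_simp
      _ ≤ (Real.exp (5 * V) * Real.exp V) * (ρ / J ^ 3) := by gcongr
      _ = Real.exp (6 * V) * (ρ / J ^ 3) := by rw [← Real.exp_add]; ring_nf
      _ ≤ Real.exp (10 * V) * (ρ / J ^ 3) := by
          have : Real.exp (6 * V) ≤ Real.exp (10 * V) := by
            apply Real.exp_le_exp.mpr; linarith
          gcongr
      _ ≤ _ := by gcongr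
  set I : Finset ℕ := (Finset.range M).filter
    (fun n : ℕ => |Real.log ((n : ℝ) + 1) - V| ≤ 1 / V) with hI
  set Rs : Finset ℕ := (Finset.range M).filter
    (fun n : ℕ => ¬ |Real.log ((n : ℝ) + 1) - V| ≤ 1 / V) with hRs
  have hs2 := s2_lower hκ V ρ (by linarith) (by linarith) (by linarith) hVρ hρV u hu M hM
  have htail := tail_sum hκ V ρ hρ0 hV h4V u hu M
  rw [← hI] at hs2
  rw [← hRs] at htail
  have h2 : H * (ρ / 16) ≤ ∫ x in X..(X + H),
      ‖∑ n ∈ I, Cf κ V ρ u n * e (Real.log ((n : ℝ) + 1)) x‖ ^ 2 := by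
    have h3 := mean_lower I (Cf κ V ρ u) (fun n => Real.log ((n : ℝ) + 1)) (fun n => (n : ℝ) + 1)
      (fun n _ => by positivity) (fun m _ n _ h => log_inj m n h)
      (fun m _ n _ h => log_sep m n h) X H
    refine le_trans ?_ h3
    have h4 := herr I
    have h5 : H * (ρ / 8) ≤ H * ∑ n ∈ I, ‖Cf κ V ρ u n‖ ^ 2 := by gcongr
    have h6 : H * (ρ / J ^ 3) ≤ H * (ρ / 16) := by
      have : (16:ℝ) ≤ J ^ 3 := by rw [hJ]; norm_num
      gcongr
    have h7 : H * (ρ / 16) = H * (ρ / 8) - H * (ρ / 16) := by ring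
    linarith
  have hB : ∫ x in X..(X + H),
      ‖∑ n ∈ Rs, Cf κ V ρ u n * e (Real.log ((n : ℝ) + 1)) x‖ ^ 2 ≤ H * (129 * ρ / J ^ 3) := by
    have h3 := mean_upper_inj Rs (Cf κ V ρ u) (fun n => Real.log ((n : ℝ) + 1))
      (fun n => (n : ℝ) + 1)
      (fun n _ => by positivity) (fun m _ n _ h => log_inj m n h)
      (fun m _ n _ h => log_sep m n h) X H hH0.le
    refine h3.trans ?_
    have h4 := herr Rs
    have h5 : H * ∑ n ∈ Rs, ‖Cf κ V ρ u n‖ ^ 2 ≤ H * (128 * V ^ 3 / ρ ^ 2) := by gcongr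
    have h6 : 128 * V ^ 3 / ρ ^ 2 = 128 * ρ / J ^ 3 := by
      rw [hρJ]; field_simp
    rw [h6] at h5
    calc _ ≤ H * (128 * ρ / J ^ 3) + H * (ρ / J ^ 3) := add_le_add h5 h4
      _ = _ := by ring
  have h4 := fourth_moment hκ V ρ J hJ1 hρJ hV u hu I
    (fun n hn => (Finset.mem_filter.mp hn).2) X H hH
  have hcont : ∀ s : Finset ℕ, Continuous
      (fun x : ℝ => ∑ n ∈ s, Cf κ V ρ u n * e (Real.log ((n : ℝ) + 1)) x) := fun s =>
    continuous_finsetSum _ fun n _ => continuous_const.mul (continuous_e _)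
  have hpz := pz _ _ (hcont I) (hcont Rs) X H (ρ / 16) (200 * J ^ 2 * ρ ^ 2) (129 * ρ / J ^ 3)
    hH0 (by positivity) (by positivity) h2 h4 hB
  refine ⟨_, ?_, ?_, le_trans ?_ hpz, ?_⟩
  · have : IsClosed {x : ℝ | x ∈ Set.Icc X (X + H) ∧ (ρ / 16) / 2 ≤
        ‖∑ n ∈ I, Cf κ V ρ u n * e (Real.log ((n : ℝ) + 1)) x‖ ^ 2 ∧
        ‖∑ n ∈ Rs, Cf κ V ρ u n * e (Real.log ((n : ℝ) + 1)) x‖ ^ 2 ≤ (ρ / 16) / 32} := by
      refine IsClosed.inter isClosed_Icc (IsClosed.inter ?_ ?_)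
      · exact isClosed_le continuous_const ((hcont I).norm.pow 2)
      · exact isClosed_le ((hcont Rs).norm.pow 2) continuous_const
    exact this.measurableSet
  · intro x hx
    exact hx.1
  · apply ENNReal.ofReal_le_ofReal
    have h5 : (ρ / 16) ^ 2 / (4 * (200 * J ^ 2 * ρ ^ 2)) - 32 * (129 * ρ / J ^ 3) / (ρ / 16)
        = 1 / (204800 * J ^ 2) - 66048 / J ^ 3 := by
      field_simp
      ring
    rw [h5, hJ, mul_comm]
    apply mul_le_mul_of_nonneg_left _ hH0.le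
    norm_num
  · intro x hx
    obtain ⟨_, hx1, hx2⟩ := hx
    have hsplit : ∑ n ∈ Finset.range M, Cf κ V ρ u n * e (Real.log ((n : ℝ) + 1)) x
        = ∑ n ∈ I, Cf κ V ρ u n * e (Real.log ((n : ℝ) + 1)) x
          + ∑ n ∈ Rs, Cf κ V ρ u n * e (Real.log ((n : ℝ) + 1)) x := by
      rw [hI, hRs, Finset.sum_filter_add_sum_filter_not]
    rw [hsplit]
    set P := ∑ n ∈ I, Cf κ V ρ u n * e (Real.log ((n : ℝ) + 1)) x
    set R := ∑ n ∈ Rs, Cf κ V ρ u n * e (Real.log ((n : ℝ) + 1)) x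
    have h5 : ‖P‖ ≤ ‖P + R‖ + ‖R‖ := by
      have := norm_sub_le (P + R) R
      rwa [add_sub_cancel_right] at this
    have h6 : ‖R‖ ≤ ‖P‖ / 4 := by
      apply le_of_sq_le_sq _ (by positivity)
      rw [div_pow]
      linarith
    have h7 : 4 ≤ ‖P‖ := by
      apply le_of_sq_le_sq _ (by positivity)
      have : (10:ℝ) ^ 12 ≤ ρ := by
        rw [hρJ, hJ]
        have : (1:ℝ) ≤ V := by linarith
        nlinarith
      linarith
    linarith

theorem dirichlet_window :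
    ∃ J : ℝ, 1 ≤ J ∧ ∃ c : ℝ, 0 < c ∧ ∀ κ : ℝ, 0 < κ → ∃ V₀ : ℝ, 1 ≤ V₀ ∧
      ∀ V : ℝ, V₀ ≤ V → ∀ H : ℝ, Real.exp (10 * V) ≤ H → ∀ X : ℝ,
      ∀ u : ℕ → ℂ, (∀ n, ‖u n‖ = 1) →
      ∃ S : Set ℝ, MeasurableSet S ∧ S ⊆ Set.Icc X (X + H) ∧
        ENNReal.ofReal (c * H) ≤ volume S ∧
        ∀ x ∈ S, ∃ y ∈ Set.Icc (x - J * V) (x + J * V),
          1 / (J * V) ≤ ‖∑' n : ℕ, (((n : ℝ) + 1) ^ (-(1 / 2) : ℝ)
              * Real.exp (-κ * (Real.log ((n : ℝ) + 1) - V) ^ 2) : ℝ)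
              * u n * Complex.exp (-Complex.I * y * Real.log ((n : ℝ) + 1))‖ := by
  obtain ⟨J, hJ⟩ : ∃ J : ℝ, J = 10 ^ 12 := ⟨_, rfl⟩
  have hJ1 : 1 ≤ J := by rw [hJ]; norm_num
  refine ⟨J, hJ1, 1 / 10 ^ 30, by norm_num, fun κ hκ => ?_⟩
  obtain ⟨V₁, hV₁⟩ := eventually_atTop.mp ((Real.tendsto_exp_div_pow_atTop 1).eventually_ge_atTop
    (8 * J ^ 4 * Real.exp (25 / (8 * κ)) + J + 4))
  refine ⟨max 12 (max (8 * κ) V₁), le_trans (by norm_num) (le_max_left _ _), ?_⟩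
  intro V hVV H hH X u hu
  have hV : 12 ≤ V := (le_max_left _ _).trans hVV
  have hVκ : 8 * κ ≤ V := (le_max_left _ _).trans ((le_max_right _ _).trans hVV)
  have hV1 : V₁ ≤ V := (le_max_right _ _).trans ((le_max_right _ _).trans hVV)
  have hV0 : 0 < V := by linarith
  have hexp := hV₁ V hV1
  rw [pow_one, le_div_iff₀ hV0] at hexp
  obtain ⟨ρ, hρJ⟩ : ∃ ρ : ℝ, ρ = J * V := ⟨_, rfl⟩
  have hρ0 : 0 < ρ := by rw [hρJ]; positivity
  -- truncation point
  have htd := tendsto_sum_nat_add (a κ V)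
  have hev1 : ∀ᶠ i : ℕ in atTop, ∑' k, a κ V (k + i) < 1 / ρ :=
    htd.eventually_lt_const (by positivity)
  have hev2 : ∀ᶠ i : ℕ in atTop, Real.exp (V + 1) ≤ (i : ℝ) :=
    tendsto_natCast_atTop_atTop.eventually_ge_atTop _
  obtain ⟨M, hM1, hM2⟩ := (hev1.and hev2).exists
  obtain ⟨S, hS1, hS2, hS3, hS4⟩ := core hκ J V ρ hJ hρJ hV hVκ hexp u hu M hM2 X H hH
  refine ⟨S, hS1, hS2, hS3, fun x hx => ?_⟩
  have h3 := hS4 x hx
  by_contra hcon
  have hcon' : ∀ y ∈ Set.Icc (x - ρ) (x + ρ),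
      ‖∑' n : ℕ, ((a κ V n : ℂ) * u n) * e (Real.log ((n : ℝ) + 1)) y‖ < 1 / ρ := by
    intro y hy
    by_contra h
    rw [not_lt] at h
    apply hcon
    rw [← hρJ]
    exact ⟨y, hy, h⟩
  have hsum : ∀ y, Summable (fun n : ℕ => ((a κ V n : ℂ) * u n) * e (Real.log ((n : ℝ) + 1)) y) := by
    intro y
    apply Summable.of_norm
    convert summable_a hκ V using 2 with n
    rw [norm_mul, norm_mul, hu, norm_e, mul_one, mul_one, Complex.norm_real, Real.norm_eq_abs,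
      abs_of_pos (a_pos κ V n)]
  have hbd : ∀ y ∈ Set.Icc (x - ρ) (x + ρ),
      ‖∑ n ∈ Finset.range M, ((a κ V n : ℂ) * u n) * e (Real.log ((n : ℝ) + 1)) y‖ ≤ 2 / ρ := by
    intro y hy
    have h5 := (hsum y).sum_add_tsum_nat_add M
    have h6 : ‖∑' n : ℕ, ((a κ V (n + M) : ℂ) * u (n + M))
        * e (Real.log (((n + M : ℕ) : ℝ) + 1)) y‖ ≤ ∑' k, a κ V (k + M) := by
      apply tsum_of_norm_bounded ((summable_nat_add_iff M).mpr (summable_a hκ V)).hasSum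
      intro n
      rw [norm_mul, norm_mul, hu, norm_e, mul_one, mul_one, Complex.norm_real, Real.norm_eq_abs,
        abs_of_pos (a_pos κ V _)]
    have h7 : ∑ n ∈ Finset.range M, ((a κ V n : ℂ) * u n) * e (Real.log ((n : ℝ) + 1)) y
        = (∑' n : ℕ, ((a κ V n : ℂ) * u n) * e (Real.log ((n : ℝ) + 1)) y)
          - ∑' n : ℕ, ((a κ V (n + M) : ℂ) * u (n + M))
            * e (Real.log (((n + M : ℕ) : ℝ) + 1)) y := by
      rw [← h5]; ring
    rw [h7]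
    have h8 := hcon' y hy
    calc _ ≤ _ := norm_sub_le _ _
      _ ≤ 1 / ρ + 1 / ρ := by linarith
      _ = 2 / ρ := by ring
  have h9 := smoothing (Finset.range M) (fun n => (a κ V n : ℂ) * u n)
    (fun n => Real.log ((n : ℝ) + 1)) V ρ (2 / ρ) hρ0 x hbd
  have h10 : ρ * (2 / ρ) = 2 := by field_simp
  rw [h10] at h9
  have h11 : ∑ n ∈ Finset.range M, (ker ρ (Real.log ((n : ℝ) + 1) - V) : ℂ)
      * ((a κ V n : ℂ) * u n) * e (Real.log ((n : ℝ) + 1)) x
      = ∑ n ∈ Finset.range M, Cf κ V ρ u n * e (Real.log ((n : ℝ) + 1)) x := rfl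
  have h12 : ‖∑ n ∈ Finset.range M, Cf κ V ρ u n * e (Real.log ((n : ℝ) + 1)) x‖ ≤ 2 := by
    rw [← h11]; exact h9
  linarith


end Pool.Agent.XiDeform.DirichletWindow
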