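import Pool.Agent.Lib.MP_023270_nt.Series

/-! `Φ` is even. -/

open MeasureTheory Filter Topology Set

namespace Pool.Agent.XiDeform

/-- `h_n(t) = e^{t/2} e^{-πN²e^{2t}}`, `N = n+1` -/
noncomputable def hh (n : ℕ) (t : ℝ) : ℝ :=
  Real.exp (t / 2) * Real.exp (-(Real.pi * ((n : ℝ) + 1) ^ 2 * Real.exp (2 * t)))

noncomputable def hh1 (n : ℕ) (t : ℝ) : ℝ :=
  (1 / 2 - 2 * Real.pi * ((n : ℝ) + 1) ^ 2 * Real.exp (2 * t)) * hh n t

noncomputable def hh2 (n : ℕ) (t : ℝ) : ℝ :=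
  ((1 / 2 - 2 * Real.pi * ((n : ℝ) + 1) ^ 2 * Real.exp (2 * t)) ^ 2
    - 4 * Real.pi * ((n : ℝ) + 1) ^ 2 * Real.exp (2 * t)) * hh n t

lemma hasDerivAt_exp2 (t : ℝ) : HasDerivAt (fun t : ℝ => Real.exp (2 * t)) (2 * Real.exp (2 * t)) t := by
  have : HasDerivAt (fun u : ℝ => Real.exp (2 * u)) (Real.exp (2 * t) * (2 * 1)) t :=
    (HasDerivAt.const_mul 2 (hasDerivAt_id t)).exp
  rw [show 2 * Real.exp (2 * t) = Real.exp (2 * t) * (2 * 1) by ring]
  exact this

lemma hasDerivAt_hh (n : ℕ) (t : ℝ) : HasDerivAt (hh n) (hh1 n t) t := by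
  have h1 : HasDerivAt (fun t : ℝ => Real.exp (t / 2)) (Real.exp (t / 2) * (1 / 2)) t :=
    ((hasDerivAt_id t).div_const 2).exp
  have h2 : HasDerivAt (fun t : ℝ => Real.exp (-(Real.pi * ((n : ℝ) + 1) ^ 2 * Real.exp (2 * t))))
      (Real.exp (-(Real.pi * ((n : ℝ) + 1) ^ 2 * Real.exp (2 * t)))
        * -(Real.pi * ((n : ℝ) + 1) ^ 2 * (2 * Real.exp (2 * t)))) t :=
    (((hasDerivAt_exp2 t).const_mul _).neg).exp
  have h3 := h1.mul h2
  unfold hh1 hh
  refine h3.congr_deriv ?_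
  ring

lemma hasDerivAt_hh1 (n : ℕ) (t : ℝ) : HasDerivAt (hh1 n) (hh2 n t) t := by
  have h1 : HasDerivAt (fun t : ℝ => (1 / 2 - 2 * Real.pi * ((n : ℝ) + 1) ^ 2 * Real.exp (2 * t)))
      (-(2 * Real.pi * ((n : ℝ) + 1) ^ 2 * (2 * Real.exp (2 * t)))) t :=
    ((hasDerivAt_exp2 t).const_mul _).const_sub _
  have h3 := h1.mul (hasDerivAt_hh n t)
  refine h3.congr_deriv ?_
  unfold hh2 hh1
  ring

lemma phiTerm_eq (n : ℕ) (t : ℝ) : phiTerm n t = hh2 n t - hh n t / 4 := by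
  unfold phiTerm hh2 hh
  have e1 : Real.exp (9 * t / 2) = Real.exp (t / 2) * Real.exp (2 * t) ^ 2 := by
    rw [← Real.exp_nat_mul, ← Real.exp_add]; congr 1; push_cast; ring
  have e2 : Real.exp (5 * t / 2) = Real.exp (t / 2) * Real.exp (2 * t) := by
    rw [← Real.exp_add]; congr 1; ring
  rw [e1, e2, show -Real.pi * ((n : ℝ) + 1) ^ 2 * Real.exp (2 * t)
    = -(Real.pi * ((n : ℝ) + 1) ^ 2 * Real.exp (2 * t)) by ring]
  ring

/-- common majorant on `(-R, R)`. -/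
noncomputable def maj (R : ℝ) (n : ℕ) : ℝ :=
  (((1 / 2 + 2 * Real.pi * Real.exp (2 * R)) ^ 2 + 4 * Real.pi * Real.exp (2 * R)) * Real.exp (R / 2))
    * ((((n + 1 : ℕ) : ℝ)) ^ 4 * Real.exp (-(Real.pi * Real.exp (-2 * R)) * ((n + 1 : ℕ) : ℝ)))

lemma summable_maj (R : ℝ) : Summable (maj R) := by
  unfold maj
  apply Summable.mul_left
  have h := Real.summable_pow_mul_exp_neg_nat_mul 4 (r := Real.pi * Real.exp (-2 * R)) (by positivity)
  exact (summable_nat_add_iff 1).mpr h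

lemma hh_pos (n : ℕ) (t : ℝ) : 0 < hh n t := by unfold hh; positivity

lemma hh_le (R : ℝ) (n : ℕ) (t : ℝ) (ht : t ∈ Ioo (-R) R) :
    hh n t ≤ Real.exp (R / 2) * Real.exp (-(Real.pi * Real.exp (-2 * R)) * ((n + 1 : ℕ) : ℝ)) := by
  unfold hh
  have h1 : Real.exp (t / 2) ≤ Real.exp (R / 2) := Real.exp_le_exp.mpr (by linarith [ht.2])
  have h2 : Real.exp (-2 * R) ≤ Real.exp (2 * t) := Real.exp_le_exp.mpr (by linarith [ht.1])
  have hN : (1 : ℝ) ≤ (n : ℝ) + 1 := by have : (0:ℝ) ≤ n := Nat.cast_nonneg n; linarith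
  gcongr
  push_cast
  have h3 : (n : ℝ) + 1 ≤ ((n : ℝ) + 1) ^ 2 := by nlinarith
  have h4 : Real.exp (-2 * R) * ((n : ℝ) + 1) ≤ Real.exp (2 * t) * ((n : ℝ) + 1) ^ 2 := by gcongr
  nlinarith [Real.pi_pos]

lemma hh_maj (R : ℝ) (n : ℕ) (t : ℝ) (ht : t ∈ Ioo (-R) R) :
    ‖hh n t‖ ≤ maj R n ∧ ‖hh1 n t‖ ≤ maj R n ∧ ‖hh2 n t‖ ≤ maj R n := by
  have hN : (1 : ℝ) ≤ (n : ℝ) + 1 := by have : (0:ℝ) ≤ n := Nat.cast_nonneg n; linarith
  have hN2 : (1 : ℝ) ≤ ((n : ℝ) + 1) ^ 2 := by nlinarith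
  have hN4 : ((n : ℝ) + 1) ^ 4 = (((n : ℝ) + 1) ^ 2) ^ 2 := by ring
  have hx : Real.exp (2 * t) ≤ Real.exp (2 * R) := Real.exp_le_exp.mpr (by linarith [ht.2])
  have hx0 := Real.exp_pos (2 * t)
  have hh0 := hh_pos n t
  have hle := hh_le R n t ht
  have hpi := Real.pi_pos
  set P := Real.pi with hP
  set x := Real.exp (2 * t)
  set X := Real.exp (2 * R)
  set M := ((n : ℝ) + 1) ^ 2
  have hMX : M * x ≤ M * X := by gcongr
  have hR : 0 < R := by linarith [ht.1, ht.2]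
  have hX1 : 1 ≤ X := Real.one_le_exp (by linarith)
  have hPX : 0 < P * X := by positivity
  set A := 1 / 2 + 2 * P * X with hA
  have hA1 : 1 ≤ A := by
    have h3 : (3:ℝ) < P := Real.pi_gt_three
    rw [hA]; nlinarith
  have hcoef : ∀ y : ℝ, |y| ≤ (A ^ 2 + 4 * P * X) * M ^ 2 → ‖y * hh n t‖ ≤ maj R n := by
    intro y hy
    rw [norm_mul, Real.norm_eq_abs, Real.norm_eq_abs, abs_of_pos hh0]
    unfold maj
    calc |y| * hh n t ≤ ((A ^ 2 + 4 * P * X) * M ^ 2) *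
          (Real.exp (R / 2) * Real.exp (-(Real.pi * Real.exp (-2 * R)) * ((n + 1 : ℕ) : ℝ))) := by
          gcongr
      _ = _ := by
          have hM : (((n + 1 : ℕ) : ℝ)) ^ 4 = M ^ 2 := by push_cast; exact hN4
          rw [hM]
          simp only [hP, hA]
          ring
  have hA2 : A ≤ A ^ 2 := by nlinarith
  refine ⟨?_, ?_, ?_⟩
  · have := hcoef 1 (by
      rw [abs_one]
      have h1 : 1 ≤ A ^ 2 + 4 * P * X := by nlinarith
      have h2 : 1 ≤ M ^ 2 := by nlinarith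
      nlinarith)
    rwa [one_mul] at this
  · refine hcoef _ ?_
    have h1 : |1 / 2 - 2 * P * M * x| ≤ 1 / 2 + 2 * P * (M * X) := by
      rw [abs_le]
      have : 0 < P * M * x := by positivity
      constructor <;> nlinarith
    have h2 : 1 / 2 + 2 * P * (M * X) ≤ A * M := by rw [hA]; nlinarith
    have h3 : A * M ≤ A ^ 2 * M ^ 2 := by
      have : M ≤ M ^ 2 := by nlinarith
      have hA0 : 0 < A := by linarith
      calc A * M ≤ A ^ 2 * M := by gcongr
        _ ≤ A ^ 2 * M ^ 2 := by gcongr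
    have h4 : 0 ≤ 4 * P * X * M ^ 2 := by positivity
    calc _ ≤ A ^ 2 * M ^ 2 := h1.trans (h2.trans h3)
      _ ≤ _ := by nlinarith
  · refine hcoef _ ?_
    have hPMx : 0 < P * (M * x) := by positivity
    have h1 : (1 / 2 - 2 * P * M * x) ^ 2 ≤ (A * M) ^ 2 := by
      have hb : |1 / 2 - 2 * P * M * x| ≤ A * M := by
        have h1 : |1 / 2 - 2 * P * M * x| ≤ 1 / 2 + 2 * P * (M * X) := by
          rw [abs_le]
          have : 0 < P * M * x := by positivity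
          constructor <;> nlinarith
        have h2 : 1 / 2 + 2 * P * (M * X) ≤ A * M := by rw [hA]; nlinarith
        exact h1.trans h2
      rw [← sq_abs]; gcongr
    have h2 : 4 * P * M * x ≤ 4 * P * X * M ^ 2 := by
      have h5 : M ≤ M ^ 2 := by nlinarith
      calc 4 * P * M * x = 4 * P * (M * x) := by ring
        _ ≤ 4 * P * (M * X) := by gcongr
        _ ≤ 4 * P * (M ^ 2 * X) := by gcongr
        _ = _ := by ring
    have h3 : 0 ≤ 4 * P * M * x := by
      have : 4 * P * M * x = 4 * (P * (M * x)) := by ring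
      rw [this]; positivity
    have h6 : (A ^ 2 + 4 * P * X) * M ^ 2 = (A * M) ^ 2 + 4 * P * X * M ^ 2 := by ring
    have h7 := sq_nonneg (1 / 2 - 2 * P * M * x)
    have h8 := sq_nonneg (A * M)
    rw [h6, abs_le]
    constructor
    · linarith
    · linarith

noncomputable def SS (t : ℝ) : ℝ := ∑' n, hh n t
noncomputable def SS1 (t : ℝ) : ℝ := ∑' n, hh1 n t
noncomputable def SS2 (t : ℝ) : ℝ := ∑' n, hh2 n t

lemma mem_Ioo_self (t : ℝ) : t ∈ Ioo (-(|t| + 1)) (|t| + 1) := by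
  constructor
  · linarith [neg_abs_le t]
  · linarith [le_abs_self t]

lemma summable_hh (t : ℝ) : Summable (fun n => hh n t) :=
  Summable.of_norm_bounded (summable_maj (|t| + 1)) fun n => (hh_maj _ n t (mem_Ioo_self t)).1

lemma summable_hh1 (t : ℝ) : Summable (fun n => hh1 n t) :=
  Summable.of_norm_bounded (summable_maj (|t| + 1)) fun n => (hh_maj _ n t (mem_Ioo_self t)).2.1

lemma summable_hh2 (t : ℝ) : Summable (fun n => hh2 n t) :=
  Summable.of_norm_bounded (summable_maj (|t| + 1)) fun n => (hh_maj _ n t (mem_Ioo_self t)).2.2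

lemma hasDerivAt_SS (t : ℝ) : HasDerivAt SS (SS1 t) t :=
  hasDerivAt_tsum_of_isPreconnected (summable_maj (|t| + 1)) isOpen_Ioo isPreconnected_Ioo
    (fun n y _ => hasDerivAt_hh n y) (fun n y hy => (hh_maj _ n y hy).2.1) (mem_Ioo_self t)
    (summable_hh t) (mem_Ioo_self t)

lemma hasDerivAt_SS1 (t : ℝ) : HasDerivAt SS1 (SS2 t) t :=
  hasDerivAt_tsum_of_isPreconnected (summable_maj (|t| + 1)) isOpen_Ioo isPreconnected_Ioo
    (fun n y _ => hasDerivAt_hh1 n y) (fun n y hy => (hh_maj _ n y hy).2.2) (mem_Ioo_self t)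
    (summable_hh1 t) (mem_Ioo_self t)

lemma Phi_eq_SS (t : ℝ) : Phi t = SS2 t - SS t / 4 := by
  rw [Phi_eq_tsum]
  simp_rw [phiTerm_eq]
  rw [(summable_hh2 t).tsum_sub ((summable_hh t).div_const 4), tsum_div_const]
  rfl

/-- the theta function relation -/
lemma theta_even (t : ℝ) : Real.exp (t / 2) + 2 * SS t = Real.exp (-t / 2) + 2 * SS (-t) := by
  have key : ∀ t : ℝ, Real.exp (t / 2) + 2 * SS t
      = Real.exp (t / 2) * ∑' n : ℤ, Real.exp (-Real.pi * Real.exp (2 * t) * (n : ℝ) ^ 2) := by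
    intro t
    have hs : Summable (fun n : ℕ => Real.exp (-Real.pi * Real.exp (2 * t) * (((n + 1 : ℤ)) : ℝ) ^ 2)) := by
      have h := (summable_hh t).mul_left (Real.exp (-(t / 2)))
      refine h.congr fun n => ?_
      unfold hh
      rw [← mul_assoc, ← Real.exp_add, neg_add_cancel, Real.exp_zero, one_mul]
      congr 1; push_cast; ring
    have hs' : Summable (fun n : ℕ => Real.exp (-Real.pi * Real.exp (2 * t) * (((-(n + 1 : ℤ))) : ℝ) ^ 2)) := by
      refine hs.congr fun n => ?_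
      congr 1; push_cast; ring
    have h := tsum_of_add_one_of_neg_add_one (f := fun n : ℤ => Real.exp (-Real.pi * Real.exp (2 * t) * (n : ℝ) ^ 2))
      (by exact_mod_cast hs) (by
        refine hs.congr fun n => ?_
        congr 1; push_cast; ring)
    rw [h]
    have e1 : (∑' n : ℕ, Real.exp (-Real.pi * Real.exp (2 * t) * (((-((n : ℤ) + 1) : ℤ)) : ℝ) ^ 2))
        = ∑' n : ℕ, Real.exp (-Real.pi * Real.exp (2 * t) * ((((n : ℤ) + 1 : ℤ)) : ℝ) ^ 2) := by
      congr 1; ext n; congr 1; push_cast; ring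
    rw [e1]
    have e2 : Real.exp (t / 2) * ∑' n : ℕ, Real.exp (-Real.pi * Real.exp (2 * t) * ((((n : ℤ) + 1 : ℤ)) : ℝ) ^ 2) = SS t := by
      rw [← tsum_mul_left]
      unfold SS hh
      congr 1; ext n; congr 2; push_cast; ring
    have e3 : Real.exp (-Real.pi * Real.exp (2 * t) * ((0 : ℤ) : ℝ) ^ 2) = 1 := by simp
    rw [e3]
    linear_combination (-2) * e2
  rw [key t]
  have hk := key (-t)
  rw [hk, Real.tsum_exp_neg_mul_int_sq (Real.exp_pos (2 * t))]
  have e4 : (Real.exp (2 * t)) ^ (1 / 2 : ℝ) = Real.exp t := by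
    rw [← Real.exp_mul]; congr 1; ring
  rw [e4, ← mul_assoc]
  have e5 : Real.exp (t / 2) * (1 / Real.exp t) = Real.exp (-t / 2) := by
    rw [one_div, ← Real.exp_neg, ← Real.exp_add]; congr 1; ring
  rw [e5]
  congr 2
  ext n
  congr 1
  rw [show 2 * -t = -(2 * t) by ring, Real.exp_neg]
  ring

theorem Phi_even (t : ℝ) : Phi (-t) = Phi t := by
  -- H(t) = e^{t/2} + 2 SS t
  have hH1 : ∀ t : ℝ, HasDerivAt (fun t => Real.exp (t / 2) + 2 * SS t) (Real.exp (t / 2) / 2 + 2 * SS1 t) t := by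
    intro t
    have h1 : HasDerivAt (fun t : ℝ => Real.exp (t / 2)) (Real.exp (t / 2) * (1 / 2)) t :=
      ((hasDerivAt_id t).div_const 2).exp
    exact (h1.add ((hasDerivAt_SS t).const_mul 2)).congr_deriv (by ring)
  have hH2 : ∀ t : ℝ, HasDerivAt (fun t => Real.exp (t / 2) / 2 + 2 * SS1 t) (Real.exp (t / 2) / 4 + 2 * SS2 t) t := by
    intro t
    have h1 : HasDerivAt (fun t : ℝ => Real.exp (t / 2)) (Real.exp (t / 2) * (1 / 2)) t :=
      ((hasDerivAt_id t).div_const 2).exp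
    exact ((h1.div_const 2).add ((hasDerivAt_SS1 t).const_mul 2)).congr_deriv (by ring)
  have hev1 : ∀ t : ℝ, Real.exp (t / 2) / 2 + 2 * SS1 t = -(Real.exp (-t / 2) / 2 + 2 * SS1 (-t)) := by
    intro t
    have h1 := hH1 t
    have h2 : HasDerivAt (fun t => Real.exp (t / 2) + 2 * SS t) ((Real.exp (-t / 2) / 2 + 2 * SS1 (-t)) * (-1)) t := by
      have h3 : (fun t : ℝ => Real.exp (t / 2) + 2 * SS t) = (fun t => Real.exp (t / 2) + 2 * SS t) ∘ (fun t => -t) := by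
        ext t
        simp only [Function.comp]
        exact theta_even t
      rw [h3]
      exact (hH1 (-t)).comp t (hasDerivAt_neg t)
    rw [h1.unique h2]; ring
  have hev2 : ∀ t : ℝ, Real.exp (t / 2) / 4 + 2 * SS2 t = Real.exp (-t / 2) / 4 + 2 * SS2 (-t) := by
    intro t
    have h1 := hH2 t
    have h2 : HasDerivAt (fun t => Real.exp (t / 2) / 2 + 2 * SS1 t) (-((Real.exp (-t / 2) / 4 + 2 * SS2 (-t)) * (-1))) t := by
      have h3 : (fun t : ℝ => Real.exp (t / 2) / 2 + 2 * SS1 t)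
          = fun t => -(((fun t => Real.exp (t / 2) / 2 + 2 * SS1 t) ∘ (fun t => -t)) t) := by
        ext t
        simp only [Function.comp]
        exact hev1 t
      rw [h3]
      exact ((hH2 (-t)).comp t (hasDerivAt_neg t)).neg
    rw [h1.unique h2]; ring
  rw [Phi_eq_SS, Phi_eq_SS]
  have h1 := hev2 t
  have h2 := theta_even t
  linarith

theorem F_even (κ : ℝ) (w : ℂ) : F κ (-w) = F κ w := by
  unfold F
  rw [← integral_neg_eq_self]
  congr 1
  ext t
  rw [Phi_even]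
  push_cast
  ring_nf

end Pool.Agent.XiDeform
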