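import Mathlib

/-! The basic integral `∫ e^{au} e^{-A e^{2u}} du = (1/2) A^{-a/2} Γ(a/2)`. -/

open MeasureTheory Filter Topology Set

namespace Pool.Agent.XiDeform

lemma exp2_image : (fun u : ℝ => Real.exp (2 * u)) '' univ = Ioi 0 := by
  ext x
  simp only [image_univ, mem_range, mem_Ioi]
  constructor
  · rintro ⟨u, rfl⟩; positivity
  · intro hx
    exact ⟨Real.log x / 2, by rw [show 2 * (Real.log x / 2) = Real.log x by ring, Real.exp_log hx]⟩

lemma exp2_deriv : ∀ x ∈ (univ : Set ℝ),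
    HasDerivWithinAt (fun u : ℝ => Real.exp (2 * u)) (2 * Real.exp (2 * x)) univ x := by
  intro x _
  have : HasDerivAt (fun u : ℝ => Real.exp (2 * u)) (Real.exp (2 * x) * (2 * 1)) x :=
    (HasDerivAt.const_mul 2 (hasDerivAt_id x)).exp
  rw [hasDerivWithinAt_univ, show 2 * Real.exp (2 * x) = Real.exp (2 * x) * (2 * 1) by ring]
  exact this

lemma exp2_injOn : univ.InjOn (fun u : ℝ => Real.exp (2 * u)) := by
  intro a _ b _ h
  have := Real.exp_injective h
  linarith

lemma exp2_integrand (a : ℂ) (A : ℝ) (u : ℝ) :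
    |2 * Real.exp (2 * u)| • (((Real.exp (2 * u) : ℝ) : ℂ) ^ (a / 2 - 1)
        * Complex.exp (-(A * ((Real.exp (2 * u) : ℝ) : ℂ))))
      = 2 * (Complex.exp (a * u) * Complex.exp (-((A * Real.exp (2 * u) : ℝ) : ℂ))) := by
  have h1 : (((Real.exp (2 * u) : ℝ) : ℂ) ^ (a / 2 - 1)) = Complex.exp (2 * u * (a / 2 - 1)) := by
    rw [Complex.ofReal_exp, Complex.cpow_def_of_ne_zero (Complex.exp_ne_zero _)]
    rw [← Complex.ofReal_exp, ← Complex.ofReal_log (Real.exp_pos _).le, Real.log_exp]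
    push_cast; ring_nf
  rw [h1, abs_of_pos (by positivity), Complex.real_smul]
  push_cast
  have h2 : Complex.exp (2 * u) * Complex.exp (2 * u * (a / 2 - 1)) = Complex.exp (a * u) := by
    rw [← Complex.exp_add]; congr 1; ring
  rw [show (2 : ℂ) * Complex.exp (2 * u) * (Complex.exp (2 * u * (a / 2 - 1))
    * Complex.exp (-(A * Complex.exp (2 * u))))
    = 2 * ((Complex.exp (2 * u) * Complex.exp (2 * u * (a / 2 - 1)))
    * Complex.exp (-(A * Complex.exp (2 * u)))) by ring, h2]

theorem integral_exp_mul_exp_neg (a : ℂ) (ha : 0 < a.re) (A : ℝ) (hA : 0 < A) :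
    ∫ u : ℝ, Complex.exp (a * u) * Complex.exp (-((A * Real.exp (2 * u) : ℝ) : ℂ))
      = 1 / 2 * ((1 / (A : ℂ)) ^ (a / 2) * Complex.Gamma (a / 2)) := by
  have ha2 : 0 < (a / 2).re := by simp; linarith
  have h := Complex.integral_cpow_mul_exp_neg_mul_Ioi (a := a / 2) (r := A) ha2 hA
  rw [← exp2_image, integral_image_eq_integral_abs_deriv_smul MeasurableSet.univ exp2_deriv
    exp2_injOn] at h
  rw [Measure.restrict_univ] at h
  rw [← h]
  simp_rw [exp2_integrand, integral_const_mul]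
  ring

theorem integrable_rexp_mul_exp_neg (a : ℝ) (ha : 0 < a) (A : ℝ) (hA : 0 < A) :
    Integrable (fun u : ℝ => Real.exp (a * u) * Real.exp (-(A * Real.exp (2 * u)))) := by
  have h : IntegrableOn (fun x : ℝ => x ^ (a / 2 - 1) * Real.exp (-A * x ^ (1:ℝ))) (Ioi 0) :=
    integrableOn_rpow_mul_exp_neg_mul_rpow (by linarith) one_pos hA
  rw [← exp2_image, integrableOn_image_iff_integrableOn_abs_deriv_smul MeasurableSet.univ exp2_deriv
    exp2_injOn, integrableOn_univ] at h
  have h2 := h.const_mul (1/2)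
  refine h2.congr (Eventually.of_forall fun u => ?_)
  simp only [Real.rpow_one, smul_eq_mul]
  rw [abs_of_pos (by positivity), ← Real.exp_mul]
  have : Real.exp (2 * u) * Real.exp (2 * u * (a / 2 - 1)) = Real.exp (a * u) := by
    rw [← Real.exp_add]; congr 1; ring
  rw [← this]; ring_nf

theorem integrable_exp_mul_exp_neg (a : ℂ) (ha : 0 < a.re) (A : ℝ) (hA : 0 < A) :
    Integrable (fun u : ℝ => Complex.exp (a * u) * Complex.exp (-((A * Real.exp (2 * u) : ℝ) : ℂ))) := by
  refine (integrable_rexp_mul_exp_neg a.re ha A hA).mono' (by fun_prop) (Eventually.of_forall fun u => ?_)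
  rw [norm_mul, Complex.norm_exp, Complex.norm_exp, Complex.neg_re, Complex.ofReal_re,
    Complex.re_mul_ofReal]

end Pool.Agent.XiDeform
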