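import Mathlib

open MeasureTheory Filter Topology Metric

namespace Pool.Agent.XiDeform.FewZeros

/-- Division of an entire function by the full power of `w - u`. -/
lemma div_at {g : ℂ → ℂ} (hg : Differentiable ℂ g) {u : ℂ} (hu : analyticOrderAt g u ≠ ⊤) :
    ∃ H : ℂ → ℂ, Differentiable ℂ H ∧
      (∀ w, g w = (w - u) ^ (analyticOrderNatAt g u) * H w) ∧ H u ≠ 0 := by
  obtain ⟨g₀, hg₀, hg₀u, hev⟩ := ((hg.analyticAt u).analyticOrderAt_ne_top).1 hu
  set n := analyticOrderNatAt g u with hn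
  set H : ℂ → ℂ := Function.update (fun w => g w / (w - u) ^ n) u (g₀ u) with hH
  have hHu : H u = g₀ u := by simp [hH]
  have hHne : ∀ w, w ≠ u → H w = g w / (w - u) ^ n := by
    intro w hw
    simp [hH, Function.update_of_ne hw]
  have hHev : H =ᶠ[𝓝 u] g₀ := by
    filter_upwards [hev] with w hw
    by_cases hwu : w = u
    · rw [hwu, hHu]
    · rw [hHne w hwu, hw, smul_eq_mul]
      have : (w - u) ^ n ≠ 0 := pow_ne_zero _ (sub_ne_zero.2 hwu)
      field_simp
  refine ⟨H, ?_, ?_, by rw [hHu]; exact hg₀u⟩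
  · intro w
    by_cases hwu : w = u
    · rw [hwu]
      exact hHev.symm.differentiableAt_iff.1 hg₀.differentiableAt
    · have h1 : H =ᶠ[𝓝 w] fun w => g w / (w - u) ^ n := by
        filter_upwards [isOpen_ne.mem_nhds hwu] with z hz
        exact hHne z hz
      apply h1.symm.differentiableAt_iff.1
      apply DifferentiableAt.div (hg w)
      · fun_prop
      · exact pow_ne_zero _ (sub_ne_zero.2 hwu)
  · intro w
    by_cases hwu : w = u
    · have h2 := hev.self_of_nhds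
      rw [hwu, hHu, ← smul_eq_mul]
      exact h2
    · rw [hHne w hwu]
      have : (w - u) ^ n ≠ 0 := pow_ne_zero _ (sub_ne_zero.2 hwu)
      field_simp

lemma div_finset {g : ℂ → ℂ} (hg : Differentiable ℂ g) (hfin : ∀ u, analyticOrderAt g u ≠ ⊤)
    (Z : Finset ℂ) :
    ∃ H : ℂ → ℂ, Differentiable ℂ H ∧
      (∀ w, g w = (∏ u ∈ Z, (w - u) ^ (analyticOrderNatAt g u)) * H w) ∧ ∀ u ∈ Z, H u ≠ 0 := by
  classical
  induction Z using Finset.induction_on with
  | empty => exact ⟨g, hg, by simp, by simp⟩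
  | insert a Z ha ih =>
    obtain ⟨H, hHd, hHg, hHZ⟩ := ih
    set P : ℂ → ℂ := fun w => ∏ u ∈ Z, (w - u) ^ (analyticOrderNatAt g u) with hP
    have hPd : Differentiable ℂ P := by
      rw [hP]
      fun_prop
    have hPa : P a ≠ 0 := by
      rw [hP]
      apply Finset.prod_ne_zero_iff.2
      intro u hu
      apply pow_ne_zero
      apply sub_ne_zero.2
      rintro rfl
      exact ha hu
    have hgPH : g = P * H := by
      funext w
      exact hHg w
    have hord : analyticOrderAt g a = analyticOrderAt H a := by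
      rw [hgPH, analyticOrderAt_mul (hPd.analyticAt a) (hHd.analyticAt a),
        (hPd.analyticAt a).analyticOrderAt_eq_zero.2 hPa, zero_add]
    have hordN : analyticOrderNatAt g a = analyticOrderNatAt H a := by
      simp only [analyticOrderNatAt, hord]
    have hHa : analyticOrderAt H a ≠ ⊤ := by
      rw [← hord]; exact hfin a
    obtain ⟨H', hH'd, hH'H, hH'a⟩ := div_at hHd hHa
    refine ⟨H', hH'd, ?_, ?_⟩
    · intro w
      rw [Finset.prod_insert ha, hordN, hHg w, hH'H w]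
      ring
    · intro u hu
      rcases Finset.mem_insert.1 hu with rfl | hu
      · exact hH'a
      · intro h0
        apply hHZ u hu
        rw [hH'H u, h0, mul_zero]

lemma order_ne_top {h : ℂ → ℂ} (hd : Differentiable ℂ h) {c : ℂ} (hc : h c ≠ 0) (u : ℂ) :
    analyticOrderAt h u ≠ ⊤ := by
  have hA : AnalyticOnNhd ℂ h Set.univ := fun z _ => hd.analyticAt z
  apply hA.analyticOrderAt_ne_top_of_isPreconnected isPreconnected_univ (x := c)
    (Set.mem_univ _) (Set.mem_univ _)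
  rw [(hd.analyticAt c).analyticOrderAt_eq_zero.2 hc]
  exact ENat.zero_ne_top

/-- A holomorphic logarithm of a nonvanishing function on a disc centred at `0`. -/
lemma exists_log {G : ℂ → ℂ} {ρ : ℝ} (hρ : 0 < ρ) (hG : DifferentiableOn ℂ G (ball 0 ρ))
    (hne : ∀ w ∈ ball (0 : ℂ) ρ, G w ≠ 0) :
    ∃ K : ℂ → ℂ, DifferentiableOn ℂ K (ball 0 ρ) ∧ K 0 = 0 ∧
      ∀ w ∈ ball (0 : ℂ) ρ, G w = G 0 * Complex.exp (K w) := by
  have hG' : DifferentiableOn ℂ (fun w => deriv G w / G w) (ball 0 ρ) :=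
    (hG.deriv isOpen_ball).div hG hne
  obtain ⟨K, hK0, hK⟩ := hG'.isExactOn_ball.with_val_at 0 0
  have h0 : (0 : ℂ) ∈ ball (0 : ℂ) ρ := mem_ball_self hρ
  refine ⟨K, fun w hw => (hK w hw).differentiableAt.differentiableWithinAt, hK0, ?_⟩
  intro w hw
  -- the function G * exp (-K) has zero derivative
  have hconst : G w * Complex.exp (-K w) = G 0 * Complex.exp (-K 0) := by
    have hconv : Convex ℝ (ball (0 : ℂ) ρ) := convex_ball 0 ρ
    have hder : ∀ z ∈ ball (0 : ℂ) ρ,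
        HasDerivAt (fun z => G z * Complex.exp (-K z)) 0 z := by
      intro z hz
      have h1 : HasDerivAt G (deriv G z) z :=
        (hG.differentiableAt (isOpen_ball.mem_nhds hz)).hasDerivAt
      have h2 : HasDerivAt (fun z => Complex.exp (-K z))
          (Complex.exp (-K z) * (-(deriv G z / G z))) z := ((hK z hz).neg).cexp
      have h3 := h1.mul h2
      have h4 : deriv G z * Complex.exp (-K z)
          + G z * (Complex.exp (-K z) * (-(deriv G z / G z))) = 0 := by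
        have := hne z hz
        field_simp
        ring
      rw [h4] at h3
      exact h3
    have := hconv.is_const_of_fderivWithin_eq_zero (𝕜 := ℂ)
      (f := fun z => G z * Complex.exp (-K z)) (x := w) (y := 0) ?_ ?_ hw h0
    · exact this
    · intro z hz
      exact (hder z hz).differentiableAt.differentiableWithinAt
    · intro z hz
      rw [fderivWithin_of_isOpen isOpen_ball hz]
      have h5 := (hder z hz).hasFDerivAt.fderiv
      rw [h5]
      ext
      simp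
  rw [hK0, neg_zero, Complex.exp_zero, mul_one] at hconst
  rw [← hconst, mul_assoc, ← Complex.exp_add, neg_add_cancel, Complex.exp_zero, mul_one]

/-- Splitting the Taylor series at index `m`: small radius bound for the head,
large radius bound for the tail. -/
lemma split_bound {K : ℂ → ℂ} {ρ ρ₁ ρ₂ ρ₃ M₁ M₂ : ℝ} (hρ₁ : 0 < ρ₁) (h12 : ρ₁ < ρ₂)
    (h0ρ : 0 ≤ ρ) (hρ2 : ρ < ρ₂) (h23 : ρ₂ < ρ₃)
    (hK : DifferentiableOn ℂ K (ball 0 ρ₃))
    (hb1 : ∀ w ∈ closedBall (0 : ℂ) ρ₁, ‖K w‖ ≤ M₁)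
    (hb2 : ∀ w ∈ closedBall (0 : ℂ) ρ₂, ‖K w‖ ≤ M₂) (m : ℕ) {w : ℂ} (hw : ‖w‖ ≤ ρ) :
    ‖K w‖ ≤ M₁ * ∑ k ∈ Finset.range m, (ρ / ρ₁) ^ k
      + M₂ * ((ρ / ρ₂) ^ m / (1 - ρ / ρ₂)) := by
  have hρ₂ : 0 < ρ₂ := hρ₁.trans h12
  have hq0 : 0 ≤ ρ / ρ₂ := by positivity
  have hq1 : ρ / ρ₂ < 1 := (div_lt_one hρ₂).2 hρ2
  have hcoef1 : ∀ k : ℕ, ‖iteratedDeriv k K 0‖ ≤ k.factorial * M₁ / ρ₁ ^ k := by
    intro k
    apply Complex.norm_iteratedDeriv_le_of_forall_mem_sphere_norm_le k hρ₁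
    · have : closedBall (0 : ℂ) ρ₁ ⊆ ball 0 ρ₃ := closedBall_subset_ball (h12.trans h23)
      exact (hK.mono this).diffContOnCl_ball (le_refl _)
    · intro z hz
      exact hb1 z (sphere_subset_closedBall hz)
  have hcoef2 : ∀ k : ℕ, ‖iteratedDeriv k K 0‖ ≤ k.factorial * M₂ / ρ₂ ^ k := by
    intro k
    apply Complex.norm_iteratedDeriv_le_of_forall_mem_sphere_norm_le k hρ₂
    · have : closedBall (0 : ℂ) ρ₂ ⊆ ball 0 ρ₃ := closedBall_subset_ball h23
      exact (hK.mono this).diffContOnCl_ball (le_refl _)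
    · intro z hz
      exact hb2 z (sphere_subset_closedBall hz)
  have hsum := Complex.hasSum_taylorSeries_on_ball (f := K) (c := 0) (r := ρ₃) (z := w) hK
    (by rw [mem_ball_zero_iff]; linarith)
  have hM₁ : 0 ≤ M₁ := (norm_nonneg _).trans (hb1 0 (mem_closedBall_self hρ₁.le))
  have hM₂ : 0 ≤ M₂ := (norm_nonneg _).trans (hb2 0 (mem_closedBall_self hρ₂.le))
  set a : ℕ → ℂ := fun n => ((n.factorial : ℂ))⁻¹ • (w - 0) ^ n • iteratedDeriv n K 0 with ha
  have hnorm : ∀ n, ‖a n‖ = (n.factorial : ℝ)⁻¹ * (‖w‖ ^ n * ‖iteratedDeriv n K 0‖) := by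
    intro n
    simp [ha, norm_pow]
  have ha1 : ∀ n, ‖a n‖ ≤ M₁ * (ρ / ρ₁) ^ n := by
    intro n
    rw [hnorm n]
    have hf : (0 : ℝ) < n.factorial := by exact_mod_cast n.factorial_pos
    calc (n.factorial : ℝ)⁻¹ * (‖w‖ ^ n * ‖iteratedDeriv n K 0‖)
        ≤ (n.factorial : ℝ)⁻¹ * (ρ ^ n * (n.factorial * M₁ / ρ₁ ^ n)) := by
          gcongr
          exact hcoef1 n
      _ = M₁ * (ρ / ρ₁) ^ n := by
          rw [div_pow]
          field_simp
  have ha2 : ∀ n, ‖a n‖ ≤ M₂ * (ρ / ρ₂) ^ n := by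
    intro n
    rw [hnorm n]
    have hf : (0 : ℝ) < n.factorial := by exact_mod_cast n.factorial_pos
    calc (n.factorial : ℝ)⁻¹ * (‖w‖ ^ n * ‖iteratedDeriv n K 0‖)
        ≤ (n.factorial : ℝ)⁻¹ * (ρ ^ n * (n.factorial * M₂ / ρ₂ ^ n)) := by
          gcongr
          exact hcoef2 n
      _ = M₂ * (ρ / ρ₂) ^ n := by
          rw [div_pow]
          field_simp
  have hsplit : K w = ∑ k ∈ Finset.range m, a k + ∑' k, a (k + m) := by
    rw [hsum.summable.sum_add_tsum_nat_add m]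
    exact hsum.tsum_eq.symm
  have htail : HasSum (fun k => M₂ * (ρ / ρ₂) ^ (k + m))
      (M₂ * ((ρ / ρ₂) ^ m / (1 - ρ / ρ₂))) := by
    have h1 := (hasSum_geometric_of_lt_one hq0 hq1).mul_left (M₂ * (ρ / ρ₂) ^ m)
    have h2 : M₂ * (ρ / ρ₂) ^ m * (1 - ρ / ρ₂)⁻¹ = M₂ * ((ρ / ρ₂) ^ m / (1 - ρ / ρ₂)) := by
      rw [div_eq_mul_inv ((ρ / ρ₂) ^ m), mul_assoc]
    have h3 : (fun k => M₂ * (ρ / ρ₂) ^ (k + m))
        = fun k : ℕ => M₂ * (ρ / ρ₂) ^ m * (ρ / ρ₂) ^ k := by
      funext k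
      rw [pow_add]
      ring
    rw [h2] at h1
    rw [h3]
    exact h1
  rw [hsplit]
  refine (norm_add_le _ _).trans (add_le_add ?_ ?_)
  · rw [Finset.mul_sum]
    exact (norm_sum_le _ _).trans (Finset.sum_le_sum fun k _ => ha1 k)
  · exact tsum_of_norm_bounded htail fun k => ha2 (k + m)

/-- Removing the zeros in the disc of radius `(1 + 7θ/8) r`. -/
lemma reduce {θ B : ℝ} (hθ : 0 < θ) (hθ1 : θ ≤ 1) {h : ℂ → ℂ} {c : ℂ} {r : ℝ} (hr : 0 < r)
    (hd : Differentiable ℂ h)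
    (hB : ∀ w ∈ closedBall c ((1 + θ) * r), ‖h w‖ ≤ Real.exp B)
    (h3 : ∀ w ∈ closedBall c (r / 2), ‖h w‖ ≤ 3)
    (hne : ∀ w ∈ closedBall c (r / 2), h w ≠ 0)
    (hc : 1 / 4 ≤ ‖h c‖) (Z : Finset ℂ)
    (hZ : ∀ w ∈ closedBall c ((1 + 7 * θ / 8) * r), h w = 0 → w ∈ Z) :
    ∃ n : ℕ, (n : ℝ) = ∑ u ∈ Z, (closedBall c ((1 + 7 * θ / 8) * r)).indicator
          (fun u => (analyticOrderNatAt h u : ℝ)) u ∧
      ∃ G : ℂ → ℂ, Differentiable ℂ G ∧
        (∀ w ∈ closedBall c ((1 + 7 * θ / 8) * r), G w ≠ 0) ∧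
        (∀ w ∈ closedBall c ((1 + θ) * r), ‖G w‖ ≤ Real.exp B * (32 / θ) ^ n) ∧
        (∀ w ∈ closedBall c (r / 4), ‖G w‖ ≤ 3 * 16 ^ n) ∧
        1 / 4 ≤ ‖G c‖ ∧
        (∀ w ∈ closedBall c ((1 + θ) * r), ‖h w‖ ≤ ‖G w‖) := by
  classical
  set R : ℝ := (1 + θ) * r with hR
  set R1 : ℝ := (1 + 7 * θ / 8) * r with hR1
  have hRpos : 0 < R := by positivity
  have hθr : 0 < θ * r := by positivity
  have hθr1 : θ * r ≤ r := by nlinarith
  have hRR1 : R - R1 = θ * r / 8 := by rw [hR, hR1]; ring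
  have hR2r : R ≤ 2 * r := by rw [hR]; nlinarith
  have hc0 : h c ≠ 0 := by
    intro h0
    rw [h0, norm_zero] at hc
    norm_num at hc
  have hfin : ∀ u, analyticOrderAt h u ≠ ⊤ := order_ne_top hd hc0
  set Z' := Z.filter (· ∈ closedBall c R1) with hZ'
  set n : ℕ := ∑ u ∈ Z', analyticOrderNatAt h u with hn
  obtain ⟨H, hHd, hhH, hHZ⟩ := div_finset hd hfin Z'
  have hRc : ((2 * R : ℝ) : ℂ) ≠ 0 := by
    exact_mod_cast (by positivity : (2 * R : ℝ) ≠ 0)
  set p : ℂ → ℂ := fun w => ∏ u ∈ Z', ((w - u) / ((2 * R : ℝ) : ℂ)) ^ (analyticOrderNatAt h u)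
    with hp
  set G : ℂ → ℂ := fun w => ((2 * R : ℝ) : ℂ) ^ n * H w with hG
  have hpG : ∀ w, h w = p w * G w := by
    intro w
    have h1 : p w = (∏ u ∈ Z', (w - u) ^ (analyticOrderNatAt h u))
        / ((2 * R : ℝ) : ℂ) ^ n := by
      simp only [hp]
      rw [hn, ← Finset.prod_pow_eq_pow_sum, ← Finset.prod_div_distrib]
      apply Finset.prod_congr rfl
      intro u _
      rw [div_pow]
    rw [h1, hG]
    simp only
    rw [hhH w]
    have : ((2 * R : ℝ) : ℂ) ^ n ≠ 0 := pow_ne_zero _ hRc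
    field_simp
  have hnormp : ∀ w, ‖p w‖ = ∏ u ∈ Z', (‖w - u‖ / (2 * R)) ^ (analyticOrderNatAt h u) := by
    intro w
    simp only [hp]
    rw [norm_prod]
    apply Finset.prod_congr rfl
    intro u _
    rw [norm_pow, norm_div, Complex.norm_real, Real.norm_eq_abs, abs_of_pos (by positivity)]
  have hlow : ∀ (δ : ℝ), 0 ≤ δ → ∀ w, (∀ u ∈ Z', analyticOrderNatAt h u ≠ 0 →
      δ * (2 * R) ≤ ‖w - u‖) → δ ^ n ≤ ‖p w‖ := by
    intro δ hδ w hw
    rw [hnormp w, hn, ← Finset.prod_pow_eq_pow_sum]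
    apply Finset.prod_le_prod
    · intro u _; positivity
    · intro u hu
      by_cases h0 : analyticOrderNatAt h u = 0
      · rw [h0, pow_zero, pow_zero]
      · apply pow_le_pow_left₀ hδ
        rw [le_div_iff₀ (by positivity)]
        exact hw u hu h0
  have hZ'R1 : ∀ u ∈ Z', ‖u - c‖ ≤ R1 := by
    intro u hu
    have := (Finset.mem_filter.1 hu).2
    rwa [mem_closedBall_iff_norm] at this
  have hup : ∀ w ∈ closedBall c R, ‖p w‖ ≤ 1 := by
    intro w hw
    rw [mem_closedBall_iff_norm] at hw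
    rw [hnormp w]
    apply Finset.prod_le_one
    · intro u _; positivity
    · intro u hu
      apply pow_le_one₀ (by positivity)
      rw [div_le_one (by positivity)]
      have h1 := hZ'R1 u hu
      have h2 : ‖w - u‖ ≤ ‖w - c‖ + ‖u - c‖ := by
        have : w - u = (w - c) - (u - c) := by ring
        rw [this]
        exact norm_sub_le _ _
      linarith
  have hGd : Differentiable ℂ G := by
    rw [hG]
    exact hHd.const_mul _
  have hsumn : (n : ℝ) = ∑ u ∈ Z, (closedBall c R1).indicator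
          (fun u => (analyticOrderNatAt h u : ℝ)) u := by
    rw [hn, hZ', Finset.sum_filter]
    push_cast
    apply Finset.sum_congr rfl
    intro u _
    by_cases hu : u ∈ closedBall c R1
    · rw [Set.indicator_of_mem hu, if_pos hu]
    · rw [Set.indicator_of_notMem hu, if_neg hu]
  refine ⟨n, hsumn, G, hGd, ?_, ?_, ?_, ?_, ?_⟩
  · intro w hw
    rw [hG]
    apply mul_ne_zero (pow_ne_zero _ hRc)
    by_cases hw0 : h w = 0
    · apply hHZ
      rw [hZ', Finset.mem_filter]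
      exact ⟨hZ w hw hw0, hw⟩
    · intro h0
      apply hw0
      rw [hhH w, h0, mul_zero]
  · -- maximum principle
    intro w hw
    apply Complex.norm_le_of_forall_mem_frontier_norm_le (U := ball c R) isBounded_ball
      (hGd.diffContOnCl) (C := Real.exp B * (32 / θ) ^ n)
    · intro z hz
      rw [frontier_ball c hRpos.ne', mem_sphere_iff_norm] at hz
      have hlowz : (θ / 32) ^ n ≤ ‖p z‖ := by
        apply hlow _ (by positivity)
        intro u hu _
        have h1 := hZ'R1 u hu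
        have h2 : ‖z - c‖ ≤ ‖z - u‖ + ‖u - c‖ := by
          have : z - c = (z - u) + (u - c) := by ring
          rw [this]
          exact norm_add_le _ _
        nlinarith
      have h4 : ‖h z‖ ≤ Real.exp B := hB z (by rw [mem_closedBall_iff_norm]; exact hz.le)
      rw [hpG z, norm_mul] at h4
      have h5 : (θ / 32) ^ n * ‖G z‖ ≤ Real.exp B :=
        (mul_le_mul_of_nonneg_right hlowz (norm_nonneg _)).trans h4
      have h6 : (θ / 32) ^ n * (32 / θ) ^ n = 1 := by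
        rw [← mul_pow]
        have : θ / 32 * (32 / θ) = 1 := by field_simp
        rw [this, one_pow]
      have h7 : (0 : ℝ) ≤ (32 / θ) ^ n := by positivity
      calc ‖G z‖ = ((θ / 32) ^ n * (32 / θ) ^ n) * ‖G z‖ := by rw [h6, one_mul]
        _ = ((θ / 32) ^ n * ‖G z‖) * (32 / θ) ^ n := by ring
        _ ≤ Real.exp B * (32 / θ) ^ n := mul_le_mul_of_nonneg_right h5 h7
    · rw [closure_ball c hRpos.ne']
      exact hw
  · intro w hw
    have hw' := hw
    rw [mem_closedBall_iff_norm] at hw'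
    have hloww : (1 / 16 : ℝ) ^ n ≤ ‖p w‖ := by
      apply hlow _ (by positivity)
      intro u hu hu0
      have hu1 : h u = 0 := apply_eq_zero_of_analyticOrderNatAt_ne_zero hu0
      have hu2 : r / 2 < ‖u - c‖ := by
        by_contra hcon
        exact hne u (by rw [mem_closedBall_iff_norm]; linarith) hu1
      have h2 : ‖u - c‖ ≤ ‖w - u‖ + ‖w - c‖ := by
        have : u - c = (w - c) - (w - u) := by ring
        rw [this]
        exact (norm_sub_le _ _).trans (by rw [add_comm])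
      linarith
    have h4 : ‖h w‖ ≤ 3 := h3 w (closedBall_subset_closedBall (by linarith) hw)
    rw [hpG w, norm_mul] at h4
    have h5 : (1 / 16 : ℝ) ^ n * ‖G w‖ ≤ 3 :=
      (mul_le_mul_of_nonneg_right hloww (norm_nonneg _)).trans h4
    have h6 : (1 / 16 : ℝ) ^ n * 16 ^ n = 1 := by
      rw [← mul_pow]
      norm_num
    have h7 : (0 : ℝ) ≤ 16 ^ n := by positivity
    calc ‖G w‖ = ((1 / 16 : ℝ) ^ n * 16 ^ n) * ‖G w‖ := by rw [h6, one_mul]
      _ = ((1 / 16 : ℝ) ^ n * ‖G w‖) * 16 ^ n := by ring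
      _ ≤ 3 * 16 ^ n := mul_le_mul_of_nonneg_right h5 h7
  · have h1 := hup c (mem_closedBall_self hRpos.le)
    rw [hpG c, norm_mul] at hc
    have := mul_le_mul_of_nonneg_right h1 (norm_nonneg (G c))
    linarith
  · intro w hw
    have h1 := hup w hw
    rw [hpG w, norm_mul]
    have := mul_le_mul_of_nonneg_right h1 (norm_nonneg (G w))
    linarith

/-- The basic estimate for a nonvanishing function, in normalised form. -/
lemma core {θ A e : ℝ} (hθ : 0 < θ) (hθ1 : θ ≤ 1) (hA : 0 < A) (he : 0 < e) {G : ℂ → ℂ}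
    (hG : Differentiable ℂ G)
    (hne : ∀ w ∈ closedBall (0 : ℂ) (1 + 7 * θ / 8), G w ≠ 0)
    (hbig : ∀ w ∈ closedBall (0 : ℂ) (1 + 7 * θ / 8), 4 * ‖G w‖ ≤ Real.exp A)
    (hsmall : ∀ w ∈ closedBall (0 : ℂ) (1 / 4), 4 * ‖G w‖ ≤ Real.exp e)
    (h0 : 1 / 4 ≤ ‖G 0‖) (m : ℕ) {w : ℂ} (hw : ‖w‖ ≤ 1 + 3 * θ / 4) :
    ‖G w‖ ≤ Real.exp (e + (2 * e * ∑ k ∈ Finset.range m, ((1 + 3 * θ / 4) / (1 / 8)) ^ k
      + 64 * A / θ * (((1 + 3 * θ / 4) / (1 + 13 * θ / 16)) ^ m
        / (1 - (1 + 3 * θ / 4) / (1 + 13 * θ / 16))))) := by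
  have hG0 : 0 < ‖G 0‖ := by linarith
  obtain ⟨K, hKd, hK0, hGK⟩ := exists_log (G := G) (ρ := 1 + 7 * θ / 8) (by positivity)
    hG.differentiableOn (fun w hw => hne w (ball_subset_closedBall hw))
  have hnorm : ∀ w ∈ ball (0 : ℂ) (1 + 7 * θ / 8), ‖G w‖ = ‖G 0‖ * Real.exp (K w).re := by
    intro w hw
    rw [hGK w hw, norm_mul, Complex.norm_exp]
  have hre : ∀ (M : ℝ), ∀ w ∈ ball (0 : ℂ) (1 + 7 * θ / 8), 4 * ‖G w‖ ≤ Real.exp M →
      (K w).re ≤ M := by
    intro M w hw hM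
    rw [hnorm w hw] at hM
    apply Real.exp_le_exp.1
    have := Real.exp_pos (K w).re
    nlinarith
  have hK1 : ∀ w ∈ closedBall (0 : ℂ) (1 / 8), ‖K w‖ ≤ 2 * e := by
    intro w hw
    rw [mem_closedBall_zero_iff] at hw
    have h1 := Complex.borelCaratheodory_zero (f := K) (M := e) (R := 1 / 4) (z := w) he
      (hKd.mono (ball_subset_ball (by linarith)))
      (fun z hz => hre e z (ball_subset_ball (by linarith) hz)
        (hsmall z (ball_subset_closedBall hz)))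
      (by norm_num) (by rw [mem_ball_zero_iff]; linarith) hK0
    refine h1.trans ?_
    rw [div_le_iff₀ (by linarith)]
    nlinarith
  have hK2 : ∀ w ∈ closedBall (0 : ℂ) (1 + 13 * θ / 16), ‖K w‖ ≤ 64 * A / θ := by
    intro w hw
    rw [mem_closedBall_zero_iff] at hw
    have h1 := Complex.borelCaratheodory_zero (f := K) (M := A) (R := 1 + 7 * θ / 8) (z := w) hA
      hKd (fun z hz => hre A z hz (hbig z (ball_subset_closedBall hz)))
      (by positivity) (by rw [mem_ball_zero_iff]; linarith) hK0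
    refine h1.trans ?_
    rw [div_le_div_iff₀ (by linarith) hθ]
    have h2 : θ / 16 ≤ 1 + 7 * θ / 8 - ‖w‖ := by linarith
    have h3 : ‖w‖ ≤ 2 := by linarith
    calc 2 * A * ‖w‖ * θ ≤ 2 * A * 2 * θ := by gcongr
      _ = 64 * A * (θ / 16) := by ring
      _ ≤ 64 * A * (1 + 7 * θ / 8 - ‖w‖) := by gcongr
  have hKw := split_bound (K := K) (ρ := 1 + 3 * θ / 4) (ρ₁ := 1 / 8) (ρ₂ := 1 + 13 * θ / 16)
    (ρ₃ := 1 + 7 * θ / 8) (M₁ := 2 * e) (M₂ := 64 * A / θ) (by norm_num) (by linarith)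
    (by positivity) (by linarith) (by linarith) hKd hK1 hK2 m hw
  have hwb : w ∈ ball (0 : ℂ) (1 + 7 * θ / 8) := by
    rw [mem_ball_zero_iff]; linarith
  rw [hnorm w hwb]
  have h5 : ‖G 0‖ ≤ Real.exp e := by
    have := hsmall 0 (mem_closedBall_self (by norm_num))
    linarith
  have h6 : (K w).re ≤ ‖K w‖ := Complex.re_le_norm _
  calc ‖G 0‖ * Real.exp (K w).re ≤ Real.exp e * Real.exp (2 * e *
        ∑ k ∈ Finset.range m, ((1 + 3 * θ / 4) / (1 / 8)) ^ k
        + 64 * A / θ * (((1 + 3 * θ / 4) / (1 + 13 * θ / 16)) ^ m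
        / (1 - (1 + 3 * θ / 4) / (1 + 13 * θ / 16)))) := by
        apply mul_le_mul h5 _ (Real.exp_nonneg _) (Real.exp_nonneg _)
        exact Real.exp_le_exp.2 (h6.trans hKw)
    _ = _ := by rw [← Real.exp_add]

/-- L1: few zeros forces smallness. -/
theorem few_zeros (θ η : ℝ) (hθ : 0 < θ) (hθ1 : θ ≤ 1) (hη : 0 < η) :
    ∃ ε : ℝ, 0 < ε ∧ ∃ B₀ : ℝ, ∀ B : ℝ, B₀ ≤ B → ∀ (h : ℂ → ℂ) (c : ℂ) (r : ℝ), 0 < r →
      Differentiable ℂ h →
      (∀ w ∈ closedBall c ((1 + θ) * r), ‖h w‖ ≤ Real.exp B) →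
      (∀ w ∈ closedBall c (r / 2), ‖h w‖ ≤ 3) →
      (∀ w ∈ closedBall c (r / 2), h w ≠ 0) →
      1 / 4 ≤ ‖h c‖ →
      (∃ w ∈ closedBall c ((1 + 3 * θ / 4) * r), Real.exp (η * B) ≤ ‖h w‖) →
      ∀ Z : Finset ℂ, (∀ w ∈ closedBall c ((1 + 7 * θ / 8) * r), h w = 0 → w ∈ Z) →
        ε * B ≤ ∑ u ∈ Z, (closedBall c ((1 + 7 * θ / 8) * r)).indicator
          (fun u => (analyticOrderNatAt h u : ℝ)) u := by
  set q : ℝ := (1 + 3 * θ / 4) / (1 + 13 * θ / 16) with hq
  have hq0 : 0 ≤ q := by positivity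
  have hq1 : q < 1 := (div_lt_one (by positivity)).2 (by linarith)
  -- choice of m
  obtain ⟨m, hm⟩ : ∃ m : ℕ, 64 * 2 / θ * (q ^ m / (1 - q)) ≤ η / 4 := by
    have h1 : Tendsto (fun m : ℕ => 64 * 2 / θ * (q ^ m / (1 - q))) atTop
        (𝓝 (64 * 2 / θ * (0 / (1 - q)))) :=
      ((tendsto_pow_atTop_nhds_zero_of_lt_one hq0 hq1).div_const _).const_mul _
    rw [zero_div, mul_zero] at h1
    have h2 := h1.eventually (gt_mem_nhds (by positivity : (0 : ℝ) < η / 4))
    obtain ⟨m, hm⟩ := h2.exists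
    exact ⟨m, hm.le⟩
  set S : ℝ := ∑ k ∈ Finset.range m, ((1 + 3 * θ / 4) / (1 / 8)) ^ k with hS
  have hS0 : 0 ≤ S := Finset.sum_nonneg fun k _ => by positivity
  set T : ℝ := q ^ m / (1 - q) with hT
  have hT0 : 0 ≤ T := div_nonneg (by positivity) (by linarith)
  set L : ℝ := Real.log (32 / θ) with hL
  have hLpos : 0 < L := Real.log_pos (by rw [lt_div_iff₀ hθ]; linarith)
  have hlog12 : Real.log 12 ≤ 3 := by
    rw [Real.log_le_iff_le_exp (by norm_num)]
    have := Real.exp_one_gt_d9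
    have h2 : Real.exp 3 = Real.exp 1 ^ 3 := by rw [← Real.exp_nat_mul]; norm_num
    rw [h2]
    calc (12 : ℝ) ≤ 2.7 ^ 3 := by norm_num
      _ ≤ Real.exp 1 ^ 3 := by gcongr; linarith
  have hlog16 : Real.log 16 ≤ 3 := by
    rw [Real.log_le_iff_le_exp (by norm_num)]
    have := Real.exp_one_gt_d9
    have h2 : Real.exp 3 = Real.exp 1 ^ 3 := by rw [← Real.exp_nat_mul]; norm_num
    rw [h2]
    calc (16 : ℝ) ≤ 2.7 ^ 3 := by norm_num
      _ ≤ Real.exp 1 ^ 3 := by gcongr; linarith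
  have hlog4 : Real.log 4 ≤ 2 := by
    rw [Real.log_le_iff_le_exp (by norm_num)]
    have := Real.exp_one_gt_d9
    have h2 : Real.exp 2 = Real.exp 1 ^ 2 := by rw [← Real.exp_nat_mul]; norm_num
    rw [h2]
    calc (4 : ℝ) ≤ 2.7 ^ 2 := by norm_num
      _ ≤ Real.exp 1 ^ 2 := by gcongr; linarith
  have hlog4' : 0 < Real.log 4 := Real.log_pos (by norm_num)
  have hlog12' : 0 < Real.log 12 := Real.log_pos (by norm_num)
  have hlog16' : 0 < Real.log 16 := Real.log_pos (by norm_num)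
  refine ⟨min (1 / (2 * L)) (η / (12 * (1 + 2 * S))), by positivity,
    max 4 (12 * (1 + 2 * S) / η), ?_⟩
  set ε : ℝ := min (1 / (2 * L)) (η / (12 * (1 + 2 * S))) with hε
  have hε1 : ε * L ≤ 1 / 2 := by
    calc ε * L ≤ (1 / (2 * L)) * L := by gcongr; exact min_le_left _ _
      _ = 1 / 2 := by field_simp
  have hε2 : (1 + 2 * S) * (3 * ε) ≤ η / 4 := by
    calc (1 + 2 * S) * (3 * ε) ≤ (1 + 2 * S) * (3 * (η / (12 * (1 + 2 * S)))) := by
          gcongr; exact min_le_right _ _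
      _ = η / 4 := by field_simp; norm_num
  intro B hB h c r hr hd hbd h3 hne hc hbig Z hZ
  have hB4 : 4 ≤ B := (le_max_left _ _).trans hB
  have hBS : 3 * (1 + 2 * S) ≤ η / 4 * B := by
    have h1 : 12 * (1 + 2 * S) / η ≤ B := (le_max_right _ _).trans hB
    rw [div_le_iff₀ hη] at h1
    linarith
  obtain ⟨n, hn, G, hGd, hGne, hGbig, hGsmall, hGc, hhG⟩ :=
    reduce hθ hθ1 hr hd hbd h3 hne hc Z hZ
  rw [← hn]
  by_contra hcon
  rw [not_le] at hcon
  obtain ⟨w, hw, hwbig⟩ := hbig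
  -- rescale
  set G' : ℂ → ℂ := fun z => G (c + r * z) with hG'
  have hG'd : Differentiable ℂ G' := by
    rw [hG']
    fun_prop
  have hmem : ∀ (ρ : ℝ) (z : ℂ), z ∈ closedBall (0 : ℂ) ρ → c + r * z ∈ closedBall c (ρ * r) := by
    intro ρ z hz
    rw [mem_closedBall_zero_iff] at hz
    rw [mem_closedBall_iff_norm]
    have : c + r * z - c = r * z := by ring
    rw [this, norm_mul, Complex.norm_real, Real.norm_eq_abs, abs_of_pos hr]
    nlinarith
  have hn0 : (0 : ℝ) ≤ n := Nat.cast_nonneg n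
  have hcore := core (θ := θ) (A := B + n * L + Real.log 4)
    (e := Real.log 12 + n * Real.log 16) hθ hθ1 (by positivity) (by positivity) hG'd
    (fun z hz => hGne _ (hmem _ z hz))
    (by
      intro z hz
      have h1 := hGbig _ (closedBall_subset_closedBall (by nlinarith) (hmem _ z hz))
      rw [Real.exp_add, Real.exp_add, Real.exp_log (by norm_num : (0 : ℝ) < 4),
        Real.exp_nat_mul, hL, Real.exp_log (by positivity)]
      linarith)
    (by
      intro z hz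
      have h1 := hGsmall _ (closedBall_subset_closedBall (by linarith) (hmem _ z hz))
      rw [Real.exp_add, Real.exp_log (by norm_num : (0 : ℝ) < 12),
        Real.exp_nat_mul, Real.exp_log (by norm_num : (0 : ℝ) < 16)]
      linarith)
    (by rw [hG']; simpa using hGc) m (w := (w - c) / r)
    (by
      rw [mem_closedBall_iff_norm] at hw
      rw [norm_div, Complex.norm_real, Real.norm_eq_abs, abs_of_pos hr, div_le_iff₀ hr]
      exact hw)
  have hG'w : G' ((w - c) / r) = G w := by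
    have hrc : (r : ℂ) ≠ 0 := by exact_mod_cast hr.ne'
    rw [hG']
    simp only
    congr 1
    field_simp
    ring
  rw [hG'w] at hcore
  have hwR : w ∈ closedBall c ((1 + θ) * r) :=
    closedBall_subset_closedBall (by nlinarith) hw
  have hfinal := hwbig.trans ((hhG w hwR).trans hcore)
  rw [Real.exp_le_exp] at hfinal
  rw [← hq, ← hS, ← hT] at hfinal
  have hA2 : B + n * L + Real.log 4 ≤ 2 * B := by
    have h1 : (n : ℝ) * L ≤ ε * B * L := mul_le_mul_of_nonneg_right hcon.le hLpos.le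
    have h2 : ε * B * L ≤ 1 / 2 * B := by
      calc ε * B * L = (ε * L) * B := by ring
        _ ≤ 1 / 2 * B := mul_le_mul_of_nonneg_right hε1 (by linarith)
    linarith
  have he2 : Real.log 12 + n * Real.log 16 ≤ 3 + 3 * (ε * B) := by
    have h1 : (n : ℝ) * Real.log 16 ≤ (ε * B) * 3 :=
      mul_le_mul hcon.le hlog16 hlog16'.le (by linarith)
    linarith
  have h7 : 64 * (B + n * L + Real.log 4) / θ * T ≤ η / 4 * B := by
    calc 64 * (B + n * L + Real.log 4) / θ * T ≤ 64 * (2 * B) / θ * T := by gcongr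
      _ = 64 * 2 / θ * T * B := by ring
      _ ≤ η / 4 * B := mul_le_mul_of_nonneg_right hm (by linarith)
  have h8 : (Real.log 12 + n * Real.log 16) * (1 + 2 * S) ≤ η / 2 * B := by
    calc (Real.log 12 + n * Real.log 16) * (1 + 2 * S)
        ≤ (3 + 3 * (ε * B)) * (1 + 2 * S) := by gcongr
      _ = 3 * (1 + 2 * S) + (1 + 2 * S) * (3 * ε) * B := by ring
      _ ≤ η / 4 * B + η / 4 * B :=
          add_le_add hBS (mul_le_mul_of_nonneg_right hε2 (by linarith))
      _ = η / 2 * B := by ring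
  have h9 : 0 < η * B := by positivity
  have h10 : (Real.log 12 + n * Real.log 16) + (2 * (Real.log 12 + n * Real.log 16) * S
      + 64 * (B + n * L + Real.log 4) / θ * T)
      = (Real.log 12 + n * Real.log 16) * (1 + 2 * S)
        + 64 * (B + n * L + Real.log 4) / θ * T := by ring
  rw [h10] at hfinal
  linarith

end Pool.Agent.XiDeform.FewZeros
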