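import Pool.Agent.Lib.MP_023270_nt.Local

/-! Assembly of the lower bound and transfer to `Ξ_λ`. -/

open MeasureTheory Filter Topology Set Metric

namespace Pool.Agent.XiDeform

/-- many zeros in the right half plane -/
theorem right_lower (κ : ℝ) (hκ : 0 < κ) : ∃ c T₀ : ℝ, 0 < c ∧ ∀ T : ℝ, T₀ ≤ T → ∀ Z : Finset ℂ,
    (∀ w, F κ w = 0 → 1 ≤ w.re → |w.im| ≤ T → w ∈ Z) →
    c * T * Real.log T ≤ ∑ u ∈ Z, (analyticOrderNatAt (F κ) u : ℝ) := by
  obtain ⟨c, X₀, hc, hloc⟩ := local_lower κ hκ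
  have hq1 : Tendsto (fun T : ℝ => (T / 2) ^ (1 / 4 : ℝ)) atTop atTop :=
    (tendsto_rpow_atTop (by norm_num)).comp (tendsto_id.atTop_div_const (by norm_num))
  have hq2 : Tendsto (fun T : ℝ => T ^ (1 / 20 : ℝ)) atTop atTop := tendsto_rpow_atTop (by norm_num)
  have hev : ∀ᶠ T : ℝ in atTop, 2 * X₀ ≤ T ∧ 4 ≤ T ∧ 2 ≤ (T / 2) ^ (1 / 4 : ℝ) ∧ 2 ≤ T ^ (1 / 20 : ℝ) := by
    filter_upwards [eventually_ge_atTop (2 * X₀), eventually_ge_atTop 4, hq1.eventually_ge_atTop 2,
      hq2.eventually_ge_atTop 2] with T h1 h2 h3 h4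
    exact ⟨h1, h2, h3, h4⟩
  obtain ⟨T₀, hT₀⟩ := eventually_atTop.mp hev
  refine ⟨c / 24, T₀, by positivity, fun T hT Z hZ => ?_⟩
  obtain ⟨hTX, hT4, hH2, hT20⟩ := hT₀ T hT
  have hTpos : 0 < T := by linarith
  set H : ℝ := (T / 2) ^ (1 / 4 : ℝ) with hH
  have hHpos : 0 < H := by linarith
  have hH4 : H ^ 4 = T / 2 := by
    rw [hH, ← Real.rpow_natCast, ← Real.rpow_mul (by positivity)]; norm_num
  have hH5 : T ^ (1 / 5 : ℝ) ≤ H := by
    have h1 : T ^ (1 / 4 : ℝ) = T ^ (1 / 5 : ℝ) * T ^ (1 / 20 : ℝ) := by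
      rw [← Real.rpow_add hTpos]; norm_num
    have h2 : H = T ^ (1 / 4 : ℝ) / 2 ^ (1 / 4 : ℝ) := by
      rw [hH, Real.div_rpow hTpos.le (by norm_num)]
    have h3 : (2 : ℝ) ^ (1 / 4 : ℝ) ≤ 2 := by
      calc (2 : ℝ) ^ (1 / 4 : ℝ) ≤ 2 ^ (1 : ℝ) := Real.rpow_le_rpow_of_exponent_le (by norm_num) (by norm_num)
        _ = 2 := by norm_num
    rw [h2, le_div_iff₀ (by positivity), h1]
    have h4 : 0 < T ^ (1 / 5 : ℝ) := by positivity
    gcongr
    linarith
  have hH12 : 12 * H ≤ T := by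
    have h1 : T = 2 * H ^ 4 := by rw [hH4]; ring
    have h2 : (2 : ℝ) ^ 3 ≤ H ^ 3 := by gcongr
    have h3 : H * 2 ^ 3 ≤ H * H ^ 3 := by gcongr
    nlinarith
  set N : ℕ := ⌊T / (6 * H)⌋₊ with hN
  have hN1 : (N : ℝ) ≤ T / (6 * H) := Nat.floor_le (by positivity)
  have hN2 : T / (12 * H) ≤ N := by
    have h1 : T / (6 * H) < N + 1 := Nat.lt_floor_add_one _
    have h2 : 1 ≤ T / (12 * H) := by
      rw [le_div_iff₀ (by positivity)]; linarith
    have h3 : T / (6 * H) = T / (12 * H) + T / (12 * H) := by field_simp; ring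
    linarith
  have hN3 : (N : ℝ) * (6 * H) ≤ T := by rwa [le_div_iff₀ (by positivity)] at hN1
  set X : ℕ → ℝ := fun j => T / 2 + H / 2 + 3 * H * j with hX
  have hXlo : ∀ j, T / 2 ≤ X j := by
    intro j; simp only [hX]; nlinarith [(Nat.cast_nonneg j : (0 : ℝ) ≤ j)]
  have hXhi : ∀ j ∈ Finset.range N, X j + 3 * H / 2 ≤ T := by
    intro j hj
    have hj' : (j : ℝ) + 1 ≤ N := by exact_mod_cast Finset.mem_range.mp hj
    have : 3 * H * (j + 1) ≤ 3 * H * N := by gcongr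
    simp only [hX]
    nlinarith
  set S : ℕ → Finset ℂ := fun j => Z.filter (fun w => X j - H / 2 ≤ w.im ∧ w.im ≤ X j + 3 * H / 2) with hS
  have h1 : ∀ j ∈ Finset.range N, c * H * Real.log (T / 2) ≤ ∑ u ∈ S j, (analyticOrderNatAt (F κ) u : ℝ) := by
    intro j hj
    have hhi := hXhi j hj
    have hlo := hXlo j
    have h := hloc (X j) (by linarith) H
      ((Real.rpow_le_rpow (by linarith) (by linarith) (by norm_num)).trans hH5)
      (by rw [hH]; exact Real.rpow_le_rpow (by positivity) hlo (by norm_num)) (S j)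
      (by
        intro w hw hre him1 him2
        simp only [hS, Finset.mem_filter]
        refine ⟨hZ w hw hre ?_, him1, him2⟩
        rw [abs_le]
        constructor
        · linarith
        · linarith)
    refine le_trans ?_ h
    have : Real.log (T / 2) ≤ Real.log (X j) := Real.log_le_log (by positivity) hlo
    gcongr
  have hdisj : ((Finset.range N : Finset ℕ) : Set ℕ).PairwiseDisjoint S := by
    have key : ∀ i j : ℕ, i < j → Disjoint (S i) (S j) := by
      intro i j hij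
      rw [Finset.disjoint_left]
      intro w hwi hwj
      simp only [hS, Finset.mem_filter] at hwi hwj
      have hij' : (i : ℝ) + 1 ≤ j := by exact_mod_cast hij
      have h3 : 3 * H * (i + 1) ≤ 3 * H * j := by gcongr
      have h4 := hwi.2.2
      have h5 := hwj.2.1
      simp only [hX] at h4 h5
      nlinarith
    intro i _ j _ hij
    rcases lt_or_gt_of_ne hij with h | h
    · exact key i j h
    · exact (key j i h).symm
  have h2 : ∑ j ∈ Finset.range N, ∑ u ∈ S j, (analyticOrderNatAt (F κ) u : ℝ)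
      ≤ ∑ u ∈ Z, (analyticOrderNatAt (F κ) u : ℝ) := by
    rw [← Finset.sum_biUnion hdisj]
    apply Finset.sum_le_sum_of_subset_of_nonneg
    · intro w hw
      rw [Finset.mem_biUnion] at hw
      obtain ⟨j, _, hj⟩ := hw
      exact (Finset.mem_filter.mp hj).1
    · intro _ _ _; exact Nat.cast_nonneg _
  have h3 : (N : ℝ) * (c * H * Real.log (T / 2)) ≤ ∑ u ∈ Z, (analyticOrderNatAt (F κ) u : ℝ) := by
    refine le_trans ?_ h2
    have := Finset.sum_le_sum h1
    rwa [Finset.sum_const, Finset.card_range, nsmul_eq_mul] at this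
  have hlog : 1 / 2 * Real.log T ≤ Real.log (T / 2) := by
    rw [Real.log_div hTpos.ne' (by norm_num)]
    have h5 : 2 * Real.log 2 ≤ Real.log T := by
      have h6 : Real.log 4 = 2 * Real.log 2 := by
        rw [show (4 : ℝ) = 2 ^ 2 by norm_num, Real.log_pow]; norm_num
      rw [← h6]
      exact Real.log_le_log (by norm_num) hT4
    linarith
  have hlogT : 0 ≤ Real.log T := Real.log_nonneg (by linarith)
  calc c / 24 * T * Real.log T = T / (12 * H) * (c * H * (1 / 2 * Real.log T)) := by field_simp; ring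
    _ ≤ N * (c * H * Real.log (T / 2)) := by gcongr
    _ ≤ _ := h3

lemma zeroCount_eq_sum {f : ℂ → ℂ} {S : Set ℂ} {Z : Finset ℂ}
    (hf : Differentiable ℂ f) (hZ : ∀ z, z ∈ Z ↔ f z = 0 ∧ z ∈ S) :
    zeroCount f S = ∑ z ∈ Z, analyticOrderNatAt f z := by
  unfold zeroCount
  apply finsum_mem_eq_sum_of_inter_support_eq
  ext z
  have hord : analyticOrderNatAt f z ≠ 0 → f z = 0 := by
    intro h
    by_contra h0
    apply h
    have : analyticOrderAt f z = 0 := (hf.analyticAt z).analyticOrderAt_eq_zero.mpr h0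
    unfold analyticOrderNatAt
    rw [this]; rfl
  simp only [mem_inter_iff, Function.mem_support, Finset.mem_coe, hZ]
  constructor
  · rintro ⟨h1, h2⟩; exact ⟨⟨hord h2, h1⟩, h2⟩
  · rintro ⟨⟨_, h1⟩, h2⟩; exact ⟨h1, h2⟩

lemma Xi_order (κ : ℝ) (z : ℂ) :
    analyticOrderNatAt (Xi (-κ)) z = analyticOrderNatAt (F κ) (Complex.I * z) := by
  have e : Xi (-κ) = F κ ∘ (fun z => Complex.I * z) := by
    ext z; exact Xi_eq_F κ z
  unfold analyticOrderNatAt
  rw [e, analyticOrderAt_comp_of_deriv_ne_zero]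
  · fun_prop
  · rw [deriv_const_mul _ differentiableAt_id]
    simp

lemma Xi_differentiable (κ : ℝ) (hκ : 0 < κ) : Differentiable ℂ (Xi (-κ)) := by
  have e : Xi (-κ) = F κ ∘ (fun z => Complex.I * z) := by
    ext z; exact Xi_eq_F κ z
  rw [e]
  exact (differentiable_F κ hκ).comp (by fun_prop)

lemma zeroCount_Xi (κ : ℝ) (S : Set ℂ) :
    zeroCount (Xi (-κ)) S = zeroCount (F κ) ((fun z => Complex.I * z) '' S) := by
  unfold zeroCount
  rw [finsum_mem_image]
  · refine finsum_mem_congr rfl fun z _ => Xi_order κ z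
  · intro a _ b _ h
    exact mul_left_cancel₀ Complex.I_ne_zero h

lemma image_all (T : ℝ) : (fun z => Complex.I * z) '' {z : ℂ | |z.re| ≤ T} = {w : ℂ | |w.im| ≤ T} := by
  ext w
  simp only [mem_image, mem_ofPred_eq]
  constructor
  · rintro ⟨z, hz, rfl⟩; simpa using hz
  · intro hw
    refine ⟨-Complex.I * w, by simpa using hw, ?_⟩
    rw [← mul_assoc]; simp

lemma image_real (T : ℝ) : (fun z => Complex.I * z) '' {z : ℂ | z.im = 0 ∧ ‖z‖ ≤ T}
    = {w : ℂ | w.re = 0 ∧ |w.im| ≤ T} := by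
  ext w
  simp only [mem_image, mem_ofPred_eq]
  constructor
  · rintro ⟨z, ⟨hz, hz2⟩, rfl⟩
    refine ⟨by simp [hz], ?_⟩
    simpa using (Complex.abs_re_le_norm z).trans hz2
  · rintro ⟨hw, hw2⟩
    refine ⟨-Complex.I * w, ⟨by simp [hw], ?_⟩, by rw [← mul_assoc]; simp⟩
    rw [norm_mul, norm_neg, Complex.norm_I, one_mul]
    refine (Complex.norm_le_abs_re_add_abs_im w).trans ?_
    rw [hw, abs_zero, zero_add]; exact hw2

lemma image_nonreal (T : ℝ) : (fun z => Complex.I * z) '' {z : ℂ | z.im ≠ 0 ∧ |z.re| ≤ T}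
    = {w : ℂ | w.re ≠ 0 ∧ |w.im| ≤ T} := by
  ext w
  simp only [mem_image, mem_ofPred_eq]
  constructor
  · rintro ⟨z, ⟨hz, hz2⟩, rfl⟩
    exact ⟨by simpa using hz, by simpa using hz2⟩
  · rintro ⟨hw, hw2⟩
    exact ⟨-Complex.I * w, ⟨by simpa using hw, by simpa using hw2⟩, by rw [← mul_assoc]; simp⟩

lemma F_zeros_finite (κ : ℝ) (hκ : 0 < κ) (T : ℝ) : {w : ℂ | F κ w = 0 ∧ |w.im| ≤ T}.Finite := by
  obtain ⟨C, T₀, _, _, h⟩ := count_upper κ hκ
  exact (h (max T T₀) (le_max_right _ _)).1.subset fun w hw => ⟨hw.1, hw.2.trans (le_max_left _ _)⟩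

theorem main (κ : ℝ) (hκ : 0 < κ) :
    Differentiable ℂ (Xi (-κ)) ∧
    (∀ T : ℝ, {z : ℂ | Xi (-κ) z = 0 ∧ |z.re| ≤ T}.Finite) ∧
    (∃ δ : ℝ, 0 < δ ∧ ∀ᶠ T : ℝ in atTop,
      δ * T * Real.log T ≤ (zeroCount (Xi (-κ)) {z | z.im ≠ 0 ∧ |z.re| ≤ T} : ℝ) ∧
      (zeroCount (Xi (-κ)) {z | z.im = 0 ∧ ‖z‖ ≤ T} : ℝ)
        ≤ (1 - δ) * (zeroCount (Xi (-κ)) {z | |z.re| ≤ T} : ℝ)) ∧
    ¬ Tendsto (fun T : ℝ => (zeroCount (Xi (-κ)) {z | z.im = 0 ∧ ‖z‖ ≤ T} : ℝ)
        / (zeroCount (Xi (-κ)) {z | |z.re| ≤ T} : ℝ)) atTop (𝓝 1) := by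
  obtain ⟨C, T₀, hC, _, hup⟩ := count_upper κ hκ
  obtain ⟨c, T₁, hc, hlow⟩ := right_lower κ hκ
  have hdF := differentiable_F κ hκ
  simp_rw [zeroCount_Xi, image_all, image_real, image_nonreal]
  have hfin : ∀ T : ℝ, {z : ℂ | Xi (-κ) z = 0 ∧ |z.re| ≤ T}.Finite := by
    intro T
    have h : {z : ℂ | Xi (-κ) z = 0 ∧ |z.re| ≤ T}
        ⊆ (fun z => Complex.I * z) ⁻¹' {w : ℂ | F κ w = 0 ∧ |w.im| ≤ T} := by
      rintro z ⟨hz1, hz2⟩
      refine ⟨?_, ?_⟩
      · rw [← Xi_eq_F]; exact hz1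
      · simpa using hz2
    refine Set.Finite.subset (Set.Finite.preimage ?_ (F_zeros_finite κ hκ T)) h
    intro a _ b _ h
    exact mul_left_cancel₀ Complex.I_ne_zero h
  have hsplit : ∀ T : ℝ, (zeroCount (F κ) {w | w.re = 0 ∧ |w.im| ≤ T} : ℝ)
      + (zeroCount (F κ) {w | w.re ≠ 0 ∧ |w.im| ≤ T} : ℝ) = (zeroCount (F κ) {w | |w.im| ≤ T} : ℝ) := by
    intro T
    have hf := F_zeros_finite κ hκ T
    rw [zeroCount_eq_sum (Z := hf.toFinset.filter (fun w => w.re = 0)) hdF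
        (fun z => by simp only [Finset.mem_filter, Set.Finite.mem_toFinset, mem_ofPred_eq]; tauto),
      zeroCount_eq_sum (Z := hf.toFinset.filter (fun w => ¬ w.re = 0)) hdF
        (fun z => by simp only [Finset.mem_filter, Set.Finite.mem_toFinset, mem_ofPred_eq]; tauto),
      zeroCount_eq_sum (Z := hf.toFinset) hdF
        (fun z => by simp only [Set.Finite.mem_toFinset, mem_ofPred_eq])]
    exact_mod_cast Finset.sum_filter_add_sum_filter_not _ _ _
  have hbound : ∀ᶠ T : ℝ in atTop,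
      c * T * Real.log T ≤ (zeroCount (F κ) {w | w.re ≠ 0 ∧ |w.im| ≤ T} : ℝ) ∧
      (zeroCount (F κ) {w | |w.im| ≤ T} : ℝ) ≤ C * T * Real.log T := by
    filter_upwards [eventually_ge_atTop T₀, eventually_ge_atTop T₁] with T h0 h1
    have hf := F_zeros_finite κ hκ T
    constructor
    · rw [zeroCount_eq_sum (Z := hf.toFinset.filter (fun w => ¬ w.re = 0)) hdF
        (fun z => by simp only [Finset.mem_filter, Set.Finite.mem_toFinset, mem_ofPred_eq]; tauto)]
      push_cast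
      apply hlow T h1
      intro w hw hre him
      simp only [Finset.mem_filter, Set.Finite.mem_toFinset, mem_ofPred_eq]
      exact ⟨⟨hw, him⟩, by intro h; linarith⟩
    · rw [zeroCount_eq_sum (Z := hf.toFinset) hdF
        (fun z => by simp only [Set.Finite.mem_toFinset, mem_ofPred_eq])]
      push_cast
      apply (hup T h0).2
      intro w hw
      simpa using hw
  have hδ : ∀ᶠ T : ℝ in atTop, (zeroCount (F κ) {w | w.re = 0 ∧ |w.im| ≤ T} : ℝ)
      ≤ (1 - c / C) * (zeroCount (F κ) {w | |w.im| ≤ T} : ℝ) ∧ 0 < (zeroCount (F κ) {w | |w.im| ≤ T} : ℝ) := by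
    filter_upwards [hbound, eventually_ge_atTop 2] with T hT hT2
    have hs := hsplit T
    have hlog : 0 < Real.log T := Real.log_pos (by linarith)
    set A : ℝ := (zeroCount (F κ) {w | |w.im| ≤ T} : ℝ)
    have h1 : c / C * A ≤ c * T * Real.log T := by
      calc c / C * A ≤ c / C * (C * T * Real.log T) := by gcongr; exact hT.2
        _ = c * T * Real.log T := by field_simp
    have h2 : (0 : ℝ) ≤ (zeroCount (F κ) {w | w.re = 0 ∧ |w.im| ≤ T} : ℝ) := Nat.cast_nonneg _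
    have h3 : 0 < c * T * Real.log T := by positivity
    constructor
    · linarith [hT.1]
    · linarith [hT.1]
  refine ⟨Xi_differentiable κ hκ, hfin, ⟨min c (c / C), by positivity, ?_⟩, ?_⟩
  · filter_upwards [hbound, hδ, eventually_ge_atTop 2] with T h1 h2 h3
    have hlog : 0 < Real.log T := Real.log_pos (by linarith)
    constructor
    · refine le_trans ?_ h1.1
      have := min_le_left c (c / C)
      gcongr
    · refine h2.1.trans ?_
      have := min_le_right c (c / C)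
      gcongr
  intro hlim
  have hcC : 0 < c / C := by positivity
  have h1 : ∀ᶠ T : ℝ in atTop, 1 - c / C < (zeroCount (F κ) {w | w.re = 0 ∧ |w.im| ≤ T} : ℝ)
        / (zeroCount (F κ) {w | |w.im| ≤ T} : ℝ) := hlim.eventually_const_lt (by linarith)
  obtain ⟨T, hT1, hT2, hT3⟩ := (h1.and hδ).exists
  rw [lt_div_iff₀ hT3] at hT1
  linarith

end Pool.Agent.XiDeform
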