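import Mathlib

/-! Local linearisation of the Gamma function in the half-plane `Re z ≥ 1`, from Euler's
limit formula. -/

open Filter Topology

namespace Pool.Agent.XiDeform.GammaLinear

lemma norm_sq_add_nat_ge {z : ℂ} (hz : 1 ≤ z.re) (k : ℕ) :
    (‖z‖ + k) ^ 2 / 2 ≤ ‖z + k‖ ^ 2 := by
  have h1 : ‖z + k‖ ^ 2 = (z.re + k) ^ 2 + z.im ^ 2 := by
    rw [Complex.sq_norm, Complex.normSq_apply]; simp; ring
  have h2 : ‖z‖ ^ 2 = z.re ^ 2 + z.im ^ 2 := by
    rw [Complex.sq_norm, Complex.normSq_apply]; ring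
  have hk : (0 : ℝ) ≤ k := Nat.cast_nonneg k
  rw [h1]
  nlinarith [sq_nonneg (‖z‖ - k), mul_nonneg hk (by linarith : (0 : ℝ) ≤ z.re)]

lemma one_le_norm {z : ℂ} (hz : 1 ≤ z.re) : 1 ≤ ‖z‖ :=
  hz.trans (Complex.re_le_norm z)

lemma sum_inv_sq_le {z : ℂ} (hz : 1 ≤ z.re) (n : ℕ) :
    ∑ k ∈ Finset.range (n + 1), 1 / ‖z + k‖ ^ 2 ≤ 4 / ‖z‖ := by
  have hr : 1 ≤ ‖z‖ := one_le_norm hz
  set r := ‖z‖ with hrdef
  have h0 : ∀ k : ℕ, 1 / ‖z + k‖ ^ 2 ≤ 2 / (r + k) ^ 2 := by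
    intro k
    have h := norm_sq_add_nat_ge hz k
    have hpos : 0 < (r + k) ^ 2 := by positivity
    have hpos' : 0 < ‖z + k‖ ^ 2 := lt_of_lt_of_le (by positivity) h
    rw [div_le_div_iff₀ hpos' hpos]
    linarith
  have h1 : ∀ m : ℕ, ∑ k ∈ Finset.range (m + 1), 2 / (r + (k : ℝ)) ^ 2
      ≤ 2 / r ^ 2 + 2 / r - 2 / (r + m) := by
    intro m
    induction m with
    | zero => simp
    | succ m ih =>
      rw [Finset.sum_range_succ]
      have : 2 / (r + ((m + 1 : ℕ) : ℝ)) ^ 2 ≤ 2 / (r + m) - 2 / (r + ((m + 1 : ℕ) : ℝ)) := by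
        push_cast
        have hp1 : 0 < r + m := by positivity
        have hp2 : 0 < r + (m + 1) := by positivity
        rw [div_sub_div _ _ hp1.ne' hp2.ne', div_le_div_iff₀ (by positivity) (by positivity)]
        nlinarith [mul_pos hp1 hp2]
      linarith
  calc ∑ k ∈ Finset.range (n + 1), 1 / ‖z + k‖ ^ 2
      ≤ ∑ k ∈ Finset.range (n + 1), 2 / (r + (k : ℝ)) ^ 2 := Finset.sum_le_sum fun k _ => h0 k
    _ ≤ 2 / r ^ 2 + 2 / r - 2 / (r + n) := h1 n
    _ ≤ 2 / r ^ 2 + 2 / r := by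
        have : 0 ≤ 2 / (r + n) := by positivity
        linarith
    _ ≤ 4 / r := by
        have : 2 / r ^ 2 ≤ 2 / r := by
          apply div_le_div_of_nonneg_left (by norm_num) (by positivity)
          nlinarith
        have e : 4 / r = 2 / r + 2 / r := by ring
        linarith

/-- partial approximants to the digamma function -/
noncomputable def betaN (z : ℂ) (n : ℕ) : ℂ :=
  Real.log n - ∑ k ∈ Finset.range (n + 1), 1 / (z + k)

lemma add_nat_ne_zero {z : ℂ} (hz : 1 ≤ z.re) (k : ℕ) : z + k ≠ 0 := by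
  intro h
  have := congrArg Complex.re h
  simp at this
  have hk : (0 : ℝ) ≤ k := Nat.cast_nonneg k
  linarith

lemma cauchySeq_aux {z : ℂ} (hz : 1 ≤ z.re) :
    Summable fun k : ℕ => (1 / ((k : ℂ) + 1) - 1 / (z + k)) := by
  have hb : ∀ k : ℕ, ‖(1 / ((k : ℂ) + 1) - 1 / (z + k))‖ ≤ (‖z - 1‖ * 2) * (1 / ((k : ℝ) + 1) ^ 2) := by
    intro k
    have h1 : ((k : ℂ) + 1) ≠ 0 := Nat.cast_add_one_ne_zero k
    have h2 := add_nat_ne_zero hz k
    have e : (1 / ((k : ℂ) + 1) - 1 / (z + k)) = (z - 1) / (((k : ℂ) + 1) * (z + k)) := by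
      field_simp; ring
    rw [e, norm_div, norm_mul]
    have e1 : ‖((k : ℂ) + 1)‖ = (k : ℝ) + 1 := by
      have : ((k : ℂ) + 1) = ((k + 1 : ℕ) : ℂ) := by push_cast; ring
      rw [this, Complex.norm_natCast]; push_cast; ring
    have e2 : ((k : ℝ) + 1) / 2 ≤ ‖z + k‖ := by
      have h3 := norm_sq_add_nat_ge hz k
      have h4 := one_le_norm hz
      have hk : (0 : ℝ) ≤ k := Nat.cast_nonneg k
      have h5 : ((k + 1 : ℝ) / 2) ^ 2 ≤ ‖z + k‖ ^ 2 := by nlinarith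
      exact le_of_sq_le_sq h5 (norm_nonneg _)
    rw [e1]
    have hk : (0 : ℝ) < (k : ℝ) + 1 := by positivity
    calc ‖z - 1‖ / (((k : ℝ) + 1) * ‖z + k‖) ≤ ‖z - 1‖ / (((k : ℝ) + 1) * (((k : ℝ) + 1) / 2)) := by
          gcongr
      _ = (‖z - 1‖ * 2) * (1 / ((k : ℝ) + 1) ^ 2) := by field_simp
  refine Summable.of_norm_bounded ?_ hb
  apply Summable.mul_left
  have := (summable_nat_add_iff (f := fun n : ℕ => 1 / (n : ℝ) ^ 2) 1).2
    (Real.summable_one_div_nat_pow.2 (by norm_num))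
  simpa using this

/-- the digamma function, by its series -/
noncomputable def beta (z : ℂ) : ℂ :=
  -Real.eulerMascheroniConstant + ∑' k : ℕ, (1 / ((k : ℂ) + 1) - 1 / (z + k))

lemma betaN_tendsto {z : ℂ} (hz : 1 ≤ z.re) :
    Tendsto (betaN z) atTop (𝓝 (beta z)) := by
  have h1 := (cauchySeq_aux hz).hasSum.tendsto_sum_nat
  have h1' := h1.comp (tendsto_add_atTop_nat 1)
  have h2 : Tendsto (fun n : ℕ => (((harmonic (n + 1) : ℚ) : ℝ) - Real.log n : ℝ)) atTop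
      (𝓝 Real.eulerMascheroniConstant) := by
    have h3 := Real.tendsto_harmonic_sub_log
    have h4 : Tendsto (fun n : ℕ => (1 / ((n : ℝ) + 1))) atTop (𝓝 0) :=
      tendsto_one_div_add_atTop_nhds_zero_nat
    have h5 := h3.add h4
    rw [add_zero] at h5
    refine h5.congr fun n => ?_
    rw [harmonic_succ]
    push_cast
    ring
  have h2' : Tendsto (fun n : ℕ => ((((harmonic (n + 1) : ℚ) : ℝ) - Real.log n : ℝ) : ℂ)) atTop
      (𝓝 (Real.eulerMascheroniConstant : ℂ)) :=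
    (Complex.continuous_ofReal.tendsto _).comp h2
  have h6 := h2'.neg.add h1'
  refine h6.congr fun n => ?_
  simp only [Function.comp, betaN, Finset.sum_sub_distrib, harmonic]
  push_cast
  simp only [one_div]
  ring

lemma betaN_im {z : ℂ} (n : ℕ) :
    (betaN z n).im = z.im * ∑ k ∈ Finset.range (n + 1), 1 / ‖z + k‖ ^ 2 := by
  rw [betaN, Complex.sub_im, Complex.ofReal_im, Complex.im_sum, Finset.mul_sum, zero_sub,
    ← Finset.sum_neg_distrib]
  refine Finset.sum_congr rfl fun k _ => ?_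
  rw [one_div, Complex.inv_im, Complex.sq_norm]
  simp [div_eq_mul_inv]

lemma abs_betaN_im_le {z : ℂ} (hz : 1 ≤ z.re) (n : ℕ) : |(betaN z n).im| ≤ 4 := by
  rw [betaN_im, abs_mul]
  have h := sum_inv_sq_le hz n
  have h0 : 0 ≤ ∑ k ∈ Finset.range (n + 1), 1 / ‖z + k‖ ^ 2 :=
    Finset.sum_nonneg fun k _ => by positivity
  rw [abs_of_nonneg h0]
  have hr := one_le_norm hz
  calc |z.im| * ∑ k ∈ Finset.range (n + 1), 1 / ‖z + k‖ ^ 2
      ≤ ‖z‖ * (4 / ‖z‖) := by
        apply mul_le_mul (Complex.abs_im_le_norm z) h h0 (norm_nonneg _)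
    _ = 4 := by field_simp

/-- error term -/
noncomputable def errN (z h : ℂ) (n : ℕ) : ℂ :=
  ∑ k ∈ Finset.range (n + 1), (Complex.log (1 + h / (z + k)) - h / (z + k))

lemma norm_q_le {z h : ℂ} (hz : 1 ≤ z.re) (hh : 4 * ‖h‖ ≤ ‖z‖) (k : ℕ) :
    ‖h / (z + k)‖ ≤ 1 / 2 := by
  have h1 := norm_sq_add_nat_ge hz k
  have h2 := one_le_norm hz
  have hk : (0 : ℝ) ≤ k := Nat.cast_nonneg k
  have h3 : (‖z‖ / 2) ^ 2 ≤ ‖z + k‖ ^ 2 := by nlinarith
  have h4 : ‖z‖ / 2 ≤ ‖z + k‖ := le_of_sq_le_sq h3 (norm_nonneg _)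
  rw [norm_div, div_le_iff₀ (by linarith)]
  linarith

lemma norm_errN_le {z h : ℂ} (hz : 1 ≤ z.re) (hh : 4 * ‖h‖ ≤ ‖z‖) (n : ℕ) :
    ‖errN z h n‖ ≤ 4 * ‖h‖ ^ 2 / ‖z‖ := by
  have h1 : ∀ k : ℕ, ‖Complex.log (1 + h / (z + k)) - h / (z + k)‖ ≤ ‖h‖ ^ 2 * (1 / ‖z + k‖ ^ 2) := by
    intro k
    have hq := norm_q_le hz hh k
    refine (Complex.norm_log_one_add_sub_self_le (by linarith)).trans ?_
    have e : ‖h‖ ^ 2 * (1 / ‖z + k‖ ^ 2) = ‖h / (z + k)‖ ^ 2 := by
      rw [norm_div, div_pow]; ring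
    rw [e]
    have h3 : (1 - ‖h / (z + k)‖)⁻¹ ≤ 2 := by
      rw [inv_le_comm₀ (by linarith) (by norm_num)]
      linarith
    have h4 : 0 ≤ ‖h / (z + k)‖ ^ 2 := by positivity
    calc ‖h / (z + k)‖ ^ 2 * (1 - ‖h / (z + k)‖)⁻¹ / 2 ≤ ‖h / (z + k)‖ ^ 2 * 2 / 2 := by gcongr
      _ = ‖h / (z + k)‖ ^ 2 := by ring
  calc ‖errN z h n‖ ≤ ∑ k ∈ Finset.range (n + 1), ‖h‖ ^ 2 * (1 / ‖z + k‖ ^ 2) :=
        norm_sum_le_of_le _ fun k _ => h1 k
    _ = ‖h‖ ^ 2 * ∑ k ∈ Finset.range (n + 1), (1 / ‖z + k‖ ^ 2) := by rw [Finset.mul_sum]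
    _ ≤ ‖h‖ ^ 2 * (4 / ‖z‖) := by
        gcongr
        exact sum_inv_sq_le hz n
    _ = 4 * ‖h‖ ^ 2 / ‖z‖ := by ring

lemma gammaSeq_add {z h : ℂ} (hz : 1 ≤ z.re) (hh : 4 * ‖h‖ ≤ ‖z‖) {n : ℕ} (hn : n ≠ 0) :
    Complex.GammaSeq (z + h) n
      = Complex.GammaSeq z n * Complex.exp (h * betaN z n) * Complex.exp (-errN z h n) := by
  have hn' : (n : ℂ) ≠ 0 := Nat.cast_ne_zero.2 hn
  have h1 : ∀ k : ℕ, (1 + h / (z + k)) ≠ 0 := by
    intro k h0
    have hq := norm_q_le hz hh k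
    have : h / (z + k) = -1 := by linear_combination h0
    rw [this] at hq
    norm_num at hq
  have hprod : ∏ k ∈ Finset.range (n + 1), (z + h + k)
      = (∏ k ∈ Finset.range (n + 1), (z + k)) * ∏ k ∈ Finset.range (n + 1), (1 + h / (z + k)) := by
    rw [← Finset.prod_mul_distrib]
    refine Finset.prod_congr rfl fun k _ => ?_
    have := add_nat_ne_zero hz k
    field_simp
    ring
  have hexp : ∏ k ∈ Finset.range (n + 1), (1 + h / (z + k))
      = Complex.exp (∑ k ∈ Finset.range (n + 1), Complex.log (1 + h / (z + k))) := by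
    rw [Complex.exp_sum]
    exact Finset.prod_congr rfl fun k _ => (Complex.exp_log (h1 k)).symm
  have hpow : (n : ℂ) ^ (z + h) = (n : ℂ) ^ z * Complex.exp (Real.log n * h) := by
    rw [Complex.cpow_add _ _ hn', Complex.cpow_def_of_ne_zero hn' h, Complex.natCast_log]
  have hcomb : Complex.exp (Real.log n * h)
        / Complex.exp (∑ k ∈ Finset.range (n + 1), Complex.log (1 + h / (z + k)))
      = Complex.exp (h * betaN z n) * Complex.exp (-errN z h n) := by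
    rw [← Complex.exp_sub, ← Complex.exp_add]
    congr 1
    rw [betaN, errN, Finset.sum_sub_distrib]
    have : ∑ k ∈ Finset.range (n + 1), h / (z + k)
        = h * ∑ k ∈ Finset.range (n + 1), 1 / (z + k) := by
      rw [Finset.mul_sum]
      exact Finset.sum_congr rfl fun k _ => by ring
    rw [this]
    ring
  rw [Complex.GammaSeq, Complex.GammaSeq, hprod, hexp, hpow, mul_assoc (_ / _), ← hcomb]
  have hP : (∏ k ∈ Finset.range (n + 1), (z + k)) ≠ 0 :=
    Finset.prod_ne_zero_iff.2 fun k _ => add_nat_ne_zero hz k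
  have hE := Complex.exp_ne_zero (∑ k ∈ Finset.range (n + 1), Complex.log (1 + h / (z + k)))
  field_simp

lemma norm_exp_sub_one_le' (w : ℂ) : ‖Complex.exp w - 1‖ ≤ Real.exp ‖w‖ - 1 := by
  have h := Complex.norm_exp_sub_sum_le_exp_norm_sub_sum w 1
  simpa using h

lemma beta_im_le {z : ℂ} (hz : 1 ≤ z.re) : |(beta z).im| ≤ 4 := by
  have h1 : Tendsto (fun n => |(betaN z n).im|) atTop (𝓝 |(beta z).im|) :=
    ((Complex.continuous_im.abs).tendsto _).comp (betaN_tendsto hz)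
  exact le_of_tendsto h1 (Eventually.of_forall fun n => abs_betaN_im_le hz n)

lemma gamma_add_le {z h : ℂ} (hz : 1 ≤ z.re) (hh : 4 * ‖h‖ ≤ ‖z‖) :
    ‖Complex.Gamma (z + h) - Complex.Gamma z * Complex.exp (h * beta z)‖
      ≤ ‖Complex.Gamma z * Complex.exp (h * beta z)‖
        * (Real.exp (4 * ‖h‖ ^ 2 / ‖z‖) - 1) := by
  have hb : Tendsto (fun n => Complex.exp (h * betaN z n)) atTop (𝓝 (Complex.exp (h * beta z))) :=
    (Complex.continuous_exp.tendsto _).comp ((betaN_tendsto hz).const_mul h)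
  have hg := Complex.GammaSeq_tendsto_Gamma z
  have hgh := Complex.GammaSeq_tendsto_Gamma (z + h)
  have h1 := (hgh.sub (hg.mul hb)).norm
  have h2 := (hg.mul hb).norm.mul_const (Real.exp (4 * ‖h‖ ^ 2 / ‖z‖) - 1)
  refine le_of_tendsto_of_tendsto h1 h2 ?_
  filter_upwards [eventually_ne_atTop 0] with n hn
  rw [gammaSeq_add hz hh hn]
  have e : Complex.GammaSeq z n * Complex.exp (h * betaN z n) * Complex.exp (-errN z h n)
      - Complex.GammaSeq z n * Complex.exp (h * betaN z n)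
      = Complex.GammaSeq z n * Complex.exp (h * betaN z n) * (Complex.exp (-errN z h n) - 1) := by
    ring
  rw [e, norm_mul]
  apply mul_le_mul_of_nonneg_left _ (norm_nonneg _)
  refine (norm_exp_sub_one_le' _).trans ?_
  rw [norm_neg]
  have := norm_errN_le hz hh n
  gcongr

lemma beta_re_le {z : ℂ} (hz : 1 ≤ z.re) (h4 : 4 ≤ ‖z‖) :
    |(beta z).re - Real.log ‖z‖| ≤ 4 / ‖z‖ := by
  have hh : 4 * ‖(1 : ℂ)‖ ≤ ‖z‖ := by simpa using h4
  have hzpos : 0 < ‖z‖ := by linarith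
  have hz0 : z ≠ 0 := norm_pos_iff.1 hzpos
  have hΓ : Complex.Gamma z ≠ 0 := Complex.Gamma_ne_zero_of_re_pos (by linarith)
  have hΓ' : 0 < ‖Complex.Gamma z‖ := norm_pos_iff.2 hΓ
  have hg := (Complex.GammaSeq_tendsto_Gamma z).norm
  have hgh := (Complex.GammaSeq_tendsto_Gamma (z + 1)).norm
  have hre : Tendsto (fun n => Real.exp (betaN z n).re) atTop (𝓝 (Real.exp (beta z).re)) :=
    (Real.continuous_exp.tendsto _).comp
      ((Complex.continuous_re.tendsto _).comp (betaN_tendsto hz))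
  have key : ∀ n : ℕ, n ≠ 0 → ‖Complex.GammaSeq (z + 1) n‖
      = ‖Complex.GammaSeq z n‖ * Real.exp (betaN z n).re * Real.exp (-(errN z 1 n).re) := by
    intro n hn
    rw [gammaSeq_add hz hh hn, norm_mul, norm_mul, Complex.norm_exp, Complex.norm_exp, one_mul,
      Complex.neg_re]
  have herr : ∀ n : ℕ, |(errN z 1 n).re| ≤ 4 / ‖z‖ := by
    intro n
    refine (Complex.abs_re_le_norm _).trans ?_
    have := norm_errN_le hz hh n
    simpa using this
  have hG1 : ‖Complex.Gamma (z + 1)‖ = ‖z‖ * ‖Complex.Gamma z‖ := by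
    rw [Complex.Gamma_add_one z hz0, norm_mul]
  have hup : ‖z‖ * ‖Complex.Gamma z‖
      ≤ ‖Complex.Gamma z‖ * Real.exp (beta z).re * Real.exp (4 / ‖z‖) := by
    rw [← hG1]
    refine le_of_tendsto_of_tendsto hgh ((hg.mul hre).mul_const _) ?_
    filter_upwards [eventually_ne_atTop 0] with n hn
    rw [key n hn]
    have := neg_abs_le (errN z 1 n).re
    have h3 := herr n
    gcongr
    linarith
  have hlo : ‖Complex.Gamma z‖ * Real.exp (beta z).re * Real.exp (-(4 / ‖z‖))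
      ≤ ‖z‖ * ‖Complex.Gamma z‖ := by
    rw [← hG1]
    refine le_of_tendsto_of_tendsto ((hg.mul hre).mul_const _) hgh ?_
    filter_upwards [eventually_ne_atTop 0] with n hn
    rw [key n hn]
    have := le_abs_self (errN z 1 n).re
    have h3 := herr n
    gcongr
    linarith
  have hup' : ‖z‖ ≤ Real.exp ((beta z).re + 4 / ‖z‖) := by
    rw [Real.exp_add]
    have : ‖Complex.Gamma z‖ * ‖z‖
        ≤ ‖Complex.Gamma z‖ * (Real.exp (beta z).re * Real.exp (4 / ‖z‖)) := by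
      rw [← mul_assoc, mul_comm ‖Complex.Gamma z‖ ‖z‖]; exact hup
    exact le_of_mul_le_mul_left this hΓ'
  have hlo' : Real.exp ((beta z).re + -(4 / ‖z‖)) ≤ ‖z‖ := by
    rw [Real.exp_add]
    have : ‖Complex.Gamma z‖ * (Real.exp (beta z).re * Real.exp (-(4 / ‖z‖)))
        ≤ ‖Complex.Gamma z‖ * ‖z‖ := by
      rw [← mul_assoc, mul_comm ‖Complex.Gamma z‖ ‖z‖]; exact hlo
    exact le_of_mul_le_mul_left this hΓ'
  have h1 := (Real.log_le_iff_le_exp hzpos).2 hup'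
  have h2 := (Real.le_log_iff_exp_le hzpos).2 hlo'
  rw [abs_le]
  constructor <;> linarith

theorem gamma_linear : ∃ β : ℂ → ℂ,
    (∀ z : ℂ, 1 ≤ z.re → |(β z).im| ≤ 4) ∧
    (∀ z : ℂ, 1 ≤ z.re → 4 ≤ ‖z‖ → |(β z).re - Real.log ‖z‖| ≤ 4 / ‖z‖) ∧
    (∀ z h : ℂ, 1 ≤ z.re → 4 * ‖h‖ ≤ ‖z‖ →
      ‖Complex.Gamma (z + h) - Complex.Gamma z * Complex.exp (h * β z)‖
        ≤ ‖Complex.Gamma z * Complex.exp (h * β z)‖ * (Real.exp (4 * ‖h‖ ^ 2 / ‖z‖) - 1)) :=
  ⟨beta, fun _ hz => beta_im_le hz, fun _ hz h4 => beta_re_le hz h4,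
    fun _ _ hz hh => gamma_add_le hz hh⟩

/-! ### A crude comparison along vertical lines -/

lemma norm_gammaSeq_eq {z : ℂ} {n : ℕ} (hn : n ≠ 0) :
    ‖Complex.GammaSeq z n‖
      = (n : ℝ) ^ z.re * n.factorial / ∏ k ∈ Finset.range (n + 1), ‖z + k‖ := by
  rw [Complex.GammaSeq, norm_div, norm_mul, norm_prod]
  congr 2
  · rw [← Complex.ofReal_natCast, Complex.norm_cpow_eq_rpow_re_of_pos]
    exact_mod_cast Nat.pos_of_ne_zero hn
  · rw [Complex.norm_natCast]

lemma norm_gamma_le {z : ℂ} (hz : 1 ≤ z.re) :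
    ‖Complex.Gamma z‖ ≤ ‖Complex.Gamma (z.re : ℂ)‖ := by
  refine le_of_tendsto_of_tendsto (Complex.GammaSeq_tendsto_Gamma z).norm
    (Complex.GammaSeq_tendsto_Gamma (z.re : ℂ)).norm ?_
  filter_upwards [eventually_ne_atTop 0] with n hn
  rw [norm_gammaSeq_eq hn, norm_gammaSeq_eq hn, Complex.ofReal_re]
  have hpos : ∀ k : ℕ, 0 < ‖(z.re : ℂ) + k‖ := fun k =>
    norm_pos_iff.2 (add_nat_ne_zero (by simpa using hz) k)
  apply div_le_div_of_nonneg_left (by positivity)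
  · exact Finset.prod_pos fun k _ => hpos k
  · apply Finset.prod_le_prod (fun k _ => norm_nonneg _)
    intro k _
    have e : (z.re : ℂ) + k = ((z.re + k : ℝ) : ℂ) := by push_cast; ring
    have hk : (0 : ℝ) ≤ k := Nat.cast_nonneg k
    rw [e, Complex.norm_real, Real.norm_of_nonneg (by linarith)]
    calc z.re + k = (z + k).re := by simp
      _ ≤ ‖z + k‖ := Complex.re_le_norm _

lemma norm_add_sq (a b : ℝ) : ‖(a : ℂ) + Complex.I * b‖ ^ 2 = a ^ 2 + b ^ 2 := by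
  rw [Complex.sq_norm, Complex.normSq_apply]; simp; ring

/-- `|Γ(1+iτ)|² ≥ e^{-π|τ|}` -/
lemma norm_gamma_one_add_sq (τ : ℝ) (hτ : τ ≠ 0) :
    ‖Complex.Gamma (1 + Complex.I * τ)‖ ^ 2 = Real.pi * τ / Real.sinh (Real.pi * τ) := by
  have hI : Complex.I * τ ≠ 0 := mul_ne_zero Complex.I_ne_zero (by exact_mod_cast hτ)
  have h1 : Complex.Gamma (1 + Complex.I * τ) = (Complex.I * τ) * Complex.Gamma (Complex.I * τ) := by
    rw [add_comm, Complex.Gamma_add_one _ hI]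
  have h2 : (starRingEnd ℂ) (Complex.Gamma (1 + Complex.I * τ))
      = Complex.Gamma (1 - Complex.I * τ) := by
    rw [← Complex.Gamma_conj]
    congr 1
    simp [sub_eq_add_neg]
  have h3 : ((‖Complex.Gamma (1 + Complex.I * τ)‖ ^ 2 : ℝ) : ℂ)
      = Complex.Gamma (1 + Complex.I * τ) * Complex.Gamma (1 - Complex.I * τ) := by
    rw [← h2, Complex.mul_conj, Complex.normSq_eq_norm_sq]
  have h4 : Complex.Gamma (1 + Complex.I * τ) * Complex.Gamma (1 - Complex.I * τ)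
      = ((Real.pi * τ / Real.sinh (Real.pi * τ) : ℝ) : ℂ) := by
    rw [h1, mul_assoc, Complex.Gamma_mul_Gamma_one_sub]
    have e : (Real.pi : ℂ) * (Complex.I * τ) = (Real.pi * τ : ℂ) * Complex.I := by ring
    rw [e, Complex.sin_mul_I]
    have hs : Complex.sinh (Real.pi * τ) ≠ 0 := by
      have : Complex.sinh (Real.pi * τ) = ((Real.sinh (Real.pi * τ) : ℝ) : ℂ) := by push_cast; rfl
      rw [this]
      have hs' : Real.sinh (Real.pi * τ) ≠ 0 := by
        rw [Ne, Real.sinh_eq_zero]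
        exact mul_ne_zero Real.pi_ne_zero hτ
      exact_mod_cast hs'
    push_cast
    field_simp
  exact_mod_cast h3.trans h4

lemma norm_gamma_one_add_ge (τ : ℝ) :
    Real.exp (-(Real.pi * |τ| / 2)) ≤ ‖Complex.Gamma (1 + Complex.I * τ)‖ := by
  by_cases hτ : τ = 0
  · subst hτ
    simp
  apply le_of_sq_le_sq _ (norm_nonneg _)
  rw [norm_gamma_one_add_sq τ hτ, ← Real.exp_nat_mul]
  have e : ((2 : ℕ) : ℝ) * (-(Real.pi * |τ| / 2)) = -(Real.pi * |τ|) := by push_cast; ring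
  rw [e]
  have e2 : Real.pi * τ / Real.sinh (Real.pi * τ)
      = Real.pi * |τ| / Real.sinh (Real.pi * |τ|) := by
    rcases abs_choice τ with h | h
    · rw [h]
    · rw [h, mul_neg, Real.sinh_neg, neg_div_neg_eq]
  rw [e2]
  have hx : 0 < Real.pi * |τ| := mul_pos Real.pi_pos (abs_pos.2 hτ)
  set x := Real.pi * |τ|
  have hs : 0 < Real.sinh x := Real.sinh_pos_iff.2 hx
  rw [le_div_iff₀ hs, Real.sinh_eq]
  have h5 : -x + 1 ≤ Real.exp (-x) := Real.add_one_le_exp (-x)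
  have h6 : Real.exp (-x) * Real.exp x = 1 := by rw [← Real.exp_add]; simp
  have h7 : 1 - 2 * x ≤ Real.exp (-x) * Real.exp (-x) := by
    have := Real.add_one_le_exp (-x + -x)
    rw [Real.exp_add] at this
    linarith
  have : Real.exp (-x) * ((Real.exp x - Real.exp (-x)) / 2)
      = (Real.exp (-x) * Real.exp x - Real.exp (-x) * Real.exp (-x)) / 2 := by ring
  rw [this, h6]
  linarith

lemma norm_gamma_re_le {σ τ : ℝ} (hσ : 1 ≤ σ) :
    ‖Complex.Gamma (σ : ℂ)‖ * ‖Complex.Gamma (1 + Complex.I * τ)‖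
      ≤ ‖Complex.Gamma ((σ : ℂ) + Complex.I * τ)‖ := by
  have hG1 : ‖Complex.Gamma ((1 : ℝ) : ℂ)‖ = 1 := by simp
  have hfin : ‖Complex.Gamma (σ : ℂ)‖ * ‖Complex.Gamma (((1 : ℝ) : ℂ) + Complex.I * τ)‖
      ≤ ‖Complex.Gamma ((σ : ℂ) + Complex.I * τ)‖ * ‖Complex.Gamma ((1 : ℝ) : ℂ)‖ := by
    refine le_of_tendsto_of_tendsto
      ((Complex.GammaSeq_tendsto_Gamma _).norm.mul (Complex.GammaSeq_tendsto_Gamma _).norm)
      ((Complex.GammaSeq_tendsto_Gamma _).norm.mul (Complex.GammaSeq_tendsto_Gamma _).norm) ?_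
    filter_upwards [eventually_ne_atTop 0] with n hn
    rw [norm_gammaSeq_eq hn, norm_gammaSeq_eq hn, norm_gammaSeq_eq hn, norm_gammaSeq_eq hn]
    have r1 : ((σ : ℂ) + Complex.I * τ).re = σ := by simp
    have r2 : ((((1 : ℝ) : ℂ)) + Complex.I * τ).re = 1 := by simp
    rw [r1, r2, Complex.ofReal_re, Complex.ofReal_re, div_mul_div_comm, div_mul_div_comm,
      ← Finset.prod_mul_distrib, ← Finset.prod_mul_distrib]
    have hp : ∀ (a b : ℝ) (_ : 1 ≤ a) (k : ℕ), 0 < ‖((a : ℂ) + Complex.I * b) + k‖ := by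
      intro a b ha k
      exact norm_pos_iff.2 (add_nat_ne_zero (by simpa using ha) k)
    have hp' : ∀ (a : ℝ) (_ : 1 ≤ a) (k : ℕ), 0 < ‖(a : ℂ) + k‖ := by
      intro a ha k
      exact norm_pos_iff.2 (add_nat_ne_zero (by simpa using ha) k)
    apply div_le_div_of_nonneg_left (by positivity)
    · exact Finset.prod_pos fun k _ => mul_pos (hp σ τ hσ k) (hp' 1 le_rfl k)
    · apply Finset.prod_le_prod
      · intro k _
        exact mul_nonneg (norm_nonneg _) (norm_nonneg _)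
      · intro k _
        have hk : (0 : ℝ) ≤ k := Nat.cast_nonneg k
        have e1 : ((σ : ℂ) + Complex.I * τ) + k = ((σ + k : ℝ) : ℂ) + Complex.I * τ := by
          push_cast; ring
        have e2 : ((((1 : ℝ) : ℂ)) + Complex.I * τ) + k = ((1 + k : ℝ) : ℂ) + Complex.I * τ := by
          push_cast; ring
        have e3 : (σ : ℂ) + k = ((σ + k : ℝ) : ℂ) := by push_cast; ring
        have e4 : (((1 : ℝ) : ℂ)) + k = ((1 + k : ℝ) : ℂ) := by push_cast; ring
        rw [e1, e2, e3, e4]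
        apply le_of_sq_le_sq _ (by positivity)
        rw [mul_pow, mul_pow, norm_add_sq, norm_add_sq, Complex.norm_real, Complex.norm_real,
          Real.norm_eq_abs, Real.norm_eq_abs, sq_abs, sq_abs]
        have : (1 + (k : ℝ)) ^ 2 ≤ (σ + k) ^ 2 := by
          apply pow_le_pow_left₀ (by positivity)
          linarith
        nlinarith [mul_le_mul_of_nonneg_left this (sq_nonneg τ)]
  rw [hG1, mul_one] at hfin
  simpa using hfin

theorem gamma_ratio_le (z : ℂ) (ν : ℝ) (hz : 1 ≤ z.re) :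
    ‖Complex.Gamma (z + Complex.I * ν)‖ ≤ Real.exp (2 * Real.pi * |ν|) * ‖Complex.Gamma z‖ := by
  have hnh : ‖Complex.I * (ν : ℂ)‖ = |ν| := by
    rw [norm_mul, Complex.norm_I, one_mul, Complex.norm_real, Real.norm_eq_abs]
  by_cases hc : 4 * |ν| ≤ ‖z‖
  · have hh : 4 * ‖Complex.I * (ν : ℂ)‖ ≤ ‖z‖ := by rw [hnh]; exact hc
    have h1 := gamma_add_le hz hh
    have h2 : ‖Complex.Gamma (z + Complex.I * ν)‖
        ≤ ‖Complex.Gamma z * Complex.exp (Complex.I * ν * beta z)‖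
          * Real.exp (4 * ‖Complex.I * (ν : ℂ)‖ ^ 2 / ‖z‖) := by
      have h3 := norm_le_norm_add_norm_sub' (Complex.Gamma (z + Complex.I * ν))
        (Complex.Gamma z * Complex.exp (Complex.I * ν * beta z))
      linarith
    have hre : (Complex.I * ν * beta z).re = -(ν * (beta z).im) := by
      simp [Complex.mul_re, Complex.mul_im]
    rw [norm_mul, Complex.norm_exp, hre, hnh, mul_assoc, ← Real.exp_add] at h2
    refine h2.trans ?_
    rw [mul_comm]
    apply mul_le_mul_of_nonneg_right _ (norm_nonneg _)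
    apply Real.exp_le_exp.2
    have h4 : -(ν * (beta z).im) ≤ |ν| * 4 := by
      calc -(ν * (beta z).im) ≤ |ν * (beta z).im| := neg_le_abs _
        _ = |ν| * |(beta z).im| := abs_mul _ _
        _ ≤ |ν| * 4 := mul_le_mul_of_nonneg_left (beta_im_le hz) (abs_nonneg _)
    have hr := one_le_norm hz
    have h5 : 4 * |ν| ^ 2 / ‖z‖ ≤ |ν| := by
      rw [div_le_iff₀ (by linarith)]
      nlinarith [abs_nonneg ν]
    have h6 : 3 < Real.pi := Real.pi_gt_three
    nlinarith [abs_nonneg ν]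
  · push Not at hc
    have hz' : 1 ≤ (z + Complex.I * ν).re := by simpa using hz
    have h1 := norm_gamma_le hz'
    have hre : (z + Complex.I * ν).re = z.re := by simp
    rw [hre] at h1
    have h2 := norm_gamma_re_le (σ := z.re) (τ := z.im) hz
    have h3 := norm_gamma_one_add_ge z.im
    have hzz : (z.re : ℂ) + Complex.I * z.im = z := by
      rw [mul_comm]; exact Complex.re_add_im z
    rw [hzz] at h2
    have h4 : ‖Complex.Gamma (z.re : ℂ)‖ * Real.exp (-(Real.pi * |z.im| / 2))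
        ≤ ‖Complex.Gamma z‖ :=
      (mul_le_mul_of_nonneg_left h3 (norm_nonneg _)).trans h2
    have h5 : ‖Complex.Gamma (z.re : ℂ)‖
        ≤ Real.exp (Real.pi * |z.im| / 2) * ‖Complex.Gamma z‖ := by
      have := mul_le_mul_of_nonneg_left h4 (Real.exp_pos (Real.pi * |z.im| / 2)).le
      have e : Real.exp (Real.pi * |z.im| / 2)
          * (‖Complex.Gamma (z.re : ℂ)‖ * Real.exp (-(Real.pi * |z.im| / 2)))
          = ‖Complex.Gamma (z.re : ℂ)‖
            * (Real.exp (Real.pi * |z.im| / 2) * Real.exp (-(Real.pi * |z.im| / 2))) := by ring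
      rw [e, ← Real.exp_add, add_neg_cancel, Real.exp_zero, mul_one] at this
      exact this
    refine h1.trans (h5.trans ?_)
    apply mul_le_mul_of_nonneg_right _ (norm_nonneg _)
    apply Real.exp_le_exp.2
    have h6 : |z.im| ≤ ‖z‖ := Complex.abs_im_le_norm z
    have h7 := Real.pi_pos
    nlinarith

end Pool.Agent.XiDeform.GammaLinear
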