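import Pool.Agent.Lib.MP_023270_nt.Series
import Pool.Agent.Lib.MP_023270_nt.GammaLinear

/-! Local linearisation of `g`. -/

open MeasureTheory Filter Topology Set

namespace Pool.Agent.XiDeform

open GammaLinear

/-- the constant of the linearisation of `Γ`. -/
noncomputable def beta : ℂ → ℂ := gamma_linear.choose

lemma beta_im {z : ℂ} (hz : 1 ≤ z.re) : |(beta z).im| ≤ 4 := gamma_linear.choose_spec.1 z hz

lemma beta_re {z : ℂ} (hz : 1 ≤ z.re) (h4 : 4 ≤ ‖z‖) : |(beta z).re - Real.log ‖z‖| ≤ 4 / ‖z‖ :=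
  gamma_linear.choose_spec.2.1 z hz h4

lemma beta_lin {z h : ℂ} (hz : 1 ≤ z.re) (hh : 4 * ‖h‖ ≤ ‖z‖) :
    ‖Complex.Gamma (z + h) - Complex.Gamma z * Complex.exp (h * beta z)‖
        ≤ ‖Complex.Gamma z * Complex.exp (h * beta z)‖ * (Real.exp (4 * ‖h‖ ^ 2 / ‖z‖) - 1) :=
  gamma_linear.choose_spec.2.2 z h hz hh

/-- `b(s) = (β(s/2) - log π)/2` -/
noncomputable def bb (s : ℂ) : ℂ := (beta (s / 2) - Real.log Real.pi) / 2

lemma re_half {s : ℂ} (hs : 2 ≤ s.re) : 1 ≤ (s / 2).re := by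
  simp; linarith

lemma norm_half (s : ℂ) : ‖s / 2‖ = ‖s‖ / 2 := by simp

lemma bb_im {s : ℂ} (hs : 2 ≤ s.re) : |(bb s).im| ≤ 2 := by
  have h := beta_im (re_half hs)
  have : (bb s).im = (beta (s / 2)).im / 2 := by
    unfold bb
    rw [show (beta (s / 2) - (Real.log Real.pi : ℂ)) / 2 = (beta (s / 2) - (Real.log Real.pi : ℂ)) / ((2 : ℝ) : ℂ) by norm_num,
      Complex.div_ofReal_im, Complex.sub_im, Complex.ofReal_im, sub_zero]
  rw [this, abs_div, abs_of_pos (by norm_num : (0:ℝ) < 2)]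
  linarith

lemma bb_re {s : ℂ} (hs : 2 ≤ s.re) (h8 : 8 ≤ ‖s‖) :
    |2 * (bb s).re - Real.log (‖s‖ / (2 * Real.pi))| ≤ 8 / ‖s‖ := by
  have h := beta_re (re_half hs) (by rw [norm_half]; linarith)
  rw [norm_half] at h
  have : 2 * (bb s).re = (beta (s / 2)).re - Real.log Real.pi := by
    unfold bb
    rw [show (beta (s / 2) - (Real.log Real.pi : ℂ)) / 2 = (beta (s / 2) - (Real.log Real.pi : ℂ)) / ((2 : ℝ) : ℂ) by norm_num,
      Complex.div_ofReal_re, Complex.sub_re, Complex.ofReal_re]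
    ring
  rw [this]
  have hs0 : 0 < ‖s‖ := by linarith
  have hl : Real.log (‖s‖ / (2 * Real.pi)) = Real.log (‖s‖ / 2) - Real.log Real.pi := by
    rw [← div_div, Real.log_div (by positivity) Real.pi_ne_zero]
  rw [hl]
  have e : (beta (s / 2)).re - Real.log Real.pi - (Real.log (‖s‖ / 2) - Real.log Real.pi)
      = (beta (s / 2)).re - Real.log (‖s‖ / 2) := by ring
  rw [e]
  calc _ ≤ 4 / (‖s‖ / 2) := h
    _ = 8 / ‖s‖ := by field_simp; norm_num

lemma norm_ge_of_re {s : ℂ} (hs : 2 ≤ s.re) : 2 ≤ ‖s‖ := by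
  have := Complex.abs_re_le_norm s
  have := le_abs_self s.re
  linarith

lemma norm_sub_one_ge {s : ℂ} (hs : 2 ≤ s.re) : ‖s‖ / 2 ≤ ‖s - 1‖ := by
  have h2 := norm_ge_of_re hs
  have : ‖s‖ - ‖(1 : ℂ)‖ ≤ ‖s - 1‖ := norm_sub_norm_le s 1
  rw [norm_one] at this
  linarith

lemma three_factor {x y e X Y E : ℝ} (hx : 0 ≤ x) (hy : 0 ≤ y) (he : 0 ≤ e)
    {p q r : ℂ} (hp : ‖p - 1‖ ≤ x) (hq : ‖q - 1‖ ≤ y) (hr : ‖r - 1‖ ≤ e)
    (hX : 1 + x ≤ X) (hY : 1 + y ≤ Y) (hE : 1 + e ≤ E) :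
    ‖p * q * r - 1‖ ≤ X * Y * E - 1 := by
  have h1 : p * q * r - 1 = (p - 1) * (q - 1) * (r - 1) + (p - 1) * (q - 1) + (p - 1) * (r - 1)
      + (q - 1) * (r - 1) + (p - 1) + (q - 1) + (r - 1) := by ring
  have h2 : ‖p * q * r - 1‖ ≤ x * y * e + x * y + x * e + y * e + x + y + e := by
    rw [h1]
    refine (norm_add_le _ _).trans (add_le_add ?_ hr)
    refine (norm_add_le _ _).trans (add_le_add ?_ hq)
    refine (norm_add_le _ _).trans (add_le_add ?_ hp)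
    refine (norm_add_le _ _).trans (add_le_add ?_ ?_)
    · refine (norm_add_le _ _).trans (add_le_add ?_ ?_)
      · refine (norm_add_le _ _).trans (add_le_add ?_ ?_)
        · rw [norm_mul, norm_mul]; gcongr
        · rw [norm_mul]; gcongr
      · rw [norm_mul]; gcongr
    · rw [norm_mul]; gcongr
  have h3 : x * y * e + x * y + x * e + y * e + x + y + e = (1 + x) * (1 + y) * (1 + e) - 1 := by ring
  have hX0 : 0 ≤ X := by linarith
  have hY0 : 0 ≤ Y := by linarith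
  have h4 : (1 + x) * (1 + y) * (1 + e) ≤ X * Y * E := by gcongr
  linarith

/-- Claim A. -/
lemma g_lin {s₀ η : ℂ} (hs : 2 ≤ s₀.re) (hη : 4 * ‖η‖ ≤ ‖s₀‖) :
    ‖g (s₀ + η) - g s₀ * Complex.exp (η * bb s₀)‖
      ≤ ‖g s₀ * Complex.exp (η * bb s₀)‖ * (Real.exp ((3 * ‖η‖ + 2 * ‖η‖ ^ 2) / ‖s₀‖) - 1) := by
  have hn2 := norm_ge_of_re hs
  have hn : 0 < ‖s₀‖ := by linarith
  have hs0 : s₀ ≠ 0 := norm_pos_iff.mp hn
  have hn1 := norm_sub_one_ge hs
  have hs1 : s₀ - 1 ≠ 0 := norm_pos_iff.mp (by linarith)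
  have hG := beta_lin (z := s₀ / 2) (h := η / 2) (re_half hs) (by rw [norm_half, norm_half]; linarith)
  rw [norm_half, norm_half] at hG
  set G0 := Complex.Gamma (s₀ / 2) * Complex.exp (η / 2 * beta (s₀ / 2)) with hG0
  have hG00 : G0 ≠ 0 := by
    apply mul_ne_zero _ (Complex.exp_ne_zero _)
    apply Complex.Gamma_ne_zero_of_re_pos
    have := re_half hs; linarith
  have hr : ‖Complex.Gamma (s₀ / 2 + η / 2) / G0 - 1‖ ≤ Real.exp (2 * ‖η‖ ^ 2 / ‖s₀‖) - 1 := by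
    rw [div_sub_one hG00, norm_div, div_le_iff₀ (norm_pos_iff.mpr hG00)]
    refine hG.trans (le_of_eq ?_)
    rw [show 4 * (‖η‖ / 2) ^ 2 / (‖s₀‖ / 2) = 2 * ‖η‖ ^ 2 / ‖s₀‖ by field_simp; ring]
    ring
  have hmain : g (s₀ + η) = g s₀ * Complex.exp (η * bb s₀)
      * ((1 + η / s₀) * (1 + η / (s₀ - 1)) * (Complex.Gamma (s₀ / 2 + η / 2) / G0)) := by
    have hG0' : Complex.Gamma (s₀ / 2) ≠ 0 := by
      apply Complex.Gamma_ne_zero_of_re_pos
      have := re_half hs; linarith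
    unfold g
    rw [show (s₀ + η) / 2 = s₀ / 2 + η / 2 by ring]
    have e1 : Complex.exp (-(s₀ / 2 + η / 2) * Real.log Real.pi)
        = Complex.exp (-(s₀ / 2) * Real.log Real.pi) * Complex.exp (-(η / 2) * Real.log Real.pi) := by
      rw [← Complex.exp_add]; congr 1; ring
    have e2 : Complex.exp (η * bb s₀) = Complex.exp (η / 2 * beta (s₀ / 2)) * Complex.exp (-(η / 2) * Real.log Real.pi) := by
      rw [← Complex.exp_add]; congr 1; unfold bb; ring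
    rw [e1, e2, hG0]
    have := Complex.exp_ne_zero (η / 2 * beta (s₀ / 2))
    field_simp
    ring
  rw [hmain]
  have e3 : g s₀ * Complex.exp (η * bb s₀)
      * ((1 + η / s₀) * (1 + η / (s₀ - 1)) * (Complex.Gamma (s₀ / 2 + η / 2) / G0))
      - g s₀ * Complex.exp (η * bb s₀)
      = g s₀ * Complex.exp (η * bb s₀)
      * ((1 + η / s₀) * (1 + η / (s₀ - 1)) * (Complex.Gamma (s₀ / 2 + η / 2) / G0) - 1) := by ring
  rw [e3, norm_mul]
  apply mul_le_mul_of_nonneg_left _ (norm_nonneg _)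
  have h := three_factor (x := ‖η‖ / ‖s₀‖) (y := 2 * ‖η‖ / ‖s₀‖) (e := Real.exp (2 * ‖η‖ ^ 2 / ‖s₀‖) - 1)
    (X := Real.exp (‖η‖ / ‖s₀‖)) (Y := Real.exp (2 * ‖η‖ / ‖s₀‖)) (E := Real.exp (2 * ‖η‖ ^ 2 / ‖s₀‖))
    (p := 1 + η / s₀) (q := 1 + η / (s₀ - 1)) (r := Complex.Gamma (s₀ / 2 + η / 2) / G0)
    (by positivity) (by positivity) (by
      have := Real.add_one_le_exp (2 * ‖η‖ ^ 2 / ‖s₀‖)
      have h0 : 0 ≤ 2 * ‖η‖ ^ 2 / ‖s₀‖ := by positivity
      linarith)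
    (by rw [add_sub_cancel_left, norm_div])
    (by
      rw [add_sub_cancel_left, norm_div, div_le_div_iff₀ (by linarith) hn]
      nlinarith [norm_nonneg η])
    hr
    (by have := Real.add_one_le_exp (‖η‖ / ‖s₀‖); linarith)
    (by have := Real.add_one_le_exp (2 * ‖η‖ / ‖s₀‖); linarith)
    (by linarith)
  refine h.trans (le_of_eq ?_)
  rw [← Real.exp_add, ← Real.exp_add]
  congr 2
  field_simp
  ring

lemma g_vert_le {s : ℂ} (hs : 2 ≤ s.re) (v : ℝ) :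
    ‖g (s + Complex.I * v)‖ ≤ ‖g s‖ * Real.exp (6 * |v|) := by
  have hn2 := norm_ge_of_re hs
  have hn : 0 < ‖s‖ := by linarith
  have hs0 : s ≠ 0 := norm_pos_iff.mp hn
  have hn1 := norm_sub_one_ge hs
  have hs1 : s - 1 ≠ 0 := norm_pos_iff.mp (by linarith)
  have hG := gamma_ratio_le (s / 2) (v / 2) (re_half hs)
  have e1 : (s + Complex.I * v) / 2 = s / 2 + Complex.I * ((v / 2 : ℝ) : ℂ) := by push_cast; ring
  unfold g
  rw [e1]
  have e2 : ‖Complex.exp (-(s / 2 + Complex.I * ((v / 2 : ℝ) : ℂ)) * Real.log Real.pi)‖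
      = ‖Complex.exp (-(s / 2) * Real.log Real.pi)‖ := by
    rw [Complex.norm_exp, Complex.norm_exp]
    congr 1
    simp
  rw [norm_mul, norm_mul, e2, norm_mul, norm_mul (s * (s - 1) / 2)]
  have e3 : ‖(s + Complex.I * v) * (s + Complex.I * v - 1) / 2‖
      ≤ ‖s * (s - 1) / 2‖ * Real.exp (2 * |v|) := by
    have : (s + Complex.I * v) * (s + Complex.I * v - 1) / 2
        = s * (s - 1) / 2 * ((1 + Complex.I * v / s) * (1 + Complex.I * v / (s - 1))) := by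
      field_simp
      ring
    rw [this, norm_mul (s * (s - 1) / 2)]
    apply mul_le_mul_of_nonneg_left _ (norm_nonneg _)
    rw [norm_mul, show 2 * |v| = |v| + |v| by ring, Real.exp_add]
    have hI : ‖Complex.I * (v : ℂ)‖ = |v| := by simp
    gcongr
    · calc ‖1 + Complex.I * v / s‖ ≤ ‖(1:ℂ)‖ + ‖Complex.I * v / s‖ := norm_add_le _ _
        _ = 1 + |v| / ‖s‖ := by rw [norm_one, norm_div, hI]
        _ ≤ 1 + |v| := by
          gcongr
          apply div_le_self (abs_nonneg _)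
          linarith
        _ ≤ Real.exp |v| := by have := Real.add_one_le_exp |v|; linarith
    · calc ‖1 + Complex.I * v / (s - 1)‖ ≤ ‖(1:ℂ)‖ + ‖Complex.I * v / (s - 1)‖ := norm_add_le _ _
        _ = 1 + |v| / ‖s - 1‖ := by rw [norm_one, norm_div, hI]
        _ ≤ 1 + |v| := by
          gcongr
          apply div_le_self (abs_nonneg _)
          linarith
        _ ≤ Real.exp |v| := by have := Real.add_one_le_exp |v|; linarith
  have e4 : Real.exp (2 * Real.pi * |v / 2|) ≤ Real.exp (4 * |v|) := by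
    apply Real.exp_le_exp.mpr
    rw [abs_div, abs_of_pos (by norm_num : (0:ℝ) < 2)]
    have := Real.pi_lt_four
    have := abs_nonneg v
    nlinarith
  calc ‖(s + Complex.I * v) * (s + Complex.I * v - 1) / 2‖ * ‖Complex.exp (-(s / 2) * Real.log Real.pi)‖
        * ‖Complex.Gamma (s / 2 + Complex.I * ((v / 2 : ℝ) : ℂ))‖
      ≤ (‖s * (s - 1) / 2‖ * Real.exp (2 * |v|)) * ‖Complex.exp (-(s / 2) * Real.log Real.pi)‖
        * (Real.exp (4 * |v|) * ‖Complex.Gamma (s / 2)‖) := by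
        gcongr
        exact hG.trans (by gcongr)
    _ = _ := by
      rw [show 6 * |v| = 2 * |v| + 4 * |v| by ring, Real.exp_add]
      ring

/-- (C5) -/
theorem g_lin_all {s₀ s : ℂ} {K : ℝ} (hs₀ : 2 ≤ s₀.re) (hs : 2 ≤ s.re) (hK : 1 ≤ K)
    (hsK : ‖s - s₀‖ ≤ K) (hK2 : 64 * K ^ 2 ≤ ‖s₀‖) (v : ℝ) :
    ‖g (s + Complex.I * v) - g s₀ * Complex.exp ((s - s₀ + Complex.I * v) * bb s₀)‖
      ≤ 192 * ‖g s₀ * Complex.exp ((s - s₀) * bb s₀)‖ * (K ^ 2 + v ^ 2) * Real.exp (6 * |v|) / ‖s₀‖ := by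
  have hn : 64 ≤ ‖s₀‖ := by nlinarith
  have hn0 : 0 < ‖s₀‖ := by linarith
  set A := ‖g s₀ * Complex.exp ((s - s₀) * bb s₀)‖ with hA
  have hA0 : 0 ≤ A := norm_nonneg _
  have him := bb_im hs₀
  have hexpv : ‖g s₀ * Complex.exp ((s - s₀ + Complex.I * v) * bb s₀)‖ ≤ A * Real.exp (2 * |v|) := by
    rw [add_mul, Complex.exp_add, ← mul_assoc, norm_mul, ← hA]
    apply mul_le_mul_of_nonneg_left _ hA0
    rw [Complex.norm_exp]
    apply Real.exp_le_exp.mpr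
    have : (Complex.I * v * bb s₀).re = -(v * (bb s₀).im) := by
      simp [Complex.mul_re]
    rw [this]
    calc -(v * (bb s₀).im) ≤ |v * (bb s₀).im| := neg_le_abs _
      _ = |v| * |(bb s₀).im| := abs_mul _ _
      _ ≤ |v| * 2 := by gcongr
      _ = _ := by ring
  have h6 : Real.exp (2 * |v|) ≤ Real.exp (6 * |v|) := by
    apply Real.exp_le_exp.mpr; have := abs_nonneg v; linarith
  by_cases hv : 64 * v ^ 2 ≤ ‖s₀‖
  · -- small v
    set η := s - s₀ + Complex.I * v with hη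
    have hηn : ‖η‖ ≤ K + |v| := by
      calc ‖η‖ ≤ ‖s - s₀‖ + ‖Complex.I * v‖ := norm_add_le _ _
        _ ≤ K + |v| := by
          have : ‖Complex.I * (v : ℂ)‖ = |v| := by simp
          rw [this]; gcongr
    have hKv : (K + |v|) ^ 2 ≤ ‖s₀‖ / 16 := by
      have h1 : (K + |v|) ^ 2 ≤ 2 * K ^ 2 + 2 * v ^ 2 := by
        have := sq_abs v; nlinarith [sq_nonneg (K - |v|)]
      linarith
    have hKv0 : 0 ≤ K + |v| := by have := abs_nonneg v; linarith
    have hKv1 : 1 ≤ K + |v| := by have := abs_nonneg v; linarith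
    have h4 : 4 * ‖η‖ ≤ ‖s₀‖ := by nlinarith
    have hlin := g_lin hs₀ h4
    have e1 : s₀ + η = s + Complex.I * v := by rw [hη]; ring
    rw [e1] at hlin
    refine hlin.trans ?_
    have hε : (3 * ‖η‖ + 2 * ‖η‖ ^ 2) / ‖s₀‖ ≤ 10 * (K ^ 2 + v ^ 2) / ‖s₀‖ := by
      gcongr
      have h1 : (K + |v|) ^ 2 ≤ 2 * K ^ 2 + 2 * v ^ 2 := by
        have := sq_abs v; nlinarith [sq_nonneg (K - |v|)]
      have h2 : ‖η‖ ^ 2 ≤ (K + |v|) ^ 2 := by gcongr
      nlinarith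
    set ε := (3 * ‖η‖ + 2 * ‖η‖ ^ 2) / ‖s₀‖ with hεdef
    have hε0 : 0 ≤ ε := by positivity
    have hε1 : ε ≤ 1 := by
      refine hε.trans ?_
      rw [div_le_one hn0]; nlinarith
    have hexpε : Real.exp ε - 1 ≤ 2 * ε := by
      have h := Real.abs_exp_sub_one_le (x := ε) (by rw [abs_of_nonneg hε0]; exact hε1)
      rw [abs_of_nonneg hε0] at h
      exact (le_abs_self _).trans h
    calc ‖g s₀ * Complex.exp (η * bb s₀)‖ * (Real.exp ε - 1)
        ≤ (A * Real.exp (2 * |v|)) * (2 * ε) := by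
          gcongr
          have := Real.add_one_le_exp ε; linarith
      _ ≤ (A * Real.exp (6 * |v|)) * (2 * (10 * (K ^ 2 + v ^ 2) / ‖s₀‖)) := by gcongr
      _ = 20 * A * (K ^ 2 + v ^ 2) * Real.exp (6 * |v|) / ‖s₀‖ := by ring
      _ ≤ _ := by gcongr; norm_num
  · -- large v
    push Not at hv
    have h1 : 1 ≤ 64 * v ^ 2 / ‖s₀‖ := by rw [le_div_iff₀ hn0]; linarith
    have h4 : 4 * ‖s - s₀‖ ≤ ‖s₀‖ := by nlinarith
    have hlin := g_lin hs₀ h4
    rw [add_sub_cancel, ← hA] at hlin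
    have hε : (3 * ‖s - s₀‖ + 2 * ‖s - s₀‖ ^ 2) / ‖s₀‖ ≤ 1 / 2 := by
      rw [div_le_iff₀ hn0]
      have h2 : ‖s - s₀‖ ^ 2 ≤ K ^ 2 := by gcongr
      nlinarith
    have hexp2 : Real.exp ((3 * ‖s - s₀‖ + 2 * ‖s - s₀‖ ^ 2) / ‖s₀‖) ≤ 2 := by
      have h3 : Real.exp (1 / 2) ≤ 2 := by
        have := Real.exp_one_lt_d9
        have h5 : Real.exp (1/2) ^ 2 = Real.exp 1 := by rw [← Real.exp_nat_mul]; norm_num
        nlinarith [Real.exp_pos (1/2 : ℝ)]
      exact (Real.exp_le_exp.mpr hε).trans h3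
    have hgs : ‖g s‖ ≤ 2 * A := by
      have h5 : ‖g s‖ ≤ ‖g s - g s₀ * Complex.exp ((s - s₀) * bb s₀)‖ + A := by
        have := norm_add_le (g s - g s₀ * Complex.exp ((s - s₀) * bb s₀)) (g s₀ * Complex.exp ((s - s₀) * bb s₀))
        rw [sub_add_cancel] at this
        exact this
      have h6 : A * (Real.exp ((3 * ‖s - s₀‖ + 2 * ‖s - s₀‖ ^ 2) / ‖s₀‖) - 1) ≤ A * 1 := by
        gcongr; linarith
      linarith
    calc ‖g (s + Complex.I * v) - g s₀ * Complex.exp ((s - s₀ + Complex.I * v) * bb s₀)‖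
        ≤ ‖g (s + Complex.I * v)‖ + ‖g s₀ * Complex.exp ((s - s₀ + Complex.I * v) * bb s₀)‖ := norm_sub_le _ _
      _ ≤ (2 * A) * Real.exp (6 * |v|) + A * Real.exp (6 * |v|) := by
          gcongr
          · refine (g_vert_le hs v).trans ?_
            gcongr
          · refine hexpv.trans ?_
            gcongr
      _ = (3 * A * Real.exp (6 * |v|)) * 1 := by ring
      _ ≤ (3 * A * Real.exp (6 * |v|)) * (64 * v ^ 2 / ‖s₀‖) := by gcongr
      _ = 192 * A * v ^ 2 * Real.exp (6 * |v|) / ‖s₀‖ := by ring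
      _ ≤ _ := by
          gcongr
          have := sq_nonneg K
          linarith

end Pool.Agent.XiDeform
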