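import Pool.Agent.Lib.MP_023270_nt.Terms

/-! Gaussian superposition formula for the terms of the deformed Xi function. -/

open MeasureTheory Filter Topology Set

namespace Pool.Agent.XiDeform

/-- the Laplace transform of the `n`-th term of `Φ(t) e^{-κt²}`. -/
noncomputable def T (κ : ℝ) (n : ℕ) (w : ℂ) : ℂ :=
  ∫ t : ℝ, (phiTerm n t : ℂ) * (Complex.exp (-κ * (t : ℂ) ^ 2) * Complex.exp (w * t))

/-- the Gaussian weight `e^{(-a+iv)²/(4κ)}` -/
noncomputable def gw (κ a v : ℝ) : ℂ :=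
  Complex.exp ((-(a : ℂ) + Complex.I * v) ^ 2 / (4 * κ))

lemma norm_gw (κ a v : ℝ) (hκ : 0 < κ) :
    ‖gw κ a v‖ = Real.exp (a ^ 2 / (4 * κ)) * Real.exp (-(1 / (4 * κ)) * v ^ 2) := by
  unfold gw
  rw [Complex.norm_exp, ← Real.exp_add]
  congr 1
  have : (-(a : ℂ) + Complex.I * v) ^ 2 / (4 * κ)
      = ((a ^ 2 / (4 * κ) + -(1 / (4 * κ)) * v ^ 2 : ℝ) : ℂ) + ((-(a * v / (2 * κ)) : ℝ) : ℂ) * Complex.I := by
    push_cast
    have : (κ : ℂ) ≠ 0 := by exact_mod_cast hκ.ne'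
    field_simp
    ring_nf
    rw [Complex.I_sq]
    ring
  rw [this, Complex.add_re, Complex.ofReal_re, Complex.re_ofReal_mul, Complex.I_re, mul_zero, add_zero]

lemma gw_continuous (κ a : ℝ) : Continuous (gw κ a) := by
  unfold gw; fun_prop

lemma integrable_gw (κ a : ℝ) (hκ : 0 < κ) : Integrable (gw κ a) := by
  have h : Integrable (fun v : ℝ => Real.exp (-(1 / (4 * κ)) * v ^ 2)) :=
    integrable_exp_neg_mul_sq (by positivity)
  refine (h.const_mul (Real.exp (a ^ 2 / (4 * κ)))).mono' (gw_continuous κ a).aestronglyMeasurable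
    (Eventually.of_forall fun v => ?_)
  rw [norm_gw κ a v hκ]

/-- the Gaussian integral behind everything -/
lemma gauss_identity (κ : ℝ) (hκ : 0 < κ) (a : ℝ) (c : ℂ) :
    ∫ v : ℝ, gw κ a v * Complex.exp (Complex.I * v * c)
      = 2 * Real.sqrt (Real.pi * κ) * Complex.exp ((a : ℂ) ^ 2 / (4 * κ))
        * Complex.exp (-κ * (c - a / (2 * κ)) ^ 2) := by
  have hκ' : (κ : ℂ) ≠ 0 := by exact_mod_cast hκ.ne'
  have hb : ((-(1 / (4 * κ)) : ℝ) : ℂ).re < 0 := by
    rw [Complex.ofReal_re]; have : 0 < 1 / (4 * κ) := by positivity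
    linarith
  have h := integral_cexp_quadratic hb (Complex.I * c - Complex.I * a / (2 * κ)) ((a : ℂ) ^ 2 / (4 * κ))
  have e1 : ∀ v : ℝ, gw κ a v * Complex.exp (Complex.I * v * c)
      = Complex.exp (((-(1 / (4 * κ)) : ℝ) : ℂ) * (v : ℂ) ^ 2
        + (Complex.I * c - Complex.I * a / (2 * κ)) * v + (a : ℂ) ^ 2 / (4 * κ)) := by
    intro v
    unfold gw
    rw [← Complex.exp_add]
    congr 1
    push_cast
    field_simp
    ring_nf
    rw [Complex.I_sq]
    ring
  simp_rw [e1]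
  rw [h]
  have e2 : ((Real.pi : ℂ) / -((-(1 / (4 * κ)) : ℝ) : ℂ)) ^ (1 / 2 : ℂ) = 2 * Real.sqrt (Real.pi * κ) := by
    have : ((Real.pi : ℂ) / -((-(1 / (4 * κ)) : ℝ) : ℂ)) = ((4 * (Real.pi * κ) : ℝ) : ℂ) := by
      push_cast; field_simp
    rw [this, show (1 / 2 : ℂ) = ((1 / 2 : ℝ) : ℂ) by push_cast; rfl, ← Complex.ofReal_cpow (by positivity),
      ← Real.sqrt_eq_rpow, Real.sqrt_mul (by norm_num)]
    rw [show Real.sqrt 4 = 2 by rw [show (4 : ℝ) = 2 ^ 2 by norm_num]; exact Real.sqrt_sq (by norm_num)]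
    push_cast; ring
  rw [e2]
  have e3 : Complex.exp ((a : ℂ) ^ 2 / (4 * κ) - (Complex.I * c - Complex.I * a / (2 * κ)) ^ 2
      / (4 * ((-(1 / (4 * κ)) : ℝ) : ℂ)))
      = Complex.exp ((a : ℂ) ^ 2 / (4 * κ)) * Complex.exp (-κ * (c - a / (2 * κ)) ^ 2) := by
    rw [← Complex.exp_add]
    congr 1
    push_cast
    field_simp
    ring_nf
    rw [Complex.I_sq]
    ring
  rw [e3]
  ring

/-- The Gaussian superposition formula: for `Re s > 0`, real `a`,
`T κ n (s - 1/2 + a) = (2√(πκ))⁻¹ ∫ e^{(-a+iv)²/4κ} g(s+iv) (n+1)^{-(s+iv)} dv`. -/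
theorem T_eq (κ : ℝ) (hκ : 0 < κ) (n : ℕ) (s : ℂ) (hs : 0 < s.re) (a : ℝ) :
    T κ n (s - 1 / 2 + a) = (1 / (2 * Real.sqrt (Real.pi * κ)) : ℂ)
      * ∫ v : ℝ, gw κ a v * (Complex.exp (-(s + Complex.I * v) * ln n) * g (s + Complex.I * v)) := by
  have hκ' : (κ : ℂ) ≠ 0 := by exact_mod_cast hκ.ne'
  have hsq : (2 * Real.sqrt (Real.pi * κ) : ℂ) ≠ 0 := by
    have : 0 < Real.sqrt (Real.pi * κ) := Real.sqrt_pos.mpr (by positivity)
    exact_mod_cast (by positivity : (2 * Real.sqrt (Real.pi * κ)) ≠ 0)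
  -- inner integral over t
  have hin : ∀ v : ℝ, Complex.exp (-(s + Complex.I * v) * ln n) * g (s + Complex.I * v)
      = ∫ t : ℝ, (phiTerm n t : ℂ) * Complex.exp ((s + Complex.I * v - 1 / 2) * t) := by
    intro v
    rw [integral_phiTerm_mul_exp n (s + Complex.I * v) (by simpa using hs)]
  simp_rw [hin]
  -- the two-variable function
  have hprod : Integrable (Function.uncurry fun (v t : ℝ) => gw κ a v *
      ((phiTerm n t : ℂ) * Complex.exp ((s + Complex.I * v - 1 / 2) * t))) (volume.prod volume) := by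
    have h1 := (integrable_gw κ a hκ).mul_prod (integrable_phiTerm_mul_exp n s hs)
    refine h1.mono ?_ (Eventually.of_forall fun p => ?_)
    · apply Continuous.aestronglyMeasurable
      have := phiTerm_continuous n
      have := gw_continuous κ a
      unfold Function.uncurry
      fun_prop
    · simp only [Function.uncurry]
      rw [norm_mul, norm_mul, norm_mul, norm_mul, Complex.norm_exp, Complex.norm_exp]
      apply le_of_eq
      congr 3
      simp
  have hswap := integral_integral_swap hprod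
  have h2 : ∀ v : ℝ, gw κ a v * ∫ t : ℝ, (phiTerm n t : ℂ) * Complex.exp ((s + Complex.I * v - 1 / 2) * t)
      = ∫ t : ℝ, gw κ a v * ((phiTerm n t : ℂ) * Complex.exp ((s + Complex.I * v - 1 / 2) * t)) := by
    intro v; rw [integral_const_mul]
  simp_rw [h2]
  rw [hswap]
  unfold T
  rw [← integral_const_mul]
  congr 1
  ext t
  have h3 : ∀ v : ℝ, gw κ a v * ((phiTerm n t : ℂ) * Complex.exp ((s + Complex.I * v - 1 / 2) * t))
      = ((phiTerm n t : ℂ) * Complex.exp ((s - 1 / 2) * t)) * (gw κ a v * Complex.exp (Complex.I * v * t)) := by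
    intro v
    rw [show (s + Complex.I * v - 1 / 2) * t = (s - 1 / 2) * t + Complex.I * v * t by ring, Complex.exp_add]
    ring
  simp_rw [h3]
  rw [integral_const_mul, gauss_identity κ hκ a t]
  have h4 : Complex.exp ((a : ℂ) ^ 2 / (4 * κ)) * Complex.exp (-κ * ((t : ℂ) - a / (2 * κ)) ^ 2)
      * Complex.exp ((s - 1 / 2) * t) = Complex.exp (-κ * (t : ℂ) ^ 2) * Complex.exp ((s - 1 / 2 + a) * t) := by
    rw [← Complex.exp_add, ← Complex.exp_add, ← Complex.exp_add]
    congr 1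
    field_simp
    ring
  rw [← h4]
  have hsq' : ((Real.sqrt (Real.pi * κ) : ℝ) : ℂ) ≠ 0 := by
    have : 0 < Real.sqrt (Real.pi * κ) := Real.sqrt_pos.mpr (by positivity)
    exact_mod_cast this.ne'
  field_simp

end Pool.Agent.XiDeform
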