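import Pool.Agent.Lib.MP_023270_nt.NonVanish
import Pool.Agent.Lib.MP_023270_nt.Even

/-! Growth of `F κ`. -/

open MeasureTheory Filter Topology Set

namespace Pool.Agent.XiDeform

lemma norm_Gamma_le (z : ℂ) (hz : 0 < z.re) : ‖Complex.Gamma z‖ ≤ Real.Gamma z.re := by
  rw [Complex.Gamma_eq_integral hz, Complex.GammaIntegral, Real.Gamma_eq_integral hz]
  refine (norm_integral_le_integral_norm _).trans (le_of_eq ?_)
  refine setIntegral_congr_fun measurableSet_Ioi fun x hx => ?_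
  have hx' : 0 < x := hx
  rw [norm_mul, Complex.norm_real, Real.norm_eq_abs, abs_of_pos (Real.exp_pos _),
    Complex.norm_cpow_eq_rpow_re_of_pos hx', Complex.sub_re, Complex.one_re]

lemma real_Gamma_le (x : ℝ) (hx : 1 ≤ x) : Real.Gamma x ≤ (x + 1) ^ (x + 1) := by
  have hx0 : 0 < x := by linarith
  have h1 : Real.Gamma x ≤ Real.Gamma (x + 1) := by
    rw [Real.Gamma_add_one hx0.ne']
    have := Real.Gamma_pos_of_pos hx0
    nlinarith
  set m := ⌈x⌉₊ with hm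
  have hxm : x ≤ m := Nat.le_ceil x
  have hmx : (m : ℝ) ≤ x + 1 := (Nat.ceil_lt_add_one hx0.le).le
  have h2 : Real.Gamma (x + 1) ≤ Real.Gamma (m + 1) :=
    Real.Gamma_strictMonoOn_Ici.monotoneOn (by simp; linarith) (by simp; linarith) (by linarith)
  have h3 : Real.Gamma (m + 1) = (m.factorial : ℝ) := Real.Gamma_nat_eq_factorial m
  have h4 : (m.factorial : ℝ) ≤ (m : ℝ) ^ m := by exact_mod_cast Nat.factorial_le_pow m
  have h5 : (m : ℝ) ^ m ≤ (x + 1) ^ (x + 1) := by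
    calc (m : ℝ) ^ m ≤ (x + 1) ^ m := by gcongr
      _ = (x + 1) ^ (m : ℝ) := (Real.rpow_natCast _ _).symm
      _ ≤ (x + 1) ^ (x + 1) := Real.rpow_le_rpow_of_exponent_le (by linarith) hmx
  linarith

lemma norm_g_le {s : ℂ} (hs : 2 ≤ s.re) : ‖g s‖ ≤ Real.exp (2 * ‖s‖ * Real.log ‖s‖) := by
  have hn2 := norm_ge_of_re hs
  have hn : 0 < ‖s‖ := by linarith
  have hre : s.re ≤ ‖s‖ := (le_abs_self _).trans (Complex.abs_re_le_norm s)
  unfold g
  rw [norm_mul, norm_mul]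
  have h1 : ‖s * (s - 1) / 2‖ ≤ ‖s‖ ^ 2 := by
    rw [norm_div, norm_mul]
    have h2 : ‖s - 1‖ ≤ ‖s‖ + 1 := by
      have := norm_sub_le s 1
      rwa [norm_one] at this
    have h3 : ‖(2 : ℂ)‖ = 2 := by simp
    rw [h3, div_le_iff₀ (by norm_num)]
    nlinarith
  have h2 : ‖Complex.exp (-(s / 2) * Real.log Real.pi)‖ ≤ 1 := by
    rw [Complex.norm_exp, Complex.re_mul_ofReal]
    rw [Real.exp_le_one_iff]
    have h3 : 0 ≤ Real.log Real.pi := Real.log_nonneg (by have := Real.pi_gt_three; linarith)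
    have h4 : (-(s / 2)).re = -(s.re / 2) := by simp
    rw [h4]
    nlinarith
  have h3 : ‖Complex.Gamma (s / 2)‖ ≤ ‖s‖ ^ (‖s‖ / 2 + 1) := by
    have hz := re_half hs
    have hzre : (s / 2).re = s.re / 2 := by simp
    refine (norm_Gamma_le _ (by linarith)).trans ((real_Gamma_le _ hz).trans ?_)
    rw [hzre]
    calc (s.re / 2 + 1) ^ (s.re / 2 + 1) ≤ ‖s‖ ^ (s.re / 2 + 1) := by
          apply Real.rpow_le_rpow (by linarith) (by linarith) (by linarith)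
      _ ≤ ‖s‖ ^ (‖s‖ / 2 + 1) := by
          apply Real.rpow_le_rpow_of_exponent_le (by linarith) (by linarith)
  calc ‖s * (s - 1) / 2‖ * ‖Complex.exp (-(s / 2) * Real.log Real.pi)‖ * ‖Complex.Gamma (s / 2)‖
      ≤ ‖s‖ ^ 2 * 1 * ‖s‖ ^ (‖s‖ / 2 + 1) := by gcongr
    _ = ‖s‖ ^ (‖s‖ / 2 + 3) := by
        rw [mul_one, ← Real.rpow_natCast, ← Real.rpow_add hn]
        congr 1; push_cast; ring
    _ ≤ ‖s‖ ^ (2 * ‖s‖) := by
        apply Real.rpow_le_rpow_of_exponent_le (by linarith) (by linarith)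
    _ = Real.exp (2 * ‖s‖ * Real.log ‖s‖) := by
        rw [Real.rpow_def_of_pos hn]; congr 1; ring

lemma norm_F_le_strip (κ : ℝ) (hκ : 0 < κ) (w : ℂ) :
    ‖F κ w‖ ≤ Real.exp ((w.re - 3 / 2) ^ 2 / (4 * κ)) * (2 * C0) := by
  have h1 := hasSum_T κ hκ w
  rw [← h1.tsum_eq]
  have hC := C0_nonneg
  have h2 : HasSum (fun n : ℕ => Real.exp ((w.re - 3 / 2) ^ 2 / (4 * κ)) * C0 * (1 / ((n : ℝ) + 1) ^ 2))
      (Real.exp ((w.re - 3 / 2) ^ 2 / (4 * κ)) * C0 * ∑' n : ℕ, 1 / ((n : ℝ) + 1) ^ 2) :=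
    summable_inv_sq.hasSum.mul_left _
  refine (tsum_of_norm_bounded h2 (fun n => (norm_T_le κ hκ n w).trans (le_of_eq (by ring)))).trans ?_
  calc _ ≤ Real.exp ((w.re - 3 / 2) ^ 2 / (4 * κ)) * C0 * 2 := by
        gcongr; exact tsum_inv_sq_le
    _ = _ := by ring

/-- growth: `|F κ w| ≤ C exp (2 (R+1) log (R+1))` for `|w| ≤ R`. -/
theorem F_growth (κ : ℝ) (hκ : 0 < κ) : ∃ C : ℝ, 1 ≤ C ∧ ∀ R : ℝ, 1 ≤ R → ∀ w : ℂ, ‖w‖ ≤ R →
    ‖F κ w‖ ≤ C * Real.exp (2 * (R + 1) * Real.log (R + 1)) := by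
  have hE := Ek_nonneg κ
  have hC0 := C0_nonneg
  set A := Real.exp (9 / (4 * κ)) * (2 * C0) with hA
  have hA0 : 0 ≤ A := by positivity
  refine ⟨2 * Ek κ + A + 1, by linarith, ?_⟩
  have key : ∀ R : ℝ, 1 ≤ R → ∀ w : ℂ, ‖w‖ ≤ R → 0 ≤ w.re →
      ‖F κ w‖ ≤ (2 * Ek κ + A + 1) * Real.exp (2 * (R + 1) * Real.log (R + 1)) := by
    intro R hR w hw hre
    have hone : 1 ≤ Real.exp (2 * (R + 1) * Real.log (R + 1)) := by
      apply Real.one_le_exp
      have : 0 ≤ Real.log (R + 1) := Real.log_nonneg (by linarith)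
      positivity
    rcases le_total (3 / 2) w.re with h | h
    · have hs : 2 ≤ (w + 1 / 2).re := by simp; linarith
      have h1 := F_crude κ hκ hs 0
      have e : w + 1 / 2 - 1 / 2 + ((0 : ℝ) : ℂ) = w := by push_cast; ring
      rw [e] at h1
      simp only [ne_eq, OfNat.ofNat_ne_zero, not_false_eq_true, zero_pow, zero_div, Real.exp_zero, mul_one] at h1
      have h2 := norm_g_le hs
      have h3 : ‖w + 1 / 2‖ ≤ R + 1 := by
        calc ‖w + 1 / 2‖ ≤ ‖w‖ + ‖(1 / 2 : ℂ)‖ := norm_add_le _ _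
          _ ≤ R + 1 := by
            have : ‖(1 / 2 : ℂ)‖ = 1 / 2 := by simp
            rw [this]; linarith
      have h4 : ‖g (w + 1 / 2)‖ ≤ Real.exp (2 * (R + 1) * Real.log (R + 1)) := by
        refine h2.trans (Real.exp_le_exp.mpr ?_)
        have h5 : 2 ≤ ‖w + 1 / 2‖ := norm_ge_of_re hs
        have h6 : Real.log ‖w + 1 / 2‖ ≤ Real.log (R + 1) := Real.log_le_log (by linarith) h3
        have h7 : 0 ≤ Real.log ‖w + 1 / 2‖ := Real.log_nonneg (by linarith)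
        gcongr
      calc ‖F κ w‖ ≤ 2 * Ek κ * ‖g (w + 1 / 2)‖ := h1
        _ ≤ 2 * Ek κ * Real.exp (2 * (R + 1) * Real.log (R + 1)) := by gcongr
        _ ≤ _ := by
          have := Real.exp_pos (2 * (R + 1) * Real.log (R + 1))
          nlinarith
    · have h1 := norm_F_le_strip κ hκ w
      have h2 : Real.exp ((w.re - 3 / 2) ^ 2 / (4 * κ)) ≤ Real.exp (9 / (4 * κ)) := by
        apply Real.exp_le_exp.mpr
        gcongr
        nlinarith
      calc ‖F κ w‖ ≤ Real.exp ((w.re - 3 / 2) ^ 2 / (4 * κ)) * (2 * C0) := h1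
        _ ≤ A := by rw [hA]; gcongr
        _ ≤ (2 * Ek κ + A + 1) * 1 := by linarith
        _ ≤ _ := by gcongr
  intro R hR w hw
  rcases le_total 0 w.re with h | h
  · exact key R hR w hw h
  · rw [← F_even]
    exact key R hR (-w) (by rwa [norm_neg]) (by simpa using h)

end Pool.Agent.XiDeform
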