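import Pool.Agent.Lib.MP_023270_nt.LocalA
import Pool.Agent.Lib.MP_023270_nt.FewZeros
import Pool.Agent.Lib.MP_023270_nt.DirichletWindow

/-! The local lower bound for the number of zeros of `F κ` in the right half plane. -/

open MeasureTheory Filter Topology Set Metric

namespace Pool.Agent.XiDeform

lemma s0_re (X : ℝ) : (2 + Complex.I * X : ℂ).re = 2 := by simp

lemma s0_im (X : ℝ) : (2 + Complex.I * X : ℂ).im = X := by simp

lemma s0_norm_ge {X : ℝ} (hX : 0 ≤ X) : X ≤ ‖(2 + Complex.I * X : ℂ)‖ := by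
  have := Complex.abs_im_le_norm (2 + Complex.I * X : ℂ)
  rwa [s0_im, abs_of_nonneg hX] at this

lemma s0_norm_le {X : ℝ} (hX : 0 ≤ X) : ‖(2 + Complex.I * X : ℂ)‖ ≤ X + 2 := by
  calc ‖(2 + Complex.I * X : ℂ)‖ ≤ ‖(2 : ℂ)‖ + ‖Complex.I * X‖ := norm_add_le _ _
    _ = X + 2 := by simp [abs_of_nonneg hX]; ring

lemma Lam_bounds {X : ℝ} (hX : Real.exp 6 ≤ X) :
    (1 / 2) * Real.log X ≤ 2 * (bb (2 + Complex.I * X)).re ∧
      2 * (bb (2 + Complex.I * X)).re ≤ Real.log X := by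
  have h6 : (64 : ℝ) ≤ X := by
    have h2 : (2 : ℝ) ^ 6 ≤ Real.exp 6 := by
      have h1 : (2 : ℝ) ≤ Real.exp 1 := by have := Real.add_one_le_exp (1 : ℝ); linarith
      calc (2 : ℝ) ^ 6 ≤ (Real.exp 1) ^ 6 := by gcongr
        _ = Real.exp 6 := by rw [← Real.exp_nat_mul]; norm_num
    norm_num at h2
    linarith
  have hX0 : 0 < X := by linarith
  have hlog : 6 ≤ Real.log X := by
    rw [Real.le_log_iff_exp_le hX0]; exact hX
  have hge := s0_norm_ge hX0.le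
  have hle := s0_norm_le hX0.le
  have hb := bb_re (s := 2 + Complex.I * X) (by rw [s0_re]) (by linarith)
  rw [abs_le] at hb
  have h8 : 8 / ‖(2 + Complex.I * X : ℂ)‖ ≤ 1 / 8 := by
    rw [div_le_div_iff₀ (by linarith) (by norm_num)]
    linarith
  have hpi := Real.pi_gt_three
  have hpi2 := Real.pi_lt_d2
  have hlog1 : Real.log X - 2 ≤ Real.log (‖(2 + Complex.I * X : ℂ)‖ / (2 * Real.pi)) := by
    have h1 : Real.log (X / (2 * Real.pi)) ≤ Real.log (‖(2 + Complex.I * X : ℂ)‖ / (2 * Real.pi)) := by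
      apply Real.log_le_log (by positivity)
      gcongr
    rw [Real.log_div hX0.ne' (by positivity)] at h1
    have h2 : Real.log (2 * Real.pi) ≤ 2 := by
      rw [Real.log_le_iff_le_exp (by positivity)]
      have h1 : (2.7 : ℝ) ≤ Real.exp 1 := by have := Real.exp_one_gt_d9; linarith
      have h3 : Real.exp 2 = (Real.exp 1) ^ 2 := by rw [← Real.exp_nat_mul]; norm_num
      rw [h3]
      nlinarith
    linarith
  have hlog2 : Real.log (‖(2 + Complex.I * X : ℂ)‖ / (2 * Real.pi)) ≤ Real.log X - 1 / 2 := by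
    have h1 : Real.log (‖(2 + Complex.I * X : ℂ)‖ / (2 * Real.pi)) ≤ Real.log (X / 2) := by
      apply Real.log_le_log (div_pos (by linarith) (by positivity))
      rw [div_le_div_iff₀ (by positivity) (by norm_num)]
      nlinarith
    rw [Real.log_div hX0.ne' (by norm_num)] at h1
    have := Real.log_two_gt_d9
    linarith
  constructor <;> linarith [hb.1, hb.2]

lemma hX_near (κ : ℝ) (hκ : 0 < κ) {X H Λ : ℝ} (hXn : 0 ≤ X) (hΛ : Λ = 2 * (bb (2 + Complex.I * X)).re)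
    (hΛ3 : 3 ≤ κ * Λ) (hH : 10 * (κ * Λ) ≤ H) (hHX : 256 * H ^ 2 ≤ X) {w : ℂ} {A : ℝ}
    (hA : κ * Λ + 3 / 2 - A ≤ w.re) (hA0 : 0 ≤ A) (hw : w.re ≤ 4 * (κ * Λ)) (hi1 : X - 2 * (κ * Λ) ≤ w.im)
    (hi2 : w.im ≤ X + H + 2 * (κ * Λ)) :
    ‖hX κ (2 + Complex.I * X) w - DX κ (bb (2 + Complex.I * X)) w‖
      ≤ Real.exp (A ^ 2 / (4 * κ)) * (8 * Ek κ * H ^ 2 / X) := by
  set s₀ : ℂ := 2 + Complex.I * X with hs₀
  have hre : s₀.re = 2 := s0_re X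
  have him : s₀.im = X := s0_im X
  have hn := s0_norm_ge hXn
  rw [← hs₀] at hn
  set a : ℝ := min (κ * Λ) (w.re - 3 / 2) with ha
  have ha1 : a ≤ κ * Λ := min_le_left _ _
  have ha2 : a ≤ w.re - 3 / 2 := min_le_right _ _
  have ha3 : κ * Λ - A ≤ a := le_min (by linarith) (by linarith)
  have ha4 : w.re - 3 / 2 - 4 * (κ * Λ) ≤ a := le_min (by linarith) (by linarith)
  have ha5 : w.re - 3 / 2 - a ≤ 3 * (κ * Λ) := by
    rcases le_total (κ * Λ) (w.re - 3 / 2) with h | h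
    · rw [ha, min_eq_left h]; linarith
    · rw [ha, min_eq_right h]; linarith
  have hX0 : 0 < X := by nlinarith
  have hH1 : 1 ≤ 2 * H := by linarith
  have e1 : (w + 1 / 2 - a).re = w.re + 1 / 2 - a := by
    simp
  have e2 : (w + 1 / 2 - a - s₀).re = w.re - 3 / 2 - a := by
    rw [Complex.sub_re, e1, hre]; ring
  have e3 : (w + 1 / 2 - a - s₀).im = w.im - X := by
    rw [Complex.sub_im, him]; simp
  have hnorm : ‖w + 1 / 2 - a - s₀‖ ≤ 2 * H := by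
    refine (Complex.norm_le_abs_re_add_abs_im _).trans ?_
    rw [e2, e3, abs_of_nonneg (by linarith)]
    have : |w.im - X| ≤ H + 2 * (κ * Λ) := by
      rw [abs_le]; constructor <;> linarith
    linarith
  have h := hX_approx κ hκ (s₀ := s₀) (by rw [hre]) (K := 2 * H) hH1 (by nlinarith) w a
    (by rw [e1]; linarith) hnorm
  refine h.trans ?_
  have hEk := Ek_nonneg κ
  have hexp : Real.exp ((a - κ * (2 * (bb s₀).re)) ^ 2 / (4 * κ)) ≤ Real.exp (A ^ 2 / (4 * κ)) := by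
    apply Real.exp_le_exp.mpr
    rw [← hΛ]
    gcongr ?_ / _
    nlinarith
  calc 2 * Ek κ * Real.exp ((a - κ * (2 * (bb s₀).re)) ^ 2 / (4 * κ)) * (2 * H) ^ 2 / ‖s₀‖
      ≤ 2 * Ek κ * Real.exp (A ^ 2 / (4 * κ)) * (2 * H) ^ 2 / X := by gcongr
    _ = _ := by ring

/-- the unimodular coefficients. -/
noncomputable def uu (κ : ℝ) (b : ℂ) (n : ℕ) : ℂ := Complex.exp (((2 * κ * b.im * ln n : ℝ) : ℂ) * Complex.I)

lemma norm_uu (κ : ℝ) (b : ℂ) (n : ℕ) : ‖uu κ b n‖ = 1 := Complex.norm_exp_ofReal_mul_I _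

lemma DX_good (κ : ℝ) (b : ℂ) (V y : ℝ) :
    DX κ b (((κ * (2 * b.re) - 2 * κ * V : ℝ) : ℂ) + y * Complex.I)
      = (Real.exp (κ * V ^ 2) : ℂ) * ∑' n : ℕ, (((n : ℝ) + 1) ^ (-(1 / 2) : ℝ)
              * Real.exp (-κ * (Real.log ((n : ℝ) + 1) - V) ^ 2) : ℝ)
              * uu κ b n * Complex.exp (-Complex.I * y * Real.log ((n : ℝ) + 1)) := by
  unfold DX
  rw [← tsum_mul_left]
  refine tsum_congr fun n => ?_
  have h1 : ((n : ℝ) + 1) ^ (-(1 / 2) : ℝ) = Real.exp (-(1 / 2) * ln n) := by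
    rw [Real.rpow_def_of_pos (by positivity), mul_comm]; rfl
  rw [h1]
  change _ = (Real.exp (κ * V ^ 2) : ℂ) * (((Real.exp (-(1 / 2) * ln n) * Real.exp (-κ * (ln n - V) ^ 2) : ℝ) : ℂ)
    * uu κ b n * Complex.exp (-Complex.I * y * ln n))
  unfold uu
  rw [Complex.ofReal_mul, Complex.ofReal_exp, Complex.ofReal_exp, Complex.ofReal_exp, ← Complex.exp_add,
    ← Complex.exp_add, ← Complex.exp_add, ← Complex.exp_add]
  congr 1
  have hb : b = (b.re : ℂ) + b.im * Complex.I := (Complex.re_add_im b).symm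
  have : (2 * (κ : ℂ) * b * ln n) = 2 * κ * ((b.re : ℂ) + b.im * Complex.I) * ln n := by rw [← hb]
  rw [this]
  push_cast
  ring

lemma ev_Lam (κ θ J V₀ B₀ : ℝ) (hκ : 0 < κ) (hθ : 0 < θ) :
    ∃ Λ₀ : ℝ, ∀ Λ : ℝ, Λ₀ ≤ Λ →
      3 ≤ κ * Λ ∧ V₀ ≤ θ * Λ / 4 ∧ B₀ ≤ θ ^ 2 * κ * Λ ^ 2 / 2 ∧
      3 * Real.exp ((θ * (κ * Λ) + 3 / 2) ^ 2 / (4 * κ)) ≤ Real.exp (θ ^ 2 * κ * Λ ^ 2 / 2) ∧
      2 * (J * (θ * Λ / 4)) ≤ Real.exp (κ * (θ * Λ / 4) ^ 2 / 2) := by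
  have hev : ∀ᶠ Λ : ℝ in atTop, 3 / κ ≤ Λ ∧ 4 * V₀ / θ ≤ Λ ∧ 1 ≤ Λ ∧ 2 * B₀ / (θ ^ 2 * κ) ≤ Λ ∧
      (2 + 3 / 4 * θ + 9 / (16 * κ)) * (4 / (θ ^ 2 * κ)) ≤ Λ ∧ 16 * J / (κ * θ) ≤ Λ := by
    filter_upwards [eventually_ge_atTop (3 / κ), eventually_ge_atTop (4 * V₀ / θ), eventually_ge_atTop 1,
      eventually_ge_atTop (2 * B₀ / (θ ^ 2 * κ)),
      eventually_ge_atTop ((2 + 3 / 4 * θ + 9 / (16 * κ)) * (4 / (θ ^ 2 * κ))),
      eventually_ge_atTop (16 * J / (κ * θ))] with Λ h1 h2 h3 h4 h5 h6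
    exact ⟨h1, h2, h3, h4, h5, h6⟩
  obtain ⟨Λ₀, hΛ₀⟩ := eventually_atTop.mp hev
  refine ⟨Λ₀, fun Λ hΛ => ?_⟩
  obtain ⟨h1, h2, h3, h4, h5, h6⟩ := hΛ₀ Λ hΛ
  have hΛ0 : 0 < Λ := by linarith
  rw [div_le_iff₀ hκ] at h1
  rw [div_le_iff₀ hθ] at h2
  rw [div_le_iff₀ (by positivity)] at h4
  rw [div_le_iff₀ (by positivity)] at h6
  rw [mul_div_assoc', div_le_iff₀ (by positivity)] at h5
  refine ⟨by linarith, by linarith, ?_, ?_, ?_⟩
  · have : Λ * (θ ^ 2 * κ) ≤ θ ^ 2 * κ * Λ ^ 2 := by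
      have h7 : (θ ^ 2 * κ) * Λ * 1 ≤ (θ ^ 2 * κ) * Λ * Λ := by gcongr
      linarith
    linarith
  · have hlog3 : (3 : ℝ) ≤ Real.exp 2 := by
      have := Real.add_one_le_exp (2 : ℝ); linarith
    calc 3 * Real.exp ((θ * (κ * Λ) + 3 / 2) ^ 2 / (4 * κ))
        ≤ Real.exp 2 * Real.exp ((θ * (κ * Λ) + 3 / 2) ^ 2 / (4 * κ)) := by gcongr
      _ = Real.exp (2 + (θ * (κ * Λ) + 3 / 2) ^ 2 / (4 * κ)) := by rw [Real.exp_add]
      _ ≤ Real.exp (θ ^ 2 * κ * Λ ^ 2 / 2) := by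
          apply Real.exp_le_exp.mpr
          have e : (θ * (κ * Λ) + 3 / 2) ^ 2 / (4 * κ) = θ ^ 2 * κ * Λ ^ 2 / 4 + 3 / 4 * θ * Λ + 9 / (16 * κ) := by
            field_simp; ring
          rw [e]
          have h9 : 0 < 9 / (16 * κ) := by positivity
          have h7 : (2 + 3 / 4 * θ + 9 / (16 * κ)) * 4 * Λ ≤ Λ * (θ ^ 2 * κ) * Λ := by gcongr
          have h8 : 0 ≤ (Λ - 1) * (2 + 9 / (16 * κ)) := by
            apply mul_nonneg (by linarith) (by positivity)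
          nlinarith
  · have h7 : κ * (θ * Λ / 4) ^ 2 / 2 + 1 ≤ Real.exp (κ * (θ * Λ / 4) ^ 2 / 2) := Real.add_one_le_exp _
    have h8 : 16 * J * (θ * Λ) ≤ Λ * (κ * θ) * (θ * Λ) := by gcongr
    nlinarith

lemma ev_X (κ E J Λ₀ : ℝ) :
    ∃ X₀ : ℝ, ∀ X : ℝ, X₀ ≤ X →
      Real.exp 6 ≤ X ∧ 16 ≤ X ^ (1 / 4 : ℝ) ∧ 80 * E ≤ X ^ (1 / 4 : ℝ) ∧
      16 * E * J * Real.exp (9 / (16 * κ)) ≤ X ^ (1 / 4 : ℝ) ∧ 10 * κ * Real.log X ≤ X ^ (1 / 5 : ℝ) ∧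
      2 * Λ₀ ≤ Real.log X := by
  apply eventually_atTop.mp
  have hq : Tendsto (fun X : ℝ => X ^ (1 / 4 : ℝ)) atTop atTop := tendsto_rpow_atTop (by norm_num)
  have hlog : ∀ᶠ X : ℝ in atTop, 10 * κ * Real.log X ≤ X ^ (1 / 5 : ℝ) := by
    have h := isLittleO_log_rpow_atTop (r := 1 / 5) (by norm_num)
    have h2 := h.bound (c := 1 / (10 * |κ| + 1)) (by positivity)
    filter_upwards [h2, eventually_ge_atTop 1] with X h3 h4
    have hl : 0 ≤ Real.log X := Real.log_nonneg h4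
    rw [Real.norm_eq_abs, Real.norm_eq_abs, abs_of_nonneg hl,
      abs_of_nonneg (Real.rpow_nonneg (by linarith : (0 : ℝ) ≤ X) _),
      div_mul_eq_mul_div, le_div_iff₀ (by positivity), one_mul] at h3
    have h5 : κ ≤ |κ| := le_abs_self κ
    nlinarith
  filter_upwards [eventually_ge_atTop (Real.exp 6), hq.eventually_ge_atTop 16, hq.eventually_ge_atTop (80 * E),
    hq.eventually_ge_atTop (16 * E * J * Real.exp (9 / (16 * κ))), hlog,
    Real.tendsto_log_atTop.eventually_ge_atTop (2 * Λ₀)] with X h1 h2 h3 h4 h5 h6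
  exact ⟨h1, h2, h3, h4, h5, h6⟩

lemma good_re (κ σ y : ℝ) (b : ℂ) (V : ℝ) (h : σ = κ * (2 * b.re) - 2 * κ * V) :
    ((((κ * (2 * b.re) - 2 * κ * V : ℝ) : ℂ) + y * Complex.I).re = σ) ∧
    ((((κ * (2 * b.re) - 2 * κ * V : ℝ) : ℂ) + y * Complex.I).im = y) := by
  constructor
  · rw [Complex.add_re, Complex.ofReal_re, Complex.re_ofReal_mul, Complex.I_re, mul_zero, add_zero, h]
  · rw [Complex.add_im, Complex.ofReal_im, Complex.im_ofReal_mul, Complex.I_im, mul_one, zero_add]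

lemma good_norm (κ : ℝ) (hκ : 0 < κ) {X H Λ J V Q y : ℝ} (hXpos : 0 < X)
    (hΛ : Λ = 2 * (bb (2 + Complex.I * X)).re)
    (hΛ3 : 3 ≤ κ * Λ) (hH : 10 * (κ * Λ) ≤ H) (hHX : 256 * H ^ 2 ≤ X) (hJ : 1 ≤ J) (hV : 0 < V)
    (hy1 : X - 2 * (κ * Λ) ≤ y) (hy2 : y ≤ X + H + 2 * (κ * Λ)) (hQpos : 0 < Q)
    (hVQ : Real.exp (3 / 2 * V) * V ≤ Q) (hδQ : 8 * Ek κ * H ^ 2 / X * Q ^ 2 ≤ 8 * Ek κ)
    (hQJ : 16 * Ek κ * J * Real.exp (9 / (16 * κ)) ≤ Q) (hJV : 2 * (J * V) ≤ Real.exp (κ * V ^ 2 / 2))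
    (hsum : 1 / (J * V) ≤ ‖∑' n : ℕ, (((n : ℝ) + 1) ^ (-(1 / 2) : ℝ)
              * Real.exp (-κ * (Real.log ((n : ℝ) + 1) - V) ^ 2) : ℝ)
              * uu κ (bb (2 + Complex.I * X)) n * Complex.exp (-Complex.I * y * Real.log ((n : ℝ) + 1))‖) :
    Real.exp (κ * V ^ 2 / 2) ≤ ‖hX κ (2 + Complex.I * X)
      (((κ * (2 * (bb (2 + Complex.I * X)).re) - 2 * κ * V : ℝ) : ℂ) + y * Complex.I)‖ := by
  set s₀ : ℂ := 2 + Complex.I * X with hs₀
  set b : ℂ := bb s₀ with hb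
  obtain ⟨hre, him⟩ := good_re κ (κ * (2 * b.re) - 2 * κ * V) y b V rfl
  have hκV : 0 < κ * V := by positivity
  have h3 := hX_near κ hκ hXpos.le hΛ hΛ3 hH hHX (A := 2 * κ * V + 3 / 2)
    (w := ((κ * (2 * b.re) - 2 * κ * V : ℝ) : ℂ) + y * Complex.I)
    (by rw [hre, ← hΛ]; linarith) (by positivity) (by rw [hre, ← hΛ]; linarith)
    (by rw [him]; linarith) (by rw [him]; linarith)
  rw [← hs₀, ← hb] at h3
  have hDX0 := DX_good κ b V y
  set w₁ : ℂ := ((κ * (2 * b.re) - 2 * κ * V : ℝ) : ℂ) + y * Complex.I with hw₁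
  set δ : ℝ := 8 * Ek κ * H ^ 2 / X with hδ
  have hDX : Real.exp (κ * V ^ 2) * (1 / (J * V)) ≤ ‖DX κ b w₁‖ := by
    rw [hDX0, norm_mul, Complex.norm_real, Real.norm_eq_abs, abs_of_pos (Real.exp_pos _)]
    gcongr
  have hsub : ‖DX κ b w₁‖ ≤ ‖hX κ s₀ w₁‖ + ‖hX κ s₀ w₁ - DX κ b w₁‖ := by
    have := norm_sub_le (hX κ s₀ w₁) (hX κ s₀ w₁ - DX κ b w₁)
    rwa [sub_sub_cancel] at this
  have hexpA : Real.exp ((2 * κ * V + 3 / 2) ^ 2 / (4 * κ))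
      = Real.exp (κ * V ^ 2) * (Real.exp (3 / 2 * V) * Real.exp (9 / (16 * κ))) := by
    rw [← Real.exp_add, ← Real.exp_add]
    congr 1
    field_simp; ring
  rw [hexpA] at h3
  have hE := Ek_nonneg κ
  have hδ0 : 0 ≤ δ := by positivity
  have herr : (Real.exp (3 / 2 * V) * Real.exp (9 / (16 * κ))) * δ ≤ 1 / (2 * (J * V)) := by
    rw [le_div_iff₀ (by positivity)]
    have h8 : (Real.exp (3 / 2 * V) * V) * (2 * J * Real.exp (9 / (16 * κ))) * (δ * Q ^ 2)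
        ≤ Q * (2 * J * Real.exp (9 / (16 * κ))) * (8 * Ek κ) := by gcongr
    have h9 : Q * (2 * J * Real.exp (9 / (16 * κ))) * (8 * Ek κ) ≤ Q * Q := by
      calc Q * (2 * J * Real.exp (9 / (16 * κ))) * (8 * Ek κ)
          = Q * (16 * Ek κ * J * Real.exp (9 / (16 * κ))) := by ring
        _ ≤ Q * Q := by gcongr
    have h10 : (Real.exp (3 / 2 * V) * Real.exp (9 / (16 * κ)) * δ * (2 * (J * V))) * Q ^ 2 ≤ 1 * Q ^ 2 := by
      calc _ = (Real.exp (3 / 2 * V) * V) * (2 * J * Real.exp (9 / (16 * κ))) * (δ * Q ^ 2) := by ring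
        _ ≤ Q * Q := h8.trans h9
        _ = 1 * Q ^ 2 := by ring
    exact le_of_mul_le_mul_right h10 (by positivity)
  have h11 : ‖hX κ s₀ w₁ - DX κ b w₁‖ ≤ Real.exp (κ * V ^ 2) * (1 / (2 * (J * V))) := by
    refine h3.trans ?_
    rw [mul_assoc]
    gcongr
  have h12 : Real.exp (κ * V ^ 2) * (1 / (J * V)) = 2 * (Real.exp (κ * V ^ 2) * (1 / (2 * (J * V)))) := by
    field_simp
  have h13 : Real.exp (κ * V ^ 2) * (1 / (2 * (J * V))) ≤ ‖hX κ s₀ w₁‖ := by linarith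
  refine le_trans ?_ h13
  have h14 : Real.exp (κ * V ^ 2) = Real.exp (κ * V ^ 2 / 2) * Real.exp (κ * V ^ 2 / 2) := by
    rw [← Real.exp_add]; congr 1; ring
  rw [h14, mul_assoc]
  have h15 : 1 ≤ Real.exp (κ * V ^ 2 / 2) * (1 / (2 * (J * V))) := by
    rw [mul_one_div, le_div_iff₀ (by positivity), one_mul]
    exact hJV
  calc Real.exp (κ * V ^ 2 / 2) = Real.exp (κ * V ^ 2 / 2) * 1 := by ring
    _ ≤ _ := by gcongr

lemma good_mem (κ : ℝ) {Λ θ J V x y : ℝ} (b : ℂ) (hκΛ : 0 < κ * Λ) (hΛ : Λ = 2 * b.re)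
    (hV : V = θ * Λ / 4) (hθ : 0 < θ) (hθJ : J ^ 2 * θ ≤ 8 * κ ^ 2)
    (hy : y ∈ Icc (x - J * V) (x + J * V)) :
    (((κ * (2 * b.re) - 2 * κ * V : ℝ) : ℂ) + y * Complex.I)
      ∈ closedBall (((2 * (κ * Λ) : ℝ) : ℂ) + x * Complex.I) ((1 + 3 * θ / 4) * (κ * Λ)) := by
  obtain ⟨hre, him⟩ := good_re κ (κ * (2 * b.re) - 2 * κ * V) y b V rfl
  rw [mem_closedBall, dist_eq_norm]
  have hn : ∀ z : ℂ, ‖z‖ ^ 2 = z.re ^ 2 + z.im ^ 2 := by
    intro z; rw [← Complex.normSq_eq_norm_sq, Complex.normSq_apply]; ring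
  rw [← sq_le_sq₀ (norm_nonneg _) (by positivity), hn]
  have e1 : (((κ * (2 * b.re) - 2 * κ * V : ℝ) : ℂ) + y * Complex.I
      - (((2 * (κ * Λ) : ℝ) : ℂ) + x * Complex.I)).re = -((1 + θ / 2) * (κ * Λ)) := by
    rw [Complex.sub_re, hre, Complex.add_re, Complex.ofReal_re, Complex.re_ofReal_mul, Complex.I_re]
    rw [← hΛ, hV]; ring
  have e2 : (((κ * (2 * b.re) - 2 * κ * V : ℝ) : ℂ) + y * Complex.I
      - (((2 * (κ * Λ) : ℝ) : ℂ) + x * Complex.I)).im = y - x := by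
    rw [Complex.sub_im, him, Complex.add_im, Complex.ofReal_im, Complex.im_ofReal_mul, Complex.I_im]
    ring
  rw [e1, e2]
  have h5 : (y - x) ^ 2 ≤ (J * V) ^ 2 := by
    apply sq_le_sq'
    · linarith [hy.1]
    · linarith [hy.2]
  have h6 : (J * V) ^ 2 ≤ κ ^ 2 * θ * Λ ^ 2 / 2 := by
    calc (J * V) ^ 2 = (J ^ 2 * θ) * (θ * Λ ^ 2) / 16 := by rw [hV]; ring
      _ ≤ (8 * κ ^ 2) * (θ * Λ ^ 2) / 16 := by gcongr
      _ = _ := by ring
  have h7 : 0 ≤ θ ^ 2 * (κ * Λ) ^ 2 := by positivity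
  nlinarith

/-- **Local lower bound.** -/
theorem local_lower (κ : ℝ) (hκ : 0 < κ) : ∃ c X₀ : ℝ, 0 < c ∧ ∀ X : ℝ, X₀ ≤ X → ∀ H : ℝ,
    X ^ (1 / 5 : ℝ) ≤ H → H ≤ X ^ (1 / 4 : ℝ) → ∀ Z : Finset ℂ,
    (∀ w, F κ w = 0 → 1 ≤ w.re → X - H / 2 ≤ w.im → w.im ≤ X + 3 * H / 2 → w ∈ Z) →
    c * H * Real.log X ≤ ∑ u ∈ Z, (analyticOrderNatAt (F κ) u : ℝ) := by
  obtain ⟨J, hJ, c₂, hc₂, hwin⟩ := DirichletWindow.dirichlet_window
  obtain ⟨V₀, hV₀, hwin⟩ := hwin κ hκ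
  set θ : ℝ := min (1 / 16) (8 * κ ^ 2 / J ^ 2) with hθdef
  have hθ : 0 < θ := lt_min (by norm_num) (by positivity)
  have hθ16 : θ ≤ 1 / 16 := min_le_left _ _
  have hθJ : J ^ 2 * θ ≤ 8 * κ ^ 2 := by
    have : θ ≤ 8 * κ ^ 2 / J ^ 2 := min_le_right _ _
    rw [le_div_iff₀ (by positivity)] at this
    linarith
  obtain ⟨ε, hε, B₀, hfew⟩ := FewZeros.few_zeros θ (1 / 16) hθ (by linarith) (by norm_num)
  obtain ⟨Λ₀, hΛ₀⟩ := ev_Lam κ θ J V₀ B₀ hκ hθ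
  obtain ⟨X₀, hX₀⟩ := ev_X κ (Ek κ) J Λ₀
  refine ⟨ε * c₂ * θ ^ 2 / 16, X₀, by positivity, fun X hXX H hH1 hH2 Z hZ => ?_⟩
  obtain ⟨hx6, hQ16, hQE, hQJ, hκlog, hΛX⟩ := hX₀ X hXX
  have hXpos : 0 < X := (Real.exp_pos 6).trans_le hx6
  set s₀ : ℂ := 2 + Complex.I * X with hs₀
  set b : ℂ := bb s₀ with hb
  set Λ : ℝ := 2 * b.re with hΛ
  obtain ⟨hΛlo, hΛhi⟩ := Lam_bounds hx6
  rw [← hs₀, ← hb, ← hΛ] at hΛlo hΛhi
  obtain ⟨hκΛ3, hΛV, hΛB, hΛexp, hΛJ⟩ := hΛ₀ Λ (by linarith)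
  have hE := Ek_nonneg κ
  have hlogpos : 0 < Real.log X := by
    have : 6 ≤ Real.log X := by rw [Real.le_log_iff_exp_le hXpos]; exact hx6
    linarith
  have hΛpos : 0 < Λ := by linarith
  have hs₀re : 2 ≤ s₀.re := by rw [hs₀, s0_re]
  set Q : ℝ := X ^ (1 / 4 : ℝ) with hQ
  have hQpos : 0 < Q := by linarith
  have hQ4 : Q ^ 4 = X := by
    rw [hQ, ← Real.rpow_natCast, ← Real.rpow_mul hXpos.le]; norm_num
  have hQexp : Q = Real.exp (Real.log X * (1 / 4)) := Real.rpow_def_of_pos hXpos _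
  have hH10 : 10 * (κ * Λ) ≤ H := by
    have : 10 * κ * Λ ≤ 10 * κ * Real.log X := by gcongr
    linarith
  have hHpos : 0 < H := by nlinarith
  have hHQ : H ^ 2 ≤ Q ^ 2 := by gcongr
  have hHX : 256 * H ^ 2 ≤ X := by
    have h256 : (16 : ℝ) ^ 2 ≤ Q ^ 2 := by gcongr
    calc 256 * H ^ 2 ≤ Q ^ 2 * Q ^ 2 := by gcongr; linarith
      _ = X := by rw [← hQ4]; ring
  set δ : ℝ := 8 * Ek κ * H ^ 2 / X with hδ
  have hδ0 : 0 ≤ δ := by positivity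
  have hδQ : δ * Q ^ 2 ≤ 8 * Ek κ := by
    rw [hδ, ← hQ4, div_mul_eq_mul_div, div_le_iff₀ (by positivity)]
    calc 8 * Ek κ * H ^ 2 * Q ^ 2 ≤ 8 * Ek κ * Q ^ 2 * Q ^ 2 := by gcongr
      _ = 8 * Ek κ * Q ^ 4 := by ring
  have hδ10 : δ ≤ 1 / 10 := by
    have h1 : 80 * Ek κ ≤ Q ^ 2 := by nlinarith
    have h2 : δ * (Q ^ 2) ≤ (1 / 10) * Q ^ 2 := by linarith
    exact le_of_mul_le_mul_right h2 (by positivity)
  -- upper bound for `h`
  have hupper : ∀ w : ℂ, ∀ A : ℝ, 0 ≤ A → κ * Λ + 3 / 2 - A ≤ w.re → w.re ≤ 4 * (κ * Λ) →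
      X - 2 * (κ * Λ) ≤ w.im → w.im ≤ X + H + 2 * (κ * Λ) →
      ‖hX κ s₀ w‖ ≤ 3 * Real.exp (A ^ 2 / (4 * κ)) := by
    intro w A hA0 hA hw h1 h2
    have h3 := hX_near κ hκ hXpos.le hΛ hκΛ3 hH10 hHX hA hA0 hw h1 h2
    have h4 := norm_DX_le κ hκ b w (A := A) hA
    have h5 : ‖hX κ s₀ w‖ ≤ ‖hX κ s₀ w - DX κ b w‖ + ‖DX κ b w‖ := by
      have := norm_add_le (hX κ s₀ w - DX κ b w) (DX κ b w)
      rwa [sub_add_cancel] at this
    have h6 : Real.exp (A ^ 2 / (4 * κ)) * δ ≤ Real.exp (A ^ 2 / (4 * κ)) * 1 := by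
      gcongr; linarith
    have h7 : ‖hX κ s₀ w - DX κ b w‖ ≤ Real.exp (A ^ 2 / (4 * κ)) * δ := h3
    linarith
  have hlower : ∀ w : ℂ, κ * Λ + 3 / 2 ≤ w.re → w.re ≤ 4 * (κ * Λ) →
      X - 2 * (κ * Λ) ≤ w.im → w.im ≤ X + H + 2 * (κ * Λ) →
      1 / 4 ≤ ‖hX κ s₀ w‖ := by
    intro w hA hw h1 h2
    have h3 := hX_near κ hκ hXpos.le hΛ hκΛ3 hH10 hHX (A := 0) (by linarith) le_rfl hw h1 h2
    have h4 := norm_DX_ge κ hκ b w hA
    have h5 : ‖DX κ b w‖ ≤ ‖hX κ s₀ w‖ + ‖hX κ s₀ w - DX κ b w‖ := by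
      have := norm_sub_le (hX κ s₀ w) (hX κ s₀ w - DX κ b w)
      rwa [sub_sub_cancel] at this
    have h7 : ‖hX κ s₀ w - DX κ b w‖ ≤ Real.exp ((0 : ℝ) ^ 2 / (4 * κ)) * δ := h3
    rw [show (0 : ℝ) ^ 2 / (4 * κ) = 0 by ring, Real.exp_zero, one_mul] at h7
    linarith
  -- the window
  set V : ℝ := θ * Λ / 4 with hV
  set B : ℝ := θ ^ 2 * κ * Λ ^ 2 / 2 with hB
  have hVpos : 0 < V := by positivity
  have hVlog : V ≤ Real.log X / 64 := by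
    rw [hV]
    have : θ * Λ ≤ 1 / 16 * Real.log X := by gcongr
    linarith
  have hHV : Real.exp (10 * V) ≤ H := by
    refine le_trans ?_ hH1
    rw [Real.rpow_def_of_pos hXpos]
    apply Real.exp_le_exp.mpr
    linarith
  have hJV : J * V ≤ κ * Λ := by
    have h6 : (J * V) ^ 2 ≤ (κ * Λ) ^ 2 := by
      calc (J * V) ^ 2 = (J ^ 2 * θ) * (θ * Λ ^ 2) / 16 := by rw [hV]; ring
        _ ≤ (8 * κ ^ 2) * (1 * Λ ^ 2) / 16 := by gcongr; linarith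
        _ ≤ (κ * Λ) ^ 2 := by
            have : 0 ≤ κ ^ 2 * Λ ^ 2 := by positivity
            nlinarith
    exact (sq_le_sq₀ (by positivity) (by positivity)).mp h6
  have hVexp : V ≤ Real.exp V := by have := Real.add_one_le_exp V; linarith
  have hVQ : Real.exp (3 / 2 * V) * V ≤ Q := by
    calc Real.exp (3 / 2 * V) * V ≤ Real.exp (3 / 2 * V) * Real.exp V := by gcongr
      _ = Real.exp (5 / 2 * V) := by rw [← Real.exp_add]; congr 1; ring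
      _ ≤ Q := by
          rw [hQexp]; apply Real.exp_le_exp.mpr; linarith
  obtain ⟨S, hSm, hSsub, hSvol, hS⟩ := hwin V hΛV H hHV X (uu κ b) (norm_uu κ b)
  set R : ℝ := (1 + 7 * θ / 8) * (κ * Λ) with hR
  have hRpos : 0 < R := by positivity
  have hR2 : R ≤ 2 * (κ * Λ) := by rw [hR]; gcongr; linarith
  -- main pointwise estimate
  have hmain : ∀ x ∈ S, ε * B ≤ ∑ u ∈ Z, (Icc (u.im - R) (u.im + R)).indicator
      (fun _ => (analyticOrderNatAt (F κ) u : ℝ)) x := by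
    intro x hx
    have hx1 : X ≤ x := (hSsub hx).1
    have hx2 : x ≤ X + H := (hSsub hx).2
    set wc : ℂ := ((2 * (κ * Λ) : ℝ) : ℂ) + x * Complex.I with hwc
    have hwcre : wc.re = 2 * (κ * Λ) := by simp [hwc]
    have hwcim : wc.im = x := by simp [hwc]
    have hball : ∀ w : ℂ, ∀ ρ : ℝ, w ∈ closedBall wc ρ →
        2 * (κ * Λ) - ρ ≤ w.re ∧ w.re ≤ 2 * (κ * Λ) + ρ ∧ x - ρ ≤ w.im ∧ w.im ≤ x + ρ := by
      intro w ρ hw
      rw [mem_closedBall, dist_eq_norm] at hw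
      have h1 := (Complex.abs_re_le_norm (w - wc)).trans hw
      have h2 := (Complex.abs_im_le_norm (w - wc)).trans hw
      rw [Complex.sub_re, hwcre, abs_le] at h1
      rw [Complex.sub_im, hwcim, abs_le] at h2
      exact ⟨by linarith, by linarith, by linarith, by linarith⟩
    have hfew' := hfew B hΛB (hX κ s₀) wc (κ * Λ) (by linarith) (hX_differentiable κ hκ hs₀re)
      (by
        intro w hw
        obtain ⟨h1, h2, h3, h4⟩ := hball w _ hw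
        have hρ : (1 + θ) * (κ * Λ) ≤ 2 * (κ * Λ) := by gcongr; linarith
        refine (hupper w (θ * (κ * Λ) + 3 / 2) (by positivity) (by linarith) (by linarith) (by linarith)
          (by linarith)).trans hΛexp)
      (by
        intro w hw
        obtain ⟨h1, h2, h3, h4⟩ := hball w _ hw
        have := hupper w 0 le_rfl (by linarith) (by linarith) (by linarith) (by linarith)
        rwa [show (0 : ℝ) ^ 2 / (4 * κ) = 0 by ring, Real.exp_zero, mul_one] at this)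
      (by
        intro w hw h0
        obtain ⟨h1, h2, h3, h4⟩ := hball w _ hw
        have := hlower w (by linarith) (by linarith) (by linarith) (by linarith)
        rw [h0, norm_zero] at this
        linarith)
      (hlower wc (by rw [hwcre]; linarith) (by rw [hwcre]; linarith) (by rw [hwcim]; linarith)
        (by rw [hwcim]; linarith))
      (by
        obtain ⟨y, hy, hyn⟩ := hS x hx
        have hy1 := hy.1
        have hy2 := hy.2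
        refine ⟨((κ * (2 * b.re) - 2 * κ * V : ℝ) : ℂ) + y * Complex.I, ?_, ?_⟩
        · exact good_mem κ b (by positivity) hΛ hV hθ hθJ hy
        · have hg := good_norm κ hκ (Q := Q) hXpos hΛ hκΛ3 hH10 hHX hJ hVpos (y := y) (by linarith) (by linarith)
            hQpos hVQ hδQ hQJ hΛJ hyn
          refine le_trans (le_of_eq ?_) hg
          congr 1
          rw [hB, hV]; ring)
      Z
      (by
        intro w hw h0
        obtain ⟨h1, h2, h3, h4⟩ := hball w _ hw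
        have hρ : (1 + 7 * θ / 8) * (κ * Λ) ≤ 2 * (κ * Λ) := hR2
        refine hZ w ((hX_eq_zero_iff κ hs₀re w).mp h0) ?_ (by linarith) (by linarith)
        nlinarith)
    refine hfew'.trans (Finset.sum_le_sum fun u _ => ?_)
    by_cases hu : u ∈ closedBall wc R
    · have hux : x ∈ Icc (u.im - R) (u.im + R) := by
        obtain ⟨h1, h2, h3, h4⟩ := hball u _ hu
        exact ⟨by linarith, by linarith⟩
      rw [indicator_of_mem hu, indicator_of_mem hux, hX_order κ hκ hs₀re]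
    · rw [indicator_of_notMem hu]
      exact indicator_nonneg (fun _ _ => Nat.cast_nonneg _) _
  have hdc := double_count S hSm Z (fun u => (analyticOrderNatAt (F κ) u : ℝ)) (fun u => Nat.cast_nonneg _)
    R (ε * B) (c₂ * H) hRpos.le (by positivity) (by positivity) hSvol hmain
  set Sg : ℝ := ∑ u ∈ Z, (analyticOrderNatAt (F κ) u : ℝ) with hSg
  have hSg0 : 0 ≤ Sg := Finset.sum_nonneg fun u _ => Nat.cast_nonneg _
  have h1 : ε * B * (c₂ * H) ≤ 4 * (κ * Λ) * Sg := by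
    exact hdc.trans (mul_le_mul_of_nonneg_right (by linarith) hSg0)
  have h2 : (ε * c₂ * θ ^ 2 / 8 * H * Λ) * (4 * (κ * Λ)) ≤ Sg * (4 * (κ * Λ)) := by
    calc (ε * c₂ * θ ^ 2 / 8 * H * Λ) * (4 * (κ * Λ)) = ε * B * (c₂ * H) := by rw [hB]; ring
      _ ≤ _ := by rw [mul_comm Sg]; exact h1
  have h3 := le_of_mul_le_mul_right h2 (by positivity)
  have h4 : ε * c₂ * θ ^ 2 / 16 * H * Real.log X = ε * c₂ * θ ^ 2 / 8 * H * (1 / 2 * Real.log X) := by ring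
  rw [h4]
  refine le_trans ?_ h3
  gcongr

end Pool.Agent.XiDeform
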