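import Pool.Agent.Lib.MP_023270_nt.Count

/-! The normalised function near height `X`. -/

open MeasureTheory Filter Topology Set

namespace Pool.Agent.XiDeform

/-- the local Dirichlet series. -/
noncomputable def DX (κ : ℝ) (b : ℂ) (w : ℂ) : ℂ :=
  ∑' n, Complex.exp (-(w + 1 / 2) * ln n + 2 * κ * b * ln n - κ * (ln n : ℂ) ^ 2)

/-- the local normaliser. -/
noncomputable def Mx (κ : ℝ) (s₀ w : ℂ) : ℂ :=
  g s₀ * Complex.exp ((w + 1 / 2 - s₀) * bb s₀ - κ * bb s₀ ^ 2)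

lemma Mx_ne_zero (κ : ℝ) {s₀ : ℂ} (hs₀ : 2 ≤ s₀.re) (w : ℂ) : Mx κ s₀ w ≠ 0 :=
  mul_ne_zero (g_ne_zero hs₀) (Complex.exp_ne_zero _)

lemma mt_identity (κ : ℝ) (hκ : 0 < κ) (s₀ s b : ℂ) (a : ℝ) (n : ℕ) :
    Complex.exp ((s - s₀) * b) * Complex.exp ((a : ℂ) ^ 2 / (4 * κ)) * mt κ b a s n
      = Complex.exp (((s - 1 / 2 + a) + 1 / 2 - s₀) * b - κ * b ^ 2)
        * Complex.exp (-((s - 1 / 2 + a) + 1 / 2) * ln n + 2 * κ * b * ln n - κ * (ln n : ℂ) ^ 2) := by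
  have hκ' : (κ : ℂ) ≠ 0 := by exact_mod_cast hκ.ne'
  unfold mt
  rw [← Complex.exp_add, ← Complex.exp_add, ← Complex.exp_add, ← Complex.exp_add]
  congr 1
  field_simp
  ring

lemma norm_Mx_relation (κ : ℝ) (hκ : 0 < κ) (s₀ s : ℂ) (a : ℝ) :
    ‖g s₀ * Complex.exp ((s - s₀) * bb s₀)‖ * Real.exp (a ^ 2 / (4 * κ))
      ≤ ‖Mx κ s₀ (s - 1 / 2 + a)‖ * Real.exp ((a - κ * (2 * (bb s₀).re)) ^ 2 / (4 * κ)) := by
  unfold Mx
  rw [norm_mul, norm_mul, mul_assoc, mul_assoc]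
  apply mul_le_mul_of_nonneg_left _ (norm_nonneg _)
  rw [Complex.norm_exp, Complex.norm_exp, ← Real.exp_add, ← Real.exp_add]
  apply Real.exp_le_exp.mpr
  have e : ((s - 1 / 2 + a + 1 / 2 - s₀) * bb s₀ - κ * bb s₀ ^ 2).re
      = ((s - s₀) * bb s₀).re + a * (bb s₀).re - κ * ((bb s₀).re ^ 2 - (bb s₀).im ^ 2) := by
    have : (s - 1 / 2 + a + 1 / 2 - s₀) * bb s₀ - κ * bb s₀ ^ 2
        = (s - s₀) * bb s₀ + (a : ℂ) * bb s₀ - (κ : ℂ) * (bb s₀ * bb s₀) := by ring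
    rw [this, Complex.sub_re, Complex.add_re, Complex.re_ofReal_mul, Complex.re_ofReal_mul,
      Complex.mul_re (bb s₀) (bb s₀)]
    ring
  rw [e]
  have h1 : (a - κ * (2 * (bb s₀).re)) ^ 2 / (4 * κ) = a ^ 2 / (4 * κ) - a * (bb s₀).re + κ * (bb s₀).re ^ 2 := by
    field_simp; ring
  rw [h1]
  have h2 : 0 ≤ κ * (bb s₀).im ^ 2 := by positivity
  linarith

/-- the normalised function -/
noncomputable def hX (κ : ℝ) (s₀ w : ℂ) : ℂ := F κ w / Mx κ s₀ w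

lemma hX_differentiable (κ : ℝ) (hκ : 0 < κ) {s₀ : ℂ} (hs₀ : 2 ≤ s₀.re) : Differentiable ℂ (hX κ s₀) := by
  intro w
  refine (differentiable_F κ hκ w).div ?_ (Mx_ne_zero κ hs₀ w)
  unfold Mx
  fun_prop

lemma hX_order (κ : ℝ) (hκ : 0 < κ) {s₀ : ℂ} (hs₀ : 2 ≤ s₀.re) (u : ℂ) :
    analyticOrderNatAt (hX κ s₀) u = analyticOrderNatAt (F κ) u := by
  have hM : Differentiable ℂ (fun w => (Mx κ s₀ w)⁻¹) := by
    intro w
    have : DifferentiableAt ℂ (fun w => Mx κ s₀ w) w := by unfold Mx; fun_prop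
    exact this.inv (Mx_ne_zero κ hs₀ w)
  have e : hX κ s₀ = (F κ) * (fun w => (Mx κ s₀ w)⁻¹) := by
    ext w; simp [hX, div_eq_mul_inv]
  have h0 : analyticOrderAt (fun w => (Mx κ s₀ w)⁻¹) u = 0 := by
    rw [(hM.analyticAt u).analyticOrderAt_eq_zero]
    exact inv_ne_zero (Mx_ne_zero κ hs₀ u)
  unfold analyticOrderNatAt
  rw [e, analyticOrderAt_mul ((differentiable_F κ hκ).analyticAt u) (hM.analyticAt u), h0, add_zero]

lemma hX_eq_zero_iff (κ : ℝ) {s₀ : ℂ} (hs₀ : 2 ≤ s₀.re) (w : ℂ) : hX κ s₀ w = 0 ↔ F κ w = 0 := by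
  unfold hX
  rw [div_eq_zero_iff]
  constructor
  · rintro (h | h)
    · exact h
    · exact absurd h (Mx_ne_zero κ hs₀ w)
  · exact Or.inl

theorem hX_approx (κ : ℝ) (hκ : 0 < κ) {s₀ : ℂ} (hs₀ : 2 ≤ s₀.re) {K : ℝ} (hK : 1 ≤ K)
    (hK2 : 64 * K ^ 2 ≤ ‖s₀‖) (w : ℂ) (a : ℝ) (hs : 2 ≤ (w + 1 / 2 - a).re) (hsK : ‖w + 1 / 2 - a - s₀‖ ≤ K) :
    ‖hX κ s₀ w - DX κ (bb s₀) w‖
      ≤ 2 * Ek κ * Real.exp ((a - κ * (2 * (bb s₀).re)) ^ 2 / (4 * κ)) * K ^ 2 / ‖s₀‖ := by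
  set s := w + 1 / 2 - a with hsdef
  have hw : w = s - 1 / 2 + a := by rw [hsdef]; ring
  have h := F_approx κ hκ hs₀ hs hK hsK hK2 a
  rw [← hw] at h
  have hMn : 0 < ‖Mx κ s₀ w‖ := norm_pos_iff.mpr (Mx_ne_zero κ hs₀ w)
  have hn0 : 0 < ‖s₀‖ := by nlinarith
  have e : g s₀ * Complex.exp ((s - s₀) * bb s₀) * Complex.exp ((a : ℂ) ^ 2 / (4 * κ)) * ∑' n, mt κ (bb s₀) a s n
      = Mx κ s₀ w * DX κ (bb s₀) w := by
    rw [mul_assoc, mul_assoc, ← mul_assoc (Complex.exp ((s - s₀) * bb s₀)), ← tsum_mul_left]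
    simp_rw [mt_identity κ hκ s₀ s (bb s₀) a]
    rw [tsum_mul_left, ← hw]
    unfold Mx DX
    ring
  rw [e] at h
  have e2 : hX κ s₀ w - DX κ (bb s₀) w = (F κ w - Mx κ s₀ w * DX κ (bb s₀) w) / Mx κ s₀ w := by
    unfold hX
    have := Mx_ne_zero κ hs₀ w
    field_simp
  rw [e2, norm_div, div_le_iff₀ hMn]
  refine h.trans ?_
  have hrel := norm_Mx_relation κ hκ s₀ s a
  rw [← hw] at hrel
  have hE := Ek_nonneg κ
  calc 2 * Ek κ * ‖g s₀ * Complex.exp ((s - s₀) * bb s₀)‖ * Real.exp (a ^ 2 / (4 * κ)) * K ^ 2 / ‖s₀‖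
      = (2 * Ek κ * K ^ 2 / ‖s₀‖) * (‖g s₀ * Complex.exp ((s - s₀) * bb s₀)‖ * Real.exp (a ^ 2 / (4 * κ))) := by ring
    _ ≤ (2 * Ek κ * K ^ 2 / ‖s₀‖) * (‖Mx κ s₀ w‖ * Real.exp ((a - κ * (2 * (bb s₀).re)) ^ 2 / (4 * κ))) := by gcongr
    _ = _ := by ring

lemma norm_DX_term (κ : ℝ) (b w : ℂ) (n : ℕ) :
    ‖Complex.exp (-(w + 1 / 2) * ln n + 2 * κ * b * ln n - κ * (ln n : ℂ) ^ 2)‖
      = Real.exp (-(w.re + 1 / 2) * ln n + κ * (2 * b.re) * ln n - κ * (ln n) ^ 2) := by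
  rw [Complex.norm_exp]
  congr 1
  have e : -(w + 1 / 2) * ln n + 2 * κ * b * ln n - κ * (ln n : ℂ) ^ 2
      = -(w + 1 / 2) * ln n + ((2 * κ : ℝ) : ℂ) * b * ln n - ((κ * (ln n) ^ 2 : ℝ) : ℂ) := by
    push_cast; ring
  rw [e, Complex.sub_re, Complex.add_re, Complex.ofReal_re, Complex.re_mul_ofReal, Complex.re_mul_ofReal,
    Complex.re_ofReal_mul, Complex.neg_re, Complex.add_re]
  have e2 : ((1 : ℂ) / 2).re = 1 / 2 := by norm_num
  rw [e2]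
  ring

lemma DX_term_le (κ : ℝ) (hκ : 0 < κ) (b w : ℂ) {A : ℝ} (hA : κ * (2 * b.re) + 3 / 2 - A ≤ w.re) (n : ℕ) :
    ‖Complex.exp (-(w + 1 / 2) * ln n + 2 * κ * b * ln n - κ * (ln n : ℂ) ^ 2)‖
      ≤ Real.exp (A ^ 2 / (4 * κ)) * (1 / ((n : ℝ) + 1) ^ 2) := by
  rw [norm_DX_term]
  have hl : (1 : ℝ) / ((n : ℝ) + 1) ^ 2 = Real.exp (-2 * ln n) := by
    have : ((n : ℝ) + 1) = Real.exp (ln n) := (exp_ln n).symm
    rw [this, ← Real.exp_nat_mul, one_div, ← Real.exp_neg]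
    congr 1; push_cast; ring
  rw [hl, ← Real.exp_add]
  apply Real.exp_le_exp.mpr
  have hL := ln_nonneg n
  set L := ln n
  have h1 : (κ * (2 * b.re) + 3 / 2 - A) * L ≤ w.re * L := by gcongr
  have h2 : A * L - κ * L ^ 2 ≤ A ^ 2 / (4 * κ) := by
    have : A ^ 2 / (4 * κ) - (A * L - κ * L ^ 2) = (2 * κ * L - A) ^ 2 / (4 * κ) := by field_simp; ring
    have h3 : 0 ≤ (2 * κ * L - A) ^ 2 / (4 * κ) := by positivity
    linarith
  linarith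

lemma norm_DX_le (κ : ℝ) (hκ : 0 < κ) (b w : ℂ) {A : ℝ} (hA : κ * (2 * b.re) + 3 / 2 - A ≤ w.re) :
    ‖DX κ b w‖ ≤ 2 * Real.exp (A ^ 2 / (4 * κ)) := by
  unfold DX
  refine (tsum_of_norm_bounded (summable_inv_sq.hasSum.mul_left _) (DX_term_le κ hκ b w hA)).trans ?_
  calc _ ≤ Real.exp (A ^ 2 / (4 * κ)) * 2 := by
        gcongr; exact tsum_inv_sq_le
    _ = _ := by ring

lemma norm_DX_ge (κ : ℝ) (hκ : 0 < κ) (b w : ℂ) (hw : κ * (2 * b.re) + 3 / 2 ≤ w.re) :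
    7 / 20 ≤ ‖DX κ b w‖ := by
  have hsum : Summable (fun n : ℕ => Complex.exp (-(w + 1 / 2) * ln n + 2 * κ * b * ln n - κ * (ln n : ℂ) ^ 2)) := by
    apply Summable.of_norm
    exact Summable.of_nonneg_of_le (fun n => norm_nonneg _) (DX_term_le κ hκ b w (A := 0) (by linarith))
      (summable_inv_sq.mul_left _)
  unfold DX
  rw [hsum.tsum_eq_zero_add]
  have e0 : Complex.exp (-(w + 1 / 2) * ln 0 + 2 * κ * b * ln 0 - κ * (ln 0 : ℂ) ^ 2) = 1 := by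
    simp [ln]
  rw [e0]
  have htail : ‖∑' n : ℕ, Complex.exp (-(w + 1 / 2) * ln (n + 1) + 2 * κ * b * ln (n + 1) - κ * (ln (n + 1) : ℂ) ^ 2)‖
      ≤ 13 / 20 := by
    refine (tsum_of_norm_bounded summable_inv_sq2.hasSum (fun n => ?_)).trans tsum_inv_sq_tail
    have := DX_term_le κ hκ b w (A := 0) (by linarith) (n + 1)
    refine this.trans (le_of_eq ?_)
    simp only [ne_eq, OfNat.ofNat_ne_zero, not_false_eq_true, zero_pow, zero_div, Real.exp_zero, one_mul]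
    push_cast
    congr 2
    ring
  have h5 := norm_sub_norm_le (1 : ℂ) (-(∑' n : ℕ, Complex.exp (-(w + 1 / 2) * ln (n + 1) + 2 * κ * b * ln (n + 1) - κ * (ln (n + 1) : ℂ) ^ 2)))
  rw [sub_neg_eq_add, norm_neg, norm_one] at h5
  linarith

/-- double counting -/
lemma double_count (S : Set ℝ) (hS : MeasurableSet S) (Z : Finset ℂ) (m : ℂ → ℝ) (hm : ∀ u, 0 ≤ m u)
    (R E v : ℝ) (hR : 0 ≤ R) (hE : 0 ≤ E) (hv : 0 ≤ v) (hvol : ENNReal.ofReal v ≤ volume S)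
    (h : ∀ x ∈ S, E ≤ ∑ u ∈ Z, (Icc (u.im - R) (u.im + R)).indicator (fun _ => m u) x) :
    E * v ≤ 2 * R * ∑ u ∈ Z, m u := by
  have h1 : ENNReal.ofReal E * volume S ≤ ∑ u ∈ Z, ENNReal.ofReal (m u) * ENNReal.ofReal (2 * R) := by
    calc ENNReal.ofReal E * volume S = ∫⁻ x in S, ENNReal.ofReal E := by
          rw [setLIntegral_const]
      _ ≤ ∫⁻ x in S, ∑ u ∈ Z, (Icc (u.im - R) (u.im + R)).indicator (fun _ => ENNReal.ofReal (m u)) x := by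
          refine setLIntegral_mono' hS fun x hx => ?_
          refine (ENNReal.ofReal_le_ofReal (h x hx)).trans (le_of_eq ?_)
          rw [ENNReal.ofReal_sum_of_nonneg (fun u _ => indicator_nonneg (fun _ _ => hm u) _)]
          refine Finset.sum_congr rfl fun u _ => ?_
          by_cases hxu : x ∈ Icc (u.im - R) (u.im + R)
          · rw [indicator_of_mem hxu, indicator_of_mem hxu]
          · rw [indicator_of_notMem hxu, indicator_of_notMem hxu, ENNReal.ofReal_zero]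
      _ ≤ ∫⁻ x, ∑ u ∈ Z, (Icc (u.im - R) (u.im + R)).indicator (fun _ => ENNReal.ofReal (m u)) x :=
          setLIntegral_le_lintegral _ _
      _ = ∑ u ∈ Z, ∫⁻ x, (Icc (u.im - R) (u.im + R)).indicator (fun _ => ENNReal.ofReal (m u)) x := by
          rw [lintegral_finsetSum]
          intro u _
          exact measurable_const.indicator measurableSet_Icc
      _ = ∑ u ∈ Z, ENNReal.ofReal (m u) * ENNReal.ofReal (2 * R) := by
          refine Finset.sum_congr rfl fun u _ => ?_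
          rw [lintegral_indicator measurableSet_Icc, setLIntegral_const, Real.volume_Icc]
          congr 2; ring
  have h2 : ENNReal.ofReal (E * v) ≤ ENNReal.ofReal (2 * R * ∑ u ∈ Z, m u) := by
    rw [ENNReal.ofReal_mul hE]
    calc ENNReal.ofReal E * ENNReal.ofReal v ≤ ENNReal.ofReal E * volume S := by gcongr
      _ ≤ ∑ u ∈ Z, ENNReal.ofReal (m u) * ENNReal.ofReal (2 * R) := h1
      _ = ENNReal.ofReal (2 * R * ∑ u ∈ Z, m u) := by
          rw [ENNReal.ofReal_mul (p := 2 * R) (by linarith), ENNReal.ofReal_sum_of_nonneg (fun u _ => hm u),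
            ← Finset.sum_mul, mul_comm]
  exact (ENNReal.ofReal_le_ofReal_iff (by
    have : 0 ≤ ∑ u ∈ Z, m u := Finset.sum_nonneg fun u _ => hm u
    positivity)).mp h2

end Pool.Agent.XiDeform
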