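import Pool.Agent.Lib.MP_023270_nt.GLin

/-! The master approximation formula. -/

open MeasureTheory Filter Topology Set

namespace Pool.Agent.XiDeform

lemma integrable_gauss_exp_abs (κ : ℝ) (hκ : 0 < κ) (B : ℝ) :
    Integrable (fun v : ℝ => Real.exp (-(1 / (4 * κ)) * v ^ 2) * Real.exp (B * |v|)) := by
  have key : ∀ c : ℝ, Integrable (fun v : ℝ => Real.exp (-(1 / (4 * κ)) * v ^ 2) * Real.exp (c * v)) := by
    intro c
    have hb : ((-(1 / (4 * κ)) : ℝ) : ℂ).re < 0 := by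
      rw [Complex.ofReal_re]; have : 0 < 1 / (4 * κ) := by positivity
      linarith
    have h := (integrable_cexp_quadratic' hb (c : ℂ) 0).norm
    refine h.congr (Eventually.of_forall fun v => ?_)
    simp only
    rw [Complex.norm_exp, ← Real.exp_add]
    congr 1
    have : ((-(1 / (4 * κ)) : ℝ) : ℂ) * (v : ℂ) ^ 2 + (c : ℂ) * v + 0
        = ((-(1 / (4 * κ)) * v ^ 2 + c * v : ℝ) : ℂ) := by push_cast; ring
    rw [this, Complex.ofReal_re]
  refine ((key B).add (key (-B))).mono' (by fun_prop) (Eventually.of_forall fun v => ?_)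
  rw [Real.norm_eq_abs, abs_of_pos (by positivity)]
  simp only [Pi.add_apply]
  rcases le_total 0 v with h | h
  · rw [abs_of_nonneg h]
    have : 0 < Real.exp (-(1 / (4 * κ)) * v ^ 2) * Real.exp (-B * v) := by positivity
    linarith
  · rw [abs_of_nonpos h, show B * -v = -B * v by ring]
    have : 0 < Real.exp (-(1 / (4 * κ)) * v ^ 2) * Real.exp (B * v) := by positivity
    linarith

/-- the error constant -/
noncomputable def Ek (κ : ℝ) : ℝ :=
  384 / (2 * Real.sqrt (Real.pi * κ)) * ∫ v : ℝ, Real.exp (-(1 / (4 * κ)) * v ^ 2) * Real.exp (7 * |v|)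

lemma Ek_nonneg (κ : ℝ) : 0 ≤ Ek κ := by
  unfold Ek
  apply mul_nonneg (by positivity)
  exact integral_nonneg fun v => by positivity

lemma norm_pref (κ : ℝ) : ‖(1 / (2 * Real.sqrt (Real.pi * κ)) : ℂ)‖ = 1 / (2 * Real.sqrt (Real.pi * κ)) := by
  have : (1 / (2 * Real.sqrt (Real.pi * κ)) : ℂ) = ((1 / (2 * Real.sqrt (Real.pi * κ)) : ℝ) : ℂ) := by
    push_cast; rfl
  rw [this, Complex.norm_real, Real.norm_eq_abs, abs_of_nonneg (by positivity)]

lemma one_add_sq_le (v : ℝ) : 1 + v ^ 2 ≤ 2 * Real.exp |v| := by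
  have h := Real.quadratic_le_exp_of_nonneg (abs_nonneg v)
  rw [sq_abs] at h
  have := abs_nonneg v
  linarith

lemma norm_exp_ln (n : ℕ) (s : ℂ) : ‖Complex.exp (-s * ln n)‖ = Real.exp (-s.re * ln n) := by
  rw [Complex.norm_exp]
  congr 1
  rw [Complex.re_mul_ofReal, Complex.neg_re]

lemma norm_exp_ln_le (n : ℕ) {s : ℂ} (hs : 2 ≤ s.re) : ‖Complex.exp (-s * ln n)‖ ≤ 1 / ((n : ℝ) + 1) ^ 2 := by
  rw [norm_exp_ln]
  have : (1 : ℝ) / ((n : ℝ) + 1) ^ 2 = Real.exp (-(2 : ℕ) * ln n) := by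
    rw [neg_mul, Real.exp_neg, Real.exp_nat_mul, exp_ln]; simp
  rw [this]
  apply Real.exp_le_exp.mpr
  have := ln_nonneg n
  push_cast
  nlinarith

lemma integrable_T_v (κ : ℝ) (hκ : 0 < κ) (n : ℕ) (s : ℂ) (hs : 2 ≤ s.re) (a : ℝ) :
    Integrable (fun v : ℝ => gw κ a v * (Complex.exp (-(s + Complex.I * v) * ln n) * g (s + Complex.I * v))) := by
  have hb := (integrable_gauss_exp_abs κ hκ 6).const_mul (Real.exp (a ^ 2 / (4 * κ)) * (Real.exp (-s.re * ln n) * ‖g s‖))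
  refine hb.mono' ?_ (Eventually.of_forall fun v => ?_)
  · -- measurability: continuity of g on the vertical line
    apply Continuous.aestronglyMeasurable
    have h1 := gw_continuous κ a
    have h2 : Continuous (fun v : ℝ => g (s + Complex.I * v)) := by
      unfold g
      have h3 : Continuous (fun v : ℝ => Complex.Gamma ((s + Complex.I * v) / 2)) := by
        rw [continuous_iff_continuousAt]
        intro v
        have h4 : ContinuousAt Complex.Gamma ((s + Complex.I * v) / 2) := by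
          apply Complex.continuousAt_Gamma
          intro m h
          have := congrArg Complex.re h
          simp at this
          have : (0:ℝ) ≤ m := Nat.cast_nonneg m
          linarith
        exact h4.comp (f := fun v : ℝ => (s + Complex.I * v) / 2) (by fun_prop)
      fun_prop
    fun_prop
  · rw [norm_mul, norm_mul, norm_gw κ a v hκ, norm_exp_ln]
    have hre : (s + Complex.I * v).re = s.re := by simp
    rw [hre]
    have := g_vert_le hs v
    calc Real.exp (a ^ 2 / (4 * κ)) * Real.exp (-(1 / (4 * κ)) * v ^ 2) *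
          (Real.exp (-s.re * ln n) * ‖g (s + Complex.I * v)‖)
        ≤ Real.exp (a ^ 2 / (4 * κ)) * Real.exp (-(1 / (4 * κ)) * v ^ 2) *
          (Real.exp (-s.re * ln n) * (‖g s‖ * Real.exp (6 * |v|))) := by gcongr
      _ = _ := by ring

/-- the single-term approximation -/
theorem T_approx (κ : ℝ) (hκ : 0 < κ) (n : ℕ) {s₀ s : ℂ} {K : ℝ} (hs₀ : 2 ≤ s₀.re) (hs : 2 ≤ s.re)
    (hK : 1 ≤ K) (hsK : ‖s - s₀‖ ≤ K) (hK2 : 64 * K ^ 2 ≤ ‖s₀‖) (a : ℝ) :
    ‖T κ n (s - 1 / 2 + a) - g s₀ * Complex.exp ((s - s₀) * bb s₀) * Complex.exp ((a : ℂ) ^ 2 / (4 * κ))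
        * (Complex.exp (-s * ln n) * Complex.exp (-κ * (bb s₀ - ln n - a / (2 * κ)) ^ 2))‖
      ≤ Ek κ * ‖g s₀ * Complex.exp ((s - s₀) * bb s₀)‖ * Real.exp (a ^ 2 / (4 * κ)) * K ^ 2 / ‖s₀‖
        * (1 / ((n : ℝ) + 1) ^ 2) := by
  have hn : 64 ≤ ‖s₀‖ := by nlinarith
  have hn0 : 0 < ‖s₀‖ := by linarith
  have hsqrt : 0 < Real.sqrt (Real.pi * κ) := Real.sqrt_pos.mpr (by positivity)
  set A := g s₀ * Complex.exp ((s - s₀) * bb s₀) with hA
  -- main term as an integral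
  have hmain : A * Complex.exp ((a : ℂ) ^ 2 / (4 * κ))
        * (Complex.exp (-s * ln n) * Complex.exp (-κ * (bb s₀ - ln n - a / (2 * κ)) ^ 2))
      = (1 / (2 * Real.sqrt (Real.pi * κ)) : ℂ) * ∫ v : ℝ, gw κ a v *
        (Complex.exp (-(s + Complex.I * v) * ln n)
          * (g s₀ * Complex.exp ((s - s₀ + Complex.I * v) * bb s₀))) := by
    have e : ∀ v : ℝ, gw κ a v * (Complex.exp (-(s + Complex.I * v) * ln n)
          * (g s₀ * Complex.exp ((s - s₀ + Complex.I * v) * bb s₀)))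
        = (A * Complex.exp (-s * ln n)) * (gw κ a v * Complex.exp (Complex.I * v * (bb s₀ - ln n))) := by
      intro v
      have e1 : Complex.exp (-(s + Complex.I * v) * ln n) = Complex.exp (-s * ln n) * Complex.exp (-(Complex.I * v * ln n)) := by
        rw [← Complex.exp_add]; congr 1; ring
      have e2 : Complex.exp ((s - s₀ + Complex.I * v) * bb s₀) = Complex.exp ((s - s₀) * bb s₀) * Complex.exp (Complex.I * v * bb s₀) := by
        rw [← Complex.exp_add]; congr 1; ring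
      have e3 : Complex.exp (Complex.I * v * (bb s₀ - ln n)) = Complex.exp (Complex.I * v * bb s₀) * Complex.exp (-(Complex.I * v * ln n)) := by
        rw [← Complex.exp_add]; congr 1; ring
      rw [e1, e2, e3, hA]; ring
    simp_rw [e]
    rw [integral_const_mul, gauss_identity κ hκ a (bb s₀ - ln n)]
    have : ((Real.sqrt (Real.pi * κ) : ℝ) : ℂ) ≠ 0 := by exact_mod_cast hsqrt.ne'
    field_simp
  rw [hmain, T_eq κ hκ n s (by linarith) a, ← mul_sub]
  have hint1 := integrable_T_v κ hκ n s hs a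
  have hbound : ∀ v : ℝ, ‖gw κ a v * (Complex.exp (-(s + Complex.I * v) * ln n) * g (s + Complex.I * v))
      - gw κ a v * (Complex.exp (-(s + Complex.I * v) * ln n)
          * (g s₀ * Complex.exp ((s - s₀ + Complex.I * v) * bb s₀)))‖
      ≤ (384 * ‖A‖ * Real.exp (a ^ 2 / (4 * κ)) * K ^ 2 / ‖s₀‖ * (1 / ((n : ℝ) + 1) ^ 2))
        * (Real.exp (-(1 / (4 * κ)) * v ^ 2) * Real.exp (7 * |v|)) := by
    intro v
    rw [← mul_sub, ← mul_sub, norm_mul, norm_mul, norm_gw κ a v hκ]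
    have h1 := g_lin_all hs₀ hs hK hsK hK2 v
    have h2 : ‖Complex.exp (-(s + Complex.I * v) * ln n)‖ ≤ 1 / ((n : ℝ) + 1) ^ 2 :=
      norm_exp_ln_le n (by simpa using hs)
    have h3 : K ^ 2 + v ^ 2 ≤ K ^ 2 * (2 * Real.exp |v|) := by
      have h4 := one_add_sq_le v
      have hK1 : 1 ≤ K ^ 2 := by nlinarith
      calc K ^ 2 + v ^ 2 ≤ K ^ 2 + K ^ 2 * v ^ 2 := by nlinarith [sq_nonneg v]
        _ = K ^ 2 * (1 + v ^ 2) := by ring
        _ ≤ K ^ 2 * (2 * Real.exp |v|) := by gcongr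
    rw [← hA] at h1
    calc Real.exp (a ^ 2 / (4 * κ)) * Real.exp (-(1 / (4 * κ)) * v ^ 2) *
          (‖Complex.exp (-(s + Complex.I * v) * ln n)‖ *
            ‖g (s + Complex.I * v) - g s₀ * Complex.exp ((s - s₀ + Complex.I * v) * bb s₀)‖)
        ≤ Real.exp (a ^ 2 / (4 * κ)) * Real.exp (-(1 / (4 * κ)) * v ^ 2) *
          ((1 / ((n : ℝ) + 1) ^ 2) *
            (192 * ‖A‖ * (K ^ 2 * (2 * Real.exp |v|)) * Real.exp (6 * |v|) / ‖s₀‖)) := by
          gcongr
          exact h1.trans (by gcongr)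
      _ = _ := by
          rw [show 7 * |v| = |v| + 6 * |v| by ring, Real.exp_add]
          ring
  have hint2 : Integrable (fun v : ℝ => gw κ a v * (Complex.exp (-(s + Complex.I * v) * ln n)
          * (g s₀ * Complex.exp ((s - s₀ + Complex.I * v) * bb s₀)))) := by
    have hd := ((integrable_gauss_exp_abs κ hκ 7).const_mul
      (384 * ‖A‖ * Real.exp (a ^ 2 / (4 * κ)) * K ^ 2 / ‖s₀‖ * (1 / ((n : ℝ) + 1) ^ 2)))
    have hdiff : Integrable (fun v : ℝ => gw κ a v * (Complex.exp (-(s + Complex.I * v) * ln n) * g (s + Complex.I * v))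
      - gw κ a v * (Complex.exp (-(s + Complex.I * v) * ln n)
          * (g s₀ * Complex.exp ((s - s₀ + Complex.I * v) * bb s₀)))) := by
      refine hd.mono' ?_ (Eventually.of_forall hbound)
      refine hint1.aestronglyMeasurable.sub ?_
      apply Continuous.aestronglyMeasurable
      have := gw_continuous κ a
      fun_prop
    have := hint1.sub hdiff
    refine this.congr (Eventually.of_forall fun v => ?_)
    simp
  rw [← integral_sub hint1 hint2, norm_mul, norm_pref]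
  calc 1 / (2 * Real.sqrt (Real.pi * κ)) * ‖∫ v : ℝ, (gw κ a v * (Complex.exp (-(s + Complex.I * v) * ln n) * g (s + Complex.I * v))
      - gw κ a v * (Complex.exp (-(s + Complex.I * v) * ln n)
          * (g s₀ * Complex.exp ((s - s₀ + Complex.I * v) * bb s₀))))‖
      ≤ 1 / (2 * Real.sqrt (Real.pi * κ)) * ∫ v : ℝ, (384 * ‖A‖ * Real.exp (a ^ 2 / (4 * κ)) * K ^ 2 / ‖s₀‖ * (1 / ((n : ℝ) + 1) ^ 2))
        * (Real.exp (-(1 / (4 * κ)) * v ^ 2) * Real.exp (7 * |v|)) := by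
        gcongr
        exact norm_integral_le_of_norm_le ((integrable_gauss_exp_abs κ hκ 7).const_mul _)
          (Eventually.of_forall hbound)
    _ = _ := by
        rw [integral_const_mul]
        unfold Ek
        ring

/-- crude bound for single terms -/
theorem T_crude (κ : ℝ) (hκ : 0 < κ) (n : ℕ) {s : ℂ} (hs : 2 ≤ s.re) (a : ℝ) :
    ‖T κ n (s - 1 / 2 + a)‖ ≤ Ek κ * ‖g s‖ * Real.exp (a ^ 2 / (4 * κ)) * (1 / ((n : ℝ) + 1) ^ 2) := by
  have hsqrt : 0 < Real.sqrt (Real.pi * κ) := Real.sqrt_pos.mpr (by positivity)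
  rw [T_eq κ hκ n s (by linarith) a, norm_mul, norm_pref]
  have hbound : ∀ v : ℝ, ‖gw κ a v * (Complex.exp (-(s + Complex.I * v) * ln n) * g (s + Complex.I * v))‖
      ≤ (384 * ‖g s‖ * Real.exp (a ^ 2 / (4 * κ)) * (1 / ((n : ℝ) + 1) ^ 2))
        * (Real.exp (-(1 / (4 * κ)) * v ^ 2) * Real.exp (7 * |v|)) := by
    intro v
    rw [norm_mul, norm_mul, norm_gw κ a v hκ]
    have h2 : ‖Complex.exp (-(s + Complex.I * v) * ln n)‖ ≤ 1 / ((n : ℝ) + 1) ^ 2 :=
      norm_exp_ln_le n (by simpa using hs)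
    have h1 := g_vert_le hs v
    have h3 : Real.exp (6 * |v|) ≤ 384 * Real.exp (7 * |v|) := by
      have h4 : Real.exp (6 * |v|) ≤ Real.exp (7 * |v|) := by
        apply Real.exp_le_exp.mpr; have := abs_nonneg v; linarith
      have := Real.exp_pos (7 * |v|)
      linarith
    calc Real.exp (a ^ 2 / (4 * κ)) * Real.exp (-(1 / (4 * κ)) * v ^ 2) *
          (‖Complex.exp (-(s + Complex.I * v) * ln n)‖ * ‖g (s + Complex.I * v)‖)
        ≤ Real.exp (a ^ 2 / (4 * κ)) * Real.exp (-(1 / (4 * κ)) * v ^ 2) *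
          ((1 / ((n : ℝ) + 1) ^ 2) * (‖g s‖ * (384 * Real.exp (7 * |v|)))) := by
          gcongr
          exact h1.trans (by gcongr)
      _ = _ := by ring
  calc _ ≤ 1 / (2 * Real.sqrt (Real.pi * κ)) * ∫ v : ℝ, (384 * ‖g s‖ * Real.exp (a ^ 2 / (4 * κ)) * (1 / ((n : ℝ) + 1) ^ 2))
        * (Real.exp (-(1 / (4 * κ)) * v ^ 2) * Real.exp (7 * |v|)) := by
        gcongr
        exact norm_integral_le_of_norm_le ((integrable_gauss_exp_abs κ hκ 7).const_mul _)
          (Eventually.of_forall hbound)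
    _ = _ := by
        rw [integral_const_mul]
        unfold Ek
        ring

lemma tsum_inv_sq_le : ∑' n : ℕ, 1 / ((n : ℝ) + 1) ^ 2 ≤ 2 := by
  have h := hasSum_zeta_two
  have h2 : ∑' n : ℕ, 1 / ((n : ℝ) + 1) ^ 2 = Real.pi ^ 2 / 6 := by
    have h3 := (h.summable).tsum_eq_zero_add
    rw [h.tsum_eq] at h3
    simp only [Nat.cast_zero, ne_eq, OfNat.ofNat_ne_zero, not_false_eq_true, zero_pow, div_zero, zero_add] at h3
    rw [h3]
    congr 1; ext n; push_cast; rfl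
  rw [h2]
  have := Real.pi_lt_d2
  have := Real.pi_pos
  nlinarith

/-- the `n`-th main term -/
noncomputable def mt (κ : ℝ) (b : ℂ) (a : ℝ) (s : ℂ) (n : ℕ) : ℂ :=
  Complex.exp (-s * ln n) * Complex.exp (-κ * (b - ln n - a / (2 * κ)) ^ 2)

lemma norm_mt (κ : ℝ) (b : ℂ) (a : ℝ) (s : ℂ) (n : ℕ) :
    ‖mt κ b a s n‖ = Real.exp (-s.re * ln n) * Real.exp (-κ * (b.re - ln n - a / (2 * κ)) ^ 2 + κ * b.im ^ 2) := by
  unfold mt
  rw [norm_mul, norm_exp_ln, Complex.norm_exp]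
  congr 2
  have e : (b - ln n - a / (2 * κ)) = ((b.re - ln n - a / (2 * κ) : ℝ) : ℂ) + (b.im : ℂ) * Complex.I := by
    conv_lhs => rw [← Complex.re_add_im b]
    push_cast; ring
  have e2 : -(κ : ℂ) * (b - ln n - a / (2 * κ)) ^ 2
      = ((-κ * (b.re - ln n - a / (2 * κ)) ^ 2 + κ * b.im ^ 2 : ℝ) : ℂ)
        + ((-2 * κ * (b.re - ln n - a / (2 * κ)) * b.im : ℝ) : ℂ) * Complex.I := by
    rw [e]
    push_cast
    ring_nf
    rw [Complex.I_sq]
    ring
  rw [e2, Complex.add_re, Complex.ofReal_re, Complex.re_ofReal_mul, Complex.I_re, mul_zero, add_zero]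

lemma summable_mt (κ : ℝ) (hκ : 0 < κ) (b : ℂ) (a : ℝ) {s : ℂ} (hs : 2 ≤ s.re) :
    Summable (fun n => mt κ b a s n) := by
  apply Summable.of_norm
  refine Summable.of_nonneg_of_le (fun n => norm_nonneg _) (fun n => ?_)
    (summable_inv_sq.mul_right (Real.exp (κ * b.im ^ 2)))
  rw [norm_mt, ← norm_exp_ln]
  gcongr
  · exact norm_exp_ln_le n hs
  · have : 0 ≤ κ * (b.re - ln n - a / (2 * κ)) ^ 2 := by positivity
    linarith

/-- (★D') the master approximation -/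
theorem F_approx (κ : ℝ) (hκ : 0 < κ) {s₀ s : ℂ} {K : ℝ} (hs₀ : 2 ≤ s₀.re) (hs : 2 ≤ s.re)
    (hK : 1 ≤ K) (hsK : ‖s - s₀‖ ≤ K) (hK2 : 64 * K ^ 2 ≤ ‖s₀‖) (a : ℝ) :
    ‖F κ (s - 1 / 2 + a) - g s₀ * Complex.exp ((s - s₀) * bb s₀) * Complex.exp ((a : ℂ) ^ 2 / (4 * κ))
        * ∑' n, mt κ (bb s₀) a s n‖
      ≤ 2 * Ek κ * ‖g s₀ * Complex.exp ((s - s₀) * bb s₀)‖ * Real.exp (a ^ 2 / (4 * κ)) * K ^ 2 / ‖s₀‖ := by
  have h1 := hasSum_T κ hκ (s - 1 / 2 + a)
  have h2 := (summable_mt κ hκ (bb s₀) a hs).hasSum.mul_left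
    (g s₀ * Complex.exp ((s - s₀) * bb s₀) * Complex.exp ((a : ℂ) ^ 2 / (4 * κ)))
  have h3 := h1.sub h2
  rw [← h3.tsum_eq]
  have hE := Ek_nonneg κ
  refine (tsum_of_norm_bounded ((summable_inv_sq.hasSum).mul_left (Ek κ * ‖g s₀ * Complex.exp ((s - s₀) * bb s₀)‖
    * Real.exp (a ^ 2 / (4 * κ)) * K ^ 2 / ‖s₀‖)) (fun n => ?_)).trans ?_
  · exact T_approx κ hκ n hs₀ hs hK hsK hK2 a
  · calc _ ≤ Ek κ * ‖g s₀ * Complex.exp ((s - s₀) * bb s₀)‖
        * Real.exp (a ^ 2 / (4 * κ)) * K ^ 2 / ‖s₀‖ * 2 := by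
          gcongr
          exact tsum_inv_sq_le
      _ = _ := by ring

theorem F_crude (κ : ℝ) (hκ : 0 < κ) {s : ℂ} (hs : 2 ≤ s.re) (a : ℝ) :
    ‖F κ (s - 1 / 2 + a)‖ ≤ 2 * Ek κ * ‖g s‖ * Real.exp (a ^ 2 / (4 * κ)) := by
  have h1 := hasSum_T κ hκ (s - 1 / 2 + a)
  rw [← h1.tsum_eq]
  have hE := Ek_nonneg κ
  refine (tsum_of_norm_bounded ((summable_inv_sq.hasSum).mul_left (Ek κ * ‖g s‖
    * Real.exp (a ^ 2 / (4 * κ)))) (fun n => T_crude κ hκ n hs a)).trans ?_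
  calc _ ≤ Ek κ * ‖g s‖ * Real.exp (a ^ 2 / (4 * κ)) * 2 := by
          gcongr
          exact tsum_inv_sq_le
    _ = _ := by ring

end Pool.Agent.XiDeform
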