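import Pool.Agent.Lib.MP_023270_nt.Master

/-! `F κ w ≠ 0` for `Re w ≥ κ log |w| + C`, `|w|` large. -/

open MeasureTheory Filter Topology Set

namespace Pool.Agent.XiDeform

lemma g_ne_zero {s : ℂ} (hs : 2 ≤ s.re) : g s ≠ 0 := by
  have hn2 := norm_ge_of_re hs
  have hs0 : s ≠ 0 := norm_pos_iff.mp (by linarith)
  have hs1 : s - 1 ≠ 0 := norm_pos_iff.mp (by have := norm_sub_one_ge hs; linarith)
  unfold g
  refine mul_ne_zero (mul_ne_zero ?_ (Complex.exp_ne_zero _)) ?_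
  · exact div_ne_zero (mul_ne_zero hs0 hs1) two_ne_zero
  · apply Complex.Gamma_ne_zero_of_re_pos
    have := re_half hs; linarith

lemma tsum_inv_sq_tail : ∑' n : ℕ, 1 / ((n : ℝ) + 2) ^ 2 ≤ 13 / 20 := by
  have h := hasSum_zeta_two
  have h3 := (h.summable).tsum_eq_zero_add
  rw [h.tsum_eq] at h3
  have hs1 : Summable (fun n : ℕ => 1 / (((n + 1 : ℕ) : ℝ)) ^ 2) := (summable_nat_add_iff 1).mpr h.summable
  have h4 := hs1.tsum_eq_zero_add
  simp only [Nat.cast_zero, ne_eq, OfNat.ofNat_ne_zero, not_false_eq_true, zero_pow, div_zero, zero_add] at h3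
  rw [h4] at h3
  simp only [zero_add, Nat.cast_one, one_pow, div_one] at h3
  have h5 : ∑' n : ℕ, 1 / ((n : ℝ) + 2) ^ 2 = Real.pi ^ 2 / 6 - 1 := by
    rw [h3, add_sub_cancel_left]
    congr 1; ext n; push_cast; ring
  rw [h5]
  have h6 := Real.pi_lt_d4
  have h7 := Real.pi_pos
  nlinarith

lemma summable_inv_sq2 : Summable (fun n : ℕ => 1 / ((n : ℝ) + 2) ^ 2) := by
  have := (summable_nat_add_iff 2).mpr (Real.summable_one_div_nat_pow.mpr (by norm_num : 1 < 2))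
  refine this.congr fun n => ?_
  push_cast; rfl

/-- the first main term dominates. -/
lemma mt_sum_lower (κ : ℝ) (hκ : 0 < κ) (b : ℂ) (a : ℝ) {s : ℂ} (hs : 2 ≤ s.re) {q : ℝ}
    (hq : |b.re - a / (2 * κ)| ≤ q) (hc : 2 * κ * q + 2 ≤ s.re) :
    7 / 20 * Real.exp (-κ * q ^ 2) ≤ ‖∑' n, mt κ b a s n‖ := by
  have hsum := summable_mt κ hκ b a hs
  rw [hsum.tsum_eq_zero_add]
  have hq0 : 0 ≤ q := (abs_nonneg _).trans hq
  set m0 := ‖mt κ b a s 0‖ with hm0
  have hm0' : m0 = Real.exp (-κ * (b.re - a / (2 * κ)) ^ 2 + κ * b.im ^ 2) := by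
    rw [hm0, norm_mt]
    simp [ln]
  have hlow : Real.exp (-κ * q ^ 2) ≤ m0 := by
    rw [hm0']
    apply Real.exp_le_exp.mpr
    have h1 : (b.re - a / (2 * κ)) ^ 2 ≤ q ^ 2 := by
      rw [← sq_abs]; gcongr
    have h2 : 0 ≤ κ * b.im ^ 2 := by positivity
    nlinarith
  have hterm : ∀ n : ℕ, ‖mt κ b a s (n + 1)‖ ≤ m0 * (1 / ((n : ℝ) + 2) ^ 2) := by
    intro n
    rw [norm_mt, hm0']
    have hl : (1 : ℝ) / ((n : ℝ) + 2) ^ 2 = Real.exp (-2 * ln (n + 1)) := by
      have : ((n : ℝ) + 2) = Real.exp (ln (n + 1)) := by rw [exp_ln]; push_cast; ring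
      rw [this, ← Real.exp_nat_mul, one_div, ← Real.exp_neg]
      congr 1; push_cast; ring
    rw [hl, ← Real.exp_add, ← Real.exp_add]
    apply Real.exp_le_exp.mpr
    have hL := ln_nonneg (n + 1)
    set L := ln (n + 1)
    have h1 : 2 * κ * (b.re - a / (2 * κ)) * L ≤ 2 * κ * q * L := by
      have : b.re - a / (2 * κ) ≤ q := (le_abs_self _).trans hq
      gcongr
    have h2 : (2 * κ * q + 2) * L ≤ s.re * L := by gcongr
    have h3 : 0 ≤ κ * L ^ 2 := by positivity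
    have h4 : -κ * (b.re - L - a / (2 * κ)) ^ 2 = -κ * (b.re - a / (2 * κ)) ^ 2
        + 2 * κ * (b.re - a / (2 * κ)) * L - κ * L ^ 2 := by ring
    rw [h4]
    linarith
  have htail : ‖∑' n, mt κ b a s (n + 1)‖ ≤ m0 * (13 / 20) := by
    refine (tsum_of_norm_bounded (summable_inv_sq2.hasSum.mul_left m0) hterm).trans ?_
    have : 0 ≤ m0 := norm_nonneg _
    gcongr
    exact tsum_inv_sq_tail
  have h5 : m0 - ‖∑' n, mt κ b a s (n + 1)‖ ≤ ‖mt κ b a s 0 + ∑' n, mt κ b a s (n + 1)‖ := by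
    have := norm_sub_norm_le (mt κ b a s 0) (-∑' n, mt κ b a s (n + 1))
    rw [sub_neg_eq_add, norm_neg] at this
    exact this
  linarith

theorem F_ne_zero_of_re_large (κ : ℝ) (hκ : 0 < κ) :
    ∃ W₀ : ℝ, 128 ≤ W₀ ∧ ∀ w : ℂ, W₀ ≤ ‖w‖ → κ * Real.log ‖w‖ + (3 * κ + 2) ≤ w.re → F κ w ≠ 0 := by
  -- eventual inequalities
  have h1 : ∀ᶠ x : ℝ in atTop, κ * Real.log x + 1 / 2 ≤ x / 2 := by
    have h := Real.isLittleO_log_id_atTop.bound (c := 1 / (4 * κ)) (by positivity)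
    filter_upwards [h, eventually_ge_atTop (2 : ℝ)] with x hx hx2
    simp only [id, Real.norm_eq_abs] at hx
    rw [abs_of_pos (by linarith : (0:ℝ) < x)] at hx
    have h2 : Real.log x ≤ 1 / (4 * κ) * x := (le_abs_self _).trans hx
    have h3 : κ * Real.log x ≤ x / 4 := by
      calc κ * Real.log x ≤ κ * (1 / (4 * κ) * x) := by gcongr
        _ = x / 4 := by field_simp
    linarith
  obtain ⟨W₁, hW₁⟩ := eventually_atTop.mp h1
  set E := 2 * Ek κ / (7 / 20 * Real.exp (-κ * (3 / 2) ^ 2)) with hE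
  have hEk := Ek_nonneg κ
  have hE0 : 0 ≤ E := by positivity
  refine ⟨max (max W₁ 128) (2 * E + 2), le_trans (le_max_right _ _) (le_max_left _ _), fun w hw hre => ?_⟩
  have hw1 : W₁ ≤ ‖w‖ := (le_trans (le_max_left _ _) (le_max_left _ _)).trans hw
  have hw2 : 128 ≤ ‖w‖ := (le_trans (le_max_right _ _) (le_max_left _ _)).trans hw
  have hw3 : 2 * E + 2 ≤ ‖w‖ := (le_max_right _ _).trans hw
  have hlog := hW₁ _ hw1
  have hlog0 : 0 ≤ Real.log ‖w‖ := Real.log_nonneg (by linarith)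
  set ℓ := Real.log ‖w‖ with hℓ
  set a := κ * ℓ with ha
  set s : ℂ := w + 1 / 2 - a with hs
  have hws : w = s - 1 / 2 + a := by rw [hs]; ring
  have hsre : s.re = w.re + 1 / 2 - κ * ℓ := by
    rw [hs, ha]; simp
  have hsre2 : 3 * κ + 2 ≤ s.re := by rw [hsre]; linarith
  have hs2 : 2 ≤ s.re := by linarith
  have hdist : ‖s - w‖ ≤ ‖w‖ / 2 := by
    have : s - w = ((1 / 2 - a : ℝ) : ℂ) := by rw [hs]; push_cast; ring
    rw [this, Complex.norm_real, Real.norm_eq_abs, abs_le]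
    constructor
    · rw [ha]; linarith
    · have : 0 ≤ a := by positivity
      linarith
  have hsn1 : ‖w‖ / 2 ≤ ‖s‖ := by
    have := norm_sub_norm_le w (w - s)
    rw [sub_sub_cancel, norm_sub_rev w s] at this
    linarith
  have hsn2 : ‖s‖ ≤ 2 * ‖w‖ := by
    have := norm_add_le (s - w) w
    rw [sub_add_cancel] at this
    linarith
  have hs64 : 64 ≤ ‖s‖ := by linarith
  have hsn0 : 0 < ‖s‖ := by linarith
  have happ := F_approx κ hκ (s₀ := s) (s := s) (K := 1) hs2 hs2 le_rfl (by simp) (by linarith) a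
  rw [← hws] at happ
  simp only [sub_self, zero_mul, Complex.exp_zero, mul_one, one_pow] at happ
  -- the position of the saddle
  have hq : |(bb s).re - a / (2 * κ)| ≤ 3 / 2 := by
    have hbb := bb_re hs2 (by linarith)
    have hlog2 : |Real.log (‖s‖ / (2 * Real.pi)) - ℓ| ≤ 23 / 8 := by
      have e : Real.log (‖s‖ / (2 * Real.pi)) - ℓ = Real.log (‖s‖ / ‖w‖) - Real.log (2 * Real.pi) := by
        rw [Real.log_div hsn0.ne' (by positivity), Real.log_div hsn0.ne' (by linarith)]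
        ring
      rw [e]
      have hl1 : |Real.log (‖s‖ / ‖w‖)| ≤ Real.log 2 := by
        have hwpos : 0 < ‖w‖ := by linarith
        rw [abs_le]
        constructor
        · rw [← Real.log_inv]
          apply Real.log_le_log (by norm_num)
          rw [le_div_iff₀ hwpos]; linarith
        · apply Real.log_le_log (by positivity)
          rw [div_le_iff₀ hwpos]; linarith
      have hl2 : |Real.log (2 * Real.pi)| ≤ 2 := by
        have h2pi : 1 ≤ 2 * Real.pi := by have := Real.pi_gt_three; linarith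
        rw [abs_of_nonneg (Real.log_nonneg h2pi)]
        rw [Real.log_le_iff_le_exp (by positivity)]
        have h7 : 2 * Real.pi ≤ 7 := by have := Real.pi_lt_d2; linarith
        have h8 : (7 : ℝ) ≤ Real.exp 2 := by
          have h9 := Real.exp_one_gt_d9
          have h10 : Real.exp 2 = Real.exp 1 ^ 2 := by rw [← Real.exp_nat_mul]; norm_num
          rw [h10]; nlinarith
        linarith
      have hl3 := Real.log_two_lt_d9
      calc |Real.log (‖s‖ / ‖w‖) - Real.log (2 * Real.pi)|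
          ≤ |Real.log (‖s‖ / ‖w‖)| + |Real.log (2 * Real.pi)| := abs_sub _ _
        _ ≤ _ := by linarith
    have h8s : 8 / ‖s‖ ≤ 1 / 8 := by rw [div_le_iff₀ hsn0]; linarith
    have e2 : (bb s).re - a / (2 * κ) = ((2 * (bb s).re - Real.log (‖s‖ / (2 * Real.pi)))
        + (Real.log (‖s‖ / (2 * Real.pi)) - ℓ)) / 2 := by
      rw [ha]; field_simp; ring
    rw [e2, abs_div, abs_of_pos (by norm_num : (0:ℝ) < 2)]
    have := abs_add_le (2 * (bb s).re - Real.log (‖s‖ / (2 * Real.pi))) (Real.log (‖s‖ / (2 * Real.pi)) - ℓ)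
    linarith
  have hlow := mt_sum_lower κ hκ (bb s) a hs2 hq (by linarith)
  have hg : 0 < ‖g s‖ := norm_pos_iff.mpr (g_ne_zero hs2)
  have hexp : 0 < Real.exp (a ^ 2 / (4 * κ)) := Real.exp_pos _
  intro hzero
  rw [hzero, zero_sub, norm_neg, norm_mul, norm_mul] at happ
  have hnexp : ‖Complex.exp ((a : ℂ) ^ 2 / (4 * κ))‖ = Real.exp (a ^ 2 / (4 * κ)) := by
    have : ((a : ℂ) ^ 2 / (4 * κ)) = ((a ^ 2 / (4 * κ) : ℝ) : ℂ) := by push_cast; rfl
    rw [this, Complex.norm_exp, Complex.ofReal_re]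
  rw [hnexp] at happ
  have h7 : ‖g s‖ * Real.exp (a ^ 2 / (4 * κ)) * (7 / 20 * Real.exp (-κ * (3 / 2) ^ 2))
      ≤ ‖g s‖ * Real.exp (a ^ 2 / (4 * κ)) * (2 * Ek κ / ‖s‖) := by
    calc _ ≤ ‖g s‖ * Real.exp (a ^ 2 / (4 * κ)) * ‖∑' n, mt κ (bb s) a s n‖ := by gcongr
      _ ≤ _ := happ
      _ = _ := by ring
  have h8 : 7 / 20 * Real.exp (-κ * (3 / 2) ^ 2) ≤ 2 * Ek κ / ‖s‖ :=
    le_of_mul_le_mul_left h7 (by positivity)
  have hδ : 0 < 7 / 20 * Real.exp (-κ * (3 / 2) ^ 2) := by positivity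
  have h9 : ‖s‖ ≤ E := by
    rw [hE, le_div_iff₀ hδ]
    rw [le_div_iff₀ hsn0] at h8
    linarith
  linarith

end Pool.Agent.XiDeform
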