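import Pool.Agent.Lib.MP_023270_nt.Gauss

/-! `F κ w = ∑ T κ n w`, summability and holomorphy. -/

open MeasureTheory Filter Topology Set

namespace Pool.Agent.XiDeform

/-- `F κ w = ∫ Φ(t) e^{-κt²} e^{wt} dt`. -/
noncomputable def F (κ : ℝ) (w : ℂ) : ℂ :=
  ∫ t : ℝ, (Phi t : ℂ) * (Complex.exp (-κ * (t : ℂ) ^ 2) * Complex.exp (w * t))

lemma Xi_eq_F (κ : ℝ) (z : ℂ) : Xi (-κ) z = F κ (Complex.I * z) := by
  unfold Xi F
  congr 1
  ext t
  push_cast
  ring

lemma phiTerm_shift (n : ℕ) (t : ℝ) :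
    phiTerm n t = Real.exp (-(ln n) / 2) * phiTerm 0 (t + ln n) := by
  unfold phiTerm
  have hN : ((n : ℝ) + 1) = Real.exp (ln n) := (exp_ln n).symm
  rw [hN]
  simp only [Nat.cast_zero, zero_add, one_pow, mul_one]
  have e1 : Real.exp (2 * (t + ln n)) = Real.exp (ln n) ^ 2 * Real.exp (2 * t) := by
    rw [← Real.exp_nat_mul, ← Real.exp_add]; congr 1; push_cast; ring
  have e2 : Real.exp (9 * (t + ln n) / 2) = Real.exp (ln n / 2) * Real.exp (ln n) ^ 4 * Real.exp (9 * t / 2) := by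
    rw [← Real.exp_nat_mul, ← Real.exp_add, ← Real.exp_add]; congr 1; push_cast; ring
  have e3 : Real.exp (5 * (t + ln n) / 2) = Real.exp (ln n / 2) * Real.exp (ln n) ^ 2 * Real.exp (5 * t / 2) := by
    rw [← Real.exp_nat_mul, ← Real.exp_add, ← Real.exp_add]; congr 1; push_cast; ring
  rw [e1, e2, e3]
  have e4 : Real.exp (-(ln n) / 2) * Real.exp (ln n / 2) = 1 := by
    rw [← Real.exp_add]; simp [neg_div]
  have e5 : -Real.pi * Real.exp (ln n) ^ 2 * Real.exp (2 * t) = -Real.pi * (Real.exp (ln n) ^ 2 * Real.exp (2 * t)) := by ring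
  rw [e5]
  generalize Real.exp (-Real.pi * (Real.exp (ln n) ^ 2 * Real.exp (2 * t))) = E
  linear_combination (-(2 * ((2 * Real.pi ^ 2 * Real.exp (ln n) ^ 4 * Real.exp (9 * t / 2) -
    3 * Real.pi * Real.exp (ln n) ^ 2 * Real.exp (5 * t / 2)) * E))) * e4

lemma integrable_abs_phiTerm (n : ℕ) (σ : ℝ) (hσ : -(1/2) < σ) :
    Integrable (fun t : ℝ => |phiTerm n t| * Real.exp (σ * t)) := by
  have h := (integrable_phiTerm_mul_exp n ((σ : ℂ) + 1 / 2) (by simp; linarith)).norm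
  refine h.congr (Eventually.of_forall fun t => ?_)
  simp only [norm_mul, Complex.norm_real, Real.norm_eq_abs, Complex.norm_exp]
  congr 2
  simp

/-- `C0 = ∫ |phiTerm 0 u| e^{3u/2} du` -/
noncomputable def C0 : ℝ := ∫ u : ℝ, |phiTerm 0 u| * Real.exp (3 / 2 * u)

lemma C0_nonneg : 0 ≤ C0 := integral_nonneg fun u => by positivity

lemma integral_abs_phiTerm (n : ℕ) :
    ∫ t : ℝ, |phiTerm n t| * Real.exp (3 / 2 * t) = C0 / ((n : ℝ) + 1) ^ 2 := by
  have h := integral_add_right_eq_self (μ := volume)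
    (fun u : ℝ => |phiTerm 0 u| * Real.exp (3 / 2 * u)) (ln n)
  have h2 : ∀ t : ℝ, |phiTerm n t| * Real.exp (3 / 2 * t)
      = Real.exp (-(2 * ln n)) * (|phiTerm 0 (t + ln n)| * Real.exp (3 / 2 * (t + ln n))) := by
    intro t
    rw [phiTerm_shift, abs_mul, abs_of_pos (Real.exp_pos _)]
    have : Real.exp (-(2 * ln n)) * Real.exp (3 / 2 * (t + ln n))
        = Real.exp (-(ln n) / 2) * Real.exp (3 / 2 * t) := by
      rw [← Real.exp_add, ← Real.exp_add]; congr 1; ring
    calc _ = |phiTerm 0 (t + ln n)| * (Real.exp (-(ln n) / 2) * Real.exp (3 / 2 * t)) := by ring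
      _ = _ := by rw [← this]; ring
  simp_rw [h2]
  rw [integral_const_mul, h]
  have : Real.exp (-(2 * ln n)) = 1 / ((n : ℝ) + 1) ^ 2 := by
    rw [Real.exp_neg, show 2 * ln n = ((2 : ℕ) : ℝ) * ln n by push_cast; rfl, Real.exp_nat_mul, exp_ln]
    simp
  rw [this]
  unfold C0
  ring

lemma summable_inv_sq : Summable (fun n : ℕ => 1 / ((n : ℝ) + 1) ^ 2) := by
  have := (summable_nat_add_iff 1).mpr (Real.summable_one_div_nat_pow.mpr (by norm_num : 1 < 2))
  refine this.congr fun n => ?_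
  push_cast; rfl

/-- completing the square -/
lemma gauss_le (κ : ℝ) (hκ : 0 < κ) (B t : ℝ) :
    Real.exp (-κ * t ^ 2 + B * t) ≤ Real.exp ((B - 3 / 2) ^ 2 / (4 * κ)) * Real.exp (3 / 2 * t) := by
  rw [← Real.exp_add]
  apply Real.exp_le_exp.mpr
  have h : (B - 3 / 2) ^ 2 / (4 * κ) + 3 / 2 * t - (-κ * t ^ 2 + B * t)
      = (2 * κ * t - (B - 3 / 2)) ^ 2 / (4 * κ) := by
    field_simp; ring
  have h2 : 0 ≤ (2 * κ * t - (B - 3 / 2)) ^ 2 / (4 * κ) := by positivity
  linarith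

lemma norm_T_integrand (κ : ℝ) (n : ℕ) (w : ℂ) (t : ℝ) :
    ‖(phiTerm n t : ℂ) * (Complex.exp (-κ * (t : ℂ) ^ 2) * Complex.exp (w * t))‖
      = |phiTerm n t| * Real.exp (-κ * t ^ 2 + w.re * t) := by
  rw [norm_mul, norm_mul, Complex.norm_real, Real.norm_eq_abs, Complex.norm_exp, Complex.norm_exp,
    ← Real.exp_add]
  congr 2
  have : (-κ * (t : ℂ) ^ 2) = ((-κ * t ^ 2 : ℝ) : ℂ) := by push_cast; ring
  rw [this, Complex.ofReal_re, Complex.re_mul_ofReal]

lemma integrable_T_integrand (κ : ℝ) (hκ : 0 < κ) (n : ℕ) (w : ℂ) :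
    Integrable (fun t : ℝ => (phiTerm n t : ℂ) * (Complex.exp (-κ * (t : ℂ) ^ 2) * Complex.exp (w * t))) := by
  refine ((integrable_abs_phiTerm n (3/2) (by norm_num)).const_mul
    (Real.exp ((w.re - 3 / 2) ^ 2 / (4 * κ)))).mono' ?_ (Eventually.of_forall fun t => ?_)
  · apply Continuous.aestronglyMeasurable
    have := phiTerm_continuous n
    fun_prop
  · rw [norm_T_integrand]
    calc |phiTerm n t| * Real.exp (-κ * t ^ 2 + w.re * t)
        ≤ |phiTerm n t| * (Real.exp ((w.re - 3 / 2) ^ 2 / (4 * κ)) * Real.exp (3 / 2 * t)) := by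
          gcongr; exact gauss_le κ hκ _ _
      _ = _ := by ring

lemma integral_norm_T_le (κ : ℝ) (hκ : 0 < κ) (n : ℕ) (w : ℂ) :
    ∫ t : ℝ, ‖(phiTerm n t : ℂ) * (Complex.exp (-κ * (t : ℂ) ^ 2) * Complex.exp (w * t))‖
      ≤ Real.exp ((w.re - 3 / 2) ^ 2 / (4 * κ)) * (C0 / ((n : ℝ) + 1) ^ 2) := by
  rw [← integral_abs_phiTerm, ← integral_const_mul]
  refine integral_mono (integrable_T_integrand κ hκ n w).norm
    ((integrable_abs_phiTerm n (3/2) (by norm_num)).const_mul _) fun t => ?_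
  simp only
  rw [norm_T_integrand]
  calc |phiTerm n t| * Real.exp (-κ * t ^ 2 + w.re * t)
      ≤ |phiTerm n t| * (Real.exp ((w.re - 3 / 2) ^ 2 / (4 * κ)) * Real.exp (3 / 2 * t)) := by
        gcongr; exact gauss_le κ hκ _ _
    _ = _ := by ring

lemma norm_T_le (κ : ℝ) (hκ : 0 < κ) (n : ℕ) (w : ℂ) :
    ‖T κ n w‖ ≤ Real.exp ((w.re - 3 / 2) ^ 2 / (4 * κ)) * (C0 / ((n : ℝ) + 1) ^ 2) :=
  (norm_integral_le_integral_norm _).trans (integral_norm_T_le κ hκ n w)

lemma summable_T_bound (c : ℝ) : Summable (fun n : ℕ => c * (C0 / ((n : ℝ) + 1) ^ 2)) := by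
  have := (summable_inv_sq.mul_left (c * C0))
  refine this.congr fun n => ?_
  ring

theorem hasSum_T (κ : ℝ) (hκ : 0 < κ) (w : ℂ) : HasSum (fun n => T κ n w) (F κ w) := by
  have h := hasSum_integral_of_summable_integral_norm (μ := volume)
    (F := fun (n : ℕ) (t : ℝ) => (phiTerm n t : ℂ) * (Complex.exp (-κ * (t : ℂ) ^ 2) * Complex.exp (w * t)))
    (fun n => integrable_T_integrand κ hκ n w)
    (Summable.of_nonneg_of_le (fun n => integral_nonneg fun t => norm_nonneg _)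
      (fun n => integral_norm_T_le κ hκ n w) (summable_T_bound _))
  have e : (∫ t : ℝ, ∑' n : ℕ, (phiTerm n t : ℂ) * (Complex.exp (-κ * (t : ℂ) ^ 2) * Complex.exp (w * t)))
      = F κ w := by
    unfold F
    congr 1
    ext t
    rw [tsum_mul_right, Phi_eq_tsum, Complex.ofReal_tsum]
  rw [← e]
  exact h

theorem differentiable_T (κ : ℝ) (hκ : 0 < κ) (n : ℕ) : Differentiable ℂ (T κ n) := by
  intro w₀
  set C := Real.exp ((w₀.re + 2 - 3 / 2) ^ 2 / (4 * κ)) + Real.exp ((w₀.re - 2 - 3 / 2) ^ 2 / (4 * κ)) with hC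
  have hmeas : ∀ w : ℂ, AEStronglyMeasurable
      (fun t : ℝ => (phiTerm n t : ℂ) * (Complex.exp (-κ * (t : ℂ) ^ 2) * Complex.exp (w * t))) volume :=
    fun w => (integrable_T_integrand κ hκ n w).aestronglyMeasurable
  have h := (hasDerivAt_integral_of_dominated_loc_of_deriv_le (μ := volume) (𝕜 := ℂ)
    (s := Metric.ball w₀ 1) (x₀ := w₀)
    (F := fun (w : ℂ) (t : ℝ) => (phiTerm n t : ℂ) * (Complex.exp (-κ * (t : ℂ) ^ 2) * Complex.exp (w * t)))
    (F' := fun (w : ℂ) (t : ℝ) => (phiTerm n t : ℂ) * (Complex.exp (-κ * (t : ℂ) ^ 2) * (Complex.exp (w * t) * t)))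
    (bound := fun t => C * (|phiTerm n t| * Real.exp (3 / 2 * t)))
    (Metric.ball_mem_nhds w₀ one_pos) (Eventually.of_forall hmeas)
    (integrable_T_integrand κ hκ n w₀) ?_ ?_ ?_ ?_).2
  · exact h.differentiableAt
  · apply Continuous.aestronglyMeasurable
    have := phiTerm_continuous n
    fun_prop
  · refine Eventually.of_forall fun t w hw => ?_
    have e : (phiTerm n t : ℂ) * (Complex.exp (-κ * (t : ℂ) ^ 2) * (Complex.exp (w * t) * t))
        = ((phiTerm n t : ℂ) * (Complex.exp (-κ * (t : ℂ) ^ 2) * Complex.exp (w * t))) * t := by ring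
    rw [e, norm_mul, norm_T_integrand, Complex.norm_real, Real.norm_eq_abs]
    have hre : |w.re - w₀.re| ≤ 1 := by
      have := Complex.abs_re_le_norm (w - w₀)
      rw [Complex.sub_re] at this
      exact this.trans (le_of_lt (by simpa [dist_eq_norm] using hw))
    have ht : |t| ≤ Real.exp |t| := by
      have := Real.add_one_le_exp |t|; linarith
    have h1 : Real.exp (-κ * t ^ 2 + w.re * t) * |t|
        ≤ Real.exp (-κ * t ^ 2 + w₀.re * t + 2 * |t|) := by
      calc Real.exp (-κ * t ^ 2 + w.re * t) * |t|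
          ≤ Real.exp (-κ * t ^ 2 + (w₀.re * t + |t|)) * Real.exp |t| := by
            gcongr
            have : (w.re - w₀.re) * t ≤ |t| := by
              calc (w.re - w₀.re) * t ≤ |(w.re - w₀.re) * t| := le_abs_self _
                _ = |w.re - w₀.re| * |t| := abs_mul _ _
                _ ≤ 1 * |t| := by gcongr
                _ = |t| := one_mul _
            linarith
        _ = _ := by rw [← Real.exp_add]; congr 1; ring
    have h2 : Real.exp (-κ * t ^ 2 + w₀.re * t + 2 * |t|) ≤ C * Real.exp (3 / 2 * t) := by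
      have ha := gauss_le κ hκ (w₀.re + 2) t
      have hb := gauss_le κ hκ (w₀.re - 2) t
      rcases le_total 0 t with h0 | h0
      · rw [abs_of_nonneg h0, show -κ * t ^ 2 + w₀.re * t + 2 * t = -κ * t ^ 2 + (w₀.re + 2) * t by ring]
        refine ha.trans ?_
        gcongr
        rw [hC]
        have := Real.exp_pos ((w₀.re - 2 - 3 / 2) ^ 2 / (4 * κ))
        linarith
      · rw [abs_of_nonpos h0, show -κ * t ^ 2 + w₀.re * t + 2 * -t = -κ * t ^ 2 + (w₀.re - 2) * t by ring]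
        refine hb.trans ?_
        gcongr
        rw [hC]
        have := Real.exp_pos ((w₀.re + 2 - 3 / 2) ^ 2 / (4 * κ))
        linarith
    calc |phiTerm n t| * Real.exp (-κ * t ^ 2 + w.re * t) * |t|
        = |phiTerm n t| * (Real.exp (-κ * t ^ 2 + w.re * t) * |t|) := by ring
      _ ≤ |phiTerm n t| * (C * Real.exp (3 / 2 * t)) :=
          mul_le_mul_of_nonneg_left (h1.trans h2) (abs_nonneg _)
      _ = _ := by ring
  · exact (integrable_abs_phiTerm n (3/2) (by norm_num)).const_mul _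
  · refine Eventually.of_forall fun t w _ => ?_
    have h1 : HasDerivAt (fun w : ℂ => Complex.exp (w * t)) (Complex.exp (w * t) * (1 * t)) w :=
      ((hasDerivAt_id w).mul_const (t : ℂ)).cexp
    rw [one_mul] at h1
    exact (h1.const_mul _).const_mul _

theorem differentiable_F (κ : ℝ) (hκ : 0 < κ) : Differentiable ℂ (F κ) := by
  have hF : F κ = fun w => ∑' n, T κ n w := by
    ext w; exact (hasSum_T κ hκ w).tsum_eq.symm
  rw [hF]
  intro w₀
  set M := Real.exp ((|w₀.re| + 3) ^ 2 / (4 * κ)) with hM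
  have h := Complex.differentiableOn_tsum_of_summable_norm (F := fun n w => T κ n w)
    (U := Metric.ball w₀ 1) (u := fun n : ℕ => M * (C0 / ((n : ℝ) + 1) ^ 2)) (summable_T_bound _)
    (fun n => (differentiable_T κ hκ n).differentiableOn) Metric.isOpen_ball ?_
  · exact (h w₀ (Metric.mem_ball_self one_pos)).differentiableAt (Metric.ball_mem_nhds _ one_pos)
  · intro n w hw
    refine (norm_T_le κ hκ n w).trans ?_
    have hC := C0_nonneg
    gcongr ?_ * _
    rw [hM]
    apply Real.exp_le_exp.mpr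
    have hre : |w.re - w₀.re| ≤ 1 := by
      have := Complex.abs_re_le_norm (w - w₀)
      rw [Complex.sub_re] at this
      exact this.trans (le_of_lt (by simpa [dist_eq_norm] using hw))
    have : |w.re - 3 / 2| ≤ |w₀.re| + 3 := by
      calc |w.re - 3 / 2| = |(w.re - w₀.re) + w₀.re + (-(3 / 2))| := by ring_nf
        _ ≤ |w.re - w₀.re| + |w₀.re| + |-(3 / 2 : ℝ)| := abs_add_three _ _ _
        _ ≤ 1 + |w₀.re| + 3 / 2 := by
          gcongr
          rw [abs_neg, abs_of_pos (by norm_num)]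
        _ ≤ _ := by linarith
    gcongr ?_ / _
    rw [← sq_abs (w.re - 3 / 2)]
    gcongr

end Pool.Agent.XiDeform
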