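import Pool.Agent.Lib.MP_023270_nt.Defs
import Pool.Agent.Lib.MP_023270_nt.ExpInt

/-! The single terms of `Φ` and their Gaussian-weighted Laplace transforms. -/

open MeasureTheory Filter Topology Set

namespace Pool.Agent.XiDeform

/-- twice the `n`-th term of the series (index shifted by one). -/
noncomputable def phiTerm (n : ℕ) (t : ℝ) : ℝ :=
  2 * ((2 * Real.pi ^ 2 * ((n : ℝ) + 1) ^ 4 * Real.exp (9 * t / 2)
    - 3 * Real.pi * ((n : ℝ) + 1) ^ 2 * Real.exp (5 * t / 2))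
      * Real.exp (-Real.pi * ((n : ℝ) + 1) ^ 2 * Real.exp (2 * t)))

lemma Phi_eq_tsum (t : ℝ) : Phi t = ∑' n : ℕ, phiTerm n t := by
  unfold Phi phiTerm
  rw [tsum_mul_left]

/-- `log (n+1)` -/
noncomputable def ln (n : ℕ) : ℝ := Real.log ((n : ℝ) + 1)

lemma ln_nonneg (n : ℕ) : 0 ≤ ln n := Real.log_nonneg (by simp)

lemma exp_ln (n : ℕ) : Real.exp (ln n) = (n : ℝ) + 1 := Real.exp_log (by positivity)

/-- `g(s) = s(s-1)/2 · π^{-s/2} · Γ(s/2)` -/
noncomputable def g (s : ℂ) : ℂ :=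
  s * (s - 1) / 2 * Complex.exp (-(s / 2) * Real.log Real.pi) * Complex.Gamma (s / 2)

lemma phiTerm_continuous (n : ℕ) : Continuous (phiTerm n) := by
  unfold phiTerm; fun_prop

lemma phiTerm_mul_exp (n : ℕ) (s : ℂ) (t : ℝ) :
    (phiTerm n t : ℂ) * Complex.exp ((s - 1 / 2) * t)
      = 4 * Real.pi ^ 2 * ((n : ℂ) + 1) ^ 4 * (Complex.exp ((s + 4) * t)
          * Complex.exp (-(((Real.pi * ((n : ℝ) + 1) ^ 2) * Real.exp (2 * t) : ℝ) : ℂ)))
        - 6 * Real.pi * ((n : ℂ) + 1) ^ 2 * (Complex.exp ((s + 2) * t)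
          * Complex.exp (-(((Real.pi * ((n : ℝ) + 1) ^ 2) * Real.exp (2 * t) : ℝ) : ℂ))) := by
  have h4 : Complex.exp ((s + 4) * t) = Complex.exp (9 * t / 2) * Complex.exp ((s - 1 / 2) * t) := by
    rw [← Complex.exp_add]; congr 1; ring
  have h2 : Complex.exp ((s + 2) * t) = Complex.exp (5 * t / 2) * Complex.exp ((s - 1 / 2) * t) := by
    rw [← Complex.exp_add]; congr 1; ring
  rw [h4, h2]
  unfold phiTerm
  push_cast
  rw [show -(Real.pi : ℂ) * ((n : ℂ) + 1) ^ 2 * Complex.exp (2 * t)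
    = -((Real.pi : ℂ) * ((n : ℂ) + 1) ^ 2 * Complex.exp (2 * t)) by ring]
  ring

lemma integrable_phiTerm_mul_exp (n : ℕ) (s : ℂ) (hs : 0 < s.re) :
    Integrable (fun t : ℝ => (phiTerm n t : ℂ) * Complex.exp ((s - 1 / 2) * t)) := by
  have hA : 0 < Real.pi * ((n : ℝ) + 1) ^ 2 := by positivity
  simp_rw [phiTerm_mul_exp]
  refine Integrable.sub ((integrable_exp_mul_exp_neg (s + 4) (by simp; linarith) _ hA).const_mul _)
    ((integrable_exp_mul_exp_neg (s + 2) (by simp; linarith) _ hA).const_mul _)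

lemma integral_phiTerm_mul_exp (n : ℕ) (s : ℂ) (hs : 0 < s.re) :
    ∫ t : ℝ, (phiTerm n t : ℂ) * Complex.exp ((s - 1 / 2) * t)
      = Complex.exp (-s * ln n) * g s := by
  have hA : 0 < Real.pi * ((n : ℝ) + 1) ^ 2 := by positivity
  simp_rw [phiTerm_mul_exp]
  rw [integral_sub ((integrable_exp_mul_exp_neg (s + 4) (by simp; linarith) _ hA).const_mul _)
    ((integrable_exp_mul_exp_neg (s + 2) (by simp; linarith) _ hA).const_mul _),
    integral_const_mul, integral_const_mul,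
    integral_exp_mul_exp_neg _ (by simp; linarith) _ hA,
    integral_exp_mul_exp_neg _ (by simp; linarith) _ hA]
  have hs0 : s ≠ 0 := by rintro rfl; simp at hs
  have hG1 : Complex.Gamma ((s + 2) / 2) = s / 2 * Complex.Gamma (s / 2) := by
    rw [show (s + 2) / 2 = s / 2 + 1 by ring, Complex.Gamma_add_one _ (by simpa using hs0)]
  have hG2 : Complex.Gamma ((s + 4) / 2) = (s / 2 + 1) * (s / 2 * Complex.Gamma (s / 2)) := by
    rw [show (s + 4) / 2 = (s / 2 + 1) + 1 by ring, Complex.Gamma_add_one, Complex.Gamma_add_one _ (by simpa using hs0)]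
    intro h
    have := congrArg Complex.re h
    simp at this
    linarith
  rw [hG1, hG2]
  -- the power
  have hpow : ∀ b : ℂ, (1 / (((Real.pi * ((n : ℝ) + 1) ^ 2 : ℝ)) : ℂ)) ^ b
      = Complex.exp (-b * Real.log Real.pi) * Complex.exp (-(2 * b) * ln n) := by
    intro b
    have hpos : (0 : ℝ) < 1 / (Real.pi * ((n : ℝ) + 1) ^ 2) := by positivity
    rw [show (1 / (((Real.pi * ((n : ℝ) + 1) ^ 2 : ℝ)) : ℂ)) = ((1 / (Real.pi * ((n : ℝ) + 1) ^ 2) : ℝ) : ℂ) by
      push_cast; rfl]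
    rw [Complex.cpow_def_of_ne_zero (by exact_mod_cast hpos.ne'), ← Complex.ofReal_log hpos.le,
      ← Complex.exp_add]
    congr 1
    rw [Real.log_div one_ne_zero (by positivity), Real.log_one, Real.log_mul Real.pi_ne_zero (by positivity),
      Real.log_pow]
    unfold ln
    push_cast
    ring
  rw [hpow, hpow]
  have hN : ∀ k : ℕ, Complex.exp (-(k : ℂ) * ln n) * ((n : ℂ) + 1) ^ k = 1 := by
    intro k
    have : ((n : ℂ) + 1) = Complex.exp (ln n) := by
      rw [← Complex.ofReal_exp, exp_ln]; push_cast; rfl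
    rw [this, ← Complex.exp_nat_mul, ← Complex.exp_add]
    simp
  have hpi : ∀ k : ℕ, Complex.exp (-(k : ℂ) * Real.log Real.pi) * (Real.pi : ℂ) ^ k = 1 := by
    intro k
    have : (Real.pi : ℂ) = Complex.exp (Real.log Real.pi) := by
      rw [← Complex.ofReal_exp, Real.exp_log Real.pi_pos]
    conv_lhs => rw [this]
    rw [← Complex.exp_nat_mul, ← Complex.exp_add]
    simp
  have e4 : Complex.exp (-((s + 4) / 2) * Real.log Real.pi) * Complex.exp (-(2 * ((s + 4) / 2)) * ln n)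
      = (Complex.exp (-(s / 2) * Real.log Real.pi) * Complex.exp (-s * ln n))
        * (Complex.exp (-((2 : ℕ) : ℂ) * Real.log Real.pi) * Complex.exp (-((4 : ℕ) : ℂ) * ln n)) := by
    rw [← Complex.exp_add, ← Complex.exp_add, ← Complex.exp_add, ← Complex.exp_add]
    congr 1; push_cast; ring
  have e2 : Complex.exp (-((s + 2) / 2) * Real.log Real.pi) * Complex.exp (-(2 * ((s + 2) / 2)) * ln n)
      = (Complex.exp (-(s / 2) * Real.log Real.pi) * Complex.exp (-s * ln n))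
        * (Complex.exp (-((1 : ℕ) : ℂ) * Real.log Real.pi) * Complex.exp (-((2 : ℕ) : ℂ) * ln n)) := by
    rw [← Complex.exp_add, ← Complex.exp_add, ← Complex.exp_add, ← Complex.exp_add]
    congr 1; push_cast; ring
  rw [e4, e2]
  have hN4 := hN 4
  have hN2 := hN 2
  have hp2 := hpi 2
  have hp1 := hpi 1
  unfold g
  have f4 : 4 * (Real.pi : ℂ) ^ 2 * ((n : ℂ) + 1) ^ 4 * (1 / 2 * ((Complex.exp (-(s / 2) * Real.log Real.pi) * Complex.exp (-s * ln n))
        * (Complex.exp (-((2 : ℕ) : ℂ) * Real.log Real.pi) * Complex.exp (-((4 : ℕ) : ℂ) * ln n)) * ((s / 2 + 1) * (s / 2 * Complex.Gamma (s / 2)))))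
      = 2 * (Complex.exp (-((2 : ℕ) : ℂ) * Real.log Real.pi) * (Real.pi : ℂ) ^ 2)
        * (Complex.exp (-((4 : ℕ) : ℂ) * ln n) * ((n : ℂ) + 1) ^ 4)
        * (Complex.exp (-(s / 2) * Real.log Real.pi) * Complex.exp (-s * ln n)) * ((s / 2 + 1) * (s / 2 * Complex.Gamma (s / 2))) := by ring
  have f2 : 6 * (Real.pi : ℂ) * ((n : ℂ) + 1) ^ 2 * (1 / 2 * ((Complex.exp (-(s / 2) * Real.log Real.pi) * Complex.exp (-s * ln n))
        * (Complex.exp (-((1 : ℕ) : ℂ) * Real.log Real.pi) * Complex.exp (-((2 : ℕ) : ℂ) * ln n)) * (s / 2 * Complex.Gamma (s / 2))))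
      = 3 * (Complex.exp (-((1 : ℕ) : ℂ) * Real.log Real.pi) * (Real.pi : ℂ) ^ 1)
        * (Complex.exp (-((2 : ℕ) : ℂ) * ln n) * ((n : ℂ) + 1) ^ 2)
        * (Complex.exp (-(s / 2) * Real.log Real.pi) * Complex.exp (-s * ln n)) * (s / 2 * Complex.Gamma (s / 2)) := by ring
  rw [f4, f2, hN4, hN2, hp2, hp1]
  ring

end Pool.Agent.XiDeform
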